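import Pool.Agent.Lib.MP_c9b009_ag.PS.Spec

/-!
# MP_c9b009_ag, row PS, module JST: the Jacobian ideal of a stable ideal is stable
-/

set_option autoImplicit false

namespace Pool.Agent.Lib.MPc9b009.PS

open MvPolynomial Pool.Agent.Lib.MPc9b009.B5

namespace JSTM

theorem der_prod {S R : Type*} [CommRing S] [CommRing R] [Algebra S R] (D : Derivation S R R)
    {ι : Type*} [DecidableEq ι] (s : Finset ι) (f : ι → R) :
    D (∏ i ∈ s, f i) = ∑ i ∈ s, D (f i) * ∏ j ∈ s.erase i, f j := by
  induction s using Finset.induction_on with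
  | empty => simp
  | insert a s ha ih =>
    rw [Finset.prod_insert ha, D.leibniz, ih, Finset.sum_insert ha, Finset.erase_insert ha,
      smul_eq_mul, smul_eq_mul, Finset.mul_sum, add_comm]
    congr 1
    · ring
    · refine Finset.sum_congr rfl fun i hi => ?_
      have hai : a ≠ i := fun h => ha (h ▸ hi)
      rw [Finset.erase_insert_of_ne hai, Finset.prod_insert (fun h => ha (Finset.mem_of_mem_erase h))]
      ring

/-- Jacobi's formula -/
theorem der_det {S R : Type*} [CommRing S] [CommRing R] [Algebra S R] (D : Derivation S R R)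
    {n : Type*} [Fintype n] [DecidableEq n] (B : Matrix n n R) :
    D B.det = ∑ i, ∑ k, B.adjugate i k * D (B k i) := by
  have h1 : D B.det = ∑ i, (B.updateCol i (fun k => D (B k i))).det := by
    simp only [Matrix.det_apply']
    rw [map_sum, Finset.sum_comm]
    refine Finset.sum_congr rfl fun σ _ => ?_
    rw [← zsmul_eq_mul, map_zsmul, der_prod, zsmul_eq_mul, Finset.mul_sum]
    refine Finset.sum_congr rfl fun i _ => ?_
    congr 1
    rw [← Finset.mul_prod_erase Finset.univ _ (Finset.mem_univ i), Matrix.updateCol_self]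
    congr 1
    refine Finset.prod_congr rfl fun j hj => ?_
    rw [Matrix.updateCol_ne (Finset.ne_of_mem_erase hj)]
  rw [h1]
  refine Finset.sum_congr rfl fun i _ => ?_
  rw [← Matrix.cramer_apply, Matrix.cramer_eq_adjugate_mulVec]
  rfl

/-- columns: `∑_k adj_ik w_k = det (column i replaced by w)` -/
theorem adj_col {R : Type*} [CommRing R] {n : Type*} [Fintype n] [DecidableEq n]
    (B : Matrix n n R) (i : n) (w : n → R) :
    ∑ k, B.adjugate i k * w k = (B.updateCol i w).det := by
  rw [← Matrix.cramer_apply, Matrix.cramer_eq_adjugate_mulVec]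
  rfl

/-- rows: `∑_i adj_ik v_i = det (row k replaced by v)` -/
theorem adj_row {R : Type*} [CommRing R] {n : Type*} [Fintype n] [DecidableEq n]
    (B : Matrix n n R) (k : n) (v : n → R) :
    ∑ i, B.adjugate i k * v i = (B.updateRow k v).det := by
  rw [← Matrix.det_transpose, ← Matrix.updateCol_transpose, ← adj_col, ← Matrix.adjugate_transpose]
  rfl

/-- partial derivatives commute -/
theorem pderiv_comm {N : ℕ} (i j : Fin N) (z : MvPolynomial (Fin N) ℂ) :
    pderiv i (pderiv j z) = pderiv j (pderiv i z) := by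
  have h : (⁅(pderiv i : Derivation ℂ (MvPolynomial (Fin N) ℂ) (MvPolynomial (Fin N) ℂ)),
      pderiv j⁆ : Derivation ℂ (MvPolynomial (Fin N) ℂ) (MvPolynomial (Fin N) ℂ)) = 0 := by
    apply MvPolynomial.derivation_ext
    intro k
    rw [Derivation.commutator_apply, pderiv_X, pderiv_X]
    rw [Pi.single_apply, Pi.single_apply]
    split_ifs <;> simp
  have h2 := DFunLike.congr_fun h z
  rw [Derivation.commutator_apply] at h2
  simpa [sub_eq_zero] using h2

/-- the derivation `∑_i c_i ∂_i` -/
noncomputable def dd {N : ℕ} (c : Fin N → MvPolynomial (Fin N) ℂ) :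
    Derivation ℂ (MvPolynomial (Fin N) ℂ) (MvPolynomial (Fin N) ℂ) := ∑ i, c i • pderiv i

theorem dd_apply {N : ℕ} (c : Fin N → MvPolynomial (Fin N) ℂ) (z : MvPolynomial (Fin N) ℂ) :
    dd c z = ∑ i, c i * pderiv i z := by
  unfold dd
  rw [← Derivation.coeFnAddMonoidHom_apply, map_sum, Finset.sum_apply]
  rfl

theorem dd_pderiv {N : ℕ} (c : Fin N → MvPolynomial (Fin N) ℂ) (l : Fin N)
    (z : MvPolynomial (Fin N) ℂ) :
    dd c (pderiv l z) = pderiv l (dd c z) - ∑ i, pderiv l (c i) * pderiv i z := by
  rw [dd_apply, dd_apply, map_sum, ← Finset.sum_sub_distrib]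
  refine Finset.sum_congr rfl fun i _ => ?_
  rw [Derivation.leibniz, smul_eq_mul, smul_eq_mul, pderiv_comm i l]
  ring

/-- the derivative of a Jacobian minor -/
theorem dd_minor {N m : ℕ} (c : Fin N → MvPolynomial (Fin N) ℂ)
    (F : Fin m → MvPolynomial (Fin N) ℂ) (J : Fin m → Fin N)
    (B : Matrix (Fin m) (Fin m) (MvPolynomial (Fin N) ℂ))
    (hB : ∀ a b, B a b = pderiv (J b) (F a)) :
    dd c B.det
      = ∑ k, (Matrix.of fun a b => pderiv (J b) (Function.update F k (dd c (F k)) a)).det
        - ∑ i, ∑ l, pderiv (J i) (c l) *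
          (Matrix.of fun a b => pderiv (Function.update J i l b) (F a)).det := by
  have hrow : ∀ k, (Matrix.of fun a b => pderiv (J b) (Function.update F k (dd c (F k)) a)).det
      = ∑ i, B.adjugate i k * pderiv (J i) (dd c (F k)) := by
    intro k
    rw [adj_row]
    congr 1
    ext1 a b
    by_cases h : a = k
    · subst h
      rw [Matrix.updateRow_self, Matrix.of_apply, Function.update_self]
    · rw [Matrix.updateRow_ne h, Matrix.of_apply, Function.update_of_ne h, hB]
  have hcol : ∀ i l, (Matrix.of fun a b => pderiv (Function.update J i l b) (F a)).det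
      = ∑ k, B.adjugate i k * pderiv l (F k) := by
    intro i l
    rw [adj_col]
    congr 1
    ext1 a b
    by_cases h : b = i
    · subst h
      rw [Matrix.updateCol_self, Matrix.of_apply, Function.update_self]
    · rw [Matrix.updateCol_ne h, Matrix.of_apply, Function.update_of_ne h, hB]
  rw [der_det]
  have e : ∀ i k, B.adjugate i k * dd c (B k i) = B.adjugate i k * pderiv (J i) (dd c (F k))
      - ∑ l, pderiv (J i) (c l) * (B.adjugate i k * pderiv l (F k)) := by
    intro i k
    rw [hB, dd_pderiv, mul_sub, Finset.mul_sum]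
    congr 1
    refine Finset.sum_congr rfl fun l _ => ?_
    ring
  have e1 : ∑ k, (Matrix.of fun a b => pderiv (J b) (Function.update F k (dd c (F k)) a)).det
      = ∑ i, ∑ k, B.adjugate i k * pderiv (J i) (dd c (F k)) := by
    rw [Finset.sum_comm]
    exact Finset.sum_congr rfl fun k _ => hrow k
  have e2 : ∑ i, ∑ l, pderiv (J i) (c l) *
        (Matrix.of fun a b => pderiv (Function.update J i l b) (F a)).det
      = ∑ i, ∑ k, ∑ l, pderiv (J i) (c l) * (B.adjugate i k * pderiv l (F k)) := by
    refine Finset.sum_congr rfl fun i _ => ?_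
    rw [Finset.sum_comm]
    refine Finset.sum_congr rfl fun l _ => ?_
    rw [hcol, Finset.mul_sum]
  rw [e1, e2, ← Finset.sum_sub_distrib]
  refine Finset.sum_congr rfl fun i _ => ?_
  rw [← Finset.sum_sub_distrib]
  exact Finset.sum_congr rfl fun k _ => e i k

end JSTM

theorem specJST : SpecJST := by
  intro N m g p hp z hz j
  set S : Set (MvPolynomial (Fin N) ℂ) := {z | ∃ (F : Fin m → MvPolynomial (Fin N) ℂ)
    (J : Fin m → Fin N), (∀ a, F a ∈ p) ∧
      z = (Matrix.of fun a b => pderiv (J b) (F a)).det} with hS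
  have hle : Ideal.span S ≤ p ⊔ Ideal.span S := le_sup_right
  have hD : ∀ z, JSTM.dd (fun i => g.f i j) z = ∑ i, g.f i j * pderiv i z := JSTM.dd_apply _
  have hpD : ∀ z ∈ p, JSTM.dd (fun i => g.f i j) z ∈ p := fun z hz => by
    rw [hD]; exact hp z hz j
  have hgen : ∀ z ∈ S, JSTM.dd (fun i => g.f i j) z ∈ Ideal.span S := by
    rintro z ⟨F, J, hF, rfl⟩
    rw [JSTM.dd_minor _ F J (Matrix.of fun a b => pderiv (J b) (F a)) (fun a b => Matrix.of_apply _ _ _)]
    refine Ideal.sub_mem _ (Ideal.sum_mem _ fun k _ => ?_)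
      (Ideal.sum_mem _ fun i _ => Ideal.sum_mem _ fun l _ => Ideal.mul_mem_left _ _ ?_)
    · refine Ideal.subset_span ⟨_, J, fun a => ?_, rfl⟩
      by_cases h : a = k
      · subst h
        rw [Function.update_self]
        exact hpD _ (hF a)
      · rw [Function.update_of_ne h]
        exact hF a
    · exact Ideal.subset_span ⟨F, _, hF, rfl⟩
  have hspan : ∀ z ∈ Ideal.span S, JSTM.dd (fun i => g.f i j) z ∈ Ideal.span S := by
    intro z hz
    refine Submodule.span_induction (p := fun z _ => JSTM.dd (fun i => g.f i j) z ∈ Ideal.span S)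
      hgen ?_ ?_ ?_ hz
    · rw [map_zero]; exact Ideal.zero_mem _
    · intro a b _ _ ha hb
      rw [map_add]; exact Ideal.add_mem _ ha hb
    · intro a b hb hb'
      rw [smul_eq_mul, Derivation.leibniz, smul_eq_mul, smul_eq_mul]
      exact Ideal.add_mem _ (Ideal.mul_mem_left _ _ hb') (Ideal.mul_mem_right _ _ hb)
  obtain ⟨u, hu, v, hv, rfl⟩ := Submodule.mem_sup.1 hz
  rw [← hD, map_add]
  exact Ideal.add_mem _ (Ideal.mem_sup_left (hpD u hu)) (Ideal.mem_sup_right (hspan v hv))

end Pool.Agent.Lib.MPc9b009.PS
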