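import Pool.Agent.Lib.MP_c9b009_ag.PS.Spec
import Mathlib.Analysis.ODE.Gronwall

/-!
# MP_c9b009_ag, row PS, module PVA: the stable ideal vanishes on the graph
-/

set_option autoImplicit false

namespace Pool.Agent.Lib.MPc9b009.PS

open MvPolynomial Pool.Agent.Lib.MPc9b009.B5 Pool.Agent.Lib.MPc9b009.OD MeasureTheory Filter Topology

namespace PVAM

variable {N : ℕ}

/-- the differential -/
noncomputable def dd (z : MvPolynomial (Fin N) ℂ) (x v : Cn N) : ℂ :=
  ∑ j, eval x (pderiv j z) * v j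

theorem dd_sum {ι : Type*} (s : Finset ι) (c : ι → ℂ) (v : ι → Cn N)
    (z : MvPolynomial (Fin N) ℂ) (x : Cn N) :
    dd z x (∑ b ∈ s, c b • v b) = ∑ b ∈ s, c b * dd z x (v b) := by
  unfold dd
  simp only [Finset.sum_apply, Pi.smul_apply, smul_eq_mul, Finset.mul_sum]
  rw [Finset.sum_comm]
  refine Finset.sum_congr rfl fun b _ => Finset.sum_congr rfl fun j _ => ?_
  ring

theorem dd_sub (z : MvPolynomial (Fin N) ℂ) (x v v' : Cn N) :
    dd z x (v - v') = dd z x v - dd z x v' := by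
  unfold dd
  rw [← Finset.sum_sub_distrib]
  refine Finset.sum_congr rfl fun j _ => ?_
  rw [Pi.sub_apply]
  ring

/-- the differential as a continuous linear map -/
noncomputable def DD (z : MvPolynomial (Fin N) ℂ) (x : Cn N) : Cn N →L[ℂ] ℂ :=
  LinearMap.toContinuousLinearMap
    { toFun := fun v => dd z x v
      map_add' := by
        intro v v'
        unfold dd
        rw [← Finset.sum_add_distrib]
        refine Finset.sum_congr rfl fun j _ => ?_
        rw [Pi.add_apply]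
        ring
      map_smul' := by
        intro c v
        show dd z x (c • v) = c * dd z x v
        unfold dd
        rw [Finset.mul_sum]
        refine Finset.sum_congr rfl fun j _ => ?_
        rw [Pi.smul_apply, smul_eq_mul]
        ring }

theorem DD_apply (z : MvPolynomial (Fin N) ℂ) (x v : Cn N) : DD z x v = dd z x v := rfl

theorem hasF (z : MvPolynomial (Fin N) ℂ) (x : Cn N) :
    HasFDerivAt (fun x : Cn N => eval x z) (DD z x) x := by
  induction z using MvPolynomial.induction_on with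
  | C a =>
    have h : (fun x : Cn N => eval x (C a : MvPolynomial (Fin N) ℂ)) = fun _ => a := by
      funext x
      simp
    rw [h]
    refine (hasFDerivAt_const a x).congr_fderiv ?_
    ext v
    rw [DD_apply]
    unfold dd
    rw [Finset.sum_eq_zero]
    · rfl
    · intro j _
      rw [pderiv_C, map_zero, zero_mul]
  | add p q hp hq =>
    have h := hp.add hq
    have e1 : (fun x : Cn N => eval x (p + q)) = (fun x : Cn N => eval x p) + fun x => eval x q := by
      funext x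
      simp
    rw [e1]
    refine h.congr_fderiv ?_
    ext v
    show DD p x v + DD q x v = DD (p + q) x v
    rw [DD_apply, DD_apply, DD_apply]
    unfold dd
    rw [← Finset.sum_add_distrib]
    refine Finset.sum_congr rfl fun j _ => ?_
    rw [map_add, map_add]
    ring
  | mul_X p n hp =>
    have h1 : HasFDerivAt (fun x : Cn N => x n) (ContinuousLinearMap.proj n : Cn N →L[ℂ] ℂ) x :=
      (ContinuousLinearMap.proj n : Cn N →L[ℂ] ℂ).hasFDerivAt
    have h := hp.mul h1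
    have e1 : (fun x : Cn N => eval x (p * X n)) = (fun x : Cn N => eval x p) * fun x => x n := by
      funext x
      simp
    rw [e1]
    refine h.congr_fderiv ?_
    have e2 : ∀ j, eval x (pderiv j (p * X n)) =
        (if j = n then eval x p else 0) + x n * eval x (pderiv j p) := by
      intro j
      rw [Derivation.leibniz, pderiv_X]
      by_cases hj : j = n
      · subst hj
        simp
      · simp [hj]
    ext v
    show eval x p * v n + x n * DD p x v = DD (p * X n) x v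
    rw [DD_apply, DD_apply]
    unfold dd
    simp only [e2, add_mul, Finset.sum_add_distrib]
    congr 1
    · rw [Finset.sum_eq_single n]
      · simp
      · intro b _ hb
        simp [hb]
      · intro h0
        exact absurd (Finset.mem_univ n) h0
    · rw [Finset.mul_sum]
      refine Finset.sum_congr rfl fun j _ => ?_
      ring

/-- a common local bound -/
theorem ev_le {ι : Type*} [Fintype ι] (x₀ : Cn N) (f : ι → Cn N → ℂ)
    (hf : ∀ i, ContinuousAt (f i) x₀) :
    ∃ M : ℝ, 0 ≤ M ∧ ∀ᶠ x in 𝓝 x₀, ∀ i, ‖f i x‖ ≤ M := by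
  have h1 : ContinuousAt (fun x => fun i => f i x) x₀ := continuousAt_pi.2 hf
  have h2 : ContinuousAt (fun x => ‖fun i => f i x‖) x₀ := h1.norm
  refine ⟨‖fun i => f i x₀‖ + 1, by positivity, ?_⟩
  have h3 : ∀ᶠ x in 𝓝 x₀, ‖fun i => f i x‖ < ‖fun i => f i x₀‖ + 1 :=
    h2.eventually_lt continuousAt_const (by simp)
  filter_upwards [h3] with x hx i
  exact (norm_le_pi_norm (fun i => f i x) i).trans hx.le

/-- the values of the generators -/
noncomputable def ww (s : Finset (MvPolynomial (Fin N) ℂ)) (x : Cn N) : s → ℂ :=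
  fun i => eval x i.1

theorem mem_bound (s : Finset (MvPolynomial (Fin N) ℂ)) (x₀ : Cn N) (z : MvPolynomial (Fin N) ℂ)
    (hz : z ∈ Ideal.span (s : Set (MvPolynomial (Fin N) ℂ))) :
    ∃ M : ℝ, 0 ≤ M ∧ ∀ᶠ x in 𝓝 x₀, ‖eval x z‖ ≤ M * ‖ww s x‖ := by
  obtain ⟨f, _, hf⟩ := Submodule.mem_span_finset.1 hz
  obtain ⟨M, hM, h1⟩ := ev_le x₀ (fun (i : s) x => eval x (f i.1))
    (fun i => (MvPolynomial.continuous_eval _).continuousAt)
  refine ⟨s.card * M, by positivity, ?_⟩
  filter_upwards [h1] with x hx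
  rw [← hf, map_sum]
  calc ‖∑ a ∈ s, eval x (f a • a)‖ ≤ ∑ a ∈ s, ‖eval x (f a • a)‖ := norm_sum_le _ _
    _ ≤ ∑ a ∈ s, M * ‖ww s x‖ := by
        refine Finset.sum_le_sum fun a ha => ?_
        rw [smul_eq_mul, map_mul, norm_mul]
        have h2 : ‖eval x a‖ ≤ ‖ww s x‖ := norm_le_pi_norm (ww s x) ⟨a, ha⟩
        exact mul_le_mul (hx ⟨a, ha⟩) h2 (norm_nonneg _) hM
    _ = s.card * M * ‖ww s x‖ := by
        rw [Finset.sum_const, nsmul_eq_mul]
        ring

theorem mem_bounds {ι : Type*} [Fintype ι] (s : Finset (MvPolynomial (Fin N) ℂ)) (x₀ : Cn N)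
    (z : ι → MvPolynomial (Fin N) ℂ)
    (hz : ∀ i, z i ∈ Ideal.span (s : Set (MvPolynomial (Fin N) ℂ))) :
    ∃ M : ℝ, 0 ≤ M ∧ ∀ᶠ x in 𝓝 x₀, ∀ i, ‖eval x (z i)‖ ≤ M * ‖ww s x‖ := by
  choose M hM h using fun i => mem_bound s x₀ (z i) (hz i)
  refine ⟨∑ i, M i, Finset.sum_nonneg fun i _ => hM i, ?_⟩
  filter_upwards [eventually_all.2 h] with x hx i
  refine (hx i).trans (mul_le_mul_of_nonneg_right ?_ (norm_nonneg _))
  exact Finset.single_le_sum (f := M) (fun i _ => hM i) (Finset.mem_univ i)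

/-- uniform injectivity -/
theorem uinj {d n : ℕ} (F : Fin n → MvPolynomial (Fin N) ℂ) (I : Fin d → Fin N) (x₀ : Cn N)
    (hinj : ∀ v : Cn N, (∀ m, v (I m) = 0) → (∀ a, dd (F a) x₀ v = 0) → v = 0) :
    ∃ K : ℝ, 0 ≤ K ∧ ∀ᶠ x in 𝓝 x₀, ∀ v : Cn N, (∀ m, v (I m) = 0) → ∀ B : ℝ, 0 ≤ B →
      (∀ a, ‖dd (F a) x v‖ ≤ B) → ‖v‖ ≤ K * B := by
  -- the linear map
  let L : Cn N →ₗ[ℂ] (Fin d → ℂ) × (Fin n → ℂ) :=
    { toFun := fun v => (fun m => v (I m), fun a => dd (F a) x₀ v)
      map_add' := by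
        intro v v'
        refine Prod.ext rfl ?_
        funext a
        show dd (F a) x₀ (v + v') = dd (F a) x₀ v + dd (F a) x₀ v'
        unfold dd
        rw [← Finset.sum_add_distrib]
        refine Finset.sum_congr rfl fun j _ => ?_
        rw [Pi.add_apply]
        ring
      map_smul' := by
        intro c v
        refine Prod.ext rfl ?_
        funext a
        show dd (F a) x₀ (c • v) = c * dd (F a) x₀ v
        unfold dd
        rw [Finset.mul_sum]
        refine Finset.sum_congr rfl fun j _ => ?_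
        rw [Pi.smul_apply, smul_eq_mul]
        ring }
  have hL : LinearMap.ker L = ⊥ := by
    rw [LinearMap.ker_eq_bot']
    intro v hv
    refine hinj v (fun m => ?_) (fun a => ?_)
    · exact congrFun (congrArg Prod.fst hv) m
    · exact congrFun (congrArg Prod.snd hv) a
  obtain ⟨K₀, hK₀, hanti⟩ := LinearMap.exists_antilipschitzWith L hL
  have hK : ∀ v : Cn N, ‖v‖ ≤ K₀ * ‖L v‖ := by
    intro v
    have h := hanti.le_mul_dist v 0
    rwa [map_zero, dist_zero_right, dist_zero_right] at h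
  have hK₀' : (0 : ℝ) < K₀ := hK₀
  obtain ⟨η, hη⟩ : ∃ η : ℝ, η = 1 / (2 * K₀ * (N + 1)) := ⟨_, rfl⟩
  have hη0 : 0 < η := by
    rw [hη]
    positivity
  have hcont : ∀ᶠ x in 𝓝 x₀, ∀ (aj : Fin n × Fin N),
      ‖eval x (pderiv aj.2 (F aj.1)) - eval x₀ (pderiv aj.2 (F aj.1))‖ < η := by
    rw [eventually_all]
    intro aj
    have h1 : ContinuousAt (fun x : Cn N =>
        ‖eval x (pderiv aj.2 (F aj.1)) - eval x₀ (pderiv aj.2 (F aj.1))‖) x₀ :=
      ((MvPolynomial.continuous_eval _).continuousAt.sub continuousAt_const).norm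
    exact h1.eventually_lt continuousAt_const (by simpa using hη0)
  refine ⟨2 * K₀, by positivity, ?_⟩
  filter_upwards [hcont] with x hx v hv B hB hBv
  have h1 : ‖L v‖ ≤ B + η * N * ‖v‖ := by
    have h2 : L v = (0, fun a => dd (F a) x₀ v) := by
      refine Prod.ext ?_ rfl
      funext m
      exact hv m
    rw [h2, Prod.norm_mk, norm_zero]
    have hB' : 0 ≤ B + η * N * ‖v‖ := by positivity
    refine max_le hB' ?_
    rw [pi_norm_le_iff_of_nonneg hB']
    intro a
    have h3 : dd (F a) x₀ v = dd (F a) x v - ∑ j, (eval x (pderiv j (F a)) -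
        eval x₀ (pderiv j (F a))) * v j := by
      unfold dd
      rw [← Finset.sum_sub_distrib]
      refine Finset.sum_congr rfl fun j _ => ?_
      ring
    rw [h3]
    refine (norm_sub_le _ _).trans (add_le_add (hBv a) ?_)
    refine (norm_sum_le _ _).trans ?_
    calc ∑ j, ‖(eval x (pderiv j (F a)) - eval x₀ (pderiv j (F a))) * v j‖
        ≤ ∑ j : Fin N, η * ‖v‖ := by
          refine Finset.sum_le_sum fun j _ => ?_
          rw [norm_mul]
          exact mul_le_mul (hx (a, j)).le (norm_le_pi_norm v j) (norm_nonneg _) hη0.le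
      _ = η * N * ‖v‖ := by
          rw [Finset.sum_const, Finset.card_univ, Fintype.card_fin, nsmul_eq_mul]
          ring
  have h4 := hK v
  have h5 : (K₀ : ℝ) * (η * N * ‖v‖) ≤ ‖v‖ / 2 := by
    have h6 : (K₀ : ℝ) * η * N ≤ 1 / 2 := by
      rw [hη]
      have hN : (0 : ℝ) ≤ N := Nat.cast_nonneg N
      rw [show (K₀ : ℝ) * (1 / (2 * K₀ * (N + 1))) * N = (1 / 2) * (N / (N + 1)) by
        field_simp]
      have h7 : (N : ℝ) / (N + 1) ≤ 1 := by
        rw [div_le_one (by positivity)]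
        linarith
      linarith
    have h8 : 0 ≤ ‖v‖ := norm_nonneg v
    nlinarith
  have h9 : (K₀ : ℝ) * ‖L v‖ ≤ K₀ * (B + η * N * ‖v‖) := mul_le_mul_of_nonneg_left h1 hK₀'.le
  nlinarith

variable {d : ℕ}

/-- the block -/
noncomputable def HH (g : Biv N) (I : Fin d → Fin N) (x : Cn N) : Matrix (Fin d) (Fin d) ℂ :=
  Matrix.of fun a b => mat g.f x (I a) (I b)

theorem HH_cont (g : Biv N) (I : Fin d → Fin N) : Continuous (HH g I) := by
  refine continuous_matrix fun a b => ?_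
  exact MvPolynomial.continuous_eval _

/-- `X_a z ∈ p` -/
theorem ham_mem (g : Biv N) (p : Ideal (MvPolynomial (Fin N) ℂ)) (hp : Stab g.f p)
    (z : MvPolynomial (Fin N) ℂ) (hz : z ∈ p) (a : Fin N) : ham g a z ∈ p := by
  have h1 := hp z hz a
  have h2 : ham g a z = -∑ i, g.f i a * pderiv i z := by
    unfold ham
    rw [← Finset.sum_neg_distrib]
    refine Finset.sum_congr rfl fun l _ => ?_
    rw [g.skew l a]
    ring
  rw [h2]
  exact neg_mem h1

theorem dd_row (g : Biv N) (x : Cn N) (a : Fin N) (z : MvPolynomial (Fin N) ℂ) :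
    dd z x (fun l => eval x (g.f a l)) = eval x (ham g a z) := by
  unfold dd ham
  rw [map_sum]
  refine Finset.sum_congr rfl fun l _ => ?_
  rw [map_mul, mul_comm]

theorem key {n : ℕ} (g : Biv N) (p : Ideal (MvPolynomial (Fin N) ℂ)) (hp : Stab g.f p)
    (s : Finset (MvPolynomial (Fin N) ℂ)) (hs : Ideal.span (s : Set (MvPolynomial (Fin N) ℂ)) = p)
    (F : Fin n → MvPolynomial (Fin N) ℂ) (hF : ∀ a, F a ∈ p) (I : Fin d → Fin N) (x₀ : Cn N)
    (hdet : (HH g I x₀).det ≠ 0)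
    (hinj : ∀ v : Cn N, (∀ m, v (I m) = 0) → (∀ a, dd (F a) x₀ v = 0) → v = 0) :
    ∃ C : ℝ, 0 ≤ C ∧ ∀ᶠ x in 𝓝 x₀, ∀ (k : Fin d) (D : Cn N),
      (∀ m, D (I m) = if m = k then 1 else 0) → (∀ a, dd (F a) x D = 0) →
      ∀ i : s, ‖dd i.1 x D‖ ≤ C * ‖ww s x‖ := by
  obtain ⟨K, hK, hu⟩ := uinj F I x₀ hinj
  -- the determinant
  have hdc : Continuous fun x => (HH g I x).det := (HH_cont g I).matrix_det
  have hadj : Continuous fun x => (HH g I x).adjugate := (HH_cont g I).matrix_adjugate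
  have hdne : ∀ᶠ x in 𝓝 x₀, (HH g I x).det ≠ 0 := hdc.continuousAt.eventually_ne hdet
  let cf : Fin d × Fin d → Cn N → ℂ := fun kb x =>
    ((HH g I x).det)⁻¹ * (HH g I x).adjugate kb.1 kb.2
  obtain ⟨M₁, hM₁, h₁⟩ := ev_le x₀ cf (fun kb => by
    refine (hdc.continuousAt.inv₀ hdet).mul ?_
    exact ((continuous_apply_apply kb.1 kb.2).comp hadj).continuousAt)
  obtain ⟨M₂, hM₂, h₂⟩ := mem_bounds s x₀ (fun q : Fin d × Fin n => ham g (I q.1) (F q.2))
    (fun q => by rw [hs]; exact ham_mem g p hp _ (hF _) _)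
  obtain ⟨M₃, hM₃, h₃⟩ := mem_bounds s x₀ (fun q : Fin d × s => ham g (I q.1) q.2.1)
    (fun q => by
      rw [hs]
      refine ham_mem g p hp _ ?_ _
      rw [← hs]
      exact Ideal.subset_span q.2.2)
  obtain ⟨M₄, hM₄, h₄⟩ := ev_le x₀ (fun (q : s × Fin N) x => eval x (pderiv q.2 q.1.1))
    (fun q => (MvPolynomial.continuous_eval _).continuousAt)
  refine ⟨d * M₁ * M₃ + N * M₄ * (K * (d * M₁ * M₂)), by positivity, ?_⟩
  filter_upwards [hu, hdne, h₁, h₂, h₃, h₄] with x hu hdne h₁ h₂ h₃ h₄ k D hD hDF i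
  have hw : 0 ≤ ‖ww s x‖ := norm_nonneg _
  -- the vector `v`
  obtain ⟨v, hv⟩ : ∃ v : Cn N, v = ∑ b, cf (k, b) x • (fun l => eval x (g.f (I b) l)) := ⟨_, rfl⟩
  have hvI : ∀ m, v (I m) = if m = k then 1 else 0 := by
    intro m
    rw [hv, Finset.sum_apply]
    have e1 : ∀ b, (cf (k, b) x • (fun l => eval x (g.f (I b) l)) : Cn N) (I m) =
        ((HH g I x).det)⁻¹ * ((HH g I x).adjugate k b * (HH g I x) b m) := by
      intro b
      rw [Pi.smul_apply, smul_eq_mul]
      show ((HH g I x).det)⁻¹ * (HH g I x).adjugate k b * eval x (g.f (I b) (I m)) = _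
      rw [mul_assoc]
      rfl
    simp only [e1]
    rw [← Finset.mul_sum, ← Matrix.mul_apply, Matrix.adjugate_mul, Matrix.smul_apply,
      Matrix.one_apply, smul_eq_mul]
    by_cases hkm : m = k
    · rw [if_pos hkm.symm, if_pos hkm, mul_one, inv_mul_cancel₀ hdne]
    · rw [if_neg (fun h => hkm h.symm), if_neg hkm, mul_zero, mul_zero]
  have hvd : ∀ (z : MvPolynomial (Fin N) ℂ) (M : ℝ), 0 ≤ M →
      (∀ b, ‖eval x (ham g (I b) z)‖ ≤ M * ‖ww s x‖) → ‖dd z x v‖ ≤ d * M₁ * M * ‖ww s x‖ := by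
    intro z M hM h
    rw [hv, dd_sum]
    refine (norm_sum_le _ _).trans ?_
    calc ∑ b, ‖cf (k, b) x * dd z x (fun l => eval x (g.f (I b) l))‖
        ≤ ∑ b : Fin d, M₁ * (M * ‖ww s x‖) := by
          refine Finset.sum_le_sum fun b _ => ?_
          rw [norm_mul, dd_row]
          exact mul_le_mul (h₁ (k, b)) (h b) (norm_nonneg _) hM₁
      _ = d * M₁ * M * ‖ww s x‖ := by
          rw [Finset.sum_const, Finset.card_univ, Fintype.card_fin, nsmul_eq_mul]
          ring
  -- the difference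
  have hδ : ‖v - D‖ ≤ K * (d * M₁ * M₂ * ‖ww s x‖) := by
    refine hu (v - D) ?_ _ (by positivity) ?_
    · intro m
      rw [Pi.sub_apply, hvI, hD, sub_self]
    · intro a
      rw [dd_sub, hDF, sub_zero]
      exact hvd (F a) M₂ hM₂ fun b => h₂ (b, a)
  have h5 : dd i.1 x D = dd i.1 x v - dd i.1 x (v - D) := by
    rw [dd_sub]
    ring
  have h6 : ‖dd i.1 x (v - D)‖ ≤ N * M₄ * ‖v - D‖ := by
    unfold dd
    refine (norm_sum_le _ _).trans ?_
    calc ∑ j, ‖eval x (pderiv j i.1) * (v - D) j‖ ≤ ∑ j : Fin N, M₄ * ‖v - D‖ := by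
          refine Finset.sum_le_sum fun j _ => ?_
          rw [norm_mul]
          exact mul_le_mul (h₄ (i, j)) (norm_le_pi_norm (v - D) j) (norm_nonneg _) hM₄
      _ = N * M₄ * ‖v - D‖ := by
          rw [Finset.sum_const, Finset.card_univ, Fintype.card_fin, nsmul_eq_mul]
          ring
  have h7 := hvd i.1 M₃ hM₃ fun b => h₃ (b, i)
  have h8 : (N : ℝ) * M₄ * ‖v - D‖ ≤ N * M₄ * (K * (d * M₁ * M₂ * ‖ww s x‖)) :=
    mul_le_mul_of_nonneg_left hδ (by positivity)
  calc ‖dd i.1 x D‖ ≤ ‖dd i.1 x v‖ + ‖dd i.1 x (v - D)‖ := by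
        rw [h5]
        exact norm_sub_le _ _
    _ ≤ d * M₁ * M₃ * ‖ww s x‖ + N * M₄ * (K * (d * M₁ * M₂ * ‖ww s x‖)) :=
        add_le_add h7 (h6.trans h8)
    _ = (d * M₁ * M₃ + N * M₄ * (K * (d * M₁ * M₂))) * ‖ww s x‖ := by ring

end PVAM

open PVAM in
theorem specPVA : SpecPVA := by
  classical
  intro N d g p hp F I x₀ hx₀ hF hdet hinj B G hB hG hy₀ hG₀ hBG
  obtain ⟨s, hs⟩ : p.FG := (isNoetherianRing_iff_ideal_fg _).1 inferInstance p
  obtain ⟨C, hC, hkey⟩ := key g p hp s hs F hF I x₀ hdet hinj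
  obtain ⟨y₀, hy⟩ : ∃ y₀ : Cn d, y₀ = fun m => x₀ (I m) := ⟨_, rfl⟩
  rw [← hy] at hy₀ hG₀ ⊢
  have hGc : ContinuousAt G y₀ := (hG.continuousOn.continuousAt (hB.mem_nhds hy₀))
  have hev : ∀ᶠ y in 𝓝 y₀, y ∈ B ∧ ∀ (k : Fin d) (D : Cn N),
      (∀ m, D (I m) = if m = k then 1 else 0) → (∀ a, dd (F a) (G y) D = 0) →
      ∀ i : s, ‖dd i.1 (G y) D‖ ≤ C * ‖ww s (G y)‖ := by
    refine (Filter.eventually_of_mem (hB.mem_nhds hy₀) fun _ h => h).and ?_
    have h1 : Tendsto G (𝓝 y₀) (𝓝 x₀) := by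
      have h2 := hGc.tendsto
      rwa [hG₀] at h2
    exact h1.eventually hkey
  obtain ⟨ε, hε, hball⟩ := Metric.eventually_nhds_iff_ball.1 hev
  refine ⟨ε, hε, fun y hy => (hball y hy).1, ?_⟩
  intro y hyb
  -- derivatives
  have hGd : ∀ z ∈ Metric.ball y₀ ε, HasFDerivAt G (fderiv ℂ G z) z := by
    intro z hz
    have hzB := (hball z hz).1
    exact ((hG.contDiffAt (hB.mem_nhds hzB)).differentiableAt (by norm_num)).hasFDerivAt
  have hcomp : ∀ z ∈ Metric.ball y₀ ε, ∀ (h : MvPolynomial (Fin N) ℂ) (v : Cn d),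
      HasFDerivAt (fun z => eval (G z) h) ((DD h (G z)).comp (fderiv ℂ G z)) z := by
    intro z hz h v
    exact (hasF h (G z)).comp z (hGd z hz)
  have hDI : ∀ z ∈ Metric.ball y₀ ε, ∀ (k m : Fin d),
      fderiv ℂ G z (Pi.single k 1) (I m) = if m = k then 1 else 0 := by
    intro z hz k m
    have hzB := (hball z hz).1
    have h1 : HasFDerivAt (fun z => G z (I m))
        ((ContinuousLinearMap.proj (I m) : Cn N →L[ℂ] ℂ).comp (fderiv ℂ G z)) z :=
      (ContinuousLinearMap.proj (I m) : Cn N →L[ℂ] ℂ).hasFDerivAt.comp z (hGd z hz)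
    have h2 : HasFDerivAt (fun z : Cn d => z m) (ContinuousLinearMap.proj m : Cn d →L[ℂ] ℂ) z :=
      (ContinuousLinearMap.proj m : Cn d →L[ℂ] ℂ).hasFDerivAt
    have h3 : (fun z => G z (I m)) =ᶠ[𝓝 z] fun z : Cn d => z m := by
      filter_upwards [hB.mem_nhds hzB] with z' hz'
      exact (hBG z' hz').2 m
    have h4 := (h2.congr_of_eventuallyEq h3).unique h1
    have h5 := congrArg (fun L : Cn d →L[ℂ] ℂ => L (Pi.single k 1)) h4
    simp only [ContinuousLinearMap.comp_apply, ContinuousLinearMap.proj_apply] at h5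
    rw [← h5, Pi.single_apply]
  have hDF : ∀ z ∈ Metric.ball y₀ ε, ∀ (k : Fin d) (a : Fin (N - d)),
      dd (F a) (G z) (fderiv ℂ G z (Pi.single k 1)) = 0 := by
    intro z hz k a
    have hzB := (hball z hz).1
    have h1 := hcomp z hz (F a) 0
    have h2 : HasFDerivAt (fun _ : Cn d => (0 : ℂ)) (0 : Cn d →L[ℂ] ℂ) z := hasFDerivAt_const _ _
    have h3 : (fun z => eval (G z) (F a)) =ᶠ[𝓝 z] fun _ : Cn d => (0 : ℂ) := by
      filter_upwards [hB.mem_nhds hzB] with z' hz'
      exact (hBG z' hz').1 a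
    have h4 := (h2.congr_of_eventuallyEq h3).unique h1
    have h5 := congrArg (fun L : Cn d →L[ℂ] ℂ => L (Pi.single k 1)) h4
    exact h5.symm
  have hbd : ∀ z ∈ Metric.ball y₀ ε, ∀ (v : Cn d) (i : s),
      ‖dd i.1 (G z) (fderiv ℂ G z v)‖ ≤ d * C * ‖v‖ * ‖ww s (G z)‖ := by
    intro z hz v i
    have h1 : fderiv ℂ G z v = ∑ k, v k • fderiv ℂ G z (Pi.single k 1) := by
      conv_lhs => rw [← Finset.univ_sum_single v]
      rw [map_sum]
      refine Finset.sum_congr rfl fun k _ => ?_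
      rw [← map_smul]
      congr 1
      rw [← Pi.single_smul, smul_eq_mul, mul_one]
    rw [h1, dd_sum]
    refine (norm_sum_le _ _).trans ?_
    calc ∑ k, ‖v k * dd i.1 (G z) (fderiv ℂ G z (Pi.single k 1))‖
        ≤ ∑ k : Fin d, ‖v‖ * (C * ‖ww s (G z)‖) := by
          refine Finset.sum_le_sum fun k _ => ?_
          rw [norm_mul]
          exact mul_le_mul (norm_le_pi_norm v k)
            ((hball z hz).2 k _ (hDI z hz k) (hDF z hz k) i) (norm_nonneg _) (norm_nonneg _)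
      _ = d * C * ‖v‖ * ‖ww s (G z)‖ := by
          rw [Finset.sum_const, Finset.card_univ, Fintype.card_fin, nsmul_eq_mul]
          ring
  -- the segment
  let ln : ℝ → Cn d := fun t => y₀ + t • (y - y₀)
  have hln : ∀ t ∈ Set.Icc (0 : ℝ) 1, ln t ∈ Metric.ball y₀ ε := by
    intro t ht
    rw [Metric.mem_ball, dist_eq_norm]
    have h1 : ln t - y₀ = t • (y - y₀) := by
      show y₀ + t • (y - y₀) - y₀ = _
      abel
    rw [h1, norm_smul, Real.norm_eq_abs, abs_of_nonneg ht.1]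
    rw [Metric.mem_ball, dist_eq_norm] at hyb
    exact (mul_le_of_le_one_left (norm_nonneg _) ht.2).trans_lt hyb
  have hder : ∀ t ∈ Set.Icc (0 : ℝ) 1, HasDerivAt (fun t => ww s (G (ln t)))
      (fun i : s => dd i.1 (G (ln t)) (fderiv ℂ G (ln t) (y - y₀))) t := by
    intro t ht
    rw [hasDerivAt_pi]
    intro i
    have h1 : HasDerivAt ln (y - y₀) t := by
      have h2 : HasDerivAt (fun t : ℝ => t • (y - y₀)) ((1 : ℝ) • (y - y₀)) t :=
        (hasDerivAt_id t).smul_const (y - y₀)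
      rw [one_smul] at h2
      exact h2.const_add y₀
    have h3 := (hcomp (ln t) (hln t ht) i.1 0).restrictScalars ℝ
    have h4 := h3.comp_hasDerivAt t h1
    exact h4
  have h0 : ww s (G (ln 0)) = 0 := by
    have h1 : ln 0 = y₀ := by
      show y₀ + (0 : ℝ) • (y - y₀) = y₀
      rw [zero_smul, add_zero]
    rw [h1, hG₀]
    funext i
    refine hx₀ i.1 ?_
    rw [← hs]
    exact Ideal.subset_span i.2
  have hfin := eq_zero_of_abs_deriv_le_mul_abs_self_of_eq_zero_right
    (f := fun t => ww s (G (ln t)))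
    (f' := fun t => (fun i : s => dd i.1 (G (ln t)) (fderiv ℂ G (ln t) (y - y₀))))
    (K := d * C * ‖y - y₀‖) (a := 0) (b := 1)
    (fun t ht => (hder t ht).continuousAt.continuousWithinAt)
    (fun t ht => (hder t ⟨ht.1, ht.2.le⟩).hasDerivWithinAt) h0
    (fun t ht => by
      rw [pi_norm_le_iff_of_nonneg (by positivity)]
      intro i
      exact hbd (ln t) (hln t ⟨ht.1, ht.2.le⟩) (y - y₀) i)
    1 ⟨zero_le_one, le_rfl⟩
  have hln1 : ln 1 = y := by
    show y₀ + (1 : ℝ) • (y - y₀) = y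
    rw [one_smul]
    abel
  rw [hln1] at hfin
  -- all elements
  intro h hh
  rw [← hs] at hh
  obtain ⟨f, _, hf⟩ := Submodule.mem_span_finset.1 hh
  rw [← hf, map_sum]
  refine Finset.sum_eq_zero fun a ha => ?_
  rw [smul_eq_mul, map_mul]
  have h1 : eval (G y) a = 0 := congrFun hfin ⟨a, ha⟩
  rw [h1, mul_zero]

end Pool.Agent.Lib.MPc9b009.PS
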