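import Pool.Agent.Lib.MP_c9b009_ag.PS.Spec

/-!
# MP_c9b009_ag, row PS, module ALG: the pointwise formula (author helper39)
-/

set_option autoImplicit false

namespace Pool.Agent.Lib.MPc9b009.PS

namespace ALGM

open scoped ComplexConjugate

lemma her_self {N : ℕ} (x : Cn N) : her x x = ((∑ j, ‖x j‖ ^ 2 : ℝ) : ℂ) := by
  unfold her
  push_cast
  exact Finset.sum_congr rfl fun i _ => Complex.mul_conj' (x i)

lemma her_conj {N : ℕ} (a b : Cn N) : conj (her a b) = her b a := by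
  unfold her
  rw [map_sum]
  refine Finset.sum_congr rfl fun i _ => ?_
  rw [map_mul, Complex.conj_conj, mul_comm]

lemma her_mul_conj {N : ℕ} (a b : Cn N) : her a b * her b a = ((‖her a b‖ ^ 2 : ℝ) : ℂ) := by
  rw [← her_conj a b, Complex.mul_conj']
  push_cast
  rfl

lemma her_sub_left {N : ℕ} (a b c : Cn N) : her (a - b) c = her a c - her b c := by
  unfold her
  rw [← Finset.sum_sub_distrib]
  exact Finset.sum_congr rfl fun i _ => by rw [Pi.sub_apply, sub_mul]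

lemma her_smul_left {N : ℕ} (t : ℂ) (a b : Cn N) : her (t • a) b = t * her a b := by
  unfold her
  rw [Finset.mul_sum]
  exact Finset.sum_congr rfl fun i _ => by rw [Pi.smul_apply, smul_eq_mul, mul_assoc]

lemma her_sub_right {N : ℕ} (a b c : Cn N) : her a (b - c) = her a b - her a c := by
  rw [← her_conj, her_sub_left, map_sub, her_conj, her_conj]

lemma her_smul_right {N : ℕ} (t : ℂ) (a b : Cn N) : her a (t • b) = conj t * her a b := by
  rw [← her_conj, her_smul_left, map_mul, her_conj]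

/-- `<β, x> = 0` -/
lemma her_bet {N : ℕ} (x A : Cn N) : her (bet x A) x = 0 := by
  unfold bet
  rw [her_sub_left, her_smul_left, her_smul_left, mul_comm, sub_self]

/-- `<A, β> = |<A,x>|² - |x|² |A|²` -/
lemma her_A_bet {N : ℕ} (x A : Cn N) : her A (bet x A) =
    ((‖her A x‖ ^ 2 - (∑ j, ‖x j‖ ^ 2) * ∑ j, ‖A j‖ ^ 2 : ℝ) : ℂ) := by
  unfold bet
  rw [her_sub_right, her_smul_right, her_smul_right, her_conj, her_conj, mul_comm (her x A),
    her_mul_conj, her_self, her_self]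
  push_cast
  rfl

/-- `|β|² = |x|² (|x|² |A|² - |<A,x>|²)` -/
lemma her_bet_bet {N : ℕ} (x A : Cn N) : her (bet x A) (bet x A) =
    (((∑ j, ‖x j‖ ^ 2) * ((∑ j, ‖x j‖ ^ 2) * ∑ j, ‖A j‖ ^ 2 - ‖her A x‖ ^ 2) : ℝ) : ℂ) := by
  have h1 : her (bet x A) (bet x A) = - (her x x * her A (bet x A)) := by
    have h2 : her x (bet x A) = 0 := by rw [← her_conj, her_bet, map_zero]
    conv_lhs => unfold bet
    rw [her_sub_left, her_smul_left, her_smul_left]
    change her A x * her x (bet x A) - her x x * her A (bet x A) = _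
    rw [h2, mul_zero, zero_sub]
  rw [h1, her_A_bet, her_self]
  push_cast
  ring

lemma cs {N : ℕ} (x A : Cn N) :
    ‖her A x‖ ^ 2 ≤ (∑ j, ‖x j‖ ^ 2) * ∑ j, ‖A j‖ ^ 2 ∧
    (x ≠ 0 → ‖her A x‖ ^ 2 = (∑ j, ‖x j‖ ^ 2) * ∑ j, ‖A j‖ ^ 2 → ∃ t : ℂ, A = t • x) := by
  have hb : (∑ j, ‖bet x A j‖ ^ 2) =
      (∑ j, ‖x j‖ ^ 2) * ((∑ j, ‖x j‖ ^ 2) * ∑ j, ‖A j‖ ^ 2 - ‖her A x‖ ^ 2) := by
    have h1 := her_bet_bet x A
    rw [her_self] at h1
    exact_mod_cast h1
  have hR : x ≠ 0 → 0 < ∑ j, ‖x j‖ ^ 2 := by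
    intro hx
    obtain ⟨j, hj⟩ := Function.ne_iff.mp hx
    refine Finset.sum_pos' (fun i _ => by positivity) ⟨j, Finset.mem_univ _, ?_⟩
    have : 0 < ‖x j‖ := norm_pos_iff.mpr hj
    positivity
  refine ⟨?_, ?_⟩
  · by_cases hx : x = 0
    · subst hx
      have : her A (0 : Cn N) = 0 := by simp [her]
      rw [this]
      simp
    · have h0 := hR hx
      have h2 : 0 ≤ ∑ j, ‖bet x A j‖ ^ 2 := Finset.sum_nonneg fun i _ => by positivity
      rw [hb] at h2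
      have := nonneg_of_mul_nonneg_right h2 h0
      linarith
  · intro hx he
    have h0 := hR hx
    rw [he, sub_self, mul_zero] at hb
    have hz : bet x A = 0 := by
      funext j
      have h3 := (Finset.sum_eq_zero_iff_of_nonneg (fun i _ => by positivity)).mp hb j
        (Finset.mem_univ j)
      have h4 : ‖bet x A j‖ = 0 := pow_eq_zero_iff (two_ne_zero) |>.mp h3
      exact norm_eq_zero.mp h4
    have hr : her x x ≠ 0 := by
      rw [her_self]
      exact_mod_cast h0.ne'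
    refine ⟨(her x x)⁻¹ * her A x, ?_⟩
    have h5 : her A x • x = her x x • A := sub_eq_zero.mp hz
    rw [mul_smul, h5, smul_smul, inv_mul_cancel₀ hr, one_smul]

/-! derivatives -/

lemma Dbar_mul {k : ℕ} {φ ψ : Cn k → ℂ} {y : Cn k} (hφ : DifferentiableAt ℝ φ y)
    (hψ : DifferentiableAt ℝ ψ y) (v : Cn k) :
    Dbar (fun z => φ z * ψ z) y v = φ y * Dbar ψ y v + ψ y * Dbar φ y v := by
  unfold Dbar
  have h : fderiv ℝ (fun z => φ z * ψ z) y = φ y • fderiv ℝ ψ y + ψ y • fderiv ℝ φ y :=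
    fderiv_fun_mul hφ hψ
  rw [h]
  simp only [add_apply, smul_apply, smul_eq_mul]
  ring

/-- `z ↦ conj z_i` as a continuous real linear map -/
noncomputable def cj {k : ℕ} (i : Fin k) : Cn k →L[ℝ] ℂ :=
  Complex.conjCLE.toContinuousLinearMap.comp
    ((ContinuousLinearMap.proj (R := ℝ) (φ := fun _ : Fin k => ℂ) i))

lemma cj_apply {k : ℕ} (i : Fin k) (z : Cn k) : cj i z = conj (z i) := rfl

lemma diff_cj {k : ℕ} (i : Fin k) (y : Cn k) :
    DifferentiableAt ℝ (fun z : Cn k => conj (z i)) y := (cj i).differentiableAt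

lemma Dbar_cj {k : ℕ} (i : Fin k) (y v : Cn k) :
    Dbar (fun z : Cn k => conj (z i)) y v = conj (v i) := by
  unfold Dbar
  have h : fderiv ℝ (fun z : Cn k => conj (z i)) y = cj i := (cj i).fderiv
  rw [h, cj_apply, cj_apply, Pi.smul_apply, smul_eq_mul, map_mul, Complex.conj_I]
  have h2 : Complex.I * (-Complex.I * conj (v i)) = conj (v i) := by
    rw [← mul_assoc, mul_neg, Complex.I_mul_I, neg_neg, one_mul]
  rw [h2]
  ring

lemma hasF_r {k : ℕ} (x : Cn k) : ∃ L : Cn k →L[ℝ] ℝ,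
    HasFDerivAt (fun z : Cn k => ∑ j, ‖z j‖ ^ 2) L x ∧ ∀ v, L v = 2 * (her v x).re := by
  refine ⟨∑ j, 2 • (innerSL ℝ (x j)).comp
    (ContinuousLinearMap.proj (R := ℝ) (φ := fun _ : Fin k => ℂ) j), ?_, ?_⟩
  · refine HasFDerivAt.fun_sum fun j _ => ?_
    have h1 : HasFDerivAt (fun z : Cn k => z j)
        (ContinuousLinearMap.proj (R := ℝ) (φ := fun _ : Fin k => ℂ) j) x :=
      (ContinuousLinearMap.proj (R := ℝ) (φ := fun _ : Fin k => ℂ) j).hasFDerivAt
    exact h1.norm_sq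
  · intro v
    unfold her
    rw [Complex.re_sum, Finset.mul_sum, sum_apply]
    refine Finset.sum_congr rfl fun j _ => ?_
    simp only [smul_apply, ContinuousLinearMap.comp_apply,
      ContinuousLinearMap.proj_apply, innerSL_apply_apply, nsmul_eq_mul]
    rw [Complex.inner, mul_comm (v j)]
    norm_num

lemma diff_f {k : ℕ} (f : ℝ → ℝ) (hf : ContDiff ℝ 1 f) (x : Cn k) :
    DifferentiableAt ℝ (fun z : Cn k => ((f (∑ j, ‖z j‖ ^ 2) : ℝ) : ℂ)) x := by
  obtain ⟨L, hL, -⟩ := hasF_r x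
  have h1 : HasFDerivAt f (fderiv ℝ f (∑ j, ‖x j‖ ^ 2)) (∑ j, ‖x j‖ ^ 2) :=
    (hf.differentiable one_ne_zero _).hasFDerivAt
  have h2 := h1.comp x hL
  exact (Complex.ofRealCLM.hasFDerivAt.comp x h2).differentiableAt

lemma Dbar_f {k : ℕ} (f : ℝ → ℝ) (hf : ContDiff ℝ 1 f) (x v : Cn k) (hv : her v x = 0) :
    Dbar (fun z : Cn k => ((f (∑ j, ‖z j‖ ^ 2) : ℝ) : ℂ)) x v = 0 := by
  obtain ⟨L, hL, hL2⟩ := hasF_r x
  have h1 : HasFDerivAt f (fderiv ℝ f (∑ j, ‖x j‖ ^ 2)) (∑ j, ‖x j‖ ^ 2) :=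
    (hf.differentiable one_ne_zero _).hasFDerivAt
  have h2 := h1.comp x hL
  have h3 : fderiv ℝ (fun z : Cn k => ((f (∑ j, ‖z j‖ ^ 2) : ℝ) : ℂ)) x =
      Complex.ofRealCLM.comp ((fderiv ℝ f (∑ j, ‖x j‖ ^ 2)).comp L) :=
    (Complex.ofRealCLM.hasFDerivAt.comp x h2).fderiv
  have e1 : L v = 0 := by rw [hL2, hv]; simp
  have e2 : L (Complex.I • v) = 0 := by rw [hL2, her_smul_left, hv]; simp
  unfold Dbar
  rw [h3]
  simp only [ContinuousLinearMap.comp_apply, e1, e2, map_zero, mul_zero, add_zero, zero_div]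

end ALGM

open ALGM in
theorem specALG : SpecALG := by
  refine ⟨?_, fun N x A => cs x A⟩
  intro N χ f x A hχ hf
  have hd := hχ.differentiable one_ne_zero x
  have key : ∀ i, Dbar (fun z => χ z * ((f (∑ j, ‖z j‖ ^ 2) : ℝ) : ℂ) * (starRingEnd ℂ) (z i)) x
      (bet x A) = χ x * ((f (∑ j, ‖x j‖ ^ 2) : ℝ) : ℂ) * (starRingEnd ℂ) (bet x A i) +
        (starRingEnd ℂ) (x i) * (((f (∑ j, ‖x j‖ ^ 2) : ℝ) : ℂ) * Dbar χ x (bet x A)) := by
    intro i
    rw [Dbar_mul (φ := fun z => χ z * ((f (∑ j, ‖z j‖ ^ 2) : ℝ) : ℂ)) (hd.mul (diff_f f hf x))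
      (diff_cj i x), Dbar_cj, Dbar_mul hd (diff_f f hf x), Dbar_f f hf x _ (her_bet x A)]
    ring
  have h1 : ∑ i, A i * (starRingEnd ℂ) (bet x A i) = her A (bet x A) := rfl
  rw [← her_A_bet, ← h1, Finset.mul_sum]
  have h2 : her A x = ∑ i, A i * (starRingEnd ℂ) (x i) := rfl
  rw [h2, Finset.sum_mul, Finset.mul_sum, ← Finset.sum_add_distrib]
  refine Finset.sum_congr rfl fun i _ => ?_
  rw [key i]
  ring

end Pool.Agent.Lib.MPc9b009.PS
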