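import Pool.Agent.Lib.MP_c9b009_ag.PS.Spec

/-!
# MP_c9b009_ag, row PS, module BAS: facts on charts of cones
-/

set_option autoImplicit false

namespace Pool.Agent.Lib.MPc9b009.PS

namespace BASM

variable {N k : ℕ} {M : Set (Cn N)} {T : Cn N → Submodule ℂ (Cn N)}

theorem contDiffAt (c : Cht N k M T) {y : Cn k} (hy : y ∈ c.B) : ContDiffAt ℂ 3 c.G y :=
  c.sm.contDiffAt (c.oB.mem_nhds hy)

theorem diffAt (c : Cht N k M T) {y : Cn k} (hy : y ∈ c.B) : DifferentiableAt ℂ c.G y :=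
  (contDiffAt c hy).differentiableAt (by norm_num)

theorem coord (c : Cht N k M T) {y : Cn k} (hy : y ∈ c.B) (v : Cn k) (m : Fin k) :
    fderiv ℂ c.G y v (c.I m) = v m := by
  have h1 : HasFDerivAt (fun z => c.G z (c.I m))
      ((ContinuousLinearMap.proj (R := ℂ) (φ := fun _ : Fin N => ℂ) (c.I m)).comp
        (fderiv ℂ c.G y)) y :=
    (ContinuousLinearMap.proj (R := ℂ) (φ := fun _ : Fin N => ℂ) (c.I m)).hasFDerivAt.comp y
      (diffAt c hy).hasFDerivAt
  have h2 : HasFDerivAt (fun z : Cn k => z m)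
      (ContinuousLinearMap.proj (R := ℂ) (φ := fun _ : Fin k => ℂ) m) y :=
    (ContinuousLinearMap.proj (R := ℂ) (φ := fun _ : Fin k => ℂ) m).hasFDerivAt
  have h3 : (fun z => c.G z (c.I m)) =ᶠ[nhds y] fun z : Cn k => z m := by
    filter_upwards [c.oB.mem_nhds hy] with z hz
    exact c.co z hz m
  have h4 := h1.unique (h2.congr_of_eventuallyEq h3)
  have h5 := congrArg (fun L : Cn k →L[ℂ] ℂ => L v) h4
  exact h5

theorem euler (hM : Cone N k M T) (c : Cht N k M T) {y : Cn k} (hy : y ∈ c.B) :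
    fderiv ℂ c.G y y = c.G y := by
  have h1 : c.G y ∈ T (c.G y) := hM.eul _ (c.mem y hy).1
  rw [← c.tan y hy] at h1
  obtain ⟨η, hη⟩ := h1
  have hη' : fderiv ℂ c.G y η = c.G y := hη
  have h2 : η = y := by
    funext m
    have h3 := coord c hy η m
    rw [hη', c.co y hy m] at h3
    exact h3.symm
  rw [h2] at hη'
  exact hη'

theorem second (hM : Cone N k M T) (c : Cht N k M T) {y : Cn k} (hy : y ∈ c.B) (v : Cn k) :
    fderiv ℂ (fun z => fderiv ℂ c.G z v) y y = 0 := by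
  have hC := contDiffAt c hy
  have hsym : IsSymmSndFDerivAt ℂ c.G y := hC.isSymmSndFDerivAt (by
    rw [minSmoothness_of_isRCLikeNormedField]; norm_num)
  have hd2 : DifferentiableAt ℂ (fderiv ℂ c.G) y :=
    (hC.fderiv_right (m := 1) (by norm_num)).differentiableAt (by norm_num)
  -- the derivative of `z ↦ fderiv G z z`
  have h1 : HasFDerivAt (fun z => fderiv ℂ c.G z z)
      ((fderiv ℂ c.G y).comp (ContinuousLinearMap.id ℂ (Cn k)) +
        (fderiv ℂ (fderiv ℂ c.G) y).flip y) y :=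
    hd2.hasFDerivAt.clm_apply (hasFDerivAt_id y)
  have h2 : (fun z => fderiv ℂ c.G z z) =ᶠ[nhds y] c.G := by
    filter_upwards [c.oB.mem_nhds hy] with z hz
    exact euler hM c hz
  have h3 : HasFDerivAt (fun z => fderiv ℂ c.G z z) (fderiv ℂ c.G y) y :=
    (diffAt c hy).hasFDerivAt.congr_of_eventuallyEq h2
  have h4 := congrArg (fun L : Cn k →L[ℂ] Cn N => L v) (h1.unique h3)
  have h5 : fderiv ℂ c.G y v + fderiv ℂ (fderiv ℂ c.G) y v y = fderiv ℂ c.G y v := h4
  have h6 : fderiv ℂ (fderiv ℂ c.G) y v y = 0 := by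
    have := sub_eq_zero.2 h5
    rwa [add_sub_cancel_left] at this
  have h7 : HasFDerivAt (fun z => fderiv ℂ c.G z v)
      ((fderiv ℂ c.G y).comp (0 : Cn k →L[ℂ] Cn k) + (fderiv ℂ (fderiv ℂ c.G) y).flip v) y :=
    hd2.hasFDerivAt.clm_apply (hasFDerivAt_const v y)
  rw [h7.fderiv]
  have h8 : ((fderiv ℂ c.G y).comp (0 : Cn k →L[ℂ] Cn k) +
      (fderiv ℂ (fderiv ℂ c.G) y).flip v) y =
      fderiv ℂ c.G y 0 + fderiv ℂ (fderiv ℂ c.G) y y v := rfl
  rw [h8, map_zero, zero_add, hsym y v, h6]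

theorem rank (c : Cht N k M T) {y : Cn k} (hy : y ∈ c.B) :
    Module.finrank ℂ (T (c.G y)) = k := by
  rw [← c.tan y hy, LinearMap.finrank_range_of_inj]
  · simp
  · intro a b hab
    have hab' : fderiv ℂ c.G y a = fderiv ℂ c.G y b := hab
    funext m
    rw [← coord c hy a m, ← coord c hy b m, hab']

end BASM

theorem specBAS : SpecBAS := by
  intro N k M T hM c y hy
  exact ⟨BASM.coord c hy, BASM.euler hM c hy, BASM.second hM c hy, BASM.rank c hy⟩

end Pool.Agent.Lib.MPc9b009.PS
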