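import Pool.Agent.Lib.MP_c9b009_ag.PS.Spec

/-!
# MP_c9b009_ag, row PS, module BER: Sard for hyperplane sections
-/

set_option autoImplicit false

namespace Pool.Agent.Lib.MPc9b009.PS

open MvPolynomial Pool.Agent.Lib.MPc9b009.B5 Pool.Agent.Lib.MPc9b009.OD MeasureTheory

namespace BERM

variable {N k : ℕ} {M : Set (Cn N)} {T : Cn N → Submodule ℂ (Cn N)}

/-- the coordinates of the chart -/
noncomputable def rs (c : Cht N k M T) : Cn N →L[ℂ] Cn k :=
  ContinuousLinearMap.pi fun m => ContinuousLinearMap.proj (c.I m)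

lemma rs_apply (c : Cht N k M T) (u : Cn N) (m : Fin k) : rs c u m = u (c.I m) := rfl

/-- `∑ u_j ∂_m G_j` -/
noncomputable def am (c : Cht N k M T) (m : Fin k) (u : Cn N) : ℂ :=
  ∑ j, u j * fderiv ℂ c.G (rs c u) (Pi.single m 1) j

/-- the map `Θ` -/
noncomputable def Th (c : Cht N k M T) (u : Cn N) : Cn N :=
  u - ∑ m, am c m u • (Pi.single (c.I m) (1 : ℂ) : Cn N)

/-- the vector with the coordinates `y` -/
noncomputable def ev (c : Cht N k M T) (y : Cn k) : Cn N :=
  ∑ m, y m • (Pi.single (c.I m) (1 : ℂ) : Cn N)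

lemma I_inj (hB : SpecBAS) (hC : Cone N k M T) (c : Cht N k M T) {y : Cn k} (hy : y ∈ c.B) :
    Function.Injective c.I := by
  intro m m' h
  by_contra hne
  have h1 := (hB N k M T hC c y hy).1 (Pi.single m 1)
  have h2 := h1 m
  have h3 := h1 m'
  rw [h, h3] at h2
  simp [Pi.single_eq_of_ne (Ne.symm hne)] at h2

lemma sum_ev (c : Cht N k M T) (y : Cn k) (w : Cn N) :
    ∑ j, w j * ev c y j = ∑ m, y m * w (c.I m) := by
  have h1 : ∀ j, w j * ev c y j = ∑ m, w j * (y m * (Pi.single (c.I m) (1 : ℂ) : Cn N) j) := by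
    intro j
    rw [ev, Finset.sum_apply, Finset.mul_sum]
    rfl
  simp only [h1]
  rw [Finset.sum_comm]
  refine Finset.sum_congr rfl fun m _ => ?_
  rw [Finset.sum_eq_single (c.I m)]
  · rw [Pi.single_eq_same]
    ring
  · intro j _ hj
    rw [Pi.single_eq_of_ne hj]
    ring
  · intro h
    exact absurd (Finset.mem_univ _) h

lemma rs_ev (c : Cht N k M T) (hI : Function.Injective c.I) (y : Cn k) : rs c (ev c y) = y := by
  funext m
  rw [rs_apply, ev, Finset.sum_apply, Finset.sum_eq_single m]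
  · simp
  · intro j _ hj
    have : c.I m ≠ c.I j := fun h => hj (hI h).symm
    simp [Pi.single_eq_of_ne this]
  · intro h
    exact absurd (Finset.mem_univ _) h

/-- the derivative of `am` -/
lemma am_der (c : Cht N k M T) (m : Fin k) {u : Cn N} (hu : rs c u ∈ c.B) :
    ∃ L : Cn N →L[ℂ] ℂ, HasFDerivAt (am c m) L u ∧ ∀ e : Cn N,
      L e = ∑ j, (u j * (fderiv ℂ (fun z => fderiv ℂ c.G z (Pi.single m 1)) (rs c u) (rs c e)) j +
        fderiv ℂ c.G (rs c u) (Pi.single m 1) j * e j) := by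
  have hcd : ContDiffAt ℂ 3 c.G (rs c u) := c.sm.contDiffAt (c.oB.mem_nhds hu)
  have h1 : ContDiffAt ℂ 2 (fderiv ℂ c.G) (rs c u) := hcd.fderiv_right (by norm_num)
  have h2 : DifferentiableAt ℂ (fderiv ℂ c.G) (rs c u) := h1.differentiableAt (by norm_num)
  have h3 : DifferentiableAt ℂ (fun z => fderiv ℂ c.G z (Pi.single m 1)) (rs c u) :=
    h2.clm_apply (differentiableAt_const _)
  have h4 : HasFDerivAt (fun v => fderiv ℂ c.G (rs c v) (Pi.single m 1))
      ((fderiv ℂ (fun z => fderiv ℂ c.G z (Pi.single m 1)) (rs c u)).comp (rs c)) u :=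
    HasFDerivAt.comp u h3.hasFDerivAt (rs c).hasFDerivAt
  have h5 : ∀ j, HasFDerivAt (fun v => fderiv ℂ c.G (rs c v) (Pi.single m 1) j)
      ((ContinuousLinearMap.proj (R := ℂ) (φ := fun _ : Fin N => ℂ) j).comp
        ((fderiv ℂ (fun z => fderiv ℂ c.G z (Pi.single m 1)) (rs c u)).comp (rs c))) u := by
    intro j
    exact (hasFDerivAt_pi'.1 h4) j
  have h6 : ∀ j : Fin N, HasFDerivAt (fun v : Cn N => v j)
      (ContinuousLinearMap.proj (R := ℂ) (φ := fun _ : Fin N => ℂ) j) u :=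
    fun j => hasFDerivAt_apply j u
  have h7 := HasFDerivAt.fun_sum (u := Finset.univ) fun j _ => (h6 j).mul (h5 j)
  refine ⟨_, h7, ?_⟩
  intro e
  simp only [ContinuousLinearMap.sum_apply, ContinuousLinearMap.add_apply,
    ContinuousLinearMap.smul_apply, ContinuousLinearMap.comp_apply, ContinuousLinearMap.proj_apply,
    smul_eq_mul]

/-- `Θ` is differentiable and its derivative has a kernel -/
lemma Th_der (hB : SpecBAS) (hC : Cone N k M T) (c : Cht N k M T) {u : Cn N} (hu : rs c u ∈ c.B) :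
    ∃ L : Cn N →L[ℂ] Cn N, HasFDerivAt (Th c) L u ∧ L (ev c (rs c u)) = 0 := by
  have hI := I_inj hB hC c hu
  choose L hL hLe using fun m => am_der c m hu
  have h1 : ∀ m, HasFDerivAt (fun v => am c m v • (Pi.single (c.I m) (1 : ℂ) : Cn N))
      ((L m).smulRight (Pi.single (c.I m) (1 : ℂ) : Cn N)) u := fun m => (hL m).smul_const _
  have h2 := (hasFDerivAt_id (𝕜 := ℂ) u).sub (HasFDerivAt.fun_sum (u := Finset.univ) fun m _ => h1 m)
  refine ⟨_, h2, ?_⟩
  have h3 : ∀ m, L m (ev c (rs c u)) = rs c u m := by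
    intro m
    rw [hLe m, rs_ev c hI, (hB N k M T hC c _ hu).2.2.1 (Pi.single m 1), Finset.sum_add_distrib]
    have h4 : ∑ j : Fin N, u j * (0 : Cn N) j = 0 := by simp
    rw [h4, zero_add, sum_ev]
    have h5 : ∀ m' : Fin k, rs c u m' * fderiv ℂ c.G (rs c u) (Pi.single m 1) (c.I m') =
        rs c u m' * (Pi.single m (1 : ℂ) : Cn k) m' := by
      intro m'
      rw [(hB N k M T hC c _ hu).1 (Pi.single m 1) m']
    simp only [h5]
    rw [Finset.sum_eq_single m]
    · simp
    · intro j _ hj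
      rw [Pi.single_eq_of_ne hj, mul_zero]
    · intro h
      exact absurd (Finset.mem_univ _) h
  rw [ContinuousLinearMap.sub_apply, ContinuousLinearMap.sum_apply]
  simp only [ContinuousLinearMap.smulRight_apply, h3]
  rw [ContinuousLinearMap.id_apply, ev, sub_self]

/-- the bad hyperplanes of one chart are in the image of `Θ` -/
lemma mem_image (hB : SpecBAS) (hC : Cone N k M T) (c : Cht N k M T) {c₀ : Cn N} {y : Cn k}
    (hy : y ∈ c.B) (h : T (c.G y) ≤ hyp c₀) : ∃ u : Cn N, rs c u ∈ c.B ∧ Th c u = c₀ := by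
  have hI := I_inj hB hC c hy
  refine ⟨c₀ + ev c (y - rs c c₀), ?_, ?_⟩
  · rw [map_add, rs_ev c hI, add_sub_cancel]
    exact hy
  · have h1 : rs c (c₀ + ev c (y - rs c c₀)) = y := by rw [map_add, rs_ev c hI, add_sub_cancel]
    have h2 : ∀ m, am c m (c₀ + ev c (y - rs c c₀)) = (y - rs c c₀) m := by
      intro m
      rw [am, h1]
      have h3 : ∀ j, (c₀ + ev c (y - rs c c₀)) j * fderiv ℂ c.G y (Pi.single m 1) j =
          c₀ j * fderiv ℂ c.G y (Pi.single m 1) j +
          fderiv ℂ c.G y (Pi.single m 1) j * ev c (y - rs c c₀) j := by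
        intro j
        rw [Pi.add_apply]
        ring
      simp only [h3]
      rw [Finset.sum_add_distrib, sum_ev]
      have h4 : fderiv ℂ c.G y (Pi.single m 1) ∈ hyp c₀ := by
        apply h
        rw [← c.tan y hy]
        exact ⟨_, rfl⟩
      rw [hyp, LinearMap.mem_ker, dot] at h4
      have h5 : ∑ j, c₀ j * fderiv ℂ c.G y (Pi.single m 1) j = 0 := by
        rw [← h4, LinearMap.sum_apply]
        rfl
      rw [h5, zero_add]
      have h6 : ∀ m' : Fin k, (y - rs c c₀) m' * fderiv ℂ c.G y (Pi.single m 1) (c.I m') =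
          (y - rs c c₀) m' * (Pi.single m (1 : ℂ) : Cn k) m' := by
        intro m'
        rw [(hB N k M T hC c _ hy).1 (Pi.single m 1) m']
      simp only [h6]
      rw [Finset.sum_eq_single m]
      · simp
      · intro j _ hj
        rw [Pi.single_eq_of_ne hj, mul_zero]
      · intro h
        exact absurd (Finset.mem_univ _) h
    rw [Th]
    simp only [h2]
    rw [ev, add_sub_cancel_right]

/-- one chart -/
lemma null_chart (hB : SpecBAS) (hC : Cone N k M T) (c : Cht N k M T) :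
    volume {c₀ : Cn N | ∃ y ∈ c.B, T (c.G y) ≤ hyp c₀} = 0 := by
  have h1 : {c₀ : Cn N | ∃ y ∈ c.B, T (c.G y) ≤ hyp c₀} ⊆ Th c '' {u | rs c u ∈ c.B} := by
    rintro c₀ ⟨y, hy, h⟩
    obtain ⟨u, hu, hc⟩ := mem_image hB hC c hy h
    exact ⟨u, hu, hc⟩
  refine measure_mono_null h1 ?_
  have h2 : ∀ u : Cn N, ∃ L : Cn N →L[ℂ] Cn N, rs c u ∈ c.B →
      HasFDerivAt (Th c) L u ∧ L (ev c (rs c u)) = 0 := by
    intro u
    by_cases hu : rs c u ∈ c.B
    · obtain ⟨L, hL, hL'⟩ := Th_der hB hC c hu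
      exact ⟨L, fun _ => ⟨hL, hL'⟩⟩
    · exact ⟨0, fun h => absurd h hu⟩
  choose L hL using h2
  refine addHaar_image_eq_zero_of_det_fderivWithin_eq_zero volume
    (f' := fun u => (L u).restrictScalars ℝ) ?_ ?_
  · intro u hu
    exact ((hL u hu).1.restrictScalars ℝ).hasFDerivWithinAt
  · intro u hu
    have hI := I_inj hB hC c hu
    rw [ContinuousLinearMap.det, LinearMap.det_eq_zero_iff_ker_ne_bot]
    intro hker
    have h3 : ev c (rs c u) ∈ LinearMap.ker (((L u).restrictScalars ℝ : Cn N →L[ℝ] Cn N) :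
        Cn N →ₗ[ℝ] Cn N) := by
      rw [LinearMap.mem_ker]
      exact (hL u hu).2
    rw [hker, Submodule.mem_bot] at h3
    have h4 : rs c u = 0 := by
      have := rs_ev c hI (rs c u)
      rw [h3, map_zero] at this
      exact this.symm
    have h5 := (hB N k M T hC c _ hu).2.1
    rw [h4, map_zero] at h5
    apply hC.ne
    rw [h5, ← h4]
    exact (c.mem _ hu).1

end BERM

theorem specBER (hBAS : SpecBAS) : SpecBER := by
  intro N k M T hC
  obtain ⟨S, hS, hSU⟩ := TopologicalSpace.isOpen_iUnion_countable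
    (fun c : Cht N k M T => c.W) fun c => c.oW
  have h1 : {c : Cn N | ∃ x ∈ M, T x ≤ hyp c} ⊆
      ⋃ c ∈ S, {c₀ : Cn N | ∃ y ∈ c.B, T (c.G y) ≤ hyp c₀} := by
    rintro c₀ ⟨x, hx, h⟩
    obtain ⟨c', hc'⟩ := hC.cov x hx
    have h2 : x ∈ ⋃ c ∈ S, c.W := by
      rw [hSU]
      exact Set.mem_iUnion.2 ⟨c', hc'⟩
    obtain ⟨c, hcS, hxc⟩ := Set.mem_iUnion₂.1 h2
    refine Set.mem_iUnion₂.2 ⟨c, hcS, fun m => x (c.I m), (c.inv x hx hxc).1, ?_⟩
    rw [(c.inv x hx hxc).2]
    exact h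
  refine measure_mono_null h1 ((measure_biUnion_null_iff hS).2 fun c _ => ?_)
  exact BERM.null_chart hBAS hC c

end Pool.Agent.Lib.MPc9b009.PS
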