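import Pool.Agent.Lib.MP_c9b009_ag.PS.Spec

/-!
# MP_c9b009_ag, row PS, module BGI

A homogeneous prime `q` over `I` with `D(q) ≥ s + 2` whose points have rank `≤ s` gives a component of
`X_{≤ s}` of dimension `≥ s + 1`. Adapted from `B5/BIG.lean`.
-/

set_option autoImplicit false

namespace Pool.Agent.Lib.MPc9b009.PS

open MvPolynomial Pool.Agent.Lib.MPc9b009.B5 Pool.Agent.Lib.MPc9b009.OD

namespace BGIM

/-- a prime which contains all the variables has `D = 0` -/
theorem trdeg_top {N : ℕ} (q : Ideal (MvPolynomial (Fin N) ℂ)) (hq : q.IsPrime)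
    (h : ∀ i, (X i : MvPolynomial (Fin N) ℂ) ∈ q) :
    Algebra.trdeg ℂ (MvPolynomial (Fin N) ℂ ⧸ q) = 0 := by
  have hsurj : Function.Surjective (algebraMap ℂ (MvPolynomial (Fin N) ℂ ⧸ q)) := by
    intro z
    obtain ⟨g, rfl⟩ := Ideal.Quotient.mk_surjective z
    induction g using MvPolynomial.induction_on with
    | C a => exact ⟨a, rfl⟩
    | add p r hp hr =>
      obtain ⟨a, ha⟩ := hp
      obtain ⟨b, hb⟩ := hr
      exact ⟨a + b, by rw [map_add, map_add, ha, hb]⟩
    | mul_X p i hp =>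
      refine ⟨0, ?_⟩
      rw [map_zero, map_mul, Ideal.Quotient.eq_zero_iff_mem.2 (h i), mul_zero]
  have : Nontrivial (MvPolynomial (Fin N) ℂ ⧸ q) := Ideal.Quotient.nontrivial_iff.2 hq.ne_top
  have : Algebra.IsIntegral ℂ (MvPolynomial (Fin N) ℂ ⧸ q) := Algebra.IsIntegral.of_surjective
    (Algebra.ofId ℂ (MvPolynomial (Fin N) ℂ ⧸ q)) hsurj
  exact trdeg_eq_zero

end BGIM

theorem specBGI : SpecBGI := by
  intro N s f I q hq hhom hIq hz hd
  have := hq
  have hx : ∃ i, (X i : MvPolynomial (Fin N) ℂ) ∉ q := by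
    by_contra hcon
    push Not at hcon
    rw [BGIM.trdeg_top q hq hcon] at hd
    have h2 : s + 2 ≤ 0 := by exact_mod_cast hd
    omega
  obtain ⟨i, hi⟩ := hx
  have hle : vanI I f s ≤ q := by
    intro g hg
    have h1 : X i * g ∈ vanishingIdeal ℂ (zeroLocus ℂ q) := by
      rw [mem_vanishingIdeal_iff]
      intro x hxz
      rw [mem_zeroLocus_iff] at hxz
      have hxz' : ∀ g ∈ q, eval x g = 0 := by
        intro g hg
        have := hxz g hg
        simpa [aeval_eq_eval] using this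
      rw [map_mul]
      rcases eq_or_ne x 0 with rfl | hx0
      · simp
      · have h2 : eval x g = 0 := hg x hx0 (fun h hh => hxz' h (hIq hh)) (hz x hx0 hxz')
        have h3 : (aeval x) g = (0 : ℂ) := by simpa [aeval_eq_eval] using h2
        rw [h3, mul_zero]
    rw [IsPrime.vanishingIdeal_zeroLocus] at h1
    exact (hq.mem_or_mem h1).resolve_left hi
  obtain ⟨P, hP, hPq⟩ := Ideal.exists_minimalPrimes_le hle
  refine ⟨P, hP, hd.trans ?_⟩
  exact trdeg_le_of_surjective (Ideal.Quotient.factorₐ ℂ hPq)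
    (Ideal.Quotient.factor_surjective hPq)

end Pool.Agent.Lib.MPc9b009.PS
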