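import Pool.Agent.Lib.MP_c9b009_ag.PS.Spec

/-!
# MP_c9b009_ag, row PS, module CHS: Stokes in a chart
-/

set_option autoImplicit false

namespace Pool.Agent.Lib.MPc9b009.PS

open MvPolynomial Pool.Agent.Lib.MPc9b009.B5 Pool.Agent.Lib.MPc9b009.OD MeasureTheory

namespace CHSM

theorem dbar_add {k : ℕ} (φ : Cn k → ℂ) (y v w : Cn k) :
    Dbar φ y (v + w) = Dbar φ y v + Dbar φ y w := by
  unfold Dbar
  rw [smul_add, map_add, map_add]
  ring

theorem dbar_smul {k : ℕ} (φ : Cn k → ℂ) (y v : Cn k) (t : ℂ) :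
    Dbar φ y (t • v) = (starRingEnd ℂ) t * Dbar φ y v := by
  unfold Dbar
  have e1 : t • v = (t.re : ℝ) • v + (t.im : ℝ) • (Complex.I • v) := by
    ext m
    simp only [Pi.add_apply, Pi.smul_apply, smul_eq_mul, Complex.real_smul]
    conv_lhs => rw [← Complex.re_add_im t]
    ring
  have e2 : Complex.I • (t • v) = (t.re : ℝ) • (Complex.I • v) + (-t.im : ℝ) • v := by
    ext m
    simp only [Pi.add_apply, Pi.smul_apply, smul_eq_mul, Complex.real_smul, Complex.ofReal_neg]
    conv_lhs => rw [← Complex.re_add_im t]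
    linear_combination (t.im : ℂ) * v m * Complex.I_sq
  have e3 : (starRingEnd ℂ) t = (t.re : ℂ) - t.im * Complex.I := by
    apply Complex.ext <;> simp
  have hL : ∀ (a : ℝ) (w : Cn k), fderiv ℝ φ y (a • w) = (a : ℂ) * fderiv ℝ φ y w := by
    intro a w
    rw [(fderiv ℝ φ y).map_smul, Complex.real_smul]
  rw [e2, e1, map_add, map_add, hL, hL, hL, hL, e3, Complex.ofReal_neg]
  linear_combination ((t.im : ℂ) * (fderiv ℝ φ y) (Complex.I • v) / 2) * Complex.I_sq

theorem dbar_zero {k : ℕ} (φ : Cn k → ℂ) (y : Cn k) : Dbar φ y 0 = 0 := by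
  unfold Dbar
  rw [smul_zero, map_zero, mul_zero, add_zero, zero_div]

theorem dbar_sum {k : ℕ} {ι : Type} (s : Finset ι) (φ : Cn k → ℂ) (y : Cn k) (v : ι → Cn k) :
    Dbar φ y (∑ j ∈ s, v j) = ∑ j ∈ s, Dbar φ y (v j) := by
  classical
  induction s using Finset.induction_on with
  | empty => simp [dbar_zero]
  | insert a s ha ih => rw [Finset.sum_insert ha, Finset.sum_insert ha, dbar_add, ih]

theorem chain {N k : ℕ} {G : Cn k → Cn N} {Φ : Cn N → ℂ} {φ : Cn k → ℂ} {y : Cn k}
    (hG : DifferentiableAt ℂ G y) (hΦ : DifferentiableAt ℝ Φ (G y))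
    (he : φ =ᶠ[nhds y] fun z => Φ (G z)) (v : Cn k) :
    Dbar φ y v = Dbar Φ (G y) (fderiv ℂ G y v) := by
  have h1 : fderiv ℝ φ y = (fderiv ℝ Φ (G y)).comp (fderiv ℝ G y) := by
    rw [he.fderiv_eq]
    exact fderiv_comp y hΦ (hG.restrictScalars ℝ)
  have h2 : ∀ w, fderiv ℝ G y w = fderiv ℂ G y w := by
    intro w
    rw [(hG.hasFDerivAt.restrictScalars ℝ).fderiv]
    rfl
  unfold Dbar
  rw [h1, ContinuousLinearMap.comp_apply, ContinuousLinearMap.comp_apply, h2, h2, map_smul]

theorem expand {k : ℕ} (L : Cn k →L[ℂ] ℂ) (v : Cn k) :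
    ∑ m, L (Pi.single m 1) * v m = L v := by
  conv_rhs => rw [← Finset.univ_sum_single v]
  rw [map_sum]
  refine Finset.sum_congr rfl fun m _ => ?_
  have : (Pi.single m (v m) : Cn k) = v m • Pi.single m (1 : ℂ) := by
    rw [← Pi.single_smul, smul_eq_mul, mul_one]
  rw [this, map_smul, smul_eq_mul, mul_comm]

section

variable {N k : ℕ} {M : Set (Cn N)} {T : Cn N → Submodule ℂ (Cn N)}

theorem contDiffOn_A (D : Dens N k M T) (c : Cht N k M T) : ContDiffOn ℂ 1 (D.A c) c.B := by
  have h1 : ContDiffOn ℂ 1 (fderiv ℂ c.G) c.B :=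
    c.sm.fderiv_of_isOpen c.oB (by norm_num)
  exact h1.clm_apply (D.sm c)

/-- `A` is homogeneous of degree `-(k-1)`. -/
theorem fderiv_A (hBAS : SpecBAS) (hC : Cone N k M T) (D : Dens N k M T) (c : Cht N k M T)
    {y : Cn k} (hy : y ∈ c.B) : fderiv ℂ (D.A c) y y = -((k : ℂ) - 1) • D.A c y := by
  obtain ⟨-, -, h3, -⟩ := hBAS N k M T hC c y hy
  have hn : c.B ∈ nhds y := c.oB.mem_nhds hy
  have h1 : DifferentiableAt ℂ (fderiv ℂ c.G) y :=
    ((c.sm.fderiv_of_isOpen (m := 1) c.oB (by norm_num)).contDiffAt hn).differentiableAt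
      (by norm_num)
  have h2 : DifferentiableAt ℂ (D.w c) y :=
    ((D.sm c).contDiffAt hn).differentiableAt (by norm_num)
  have h4 := (h1.hasFDerivAt.clm_apply h2.hasFDerivAt).fderiv
  have h5 : fderiv ℂ (D.A c) y y = fderiv ℂ c.G y (fderiv ℂ (D.w c) y y) +
      (fderiv ℂ (fderiv ℂ c.G) y y) (D.w c y) := by
    have e : D.A c = fun z => (fderiv ℂ c.G z) (D.w c z) := rfl
    rw [e, h4]
    rfl
  have h6 : (fderiv ℂ (fderiv ℂ c.G) y y) (D.w c y) = 0 := by
    have h7 := (h1.hasFDerivAt.clm_apply (hasFDerivAt_const (D.w c y) y)).fderiv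
    have h8 := h3 (D.w c y)
    rw [h7] at h8
    simpa using h8
  rw [h5, h6, add_zero, D.hom c y hy, map_smul]
  rfl

/-- The vector fields `b^(j)`. -/
noncomputable def bj (D : Dens N k M T) (c : Cht N k M T) (j : Fin N) (y : Cn k) : Cn k :=
  D.A c y j • y - c.G y j • D.w c y

theorem contDiffOn_G (c : Cht N k M T) (j : Fin N) : ContDiffOn ℂ 1 (fun y => c.G y j) c.B :=
  (contDiffOn_pi.1 (c.sm.of_le (by norm_num))) j

theorem contDiffOn_Aj (D : Dens N k M T) (c : Cht N k M T) (j : Fin N) :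
    ContDiffOn ℂ 1 (fun y => D.A c y j) c.B :=
  (contDiffOn_pi.1 (contDiffOn_A D c)) j

theorem contDiffOn_bj (D : Dens N k M T) (c : Cht N k M T) (j : Fin N) :
    ContDiffOn ℂ 1 (bj D c j) c.B :=
  ((contDiffOn_Aj D c j).smul contDiffOn_id).sub ((contDiffOn_G c j).smul (D.sm c))

theorem div_bj (hBAS : SpecBAS) (hC : Cone N k M T) (D : Dens N k M T) (c : Cht N k M T)
    (j : Fin N) {y : Cn k} (hy : y ∈ c.B) :
    ∑ m, fderiv ℂ (bj D c j) y (Pi.single m 1) m = 0 := by
  have hn : c.B ∈ nhds y := c.oB.mem_nhds hy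
  have hA : DifferentiableAt ℂ (D.A c) y :=
    ((contDiffOn_A D c).contDiffAt hn).differentiableAt (by norm_num)
  have hG : DifferentiableAt ℂ c.G y := (c.sm.contDiffAt hn).differentiableAt (by norm_num)
  have hw : DifferentiableAt ℂ (D.w c) y :=
    ((D.sm c).contDiffAt hn).differentiableAt (by norm_num)
  have hAj : HasFDerivAt (fun z => D.A c z j)
      ((ContinuousLinearMap.proj j).comp (fderiv ℂ (D.A c) y)) y :=
    (ContinuousLinearMap.proj (R := ℂ) (φ := fun _ : Fin N => ℂ) j).hasFDerivAt.comp y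
      hA.hasFDerivAt
  have hGj : HasFDerivAt (fun z => c.G z j)
      ((ContinuousLinearMap.proj j).comp (fderiv ℂ c.G y)) y :=
    (ContinuousLinearMap.proj (R := ℂ) (φ := fun _ : Fin N => ℂ) j).hasFDerivAt.comp y
      hG.hasFDerivAt
  have hb := ((hAj.smul (hasFDerivAt_id y)).sub (hGj.smul hw.hasFDerivAt)).fderiv
  have hb' : fderiv ℂ (bj D c j) y = _ := hb
  rw [hb']
  have e : ∀ m : Fin k, ((D.A c y j • ContinuousLinearMap.id ℂ (Cn k) +
      ((ContinuousLinearMap.proj j).comp (fderiv ℂ (D.A c) y)).smulRight (id y)) -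
      (c.G y j • fderiv ℂ (D.w c) y +
      ((ContinuousLinearMap.proj j).comp (fderiv ℂ c.G y)).smulRight (D.w c y)))
      (Pi.single m 1) m = D.A c y j +
      ((ContinuousLinearMap.proj j).comp (fderiv ℂ (D.A c) y)) (Pi.single m 1) * y m -
      c.G y j * fderiv ℂ (D.w c) y (Pi.single m 1) m -
      ((ContinuousLinearMap.proj j).comp (fderiv ℂ c.G y)) (Pi.single m 1) * D.w c y m := by
    intro m
    simp only [_root_.sub_apply, _root_.add_apply,
      _root_.smul_apply, ContinuousLinearMap.id_apply,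
      ContinuousLinearMap.smulRight_apply, Pi.sub_apply, Pi.add_apply, Pi.smul_apply, smul_eq_mul,
      Pi.single_eq_same, mul_one, id]
    ring
  rw [Finset.sum_congr rfl fun m _ => e m]
  rw [Finset.sum_sub_distrib, Finset.sum_sub_distrib, Finset.sum_add_distrib, expand, expand,
    ← Finset.mul_sum, D.div c y hy, Finset.sum_const, Finset.card_univ, Fintype.card_fin]
  have h1 : ((ContinuousLinearMap.proj j).comp (fderiv ℂ (D.A c) y) : Cn k →L[ℂ] ℂ) y =
      -((k : ℂ) - 1) * D.A c y j := by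
    rw [ContinuousLinearMap.comp_apply, fderiv_A hBAS hC D c hy]
    rfl
  have h2 : ((ContinuousLinearMap.proj j).comp (fderiv ℂ c.G y) : Cn k →L[ℂ] ℂ) (D.w c y) =
      D.A c y j := rfl
  rw [h1, h2, nsmul_eq_mul]
  ring

end

end CHSM

open CHSM in
theorem specCHS (hBAS : SpecBAS) (hDBR : SpecDBR) : SpecCHS := by
  classical
  intro N k M T hC D c Φ K i hΦ hK hKM hKW hKs
  -- the compact set
  obtain ⟨S, hS⟩ : ∃ S : Set (Cn k), S = (fun z : Cn N => fun m => z (c.I m)) '' K := ⟨_, rfl⟩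
  have hSc : IsCompact S := by
    rw [hS]
    exact hK.image (continuous_pi fun m => continuous_apply _)
  have hSB : S ⊆ c.B := by
    rw [hS]
    rintro _ ⟨z, hz, rfl⟩
    exact (c.inv z (hKM hz) (hKW hz)).1
  have hScl : IsClosed S := hSc.isClosed
  obtain ⟨φ, hφ⟩ : ∃ φ : Cn k → ℂ, φ = fun y => if y ∈ c.B then Φ (c.G y) else 0 := ⟨_, rfl⟩
  have hφS : ∀ y, y ∉ S → φ y = 0 := by
    intro y hy
    rw [hφ]
    by_cases hB : y ∈ c.B
    · simp only [hB, if_true]
      by_contra h0
      apply hy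
      have h1 : c.G y ∈ K := hKs _ (c.mem y hB).1 (c.mem y hB).2 (subset_tsupport _ h0)
      rw [hS]
      exact ⟨c.G y, h1, funext fun m => c.co y hB m⟩
    · simp only [hB, if_false]
  have hev : ∀ y, y ∉ S → φ =ᶠ[nhds y] fun _ => 0 := by
    intro y hy
    filter_upwards [hScl.isOpen_compl.mem_nhds hy] with z hz
    exact hφS z hz
  have hev2 : ∀ y ∈ c.B, φ =ᶠ[nhds y] fun z => Φ (c.G z) := by
    intro y hy
    filter_upwards [c.oB.mem_nhds hy] with z hz
    rw [hφ]
    simp only [hz, if_true]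
  have hφc : ContDiff ℝ 1 φ := by
    rw [contDiff_iff_contDiffAt]
    intro y
    by_cases hB : y ∈ c.B
    · have h1 : ContDiffAt ℝ 1 c.G y :=
        ((c.sm.contDiffAt (c.oB.mem_nhds hB)).restrict_scalars ℝ).of_le (by norm_num)
      have h2 : ContDiffAt ℝ 1 (fun z => Φ (c.G z)) y := hΦ.contDiffAt.comp y h1
      exact h2.congr_of_eventuallyEq (hev2 y hB)
    · have h1 : y ∉ S := fun h => hB (hSB h)
      exact contDiffAt_const.congr_of_eventuallyEq (hev y h1)
  have hts : tsupport φ ⊆ S := by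
    refine closure_minimal ?_ hScl
    intro y hy
    by_contra h
    exact hy (hφS y h)
  have hcs : HasCompactSupport φ := hSc.of_isClosed_subset (isClosed_tsupport φ) hts
  have hd0 : ∀ y, y ∉ S → ∀ v, Dbar φ y v = 0 := by
    intro y hy v
    unfold Dbar
    rw [(hev y hy).fderiv_eq]
    simp
  -- the integrals
  obtain ⟨F, hF⟩ : ∃ F : Fin N → Cn k → ℂ, F = fun j y =>
    (D.A c y i * c.G y j) * Dbar φ y (bj D c j y) := ⟨_, rfl⟩
  have hint0 : ∀ j, ∫ y, F j y = 0 := by
    intro j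
    rw [hF]
    exact hDBR k c.B (fun y => D.A c y i * c.G y j) (bj D c j) φ c.oB
      ((contDiffOn_Aj D c i).mul (contDiffOn_G c j)) (contDiffOn_bj D c j)
      (fun y hy => div_bj hBAS hC D c j hy) hφc hcs (hts.trans hSB)
  have hF0 : ∀ j y, y ∉ S → F j y = 0 := by
    intro j y hy
    rw [hF]
    simp only [hd0 y hy, mul_zero]
  have hFc : ∀ j, Continuous (F j) := by
    intro j
    rw [continuous_iff_continuousAt]
    intro y
    by_cases hB : y ∈ c.B
    · have hn : c.B ∈ nhds y := c.oB.mem_nhds hB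
      have h1 : ContinuousAt (fun y => D.A c y i * c.G y j) y :=
        (((contDiffOn_Aj D c i).mul (contDiffOn_G c j)).contDiffAt hn).continuousAt
      have h2 : ContinuousAt (bj D c j) y := ((contDiffOn_bj D c j).contDiffAt hn).continuousAt
      have h3 : Continuous (fderiv ℝ φ) := hφc.continuous_fderiv (by norm_num)
      have h4 : ContinuousAt (fun z => Dbar φ z (bj D c j z)) y := by
        unfold Dbar
        exact ((h3.continuousAt.clm_apply h2).add (continuousAt_const.mul
          (h3.continuousAt.clm_apply (h2.const_smul Complex.I)))).div_const 2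
      rw [hF]
      exact h1.mul h4
    · have h1 : y ∉ S := fun h => hB (hSB h)
      have h2 : F j =ᶠ[nhds y] fun _ => 0 := by
        filter_upwards [hScl.isOpen_compl.mem_nhds h1] with z hz
        exact hF0 j z hz
      exact continuousAt_const.congr h2.symm
  have hFi : ∀ j, Integrable (F j) := by
    intro j
    refine (hFc j).integrable_of_hasCompactSupport ?_
    refine hSc.of_isClosed_subset (isClosed_tsupport _) (closure_minimal ?_ hScl)
    intro y hy
    by_contra h
    exact hy (hF0 j y h)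
  have hsum : ∀ y ∈ c.B, ∑ j, F j y =
      D.A c y i * Dbar Φ (c.G y) (bet (c.G y) (D.A c y)) := by
    intro y hy
    have hG : DifferentiableAt ℂ c.G y :=
      (c.sm.contDiffAt (c.oB.mem_nhds hy)).differentiableAt (by norm_num)
    have hP : DifferentiableAt ℝ Φ (c.G y) := (hΦ.differentiable (by norm_num)) _
    obtain ⟨-, h2, -, -⟩ := hBAS N k M T hC c y hy
    have e1 : ∀ j, F j y = D.A c y i * Dbar Φ (c.G y)
        ((starRingEnd ℂ) (c.G y j) • (D.A c y j • c.G y - c.G y j • D.A c y)) := by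
      intro j
      have e3 : fderiv ℂ c.G y (bj D c j y) = D.A c y j • c.G y - c.G y j • D.A c y := by
        unfold bj
        rw [map_sub, map_smul, map_smul, h2]
        rfl
      rw [hF]
      simp only
      rw [chain hG hP (hev2 y hy), e3, dbar_smul, Complex.conj_conj]
      ring
    rw [Finset.sum_congr rfl fun j _ => e1 j, ← Finset.mul_sum, ← dbar_sum]
    congr 2
    unfold bet her
    rw [Finset.sum_smul, Finset.sum_smul, ← Finset.sum_sub_distrib]
    refine Finset.sum_congr rfl fun j _ => ?_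
    rw [smul_sub, smul_smul, smul_smul, mul_comm ((starRingEnd ℂ) (c.G y j)),
      mul_comm ((starRingEnd ℂ) (c.G y j))]
  have hIS : Integrable (fun y => ∑ j, F j y) := integrable_finsetSum _ fun j _ => hFi j
  constructor
  · exact hIS.integrableOn.congr_fun (fun y hy => hsum y hy) c.oB.measurableSet
  · rw [← setIntegral_congr_fun c.oB.measurableSet (fun y hy => hsum y hy)]
    rw [setIntegral_eq_integral_of_forall_compl_eq_zero]
    · rw [integral_finsetSum _ fun j _ => hFi j]
      exact Finset.sum_eq_zero fun j _ => hint0 j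
    · intro y hy
      exact Finset.sum_eq_zero fun j _ => hF0 j y fun h => hy (hSB h)

end Pool.Agent.Lib.MPc9b009.PS
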