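import Pool.Agent.Lib.MP_c9b009_ag.PS.Spec

/-!
# MP_c9b009_ag, row PS, module CMP: the components of `X_{≤ s}` are Poisson subvarieties
-/

set_option autoImplicit false

namespace Pool.Agent.Lib.MPc9b009.PS

open MvPolynomial Pool.Agent.Lib.MPc9b009.B5 Pool.Agent.Lib.MPc9b009.OD MeasureTheory

namespace CMPM

lemma mem_of_X {N : ℕ} {q P : Ideal (MvPolynomial (Fin N) ℂ)} (hP : P.IsPrime) (hqP : q ≤ P)
    (hX : ∀ i, (X i : MvPolynomial (Fin N) ℂ) ∈ q) : P ≤ q := by
  intro p hp
  have h1 : p - C (coeff 0 p) ∈ Ideal.span ((X : Fin N → MvPolynomial (Fin N) ℂ) '' Set.univ) := by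
    rw [MvPolynomial.mem_ideal_span_X_image]
    intro m hm
    by_contra hcon
    push Not at hcon
    have hm0 : m = 0 := by
      ext i
      exact hcon i (Set.mem_univ _)
    rw [MvPolynomial.mem_support_iff, hm0, coeff_sub, coeff_C, if_pos rfl, sub_self] at hm
    exact hm rfl
  have h2 : Ideal.span ((X : Fin N → MvPolynomial (Fin N) ℂ) '' Set.univ) ≤ q := by
    rw [Ideal.span_le]
    rintro _ ⟨i, _, rfl⟩
    exact hX i
  have h3 : p - C (coeff 0 p) ∈ q := h2 h1
  have h4 : C (coeff 0 p) ∈ P := by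
    have := P.sub_mem hp (hqP h3)
    rwa [sub_sub_cancel] at this
  have h5 : coeff 0 p = 0 := by
    by_contra hne
    apply hP.ne_top
    rw [Ideal.eq_top_iff_one]
    have := P.mul_mem_left (C (coeff 0 p)⁻¹) h4
    rwa [← C_mul, inv_mul_cancel₀ hne, C_1] at this
  rwa [h5, C_0, sub_zero] at h3

end CMPM

theorem specCMP (hXST : SpecXST) (hRKU : SpecRKU) (hRKC : SpecRKC) : SpecCMP := by
  intro N s g I hs hI hst hjac P hP
  set K : Ideal (MvPolynomial (Fin N) ℂ) := I ⊔ mI (s + 3) g ⊔
    Ideal.span {z | ∃ (A : Fin (s + 3) → Fin N) (J : Fin (s + 2) → Fin N), z = xmnr g.f A J}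
    with hK
  obtain ⟨hKst, hKhom⟩ := hXST N (s + 2) g I hI hst hjac
  have hPp : P.IsPrime := hP.1.1
  have hIK : I ≤ K := le_sup_left.trans le_sup_left
  have hKv : K ≤ vanI I g.f s := by
    rw [hK]
    refine sup_le (sup_le ?_ ?_) ?_
    · intro h hh x _ hxI _
      exact hxI h hh
    · rw [mI, Ideal.span_le]
      rintro _ ⟨A, B, rfl⟩ x hx _ hr
      exact (hRKC N s g x hs hx hr).1 A B
    · rw [Ideal.span_le]
      rintro _ ⟨A, B, rfl⟩ x hx _ hr
      exact (hRKC N s g x hs hx hr).2 A B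
  have hKP : K ≤ P := hKv.trans hP.1.2
  obtain ⟨q, hq, hqP⟩ := Ideal.exists_minimalPrimes_le hKP
  have hqp : q.IsPrime := hq.1.1
  have hKq : K ≤ q := hq.1.2
  have key : ∀ h ∈ vanI I g.f s, ∀ i, X i * h ∈ q := by
    intro h hh i
    have h1 : X i * h ∈ vanishingIdeal ℂ (zeroLocus ℂ q) := by
      rw [mem_vanishingIdeal_iff]
      intro x hx
      rw [mem_zeroLocus_iff] at hx
      have hx' : ∀ z ∈ q, eval x z = 0 := fun z hz => by
        have := hx z hz
        simpa [aeval_eq_eval] using this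
      suffices hs' : eval x (X i * h) = 0 by simpa [aeval_eq_eval] using hs'
      rw [map_mul, eval_X]
      by_cases hx0 : x = 0
      · rw [hx0]
        simp
      · have hxI : x ∈ Zer I := fun z hz => hx' z (hKq (hIK hz))
        have hr : rk g.f x ≤ s := by
          apply hRKU N s g x hs hx0
          · intro A B
            apply hx'
            apply hKq
            exact Ideal.mem_sup_left (Ideal.mem_sup_right (Ideal.subset_span ⟨A, B, rfl⟩))
          · intro A B
            apply hx'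
            apply hKq
            exact Ideal.mem_sup_right (Ideal.subset_span ⟨A, B, rfl⟩)
        rw [hh x hx0 hxI hr, mul_zero]
    rwa [IsPrime.vanishingIdeal_zeroLocus] at h1
  have hPq : P = q := by
    by_cases hX : ∀ i, (X i : MvPolynomial (Fin N) ℂ) ∈ q
    · exact le_antisymm (CMPM.mem_of_X hPp hqP hX) hqP
    · push Not at hX
      obtain ⟨i, hi⟩ := hX
      have hvq : vanI I g.f s ≤ q := by
        intro h hh
        exact (hqp.mem_or_mem (key h hh i)).resolve_left hi
      exact le_antisymm (hP.2 ⟨hqp, hvq⟩ hqP) hqP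
  refine ⟨hPp, ?_, hIK.trans hKP, ?_⟩
  · rw [hPq]
    exact specHMIN N K hKhom q hq
  · rw [hPq]
    exact specDMIN N N g.f K hKst q hq

end Pool.Agent.Lib.MPc9b009.PS
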