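import Pool.Agent.Lib.MP_c9b009_ag.PS.RKU
import Pool.Agent.Lib.MP_c9b009_ag.PS.BGI

/-!
# MP_c9b009_ag, row PS, module CRI: the criterion
-/

set_option autoImplicit false

namespace Pool.Agent.Lib.MPc9b009.PS

open MvPolynomial Pool.Agent.Lib.MPc9b009.B5 Pool.Agent.Lib.MPc9b009.OD

theorem specCRI (hRKU : SpecRKU) (hBGI : SpecBGI) : SpecCRI := by
  intro N s g I p hs hIp hp hhom hst hmin hdim
  have hSEL : SpecSEL := specSEL specMONO specHMIN
  have hSOP : SpecSOP := specSOP hSEL specFINI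
  have hTRA : SpecTRA := specTRA (specTRH specTRV)
  have hBST : SpecBST := specBST hSOP hTRA specDEX specCRA
  obtain ⟨q, hq, hqh, hpq, hx, hd⟩ := hBST N N (s + 2) 2 g.f p hp hhom g.quad hst hmin
    (by omega) hdim
  refine hBGI N s g.f I q hq hqh (hIp.trans hpq) (fun x hx0 hz => ?_) hd
  exact hRKU N s g x hs hx0 (fun I J => hz _ (hpq (hmin I J))) (fun I J => hz _ (hx I J))

end Pool.Agent.Lib.MPc9b009.PS
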