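import Pool.Agent.Lib.MP_c9b009_ag.PS.Spec

/-!
# MP_c9b009_ag, row PS, module DBR: integration by parts
-/

set_option autoImplicit false

namespace Pool.Agent.Lib.MPc9b009.PS

open MvPolynomial Pool.Agent.Lib.MPc9b009.B5 Pool.Agent.Lib.MPc9b009.OD MeasureTheory

namespace DBRM

theorem int0 {k : ℕ} (ψ : Cn k → ℂ) (h : ContDiff ℝ 1 ψ) (hc : HasCompactSupport ψ) (v : Cn k) :
    ∫ y, fderiv ℝ ψ y v = 0 := by
  have h1 : Integrable (fun x => fderiv ℝ ψ x v) (volume : Measure (Cn k)) := by
    refine Continuous.integrable_of_hasCompactSupport ?_ (hc.fderiv_apply (𝕜 := ℝ) v)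
    exact (h.continuous_fderiv (by norm_num)).clm_apply continuous_const
  have h2 : Integrable ψ (volume : Measure (Cn k)) :=
    h.continuous.integrable_of_hasCompactSupport hc
  have key := integral_mul_fderiv_eq_neg_fderiv_mul_of_integrable
    (μ := (volume : Measure (Cn k))) (f := fun _ : Cn k => (1 : ℂ)) (g := ψ) (v := v)
    (by simp) (by simpa using h1) (by simpa using h2)
    (fun x _ => by fun_prop) (fun x _ => (h.differentiable (by norm_num)) x)
  simpa using key

theorem dint {k : ℕ} (ψ : Cn k → ℂ) (h : ContDiff ℝ 1 ψ) (hc : HasCompactSupport ψ) (v : Cn k) :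
    Integrable (fun x => fderiv ℝ ψ x v) (volume : Measure (Cn k)) := by
  refine Continuous.integrable_of_hasCompactSupport ?_ (hc.fderiv_apply (𝕜 := ℝ) v)
  exact (h.continuous_fderiv (by norm_num)).clm_apply continuous_const

theorem Dbar_int {k : ℕ} (ψ : Cn k → ℂ) (h : ContDiff ℝ 1 ψ) (hc : HasCompactSupport ψ)
    (v : Cn k) :
    Integrable (fun y => Dbar ψ y v) (volume : Measure (Cn k)) ∧ ∫ y, Dbar ψ y v = 0 := by
  have h1 := dint ψ h hc v
  have h2 := (dint ψ h hc (Complex.I • v)).const_mul Complex.I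
  unfold Dbar
  refine ⟨(h1.add h2).div_const 2, ?_⟩
  rw [integral_div, integral_add h1 h2, integral_const_mul, int0 ψ h hc v,
    int0 ψ h hc (Complex.I • v)]
  simp

theorem Dbar_smul {k : ℕ} (φ : Cn k → ℂ) (y v : Cn k) (c : ℂ) :
    Dbar φ y (c • v) = (starRingEnd ℂ) c * Dbar φ y v := by
  unfold Dbar
  have e1 : c • v = c.re • v + c.im • (Complex.I • v) := by
    ext m
    simp only [Pi.smul_apply, Pi.add_apply, smul_eq_mul, Complex.real_smul]
    conv_lhs => rw [← Complex.re_add_im c]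
    ring
  have e2 : Complex.I • (c • v) = c.re • (Complex.I • v) - c.im • v := by
    ext m
    simp only [Pi.smul_apply, Pi.sub_apply, smul_eq_mul, Complex.real_smul]
    conv_lhs => rw [← Complex.re_add_im c]
    linear_combination (c.im : ℂ) * v m * Complex.I_sq
  have L1 : fderiv ℝ φ y (c • v) =
      c.re • fderiv ℝ φ y v + c.im • fderiv ℝ φ y (Complex.I • v) := by
    rw [e1, map_add]
    congr 1
    · exact (fderiv ℝ φ y).map_smul c.re v
    · exact (fderiv ℝ φ y).map_smul c.im (Complex.I • v)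
  have L2 : fderiv ℝ φ y (Complex.I • (c • v)) =
      c.re • fderiv ℝ φ y (Complex.I • v) - c.im • fderiv ℝ φ y v := by
    rw [e2, map_sub]
    congr 1
    · exact (fderiv ℝ φ y).map_smul c.re (Complex.I • v)
    · exact (fderiv ℝ φ y).map_smul c.im v
  rw [L1, L2]
  have e3 : (starRingEnd ℂ) c = (c.re : ℂ) - c.im * Complex.I := by
    apply Complex.ext <;> simp
  rw [e3]
  simp only [Complex.real_smul]
  linear_combination (-(c.im : ℂ)/2 * fderiv ℝ φ y (Complex.I • v)) * Complex.I_sq * (-1)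

theorem Dbar_add {k : ℕ} (φ : Cn k → ℂ) (y v w : Cn k) :
    Dbar φ y (v + w) = Dbar φ y v + Dbar φ y w := by
  unfold Dbar
  rw [smul_add, map_add, map_add]
  ring

theorem Dbar_zero {k : ℕ} (φ : Cn k → ℂ) (y : Cn k) : Dbar φ y 0 = 0 := by
  unfold Dbar
  simp

theorem Dbar_sum {k : ℕ} (φ : Cn k → ℂ) (y : Cn k) {ι : Type*} (s : Finset ι) (v : ι → Cn k) :
    Dbar φ y (∑ i ∈ s, v i) = ∑ i ∈ s, Dbar φ y (v i) := by
  classical
  induction s using Finset.induction_on with
  | empty => simp [Dbar_zero]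
  | insert i s hi ih => rw [Finset.sum_insert hi, Finset.sum_insert hi, Dbar_add, ih]

theorem Dbar_vec {k : ℕ} (φ : Cn k → ℂ) (y v : Cn k) :
    Dbar φ y v = ∑ m, (starRingEnd ℂ) (v m) * Dbar φ y (Pi.single m 1) := by
  have e : v = ∑ m, v m • (Pi.single m (1 : ℂ) : Cn k) := by
    ext j
    simp [Finset.sum_apply, Pi.single_apply]
  conv_lhs => rw [e]
  rw [Dbar_sum]
  exact Finset.sum_congr rfl fun m _ => Dbar_smul _ _ _ _

theorem Dbar_mul {k : ℕ} {f g : Cn k → ℂ} {y : Cn k} (hf : DifferentiableAt ℝ f y)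
    (hg : DifferentiableAt ℝ g y) (v : Cn k) :
    Dbar (fun z => f z * g z) y v = f y * Dbar g y v + g y * Dbar f y v := by
  unfold Dbar
  rw [fderiv_fun_mul hf hg]
  simp only [add_apply, smul_apply, smul_eq_mul]
  ring

theorem Dbar_hol {k : ℕ} {f : Cn k → ℂ} {y : Cn k} (hf : DifferentiableAt ℂ f y) (v : Cn k) :
    Dbar f y v = 0 := by
  unfold Dbar
  rw [hf.fderiv_restrictScalars ℝ]
  simp only [ContinuousLinearMap.coe_restrictScalars', map_smul, smul_eq_mul]
  linear_combination (fderiv ℂ f y v / 2) * Complex.I_sq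

theorem Dbar_conj {k : ℕ} {f : Cn k → ℂ} {y : Cn k} (hf : DifferentiableAt ℂ f y) (v : Cn k) :
    Dbar (fun z => (starRingEnd ℂ) (f z)) y v = (starRingEnd ℂ) (fderiv ℂ f y v) := by
  have h1 : HasFDerivAt (𝕜 := ℝ) (fun z => (starRingEnd ℂ) (f z))
      ((Complex.conjCLE : ℂ →L[ℝ] ℂ).comp ((fderiv ℂ f y).restrictScalars ℝ)) y := by
    have h2 : HasFDerivAt (𝕜 := ℝ) f ((fderiv ℂ f y).restrictScalars ℝ) y :=
      hf.hasFDerivAt.restrictScalars ℝ
    exact (Complex.conjCLE : ℂ →L[ℝ] ℂ).hasFDerivAt.comp y h2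
  unfold Dbar
  rw [h1.fderiv]
  simp only [ContinuousLinearMap.coe_comp, Function.comp_apply,
    ContinuousLinearMap.coe_restrictScalars', map_smul, smul_eq_mul,
    ContinuousLinearEquiv.coe_coe, Complex.conjCLE_apply, map_mul, Complex.conj_I]
  linear_combination (-(starRingEnd ℂ) (fderiv ℂ f y v) / 2) * Complex.I_sq

end DBRM

open DBRM in
theorem specDBR : SpecDBR := by
  intro k B a b φ hB ha hb hdiv hφ hc hs
  set ψ : Fin k → Cn k → ℂ := fun m y => (a y * (starRingEnd ℂ) (b y m)) * φ y with hψ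
  have hcd : ∀ m, ContDiff ℝ 1 (ψ m) := by
    intro m
    rw [contDiff_iff_contDiffAt]
    intro y
    by_cases hy : y ∈ tsupport φ
    · have hyB := hs hy
      have h1 : ContDiffAt ℝ 1 a y := (ha.contDiffAt (hB.mem_nhds hyB)).restrict_scalars ℝ
      have h2 : ContDiffAt ℝ 1 b y := (hb.contDiffAt (hB.mem_nhds hyB)).restrict_scalars ℝ
      have h3 : ContDiffAt ℝ 1 (fun z => b z m) y := contDiffAt_pi.1 h2 m
      have h4 : ContDiffAt ℝ 1 (fun z => (starRingEnd ℂ) (b z m)) y :=
        (Complex.conjCLE.contDiff.contDiffAt (x := b y m)).comp y h3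
      exact (h1.mul h4).mul hφ.contDiffAt
    · have h0 : ψ m =ᶠ[nhds y] fun _ => 0 := by
        filter_upwards [notMem_tsupport_iff_eventuallyEq.1 hy] with z hz
        simp [hψ, hz]
      exact contDiffAt_const.congr_of_eventuallyEq h0
  have hcc : ∀ m, HasCompactSupport (ψ m) := fun m => hc.mul_left
  have hpt : ∀ y, a y * Dbar φ y (b y) = ∑ m, Dbar (ψ m) y (Pi.single m 1) := by
    intro y
    by_cases hy : y ∈ tsupport φ
    · have hyB := hs hy
      have da : DifferentiableAt ℂ a y :=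
        (ha.contDiffAt (hB.mem_nhds hyB)).differentiableAt (by norm_num)
      have db : DifferentiableAt ℂ b y :=
        (hb.contDiffAt (hB.mem_nhds hyB)).differentiableAt (by norm_num)
      have dbm : ∀ m, DifferentiableAt ℂ (fun z => b z m) y := fun m => differentiableAt_pi.1 db m
      have dar : DifferentiableAt ℝ a y := da.restrictScalars ℝ
      have dbr : ∀ m, DifferentiableAt ℝ (fun z => (starRingEnd ℂ) (b z m)) y := fun m =>
        (Complex.conjCLE.differentiableAt (x := b y m)).comp y ((dbm m).restrictScalars ℝ)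
      have dφ : DifferentiableAt ℝ φ y := (hφ.differentiable (by norm_num)) y
      have e1 : ∀ m, Dbar (ψ m) y (Pi.single m 1) =
          a y * ((starRingEnd ℂ) (b y m) * Dbar φ y (Pi.single m 1)) +
            φ y * a y * (starRingEnd ℂ) (fderiv ℂ b y (Pi.single m 1) m) := by
        intro m
        have e2 : Dbar (ψ m) y (Pi.single m 1) =
            (a y * (starRingEnd ℂ) (b y m)) * Dbar φ y (Pi.single m 1) +
              φ y * Dbar (fun z => a z * (starRingEnd ℂ) (b z m)) y (Pi.single m 1) :=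
          Dbar_mul (dar.mul (dbr m)) dφ _
        have e3 : fderiv ℂ (fun z => b z m) y (Pi.single m 1) =
            fderiv ℂ b y (Pi.single m 1) m := by
          rw [fderiv_apply db]
          rfl
        rw [e2, Dbar_mul dar (dbr m), Dbar_hol da, Dbar_conj (dbm m), e3]
        ring
      rw [Finset.sum_congr rfl fun m _ => e1 m, Finset.sum_add_distrib, ← Finset.mul_sum,
        ← Finset.mul_sum, ← map_sum, hdiv y hyB, map_zero, mul_zero, add_zero, ← Dbar_vec]
    · have h0 : φ =ᶠ[nhds y] fun _ => 0 := notMem_tsupport_iff_eventuallyEq.1 hy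
      have h1 : ∀ m, ψ m =ᶠ[nhds y] fun _ => 0 := by
        intro m
        filter_upwards [h0] with z hz
        simp [hψ, hz]
      have h2 : ∀ v, Dbar φ y v = 0 := by
        intro v
        unfold Dbar
        rw [h0.fderiv_eq]
        simp
      have h3 : ∀ m v, Dbar (ψ m) y v = 0 := by
        intro m v
        unfold Dbar
        rw [(h1 m).fderiv_eq]
        simp
      simp [h2, h3]
  simp_rw [hpt]
  rw [integral_finsetSum _ fun m _ => (Dbar_int (ψ m) (hcd m) (hcc m) _).1]
  exact Finset.sum_eq_zero fun m _ => (Dbar_int (ψ m) (hcd m) (hcc m) _).2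

end Pool.Agent.Lib.MPc9b009.PS
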