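import Pool.Agent.Lib.MP_c9b009_ag.PS.Spec

/-!
# MP_c9b009_ag, row PS, module DEN: the vector density of the form
-/

set_option autoImplicit false

namespace Pool.Agent.Lib.MPc9b009.PS

open MvPolynomial Pool.Agent.Lib.MPc9b009.B5 Pool.Agent.Lib.MPc9b009.OD MeasureTheory

namespace DENM

section alg

variable {N : ℕ} {g : Biv N} {x : Cn N}

theorem om_zero (hO : SpecOMD) {v : Cn N} (hv : v ∈ Tg g x) : om g x 0 v = 0 := by
  have h := (hO N g x).2.1 0 (Submodule.zero_mem _) 0 (Submodule.zero_mem _) v hv 1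
  rw [smul_zero, add_zero, one_mul] at h
  have h2 : om g x 0 v + om g x 0 v = om g x 0 v + 0 := by rw [← h, add_zero]
  exact add_left_cancel h2

theorem om_smul (hO : SpecOMD) {u v : Cn N} (hu : u ∈ Tg g x) (hv : v ∈ Tg g x) (t : ℂ) :
    om g x (t • u) v = t * om g x u v := by
  have h := (hO N g x).2.1 0 (Submodule.zero_mem _) u hu v hv t
  rw [zero_add, om_zero hO hv, zero_add] at h
  exact h

theorem om3 (hO : SpecOMD) {u0 u1 u2 v : Cn N} (h0 : u0 ∈ Tg g x) (h1 : u1 ∈ Tg g x)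
    (h2 : u2 ∈ Tg g x) (hv : v ∈ Tg g x) (a b c : ℂ) :
    om g x (a • u0 + b • u1 + c • u2) v = a * om g x u0 v + b * om g x u1 v + c * om g x u2 v := by
  rw [(hO N g x).2.1 _ (Submodule.add_mem _ (Submodule.smul_mem _ _ h0)
      (Submodule.smul_mem _ _ h1)) u2 h2 v hv c,
    (hO N g x).2.1 _ (Submodule.smul_mem _ _ h0) u1 h1 v hv b, om_smul hO h0 hv]

theorem om_self (hO : SpecOMD) {u : Cn N} (hu : u ∈ Tg g x) : om g x u u = 0 := by
  have h := (hO N g x).2.2.1 u hu u hu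
  have h2 : om g x u u + om g x u u = 0 := by
    nth_rewrite 1 [h]
    exact neg_add_cancel _
  have h3 : (2 : ℂ) * om g x u u = 0 := by rw [two_mul]; exact h2
  rcases mul_eq_zero.1 h3 with h4 | h4
  · norm_num at h4
  · exact h4

theorem om3r (hO : SpecOMD) {u0 u1 u2 v : Cn N} (h0 : u0 ∈ Tg g x) (h1 : u1 ∈ Tg g x)
    (h2 : u2 ∈ Tg g x) (hv : v ∈ Tg g x) (a b c : ℂ) :
    om g x v (a • u0 + b • u1 + c • u2) = a * om g x v u0 + b * om g x v u1 + c * om g x v u2 := by
  have hm : a • u0 + b • u1 + c • u2 ∈ Tg g x :=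
    Submodule.add_mem _ (Submodule.add_mem _ (Submodule.smul_mem _ _ h0)
      (Submodule.smul_mem _ _ h1)) (Submodule.smul_mem _ _ h2)
  rw [(hO N g x).2.2.1 v hv _ hm, om3 hO h0 h1 h2 hv, (hO N g x).2.2.1 v hv _ h0,
    (hO N g x).2.2.1 v hv _ h1, (hO N g x).2.2.1 v hv _ h2]
  ring

/-- the form on two combinations -/
theorem om33 (hO : SpecOMD) {u0 u1 u2 : Cn N} (h0 : u0 ∈ Tg g x) (h1 : u1 ∈ Tg g x)
    (h2 : u2 ∈ Tg g x) (a b c a' b' c' : ℂ) :
    om g x (a • u0 + b • u1 + c • u2) (a' • u0 + b' • u1 + c' • u2) =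
      (a * b' - b * a') * om g x u0 u1 + (b * c' - c * b') * om g x u1 u2 +
        (c * a' - a * c') * om g x u2 u0 := by
  have hm : a' • u0 + b' • u1 + c' • u2 ∈ Tg g x :=
    Submodule.add_mem _ (Submodule.add_mem _ (Submodule.smul_mem _ _ h0)
      (Submodule.smul_mem _ _ h1)) (Submodule.smul_mem _ _ h2)
  rw [om3 hO h0 h1 h2 hm, om3r hO h0 h1 h2 h0, om3r hO h0 h1 h2 h1, om3r hO h0 h1 h2 h2,
    om_self hO h0, om_self hO h1, om_self hO h2, (hO N g x).2.2.1 u1 h1 u0 h0,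
    (hO N g x).2.2.1 u2 h2 u1 h1, (hO N g x).2.2.1 u0 h0 u2 h2]
  ring

end alg

section chart

variable {N : ℕ} {M : Set (Cn N)} {T : Cn N → Submodule ℂ (Cn N)}

/-- the coordinate vectors -/
noncomputable def U (c : Cht N 3 M T) (y : Cn 3) (m : Fin 3) : Cn N :=
  fderiv ℂ c.G y (Pi.single m 1)

theorem fd_sum (c : Cht N 3 M T) (y v : Cn 3) :
    fderiv ℂ c.G y v = v 0 • U c y 0 + v 1 • U c y 1 + v 2 • U c y 2 := by
  have h : v = v 0 • (Pi.single 0 1 : Cn 3) + v 1 • (Pi.single 1 1 : Cn 3) +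
      v 2 • (Pi.single 2 1 : Cn 3) := by
    funext i
    fin_cases i <;> simp [Pi.single_apply]
  conv_lhs => rw [h]
  rw [map_add, map_add, map_smul, map_smul, map_smul]
  rfl

theorem U_mem (c : Cht N 3 M T) {y : Cn 3} (hy : y ∈ c.B) (v : Cn 3) :
    fderiv ℂ c.G y v ∈ T (c.G y) := by
  rw [← c.tan y hy]
  exact ⟨v, rfl⟩

theorem sm_fd (c : Cht N 3 M T) (v : Cn 3) : ContDiffOn ℂ 2 (fun y => fderiv ℂ c.G y v) c.B := by
  have h : ContDiffOn ℂ 2 (fderiv ℂ c.G) c.B :=
    c.sm.fderiv_of_isOpen c.oB (by norm_num)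
  exact h.clm_apply contDiffOn_const

theorem diff_G (c : Cht N 3 M T) {y : Cn 3} (hy : y ∈ c.B) : DifferentiableAt ℂ c.G y :=
  ((c.sm.differentiableOn (by norm_num)) y hy).differentiableAt (c.oB.mem_nhds hy)

/-- homogeneity of the chart map -/
theorem G_smul (hC : Cone N 3 M T) (c : Cht N 3 M T) {y : Cn 3} (hy : y ∈ c.B) {t : ℂ}
    (ht : t ≠ 0) (hW : t • c.G y ∈ c.W) : t • y ∈ c.B ∧ c.G (t • y) = t • c.G y := by
  have h1 := c.mem y hy
  have h2 := (hC.smul _ h1.1 t ht).1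
  have h3 := c.inv _ h2 hW
  have h4 : (fun m => (t • c.G y) (c.I m)) = t • y := by
    funext m
    rw [Pi.smul_apply, Pi.smul_apply, c.co y hy m]
  rw [h4] at h3
  exact h3

theorem fd_smul (hC : Cone N 3 M T) (c : Cht N 3 M T) {y : Cn 3} (hy : y ∈ c.B) {t : ℂ}
    (ht : t ≠ 0) (hW : t • c.G y ∈ c.W) : fderiv ℂ c.G (t • y) = fderiv ℂ c.G y := by
  obtain ⟨hB, -⟩ := G_smul hC c hy ht hW
  have hcont : ContinuousAt c.G y := (diff_G c hy).continuousAt
  have h1 : ∀ᶠ z in nhds y, c.G (t • z) = t • c.G z := by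
    have h2 : ∀ᶠ z in nhds y, z ∈ c.B := c.oB.mem_nhds hy
    have h3 : ∀ᶠ z in nhds y, t • c.G z ∈ c.W := by
      have h4 : ContinuousAt (fun z => t • c.G z) y := hcont.const_smul t
      exact h4.eventually_mem (c.oW.mem_nhds hW)
    filter_upwards [h2, h3] with z hz hz'
    exact (G_smul hC c hz ht hz').2
  have h5 : fderiv ℂ (fun z => c.G (t • z)) y = fderiv ℂ (fun z => t • c.G z) y :=
    Filter.EventuallyEq.fderiv_eq h1
  have h6 : HasFDerivAt (fun z : Cn 3 => t • z) (t • ContinuousLinearMap.id ℂ (Cn 3)) y :=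
    (hasFDerivAt_id y).const_smul t
  have h7 : HasFDerivAt (fun z => c.G (t • z))
      ((fderiv ℂ c.G (t • y)).comp (t • ContinuousLinearMap.id ℂ (Cn 3))) y :=
    HasFDerivAt.comp y (diff_G c hB).hasFDerivAt h6
  have h8 : HasFDerivAt (fun z => t • c.G z) (t • fderiv ℂ c.G y) y :=
    (diff_G c hy).hasFDerivAt.const_smul t
  rw [h7.fderiv, h8.fderiv] at h5
  ext v i
  have h9 := congrFun (congrArg (fun L : Cn 3 →L[ℂ] Cn N => L v) h5) i
  simp only [ContinuousLinearMap.comp_apply, ContinuousLinearMap.smul_apply,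
    ContinuousLinearMap.id_apply, map_smul, Pi.smul_apply, smul_eq_mul] at h9
  exact mul_left_cancel₀ ht h9

end chart

end DENM

open DENM in
theorem specDEN (hBAS : SpecBAS) (hOMD : SpecOMD) (hOMA : SpecOMA) (hOMK : SpecOMK) : SpecDEN := by
  intro N d g M T hC hM
  have hT : ∀ (c : Cht N 3 M T), ∀ y ∈ c.B, ∀ v, fderiv ℂ c.G y v ∈ Tg g (c.G y) :=
    fun c y hy v => (hM _ (c.mem y hy).1).2.2 (U_mem c hy v)
  -- the components
  let w : Cht N 3 M T → Cn 3 → Cn 3 := fun c y m =>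
    om g (c.G y) (U c y (m + 1)) (U c y (m + 2))
  have hsm2 : ∀ (c : Cht N 3 M T) (a b : Fin 3),
      ContDiffOn ℂ 2 (fun y => om g (c.G y) (U c y a) (U c y b)) c.B := by
    intro c a b
    exact (hOMA N d g).1 3 c.B c.G (fun y => U c y a) (fun y => U c y b) c.oB
      (c.sm.of_le (by norm_num)) (sm_fd c _) (sm_fd c _) (fun y hy => (hM _ (c.mem y hy).1).1)
      (fun y hy => hT c y hy _) (fun y hy => hT c y hy _)
  have hdiff : ∀ (c : Cht N 3 M T) (a b : Fin 3), ∀ y ∈ c.B,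
      DifferentiableAt ℂ (fun y => om g (c.G y) (U c y a) (U c y b)) y := fun c a b y hy =>
    (((hsm2 c a b).differentiableOn (by norm_num)) y hy).differentiableAt (c.oB.mem_nhds hy)
  have hcomp : ∀ (c : Cht N 3 M T), ∀ y ∈ c.B, ∀ (v : Cn 3) (m : Fin 3),
      fderiv ℂ (w c) y v m = fderiv ℂ (fun z => w c z m) y v := by
    intro c y hy v m
    have h1 : ∀ i, DifferentiableAt ℂ (fun z => w c z i) y := fun i => hdiff c _ _ y hy
    rw [show w c = fun z i => w c z i from rfl, fderiv_pi h1]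
    rfl
  have hDens : ∃ D : Dens N 3 M T, D.w = w := by
    refine ⟨⟨w, ?_, ?_, ?_, ?_⟩, rfl⟩
    · -- sm
      intro c
      rw [contDiffOn_pi]
      intro m
      exact (hsm2 c _ _).of_le (by norm_num)
    · -- div
      intro c y hy
      rw [Fin.sum_univ_three, hcomp c y hy, hcomp c y hy, hcomp c y hy]
      have h := hOMK N d 3 g c.B c.G c.oB c.sm (fun y hy => (hM _ (c.mem y hy).1).1)
        (fun y hy => (hM _ (c.mem y hy).1).2.1) (fun y hy v => hT c y hy v) y hy 0 1 2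
      have e : fderiv ℂ (fun z => w c z 0) y (Pi.single 0 1) +
          fderiv ℂ (fun z => w c z 1) y (Pi.single 1 1) +
          fderiv ℂ (fun z => w c z 2) y (Pi.single 2 1) =
        fderiv ℂ (fun z => om g (c.G z) (fderiv ℂ c.G z (Pi.single 0 1))
            (fderiv ℂ c.G z (Pi.single 1 1))) y (Pi.single 2 1) +
        fderiv ℂ (fun z => om g (c.G z) (fderiv ℂ c.G z (Pi.single 1 1))
            (fderiv ℂ c.G z (Pi.single 2 1))) y (Pi.single 0 1) +
        fderiv ℂ (fun z => om g (c.G z) (fderiv ℂ c.G z (Pi.single 2 1))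
            (fderiv ℂ c.G z (Pi.single 0 1))) y (Pi.single 1 1) := by
        change fderiv ℂ (fun z => om g (c.G z) (fderiv ℂ c.G z (Pi.single 1 1))
            (fderiv ℂ c.G z (Pi.single 2 1))) y (Pi.single 0 1) +
          fderiv ℂ (fun z => om g (c.G z) (fderiv ℂ c.G z (Pi.single 2 1))
            (fderiv ℂ c.G z (Pi.single 0 1))) y (Pi.single 1 1) +
          fderiv ℂ (fun z => om g (c.G z) (fderiv ℂ c.G z (Pi.single 0 1))
            (fderiv ℂ c.G z (Pi.single 1 1))) y (Pi.single 2 1) = _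
        ring
      rw [e, h]
    · -- hom
      intro c y hy
      funext m
      rw [hcomp c y hy, Pi.smul_apply, smul_eq_mul]
      have hd : DifferentiableAt ℂ (fun z => w c z m) y := hdiff c _ _ y hy
      have h1 : HasDerivAt (fun t : ℂ => t • y) y 1 := by
        have := (hasDerivAt_id (1 : ℂ)).smul_const y
        simpa using this
      have h2 : HasDerivAt (fun t : ℂ => w c (t • y) m)
          (fderiv ℂ (fun z => w c z m) y y) 1 := by
        have h3 : HasFDerivAt (fun z => w c z m) (fderiv ℂ (fun z => w c z m) y) ((1 : ℂ) • y) := by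
          rw [one_smul]
          exact hd.hasFDerivAt
        exact h3.comp_hasDerivAt 1 h1
      have h4 : ∀ᶠ t : ℂ in nhds 1, w c (t • y) m = (t ^ 2)⁻¹ * w c y m := by
        have h5 : ∀ᶠ t : ℂ in nhds 1, t ≠ 0 := isOpen_ne.mem_nhds one_ne_zero
        have h6 : ∀ᶠ t : ℂ in nhds 1, t • c.G y ∈ c.W := by
          have h7 : ContinuousAt (fun t : ℂ => t • c.G y) 1 := by fun_prop
          apply h7.eventually_mem
          apply c.oW.mem_nhds
          rw [one_smul]
          exact (c.mem y hy).2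
        filter_upwards [h5, h6] with t ht htW
        obtain ⟨hB, hG⟩ := G_smul hC c hy ht htW
        have hfd := fd_smul hC c hy ht htW
        change om g (c.G (t • y)) (fderiv ℂ c.G (t • y) (Pi.single (m + 1) 1))
          (fderiv ℂ c.G (t • y) (Pi.single (m + 2) 1)) = _
        rw [hfd, hG, (hOMD N g (c.G y)).2.2.2.1 _ (hT c y hy _) _ (hT c y hy _) t ht]
        rfl
      have h8 : HasDerivAt (fun t : ℂ => (t ^ 2)⁻¹ * w c y m) (-2 * w c y m) 1 := by
        have h9 : HasDerivAt (fun t : ℂ => (t ^ 2)⁻¹) (-2 : ℂ) 1 := by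
          have h := ((hasDerivAt_pow 2 (1 : ℂ)).inv (by norm_num))
          have e : (-(((2 : ℕ) : ℂ) * 1 ^ (2 - 1)) / (1 ^ 2) ^ 2) = (-2 : ℂ) := by norm_num
          rw [e] at h
          exact h
        exact h9.mul_const _
      have h10 := h8.congr_of_eventuallyEq h4
      rw [h2.unique h10]
      norm_num
    · -- tr
      intro c c' y hy y' hy' hyy
      have hb := fun (b : Fin 3) => U_mem c hy (Pi.single b (1 : ℂ))
      obtain ⟨hB1, -, -, -⟩ := hBAS N 3 M T hC c' y' hy'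
      -- `u_b = ∑ P_ab u'_a`
      have hu : ∀ b : Fin 3, U c y b = (U c y b (c'.I 0)) • U c' y' 0 +
          (U c y b (c'.I 1)) • U c' y' 1 + (U c y b (c'.I 2)) • U c' y' 2 := by
        intro b
        have h1 := hb b
        rw [hyy, ← c'.tan y' hy'] at h1
        obtain ⟨v, hv⟩ := h1
        have hv' : fderiv ℂ c'.G y' v = U c y b := hv
        have h2 : ∀ m, v m = U c y b (c'.I m) := by
          intro m
          rw [← hv', hB1 v m]
        rw [← h2 0, ← h2 1, ← h2 2, ← fd_sum, hv']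
      have hT' : ∀ m : Fin 3, U c' y' m ∈ Tg g (c.G y) := by
        intro m
        rw [hyy]
        exact hT c' y' hy' _
      have hw : ∀ a b : Fin 3, om g (c.G y) (U c y a) (U c y b) =
          (U c y a (c'.I 0) * U c y b (c'.I 1) - U c y a (c'.I 1) * U c y b (c'.I 0)) *
            om g (c.G y) (U c' y' 0) (U c' y' 1) +
          (U c y a (c'.I 1) * U c y b (c'.I 2) - U c y a (c'.I 2) * U c y b (c'.I 1)) *
            om g (c.G y) (U c' y' 1) (U c' y' 2) +
          (U c y a (c'.I 2) * U c y b (c'.I 0) - U c y a (c'.I 0) * U c y b (c'.I 2)) *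
            om g (c.G y) (U c' y' 2) (U c' y' 0) := by
        intro a b
        conv_lhs => rw [hu a, hu b]
        exact om33 hOMD (hT' 0) (hT' 1) (hT' 2) _ _ _ _ _ _
      rw [fd_sum, fd_sum]
      have e0 : w c y 0 = om g (c.G y) (U c y 1) (U c y 2) := rfl
      have e1 : w c y 1 = om g (c.G y) (U c y 2) (U c y 0) := rfl
      have e2 : w c y 2 = om g (c.G y) (U c y 0) (U c y 1) := rfl
      have f0 : w c' y' 0 = om g (c.G y) (U c' y' 1) (U c' y' 2) := by rw [hyy]; rfl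
      have f1 : w c' y' 1 = om g (c.G y) (U c' y' 2) (U c' y' 0) := by rw [hyy]; rfl
      have f2 : w c' y' 2 = om g (c.G y) (U c' y' 0) (U c' y' 1) := by rw [hyy]; rfl
      rw [e0, e1, e2, f0, f1, f2, hw 1 2, hw 2 0, hw 0 1]
      generalize om g (c.G y) (U c' y' 0) (U c' y' 1) = ω01
      generalize om g (c.G y) (U c' y' 1) (U c' y' 2) = ω12
      generalize om g (c.G y) (U c' y' 2) (U c' y' 0) = ω20
      rw [Matrix.det_fin_three]
      simp only [Matrix.of_apply]
      change _ = (U c y 0 (c'.I 0) * U c y 1 (c'.I 1) * U c y 2 (c'.I 2) -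
          U c y 0 (c'.I 0) * U c y 2 (c'.I 1) * U c y 1 (c'.I 2) -
          U c y 1 (c'.I 0) * U c y 0 (c'.I 1) * U c y 2 (c'.I 2) +
          U c y 1 (c'.I 0) * U c y 2 (c'.I 1) * U c y 0 (c'.I 2) +
          U c y 2 (c'.I 0) * U c y 0 (c'.I 1) * U c y 1 (c'.I 2) -
          U c y 2 (c'.I 0) * U c y 1 (c'.I 1) * U c y 0 (c'.I 2)) • _
      funext j
      have hj : ∀ b : Fin 3, U c y b j = (U c y b (c'.I 0)) * U c' y' 0 j +
          (U c y b (c'.I 1)) * U c' y' 1 j + (U c y b (c'.I 2)) * U c' y' 2 j := by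
        intro b
        have := congrFun (hu b) j
        simpa only [Pi.add_apply, Pi.smul_apply, smul_eq_mul] using this
      simp only [Pi.add_apply, Pi.smul_apply, smul_eq_mul]
      rw [hj 0, hj 1, hj 2]
      ring
  obtain ⟨D, hD⟩ := hDens
  refine ⟨D, ?_⟩
  rintro c y hy ⟨t, ht⟩ v hv
  obtain ⟨hB1, hB2, -, -⟩ := hBAS N 3 M T hC c y hy
  have hU : ∀ m : Fin 3, U c y m ∈ Tg g (c.G y) := fun m => hT c y hy _
  -- `w = t y`
  have hwt : ∀ m, w c y m = t * y m := by
    intro m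
    have h1 : fderiv ℂ c.G y (D.w c y) = t • c.G y := ht
    have h2 := congrFun h1 (c.I m)
    rw [hB1, Pi.smul_apply, smul_eq_mul, c.co y hy m, hD] at h2
    exact h2
  have e0 : om g (c.G y) (U c y 1) (U c y 2) = t * y 0 := hwt 0
  have e1 : om g (c.G y) (U c y 2) (U c y 0) = t * y 1 := hwt 1
  have e2 : om g (c.G y) (U c y 0) (U c y 1) = t * y 2 := hwt 2
  rw [← c.tan y hy] at hv
  obtain ⟨η, hη⟩ := hv
  have hη' : fderiv ℂ c.G y η = v := hη
  have hx : c.G y = y 0 • U c y 0 + y 1 • U c y 1 + y 2 • U c y 2 := by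
    rw [← fd_sum, hB2]
  have hv2 : v = η 0 • U c y 0 + η 1 • U c y 1 + η 2 • U c y 2 := by
    rw [← fd_sum, hη']
  have key := om33 hOMD (hU 0) (hU 1) (hU 2) (y 0) (y 1) (y 2) (η 0) (η 1) (η 2)
  rw [← hx, ← hv2, e0, e1, e2] at key
  rw [key]
  ring

end Pool.Agent.Lib.MPc9b009.PS
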