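import Pool.Agent.Lib.MP_c9b009_ag.PS.Spec

/-!
# MP_c9b009_ag, row PS: module DRP (generic hyperplanes lower the dimension)
-/

set_option autoImplicit false

namespace Pool.Agent.Lib.MPc9b009.PS

open MvPolynomial Pool.Agent.Lib.MPc9b009.B5 Pool.Agent.Lib.MPc9b009.OD

namespace DRPM

/-- the coefficient vectors of the linear forms in `q` -/
noncomputable def U {N : ℕ} (q : Ideal (MvPolynomial (Fin N) ℂ)) : Submodule ℂ (Cn N) where
  carrier := {c | lin c ∈ q}
  add_mem' := by
    intro a b ha hb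
    have h : lin (a + b) = lin a + lin b := by
      unfold lin
      rw [← Finset.sum_add_distrib]
      refine Finset.sum_congr rfl fun j _ => ?_
      rw [Pi.add_apply, C_add, add_mul]
    show lin (a + b) ∈ q
    rw [h]
    exact q.add_mem ha hb
  zero_mem' := by
    show lin (0 : Cn N) ∈ q
    have h : lin (0 : Cn N) = 0 := by
      unfold lin
      refine Finset.sum_eq_zero fun j _ => ?_
      rw [Pi.zero_apply, C_0, zero_mul]
    rw [h]
    exact q.zero_mem
  smul_mem' := by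
    intro a b hb
    have h : lin (a • b) = C a * lin b := by
      unfold lin
      rw [Finset.mul_sum]
      refine Finset.sum_congr rfl fun j _ => ?_
      rw [Pi.smul_apply, smul_eq_mul, C_mul, mul_assoc]
    show lin (a • b) ∈ q
    rw [h]
    exact q.mul_mem_left _ hb

theorem mem_U {N : ℕ} {q : Ideal (MvPolynomial (Fin N) ℂ)} {c : Cn N} : c ∈ U q ↔ lin c ∈ q :=
  Iff.rfl

theorem lin_single {N : ℕ} (k : Fin N) : lin (Pi.single k (1 : ℂ)) = X k := by
  unfold lin
  rw [Finset.sum_eq_single k]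
  · rw [Pi.single_eq_same, C_1, one_mul]
  · intro j _ hj
    rw [Pi.single_eq_of_ne hj, C_0, zero_mul]
  · intro h
    exact absurd (Finset.mem_univ _) h

theorem lin_hom {N : ℕ} (c : Cn N) : (lin c).IsHomogeneous 1 := by
  unfold lin
  refine IsHomogeneous.sum _ _ _ fun j _ => ?_
  exact (isHomogeneous_X ℂ j).C_mul (c j)

theorem hom_sup {N : ℕ} {I J : Ideal (MvPolynomial (Fin N) ℂ)} (hI : Hom I) (hJ : Hom J) :
    Hom (I ⊔ J) := by
  intro g hg d
  obtain ⟨a, ha, b, hb, rfl⟩ := Submodule.mem_sup.1 hg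
  rw [map_add]
  exact Submodule.add_mem_sup (hI a ha d) (hJ b hb d)

theorem card_le {a : Cardinal} {t : ℕ} (h : a + 1 ≤ ((t + 1 : ℕ) : Cardinal)) :
    a ≤ ((t : ℕ) : Cardinal) := by
  have h1 : a ≤ ((t + 1 : ℕ) : Cardinal) := le_trans (self_le_add_right a 1) h
  obtain ⟨n, rfl⟩ := Cardinal.lt_aleph0.1 (lt_of_le_of_lt h1 (Cardinal.natCast_lt_aleph0))
  have h2 : ((n + 1 : ℕ) : Cardinal) ≤ ((t + 1 : ℕ) : Cardinal) := by
    rw [Nat.cast_add, Nat.cast_one]
    exact h
  have h3 := Nat.cast_le.1 h2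
  exact Nat.cast_le.2 (by omega)

end DRPM

open DRPM in
/-- **DRP** -/
theorem specDRP : SpecDRP := by
  intro N t J hJ hD
  have hfin : (J.minimalPrimes).Finite := J.finite_minimalPrimes_of_isNoetherianRing _
  refine ⟨{q : Ideal (MvPolynomial (Fin N) ℂ) // q ∈ J.minimalPrimes ∧ ∃ k, X k ∉ q}, ?_,
    fun q => U q.1, ?_, ?_⟩
  · exact (hfin.subset (fun q hq => hq.1 :
      {q | q ∈ J.minimalPrimes ∧ ∃ k, X k ∉ q} ⊆ J.minimalPrimes)).to_subtype
  · rintro ⟨q, hq, k, hk⟩ htop
    apply hk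
    have h : (Pi.single k (1 : ℂ) : Cn N) ∈ U q := by
      show (Pi.single k (1 : ℂ) : Cn N) ∈ (fun q : {q : Ideal (MvPolynomial (Fin N) ℂ) //
        q ∈ J.minimalPrimes ∧ ∃ k, X k ∉ q} => U q.1) ⟨q, hq, k, hk⟩
      rw [htop]
      exact Submodule.mem_top
    rw [mem_U, lin_single] at h
    exact h
  · intro c hc
    refine ⟨hom_sup hJ (CUTM.hom_span _ ?_), ?_⟩
    · intro x hx
      rw [Set.mem_singleton_iff] at hx
      rw [hx]
      exact ⟨1, lin_hom c⟩
    · intro q hq hle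
      have h1 : J ≤ q := le_trans le_sup_left hle
      have h2 : lin c ∈ q := hle (Ideal.mem_sup_right (Ideal.subset_span rfl))
      obtain ⟨p, hp, hpq⟩ := Ideal.exists_minimalPrimes_le h1
      by_cases hX : ∃ k, X k ∉ p
      · have h3 : lin c ∉ p := fun h => hc ⟨p, hp, hX⟩ (mem_U.2 h)
        have h4 : p < q := lt_of_le_of_ne hpq (fun h => h3 (h ▸ h2))
        have h5 := specMONO N p q hp.1.1 hq h4
        have h6 := hD p hp.1.1 hp.1.2
        exact card_le (le_trans h5 h6)
      · push Not at hX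
        have h3 := CUTM.trdeg_top q (fun k => hpq (hX k))
        exact le_trans h3 (zero_le)

end Pool.Agent.Lib.MPc9b009.PS
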