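import Pool.Agent.Lib.MP_c9b009_ag.PS.Spec

/-!
# MP_c9b009_ag, row PS, module HLM: hard Lefschetz by Stokes (author helper39)
-/

set_option autoImplicit false

namespace Pool.Agent.Lib.MPc9b009.PS

open MeasureTheory

namespace HLMM

variable {N k : ℕ} {M : Set (Cn N)} {T : Cn N → Submodule ℂ (Cn N)}

lemma compact_pre (c : Cht N k M T) (K : Set (Cn N)) (hK : IsCompact K) (hM : K ⊆ M)
    (hW : K ⊆ c.W) : IsCompact {y | y ∈ c.B ∧ c.G y ∈ K} := by
  have h1 : {y | y ∈ c.B ∧ c.G y ∈ K} = (fun (z : Cn N) (m : Fin k) => z (c.I m)) '' K := by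
    ext y
    constructor
    · rintro ⟨h1, h2⟩
      exact ⟨c.G y, h2, funext fun m => c.co y h1 m⟩
    · rintro ⟨z, hz, rfl⟩
      obtain ⟨h2, h3⟩ := c.inv z (hM hz) (hW hz)
      exact ⟨h2, by rw [h3]; exact hz⟩
  rw [h1]
  exact hK.image (continuous_pi fun m => continuous_apply _)

lemma contG (c : Cht N k M T) : ContinuousOn c.G c.B := c.sm.continuousOn

lemma contA (D : Dens N k M T) (c : Cht N k M T) : ContinuousOn (D.A c) c.B := by
  have h1 : ContinuousOn (fderiv ℂ c.G) c.B :=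
    c.sm.continuousOn_fderiv_of_isOpen c.oB (by norm_num)
  exact h1.clm_apply (D.sm c).continuousOn

lemma integrableOn_of_supp {B K : Set (Cn k)} (hB : IsOpen B) (hK : IsCompact K) (hKB : K ⊆ B)
    (V : Cn k → ℝ) (hV : ContinuousOn V B) (h0 : ∀ y ∈ B, y ∉ K → V y = 0) :
    IntegrableOn V B := by
  have h1 : IntegrableOn V K := (hV.mono hKB).integrableOn_compact hK
  have h2 : IntegrableOn V (B \ K) := by
    have h3 : IntegrableOn (fun _ : Cn k => (0 : ℝ)) (B \ K) := integrableOn_zero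
    exact h3.congr_fun (fun y hy => (h0 y hy.1 hy.2).symm) (hB.measurableSet.diff hK.measurableSet)
  have h4 : B = K ∪ (B \ K) := (Set.union_diff_cancel hKB).symm
  rw [h4]
  exact h1.union h2

lemma cont_her : Continuous fun z : Cn N × Cn N => her z.1 z.2 := by
  unfold her
  exact continuous_finsetSum _ fun i _ =>
    ((continuous_apply i).comp continuous_fst).mul
      (Complex.continuous_conj.comp ((continuous_apply i).comp continuous_snd))

lemma cont_r : Continuous fun z : Cn N => ∑ j, ‖z j‖ ^ 2 :=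
  continuous_finsetSum _ fun j _ => (continuous_apply j).norm.pow 2

/-- the real integrand `χ f T⁰` -/
noncomputable def vv (f : ℝ → ℝ) (χ : Cn N → ℝ) (x A : Cn N) : ℝ :=
  χ x * f (∑ j, ‖x j‖ ^ 2) * (‖her A x‖ ^ 2 - (∑ j, ‖x j‖ ^ 2) * ∑ j, ‖A j‖ ^ 2)

lemma cont_vv (f : ℝ → ℝ) (χ : Cn N → ℝ) (hf : Continuous f) (hχ : Continuous χ)
    (D : Dens N k M T) (c : Cht N k M T) :
    ContinuousOn (fun y => vv f χ (c.G y) (D.A c y)) c.B := by
  have h1 : Continuous fun z : Cn N × Cn N => vv f χ z.1 z.2 := by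
    unfold vv
    refine ((hχ.comp continuous_fst).mul (hf.comp (cont_r.comp continuous_fst))).mul ?_
    refine Continuous.sub ?_ ?_
    · exact (cont_her.comp (continuous_snd.prodMk continuous_fst)).norm.pow 2
    · exact (cont_r.comp continuous_fst).mul (cont_r.comp continuous_snd)
  exact h1.comp_continuousOn ((contG c).prodMk (contA D c))

lemma contDiff_r : ContDiff ℝ 1 fun z : Cn N => ∑ j, ‖z j‖ ^ 2 :=
  ContDiff.sum fun j _ => (contDiff_apply ℝ ℂ j).norm_sq ℝ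

lemma contDiff_Phi (f : ℝ → ℝ) (χ : Cn N → ℝ) (hf : ContDiff ℝ 1 f) (hχ : ContDiff ℝ 1 χ)
    (i : Fin N) : ContDiff ℝ 1 fun z : Cn N => ((χ z : ℝ) : ℂ) *
      ((f (∑ j, ‖z j‖ ^ 2) : ℝ) : ℂ) * (starRingEnd ℂ) (z i) := by
  refine ContDiff.mul (ContDiff.mul ?_ ?_) ?_
  · exact Complex.ofRealCLM.contDiff.comp hχ
  · exact Complex.ofRealCLM.contDiff.comp (hf.comp contDiff_r)
  · exact Complex.conjCLE.contDiff.comp (contDiff_apply ℝ ℂ i)

/-- the compact set -/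
def KK (M : Set (Cn N)) (χ : Cn N → ℝ) (s : ℝ) : Set (Cn N) :=
  tsupport χ ∩ (insert 0 M ∩ {z | s ≤ ∑ j, ‖z j‖ ^ 2 ∧ ∑ j, ‖z j‖ ^ 2 ≤ 4 * s})

lemma isClosed_shell (s : ℝ) :
    IsClosed {z : Cn N | s ≤ ∑ j, ‖z j‖ ^ 2 ∧ ∑ j, ‖z j‖ ^ 2 ≤ 4 * s} :=
  (isClosed_le continuous_const cont_r).inter (isClosed_le cont_r continuous_const)

lemma KK_compact (χ : Cn N → ℝ) (s : ℝ) (hs : 0 < s) (hcl : IsClosed (insert 0 M)) :
    IsCompact (KK M χ s) := by
  have h1 : IsClosed (KK M χ s) :=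
    (isClosed_tsupport χ).inter (hcl.inter (isClosed_shell s))
  refine IsCompact.of_isClosed_subset (isCompact_closedBall (0 : Cn N) (4 * s + 1)) h1 ?_
  rintro z ⟨-, -, -, h2⟩
  rw [mem_closedBall_zero_iff]
  refine (pi_norm_le_iff_of_nonneg (by linarith)).mpr fun i => ?_
  have h3 : ‖z i‖ ^ 2 ≤ ∑ j, ‖z j‖ ^ 2 :=
    Finset.single_le_sum (f := fun j => ‖z j‖ ^ 2) (fun j _ => by positivity) (Finset.mem_univ i)
  have h4 : 0 ≤ ‖z i‖ := norm_nonneg _
  nlinarith [sq_nonneg (‖z i‖ - 1)]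

lemma KK_sub (χ : Cn N → ℝ) (s : ℝ) (hs : 0 < s) : KK M χ s ⊆ M := by
  rintro z ⟨-, h1, h2, -⟩
  rcases h1 with h1 | h1
  · exfalso
    rw [h1] at h2
    simp at h2
    linarith
  · exact h1

end HLMM

open HLMM in
theorem specHLM (_ : SpecBAS) (hCHS : SpecCHS) (hALG : SpecALG) (hPOU : SpecPOU)
    (hUCL : SpecUCL) : SpecHLM := by
  intro N k M T hC hcl D c₀ y₀ hy₀
  set x₁ := c₀.G y₀ with hx₁
  have hx₁M : x₁ ∈ M := (c₀.mem y₀ hy₀).1
  have hx₁0 : x₁ ≠ 0 := fun h => hC.ne (h ▸ hx₁M)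
  set R := ∑ j, ‖x₁ j‖ ^ 2 with hR
  have hR0 : 0 < R := by
    obtain ⟨j, hj⟩ := Function.ne_iff.mp hx₁0
    refine Finset.sum_pos' (fun i _ => by positivity) ⟨j, Finset.mem_univ _, ?_⟩
    have : 0 < ‖x₁ j‖ := norm_pos_iff.mpr hj
    positivity
  obtain ⟨s, hs⟩ : ∃ s, R = 2 * s := ⟨R / 2, by ring⟩
  have hs0 : 0 < s := by linarith
  let bmp : ContDiffBump R := ⟨s / 4, s / 2, by linarith, by linarith⟩
  set f : ℝ → ℝ := fun t => bmp t with hf
  have hfc : ContDiff ℝ 1 f := bmp.contDiff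
  have hf0 : ∀ t, 0 ≤ f t := fun t => bmp.nonneg
  have hfR : f R = 1 := bmp.one_of_mem_closedBall (Metric.mem_closedBall_self (by positivity))
  have hfs : ∀ t, f t ≠ 0 → s < t ∧ t < 4 * s := by
    intro t ht
    have h1 : t ∈ Metric.ball R (s / 2) := by
      have h2 : t ∈ Function.support f := ht
      rw [bmp.support_eq] at h2
      exact h2
    rw [Metric.mem_ball, Real.dist_eq, abs_lt] at h1
    constructor <;> linarith
  obtain ⟨n, c, χ, hχc, hχ0, hχW, hχ1⟩ := hPOU N k M T hC hcl s hs0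
  have hK : ∀ l, IsCompact (KK M (χ l) s) := fun l => KK_compact (χ l) s hs0 hcl
  have hKM : ∀ l, KK M (χ l) s ⊆ M := fun l => KK_sub (χ l) s hs0
  have hKW : ∀ l, KK M (χ l) s ⊆ (c l).W := fun l z hz => hχW l hz.1
  -- CHS and ALG
  have hchs : ∀ l i, IntegrableOn (fun y => D.A (c l) y i * Dbar (fun z : Cn N =>
        ((χ l z : ℝ) : ℂ) * ((f (∑ j, ‖z j‖ ^ 2) : ℝ) : ℂ) * (starRingEnd ℂ) (z i)) ((c l).G y)
        (bet ((c l).G y) (D.A (c l) y))) (c l).B ∧
      ∫ y in (c l).B, D.A (c l) y i * Dbar (fun z : Cn N =>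
        ((χ l z : ℝ) : ℂ) * ((f (∑ j, ‖z j‖ ^ 2) : ℝ) : ℂ) * (starRingEnd ℂ) (z i)) ((c l).G y)
        (bet ((c l).G y) (D.A (c l) y)) = 0 := by
    intro l i
    refine hCHS N k M T hC D (c l) _ (KK M (χ l) s) i (contDiff_Phi f (χ l) hfc (hχc l) i) (hK l)
      (hKM l) (hKW l) ?_
    intro x hx _ hxs
    have hsub : tsupport (fun z : Cn N =>
        ((χ l z : ℝ) : ℂ) * ((f (∑ j, ‖z j‖ ^ 2) : ℝ) : ℂ) * (starRingEnd ℂ) (z i)) ⊆
        tsupport (χ l) ∩ {z : Cn N | s ≤ ∑ j, ‖z j‖ ^ 2 ∧ ∑ j, ‖z j‖ ^ 2 ≤ 4 * s} := by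
      refine closure_minimal ?_ ((isClosed_tsupport _).inter (isClosed_shell s))
      intro z hz
      have h1 : χ l z ≠ 0 := by
        intro h
        apply hz
        simp [h]
      have h2 : f (∑ j, ‖z j‖ ^ 2) ≠ 0 := by
        intro h
        apply hz
        simp [h]
      exact ⟨subset_tsupport _ h1, (hfs _ h2).1.le, (hfs _ h2).2.le⟩
    have h3 := hsub hxs
    exact ⟨h3.1, Or.inr hx, h3.2⟩
  have hsum : ∀ l, IntegrableOn (fun y => ((f (∑ j, ‖(c l).G y j‖ ^ 2) : ℝ) : ℂ) *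
        (her (D.A (c l) y) ((c l).G y) *
          Dbar (fun x => ((χ l x : ℝ) : ℂ)) ((c l).G y) (bet ((c l).G y) (D.A (c l) y))) +
        ((vv f (χ l) ((c l).G y) (D.A (c l) y) : ℝ) : ℂ)) (c l).B ∧
      ∫ y in (c l).B, (((f (∑ j, ‖(c l).G y j‖ ^ 2) : ℝ) : ℂ) *
        (her (D.A (c l) y) ((c l).G y) *
          Dbar (fun x => ((χ l x : ℝ) : ℂ)) ((c l).G y) (bet ((c l).G y) (D.A (c l) y))) +
        ((vv f (χ l) ((c l).G y) (D.A (c l) y) : ℝ) : ℂ)) = 0 := by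
    intro l
    have e1 : (fun y => ((f (∑ j, ‖(c l).G y j‖ ^ 2) : ℝ) : ℂ) *
        (her (D.A (c l) y) ((c l).G y) *
          Dbar (fun x => ((χ l x : ℝ) : ℂ)) ((c l).G y) (bet ((c l).G y) (D.A (c l) y))) +
        ((vv f (χ l) ((c l).G y) (D.A (c l) y) : ℝ) : ℂ)) =
        fun y => ∑ i, D.A (c l) y i * Dbar (fun z : Cn N =>
        ((χ l z : ℝ) : ℂ) * ((f (∑ j, ‖z j‖ ^ 2) : ℝ) : ℂ) * (starRingEnd ℂ) (z i)) ((c l).G y)
        (bet ((c l).G y) (D.A (c l) y)) := by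
      funext y
      have hχC : ContDiff ℝ 1 fun z : Cn N => ((χ l z : ℝ) : ℂ) :=
        Complex.ofRealCLM.contDiff.comp (hχc l)
      rw [hALG.1 N (fun z => ((χ l z : ℝ) : ℂ)) f ((c l).G y) (D.A (c l) y) hχC hfc]
      unfold vv
      push_cast
      ring
    rw [e1]
    refine ⟨integrable_finset_sum _ fun i _ => (hchs l i).1, ?_⟩
    rw [integral_finset_sum _ fun i _ => (hchs l i).1]
    exact Finset.sum_eq_zero fun i _ => (hchs l i).2
  have hvi : ∀ l, IntegrableOn (fun y => vv f (χ l) ((c l).G y) (D.A (c l) y)) (c l).B := by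
    intro l
    refine integrableOn_of_supp (c l).oB (compact_pre (c l) _ (hK l) (hKM l) (hKW l))
      (fun y hy => hy.1) _ (cont_vv f (χ l) hfc.continuous (hχc l).continuous D (c l)) ?_
    intro y hy hny
    by_contra hne
    apply hny
    have h1 : χ l ((c l).G y) ≠ 0 := by
      intro h
      apply hne
      unfold vv
      rw [h, zero_mul, zero_mul]
    have h2 : f (∑ j, ‖(c l).G y j‖ ^ 2) ≠ 0 := by
      intro h
      apply hne
      unfold vv
      rw [h, mul_zero, zero_mul]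
    exact ⟨hy, subset_tsupport _ h1, Or.inr ((c l).mem y hy).1, (hfs _ h2).1.le, (hfs _ h2).2.le⟩
  have hviC : ∀ l, IntegrableOn (fun y => ((vv f (χ l) ((c l).G y) (D.A (c l) y) : ℝ) : ℂ))
      (c l).B := fun l => (hvi l).ofReal
  have hU : ∀ l, IntegrableOn (fun y => ((f (∑ j, ‖(c l).G y j‖ ^ 2) : ℝ) : ℂ) *
        (her (D.A (c l) y) ((c l).G y) *
          Dbar (fun x => ((χ l x : ℝ) : ℂ)) ((c l).G y) (bet ((c l).G y) (D.A (c l) y))))
        (c l).B := by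
    intro l
    have h1 := (hsum l).1.sub (hviC l)
    refine h1.congr_fun (fun y _ => ?_) (c l).oB.measurableSet
    simp only [Pi.sub_apply, add_sub_cancel_right]
  have hucl := hUCL N k M T hC hcl D s f n c χ hs0 hfc hfs hχc hχW hχ1
  have htot : ∑ l, ∫ y in (c l).B, vv f (χ l) ((c l).G y) (D.A (c l) y) = 0 := by
    have h1 : ∑ l, ∫ y in (c l).B, ((vv f (χ l) ((c l).G y) (D.A (c l) y) : ℝ) : ℂ) = 0 := by
      have h2 : ∀ l, ∫ y in (c l).B, ((vv f (χ l) ((c l).G y) (D.A (c l) y) : ℝ) : ℂ) =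
          - ∫ y in (c l).B, ((f (∑ j, ‖(c l).G y j‖ ^ 2) : ℝ) : ℂ) *
        (her (D.A (c l) y) ((c l).G y) *
          Dbar (fun x => ((χ l x : ℝ) : ℂ)) ((c l).G y) (bet ((c l).G y) (D.A (c l) y))) := by
        intro l
        have h3 := (hsum l).2
        rw [integral_add (hU l) (hviC l)] at h3
        exact eq_neg_of_add_eq_zero_right h3
      rw [Finset.sum_congr rfl fun l _ => h2 l, Finset.sum_neg_distrib, hucl, neg_zero]
    have h4 : ((∑ l, ∫ y in (c l).B, vv f (χ l) ((c l).G y) (D.A (c l) y) : ℝ) : ℂ) = 0 := by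
      rw [← h1]
      push_cast
      exact Finset.sum_congr rfl fun l _ => integral_ofReal.symm
    exact_mod_cast h4
  have hneg : ∀ l, ∀ y, vv f (χ l) ((c l).G y) (D.A (c l) y) ≤ 0 := by
    intro l y
    unfold vv
    have h1 := (hALG.2 N ((c l).G y) (D.A (c l) y)).1
    exact mul_nonpos_of_nonneg_of_nonpos (mul_nonneg (hχ0 l _) (hf0 _)) (sub_nonpos.mpr h1)
  have hzero : ∀ l, ∀ y ∈ (c l).B, vv f (χ l) ((c l).G y) (D.A (c l) y) = 0 := by
    intro l
    have h1 : ∫ y in (c l).B, vv f (χ l) ((c l).G y) (D.A (c l) y) = 0 := by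
      have h2 := (Finset.sum_eq_zero_iff_of_nonpos (fun l _ =>
        integral_nonpos (μ := volume.restrict (c l).B) (hneg l))).mp htot
      exact h2 l (Finset.mem_univ l)
    have h3 : (fun y => vv f (χ l) ((c l).G y) (D.A (c l) y)) =ᵐ[volume.restrict (c l).B]
        fun _ => 0 := by
      have h4 : ∫ y in (c l).B, - vv f (χ l) ((c l).G y) (D.A (c l) y) = 0 := by
        rw [integral_neg, h1, neg_zero]
      have h5 := (integral_eq_zero_iff_of_nonneg (μ := volume.restrict (c l).B)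
        (f := fun y => - vv f (χ l) ((c l).G y) (D.A (c l) y))
        (fun y => neg_nonneg.mpr (hneg l y)) (hvi l).neg).mp h4
      filter_upwards [h5] with y hy
      simpa using hy
    exact Measure.eqOn_open_of_ae_eq h3 (c l).oB
      (cont_vv f (χ l) hfc.continuous (hχc l).continuous D (c l)) continuousOn_const
  -- the chart at the point
  have hone := hχ1 x₁ hx₁M (by rw [← hR]; linarith) (by rw [← hR]; linarith)
  obtain ⟨l, hl⟩ : ∃ l, χ l x₁ ≠ 0 := by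
    by_contra hcon
    push Not at hcon
    rw [Finset.sum_eq_zero fun l _ => hcon l] at hone
    exact zero_ne_one hone
  have hlW : x₁ ∈ (c l).W := hχW l (subset_tsupport _ hl)
  obtain ⟨hyB, hyG⟩ := (c l).inv x₁ hx₁M hlW
  set yl : Cn k := fun m => x₁ ((c l).I m) with hyl
  have hv := hzero l yl hyB
  unfold vv at hv
  rw [hyG] at hv
  rw [← hR, hfR, mul_one] at hv
  have hT0 := (mul_eq_zero.mp hv).resolve_left hl
  obtain ⟨t, ht⟩ := (hALG.2 N x₁ (D.A (c l) yl)).2 hx₁0 (by rw [← hR]; exact sub_eq_zero.mp hT0)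
  have htr := D.tr c₀ (c l) y₀ hy₀ yl hyB (by rw [hyG])
  refine ⟨(Matrix.of fun a b => fderiv ℂ c₀.G y₀ (Pi.single b 1) ((c l).I a)).det * t, ?_⟩
  have h6 : D.A c₀ y₀ = (Matrix.of fun a b => fderiv ℂ c₀.G y₀ (Pi.single b 1) ((c l).I a)).det •
      D.A (c l) yl := htr
  rw [h6, ht, smul_smul]

end Pool.Agent.Lib.MPc9b009.PS
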