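import Pool.Agent.Lib.MP_c9b009_ag.PS.Spec

/-!
# MP_c9b009_ag, row PS, module HLS: the symplectic cone and the generic section
-/

set_option autoImplicit false

namespace Pool.Agent.Lib.MPc9b009.PS

open MvPolynomial Pool.Agent.Lib.MPc9b009.B5 Pool.Agent.Lib.MPc9b009.OD

namespace HLSM

/-- evaluation of a minor -/
theorem eval_mnr {N k : ℕ} (g : Biv N) (x : Cn N) (I J : Fin k → Fin N) :
    eval x (mnr g.f I J) = (Matrix.of fun a b => mat g.f x (I a) (J b)).det := by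
  rw [mnr, RingHom.map_det]
  rfl

theorem rank_le {N d : ℕ} {g : Biv N} {p : Ideal (MvPolynomial (Fin N) ℂ)} (hp : p.IsPrime)
    (hst : Stab g.f p)
    (htr : Algebra.trdeg ℂ (MvPolynomial (Fin N) ℂ ⧸ p) = ((d : ℕ) : Cardinal))
    {x : Cn N} (hx : x ∈ Zer p) : (mat g.f x).rank ≤ d := by
  rw [← specRKM ℂ inferInstance N N d (mat g.f x)]
  intro I J
  have hmem : mnr g.f I J ∈ p := by
    by_contra hn
    have h1 := specDIM N N (d + 1) g.f p hp hst ⟨I, J, hn⟩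
    rw [htr] at h1
    have h2 : d + 1 ≤ d := by exact_mod_cast h1
    omega
  rw [← eval_mnr]
  exact hx _ hmem

/-- all `d`-minors vanish at a point of rank `< d` -/
theorem minors_zero {N d : ℕ} {g : Biv N} {x : Cn N} (h : (mat g.f x).rank < d)
    (I J : Fin d → Fin N) : eval x (mnr g.f I J) = 0 := by
  obtain ⟨k, rfl⟩ : ∃ k, d = k + 1 := ⟨d - 1, by omega⟩
  rw [eval_mnr]
  exact (specRKM ℂ inferInstance N N k (mat g.f x)).2 (by omega) I J

theorem zer_sup {N : ℕ} {p q : Ideal (MvPolynomial (Fin N) ℂ)} {x : Cn N} (hp : x ∈ Zer p)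
    (hq : x ∈ Zer q) : x ∈ Zer (p ⊔ q) := by
  have h : p ⊔ q ≤ RingHom.ker (eval x) :=
    sup_le (fun a ha => hp a ha) (fun a ha => hq a ha)
  exact fun a ha => h ha

theorem zer_mI {N d : ℕ} {g : Biv N} {x : Cn N} (h : (mat g.f x).rank < d) :
    x ∈ Zer (mI d g) := by
  have h1 : mI d g ≤ RingHom.ker (eval x) := by
    rw [mI, Ideal.span_le]
    rintro z ⟨I, J, rfl⟩
    exact minors_zero h I J
  exact fun a ha => h1 ha

theorem exists_point {N : ℕ} {p : Ideal (MvPolynomial (Fin N) ℂ)} (hp : p.IsPrime)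
    {h : MvPolynomial (Fin N) ℂ} (hh : h ∉ p) : ∃ x ∈ Zer p, eval x h ≠ 0 := by
  by_contra hcon
  push Not at hcon
  apply hh
  have h1 : h ∈ vanishingIdeal ℂ (zeroLocus ℂ p) := by
    rw [mem_vanishingIdeal_iff]
    intro x hxz
    rw [mem_zeroLocus_iff] at hxz
    have hxz' : x ∈ Zer p := by
      intro g hg
      have := hxz g hg
      simpa [aeval_eq_eval] using this
    have h2 := hcon x hxz'
    simpa [aeval_eq_eval] using h2
  haveI := hp
  rw [IsPrime.vanishingIdeal_zeroLocus] at h1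
  exact h1

theorem zero_mem_zer {N : ℕ} {p : Ideal (MvPolynomial (Fin N) ℂ)} (hp : p.IsPrime)
    (hH : Hom p) : (0 : Cn N) ∈ Zer p := by
  intro h hh
  have h1 := hH h hh 0
  rw [homogeneousComponent_zero] at h1
  have h2 : coeff 0 h = 0 := by
    by_contra hne
    apply hp.ne_top
    have hu : IsUnit (C (coeff 0 h) : MvPolynomial (Fin N) ℂ) :=
      (isUnit_iff_ne_zero.2 hne).map C
    exact Ideal.eq_top_of_isUnit_mem p h1 hu
  have h3 : eval (0 : Cn N) h = constantCoeff h := by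
    simp [MvPolynomial.eval_zero]
  rw [h3]
  exact h2

theorem isClosed_zer {N : ℕ} (p : Ideal (MvPolynomial (Fin N) ℂ)) : IsClosed (Zer p) := by
  have h : Zer p = ⋂ h ∈ p, {x : Cn N | eval x h = 0} := by
    ext x
    simp [Zer]
  rw [h]
  refine isClosed_biInter fun a _ => ?_
  exact isClosed_eq (MvPolynomial.continuous_eval a) continuous_const

end HLSM

open HLSM in
/-- **HLS**. -/
theorem specHLS (hLGR : SpecLGR) (hITR : SpecITR) (hOMD : SpecOMD) (hOMA : SpecOMA)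
    (hDEN : SpecDEN) (hHLM : SpecHLM) : SpecHLS := by
  intro N d g p hp hH hS hJ hd htr hminor hDle _
  obtain ⟨I₀, J₀, hIJ⟩ := hminor
  have hcone : Cone N d (Mp p g d) (Tg g) := hLGR N d g p hp hH hS (by omega) htr
  -- a point of `M`
  obtain ⟨x₀, hx₀, hx₀'⟩ := exists_point hp hIJ
  have hx₀M : x₀ ∈ Mp p g d := by
    refine ⟨hx₀, le_antisymm (rank_le hp hS htr hx₀) ?_⟩
    by_contra hlt
    exact hx₀' (minors_zero (not_le.1 hlt) I₀ J₀)
  -- the form
  have hzero : ∀ x, ∀ v ∈ Tg g x, om g x 0 v = 0 := by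
    intro x v hv
    have h := (hOMD N g x).2.1 0 (Submodule.zero_mem _) 0 (Submodule.zero_mem _) v hv 1
    rw [smul_zero, add_zero, one_mul] at h
    have h2 : om g x 0 v + om g x 0 v = om g x 0 v + 0 := by rw [← h, add_zero]
    exact add_left_cancel h2
  have hself : ∀ x, ∀ u ∈ Tg g x, om g x u u = 0 := by
    intro x u hu
    have h := (hOMD N g x).2.2.1 u hu u hu
    have h3 : (2 : ℂ) * om g x u u = 0 := by
      rw [two_mul]
      nth_rewrite 1 [h]
      exact neg_add_cancel _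
    rcases mul_eq_zero.1 h3 with h4 | h4
    · norm_num at h4
    · exact h4
  have hal : ∀ x ∈ Mp p g d, ∀ t : ℂ, om g x x (t • x) = 0 := by
    intro x hx t
    have hxT : x ∈ Tg g x := hcone.eul x hx
    have htx : t • x ∈ Tg g x := Submodule.smul_mem _ _ hxT
    rw [(hOMD N g x).2.2.1 x hxT (t • x) htx]
    have h := (hOMD N g x).2.1 0 (Submodule.zero_mem _) x hxT x hxT t
    rw [zero_add, hzero x x hxT, zero_add, hself x x hxT, mul_zero] at h
    rw [h, neg_zero]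
  have hcont : ContinuousOn (fun z : Cn N × Cn N => om g z.1 z.1 z.2)
      {z | z.1 ∈ Mp p g d ∧ z.2 ∈ Tg g z.1} := by
    refine (hOMA N d g).2.mono ?_
    rintro z ⟨h1, h2⟩
    exact ⟨h1.2, hcone.eul _ h1, h2⟩
  have hex : ∃ x ∈ Mp p g d, ∃ v ∈ Tg g x, om g x x v ≠ 0 := by
    have hne : x₀ ≠ 0 := by
      rintro rfl
      exact hcone.ne hx₀M
    obtain ⟨v, hv, hv'⟩ := (hOMD N g x₀).2.2.2.2 hne (hcone.eul _ hx₀M)
    exact ⟨x₀, hx₀M, v, hv, hv'⟩
  -- the generic section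
  have hcone' : Cone N (3 + (d - 3)) (Mp p g d) (Tg g) := by
    rw [show 3 + (d - 3) = d by omega]
    exact hcone
  obtain ⟨L, hL3, ⟨x₁, hx₁M, hx₁L, v, hv, hvL, hne⟩, hzer⟩ :=
    hITR (d - 3) N (Mp p g d) (Tg g) hcone' (fun x v => om g x x v) hcont hal hex
      (p ⊔ mI d g) (by assumption) hDle
  have hset : insert (0 : Cn N) {x | x ∈ Mp p g d ∧ x ∈ L} = Zer p ∩ (L : Set (Cn N)) := by
    ext x
    constructor
    · rintro (rfl | ⟨h1, h2⟩)
      · exact ⟨zero_mem_zer hp hH, L.zero_mem⟩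
      · exact ⟨h1.1, h2⟩
    · rintro ⟨h1, h2⟩
      by_cases h0 : x = 0
      · exact Or.inl h0
      · refine Or.inr ⟨⟨h1, le_antisymm (rank_le hp hS htr h1) ?_⟩, h2⟩
        by_contra hlt
        exact h0 (hzer x (zer_sup h1 (zer_mI (not_le.1 hlt))) h2)
  have hclosed : IsClosed (insert (0 : Cn N) {x | x ∈ Mp p g d ∧ x ∈ L}) := by
    rw [hset]
    exact (isClosed_zer p).inter L.closed_of_finiteDimensional
  obtain ⟨D, hD⟩ := hDEN N d g {x | x ∈ Mp p g d ∧ x ∈ L} (fun x => Tg g x ⊓ L) hL3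
    (fun x hx => ⟨hx.1.2, fun i j k => hx.1.1 _ (hJ i j k), inf_le_left⟩)
  obtain ⟨c, hc⟩ := hL3.cov x₁ ⟨hx₁M, hx₁L⟩
  obtain ⟨hy, hGy⟩ := c.inv x₁ ⟨hx₁M, hx₁L⟩ hc
  have h1 := hHLM N 3 _ _ hL3 hclosed D c _ hy
  have h2 := hD c _ hy h1 v (by rw [hGy]; exact ⟨hv, hvL⟩)
  rw [hGy] at h2
  exact hne h2

end Pool.Agent.Lib.MPc9b009.PS
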