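import Pool.Agent.Lib.MP_c9b009_ag.PS.Spec

/-!
# MP_c9b009_ag, row PS, module INV: graphs from the inverse function theorem
-/

set_option autoImplicit false

namespace Pool.Agent.Lib.MPc9b009.PS

open MvPolynomial Pool.Agent.Lib.MPc9b009.B5 Pool.Agent.Lib.MPc9b009.OD

namespace INVM

/-- polynomials are smooth -/
theorem contDiff_eval {N : ℕ} (p : MvPolynomial (Fin N) ℂ) :
    ContDiff ℂ 3 (fun x : Cn N => eval x p) := by
  induction p using MvPolynomial.induction_on with
  | C a =>
    simp only [eval_C]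
    exact contDiff_const
  | add p q hp hq =>
    simp only [map_add]
    exact hp.add hq
  | mul_X p i hp =>
    simp only [map_mul, eval_X]
    exact hp.mul (contDiff_apply ℂ ℂ i)

/-- the coordinates -/
noncomputable def pr {N : ℕ} (j : Fin N) : Cn N →L[ℂ] ℂ := ContinuousLinearMap.proj j

theorem pr_apply {N : ℕ} (j : Fin N) (v : Cn N) : pr j v = v j := rfl

/-- the differential of a polynomial -/
noncomputable def dp {N : ℕ} (p : MvPolynomial (Fin N) ℂ) (x : Cn N) : Cn N →L[ℂ] ℂ :=
  ∑ j, eval x (pderiv j p) • pr j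

theorem dp_apply {N : ℕ} (p : MvPolynomial (Fin N) ℂ) (x v : Cn N) :
    dp p x v = ∑ j, eval x (pderiv j p) * v j := by
  unfold dp
  rw [_root_.sum_apply]
  rfl

/-- the derivative of a polynomial -/
theorem hasFDerivAt_eval {N : ℕ} (p : MvPolynomial (Fin N) ℂ) (x : Cn N) :
    HasFDerivAt (fun x : Cn N => eval x p) (dp p x) x := by
  induction p using MvPolynomial.induction_on with
  | C a =>
    have h1 : (fun x : Cn N => eval x (C a : MvPolynomial (Fin N) ℂ)) = fun _ => a := by
      funext x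
      rw [eval_C]
    have h2 : dp (C a : MvPolynomial (Fin N) ℂ) x = 0 := by
      refine ContinuousLinearMap.ext fun v => ?_
      rw [dp_apply]
      simp
    rw [h1, h2]
    exact hasFDerivAt_const a x
  | add p q hp hq =>
    have h1 : (fun x : Cn N => eval x (p + q)) = (fun x : Cn N => eval x p) +
        (fun x : Cn N => eval x q) := by
      funext x
      rw [map_add, Pi.add_apply]
    have h2 : dp (p + q) x = dp p x + dp q x := by
      refine ContinuousLinearMap.ext fun v => ?_
      rw [_root_.add_apply, dp_apply, dp_apply, dp_apply, ← Finset.sum_add_distrib]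
      refine Finset.sum_congr rfl fun j _ => ?_
      rw [map_add, map_add, add_mul]
    rw [h1, h2]
    exact hp.add hq
  | mul_X p i hp =>
    have h0 : HasFDerivAt (fun x : Cn N => x i) (pr i) x := hasFDerivAt_apply i x
    have h1 : (fun x : Cn N => eval x (p * X i)) = (fun x : Cn N => eval x p) *
        (fun x : Cn N => x i) := by
      funext x
      rw [map_mul, eval_X, Pi.mul_apply]
    rw [h1]
    refine (hp.mul h0).congr_fderiv ?_
    refine ContinuousLinearMap.ext fun v => ?_
    change eval x p * v i + x i * dp p x v = _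
    rw [dp_apply, dp_apply]
    have h2 : ∀ j : Fin N, eval x (pderiv j (p * X i)) * v j
        = (if i = j then eval x p * v j else 0) + x i * (eval x (pderiv j p) * v j) := by
      intro j
      rw [Derivation.leibniz, smul_eq_mul, smul_eq_mul, map_add, map_mul, map_mul, eval_X,
        pderiv_X]
      rcases eq_or_ne i j with h3 | h3
      · subst h3
        rw [if_pos rfl, Pi.single_eq_same, map_one, mul_one]
        ring
      · rw [if_neg h3, Pi.single_eq_of_ne h3, map_zero, mul_zero]
        ring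
    rw [Finset.sum_congr rfl fun j _ => h2 j, Finset.sum_add_distrib, Finset.sum_ite_eq,
      if_pos (Finset.mem_univ i), ← Finset.mul_sum]

variable {N k : ℕ} (F : Fin (N - k) → MvPolynomial (Fin N) ℂ) (I : Fin k → Fin N)

/-- the map -/
noncomputable def Th (x : Cn N) : Cn k × Cn (N - k) :=
  (fun m => x (I m), fun a => eval x (F a))

/-- its derivative -/
noncomputable def dTh (x : Cn N) : Cn N →L[ℂ] Cn k × Cn (N - k) :=
  (ContinuousLinearMap.pi fun m => pr (I m)).prod
    (ContinuousLinearMap.pi fun a => dp (F a) x)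

theorem contDiff_Th : ContDiff ℂ 3 (Th F I) := by
  refine ContDiff.prodMk ?_ ?_
  · exact contDiff_pi.2 fun m => contDiff_apply ℂ ℂ (I m)
  · exact contDiff_pi.2 fun a => contDiff_eval (F a)

theorem hasFDerivAt_Th (x : Cn N) : HasFDerivAt (Th F I) (dTh F I x) x := by
  refine HasFDerivAt.prodMk ?_ ?_
  · exact hasFDerivAt_pi.2 fun m => hasFDerivAt_apply (I m) x
  · exact hasFDerivAt_pi.2 fun a => hasFDerivAt_eval (F a) x

theorem dTh_apply (x v : Cn N) : dTh F I x v =
    (fun m => v (I m), fun a => ∑ j, eval x (pderiv j (F a)) * v j) := by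
  refine Prod.ext ?_ ?_
  · rfl
  · funext a
    exact dp_apply (F a) x v

theorem main (x₀ : Cn N) (hI : Function.Injective I)
    (hinj : ∀ v : Cn N, (∀ m, v (I m) = 0) →
      (∀ a, ∑ j, eval x₀ (pderiv j (F a)) * v j = 0) → v = 0) :
    ∃ (W : Set (Cn N)) (B : Set (Cn k)) (G : Cn k → Cn N), IsOpen W ∧ IsOpen B ∧ x₀ ∈ W ∧
      ContDiffOn ℂ 3 G B ∧
      (∀ y ∈ B, G y ∈ W ∧ (∀ a, eval (G y) (F a) = 0) ∧ ∀ m, G y (I m) = y m) ∧
      (∀ z ∈ W, (∀ a, eval z (F a) = 0) → (fun m => z (I m)) ∈ B ∧ G (fun m => z (I m)) = z) := by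
  have hkN : k ≤ N := by
    have h := Fintype.card_le_of_injective I hI
    rwa [Fintype.card_fin, Fintype.card_fin] at h
  have hdim : Module.finrank ℂ (Cn N) = Module.finrank ℂ (Cn k × Cn (N - k)) := by
    rw [Module.finrank_prod, Module.finrank_fin_fun, Module.finrank_fin_fun,
      Module.finrank_fin_fun]
    omega
  have hL : Function.Injective (dTh F I x₀ : Cn N →ₗ[ℂ] Cn k × Cn (N - k)) := by
    rw [← LinearMap.ker_eq_bot, LinearMap.ker_eq_bot']
    intro v hv
    have h1 : dTh F I x₀ v = 0 := hv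
    rw [dTh_apply] at h1
    refine hinj v (fun m => ?_) fun a => ?_
    · exact congrFun (congrArg Prod.fst h1) m
    · exact congrFun (congrArg Prod.snd h1) a
  set L₀ : Cn N ≃L[ℂ] Cn k × Cn (N - k) := (LinearEquiv.ofInjectiveOfFinrankEq
    (dTh F I x₀ : Cn N →ₗ[ℂ] Cn k × Cn (N - k)) hL hdim).toContinuousLinearEquiv with hL₀
  have hL₀' : (L₀ : Cn N →L[ℂ] Cn k × Cn (N - k)) = dTh F I x₀ := by
    ext v
    · rfl
    · rfl
  have hd0 : HasFDerivAt (Th F I) (L₀ : Cn N →L[ℂ] Cn k × Cn (N - k)) x₀ := by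
    rw [hL₀']
    exact hasFDerivAt_Th F I x₀
  have hcd : ContDiff ℂ 3 (Th F I) := contDiff_Th F I
  have h3 : (3 : WithTop ℕ∞) ≠ 0 := by norm_num
  set e := (hcd.contDiffAt (x := x₀)).toOpenPartialHomeomorph (Th F I) hd0 h3 with he
  have hecoe : ∀ x, e x = Th F I x := fun x => rfl
  -- the open set where the derivative is invertible
  set O : Set (Cn N) := (fderiv ℂ (Th F I)) ⁻¹'
    (Set.range ((↑) : (Cn N ≃L[ℂ] Cn k × Cn (N - k)) → (Cn N →L[ℂ] Cn k × Cn (N - k)))) with hO
  have hOo : IsOpen O :=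
    (ContinuousLinearEquiv.isOpen).preimage (hcd.continuous_fderiv (by norm_num))
  have hx₀O : x₀ ∈ O := ⟨L₀, hd0.fderiv.symm⟩
  set ι : Cn k → Cn k × Cn (N - k) := fun y => (y, 0) with hι
  have hιc : Continuous ι := Continuous.prodMk_left 0
  refine ⟨e.source ∩ O, ι ⁻¹' (e.target ∩ e.symm ⁻¹' O), fun y => e.symm (ι y),
    e.open_source.inter hOo, ?_, ⟨?_, hx₀O⟩, ?_, ?_, ?_⟩
  · exact (e.symm.isOpen_inter_preimage hOo).preimage hιc
  · exact (hcd.contDiffAt (x := x₀)).mem_toOpenPartialHomeomorph_source hd0 h3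
  · intro y hy
    obtain ⟨hy1, hy2⟩ := hy
    obtain ⟨L, hL1⟩ := hy2
    have h4 : HasFDerivAt e (L : Cn N →L[ℂ] Cn k × Cn (N - k)) (e.symm (ι y)) := by
      rw [hL1]
      exact (hcd.differentiable (by norm_num)).differentiableAt.hasFDerivAt
    have h5 : ContDiffAt ℂ 3 e.symm (ι y) := e.contDiffAt_symm hy1 h4 hcd.contDiffAt
    have h6 : ContDiff ℂ 3 ι := contDiff_prodMk_left 0
    exact (h5.comp y h6.contDiffAt).contDiffWithinAt
  · intro y hy
    obtain ⟨hy1, hy2⟩ := hy
    have h4 : Th F I (e.symm (ι y)) = ι y := e.right_inv hy1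
    refine ⟨⟨e.map_target hy1, hy2⟩, fun a => ?_, fun m => ?_⟩
    · exact congrFun (congrArg Prod.snd h4) a
    · exact congrFun (congrArg Prod.fst h4) m
  · intro z hz hFz
    obtain ⟨hz1, hz2⟩ := hz
    have h4 : ι (fun m => z (I m)) = e z := by
      rw [hecoe]
      refine Prod.ext rfl ?_
      funext a
      exact (hFz a).symm
    have h5 : e.symm (e z) = z := e.left_inv hz1
    refine ⟨⟨?_, ?_⟩, ?_⟩
    · rw [h4]
      exact e.map_source hz1
    · change e.symm (ι fun m => z (I m)) ∈ O
      rw [h4, h5]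
      exact hz2
    · change e.symm (ι fun m => z (I m)) = z
      rw [h4, h5]

end INVM

/-- INV: graphs from the inverse function theorem. -/
theorem specINV : SpecINV := fun _ _ F I x₀ hI _ hinj => INVM.main F I x₀ hI hinj

end Pool.Agent.Lib.MPc9b009.PS
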