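import Pool.Agent.Lib.MP_c9b009_ag.PS.Spec
import Pool.Agent.Lib.MP_c9b009_ag.B5.All

/-!
# MP_c9b009_ag, row PS, module ITR: iterated hyperplane sections
-/

set_option autoImplicit false

namespace Pool.Agent.Lib.MPc9b009.PS

open MvPolynomial Pool.Agent.Lib.MPc9b009.B5 Pool.Agent.Lib.MPc9b009.OD

namespace ITRM

/-- A homogeneous ideal of dimension zero has no zeros besides the origin. -/
theorem line {N : ℕ} {J : Ideal (MvPolynomial (Fin N) ℂ)} (hJ : Hom J) (hD : Dle J 0) {x : Cn N}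
    (hx : x ∈ Zer J) : x = 0 := by
  by_contra hx0
  refine CUTM.trdeg_line x hx0 ?_
  have h := hD (RingHom.ker (CUTM.psi x)) (RingHom.ker_isPrime _) ?_
  · simpa using h
  · intro g hg
    change CUTM.psi x g = 0
    ext d
    rw [CUTM.psi_comp, Polynomial.coeff_zero]
    exact hx _ (hJ g hg d)

theorem eval_lin {N : ℕ} (c x : Cn N) : eval x (lin c) = dot c x := by
  rw [lin, map_sum]
  simp only [map_mul, eval_C, eval_X]
  simp [dot]

end ITRM

theorem specITR (hSTP : SpecSTP) : SpecITR := by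
  intro j
  induction j with
  | zero =>
    intro N M T hC al hc hs hne J hJ hD
    refine ⟨⊤, ?_, ?_, ?_⟩
    · have h1 : {x | x ∈ M ∧ x ∈ (⊤ : Submodule ℂ (Cn N))} = M := by
        ext x
        simp
      have h2 : (fun x => T x ⊓ (⊤ : Submodule ℂ (Cn N))) = T := by
        funext x
        simp
      rw [h1, h2]
      exact hC
    · obtain ⟨x, hx, v, hv, h⟩ := hne
      exact ⟨x, hx, Submodule.mem_top, v, hv, Submodule.mem_top, h⟩
    · intro x hx _
      exact ITRM.line hJ hD hx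
  | succ j ih =>
    intro N M T hC al hc hs hne J hJ hD
    obtain ⟨c, h1, h2, h3, h4⟩ := hSTP N (3 + j) j M T hC (by omega) al hc hs hne J hJ hD
    obtain ⟨L', g1, g2, g3⟩ := ih N {x | x ∈ M ∧ x ∈ hyp c} (fun x => T x ⊓ hyp c) h1 al
      (hc.mono fun z hz => ⟨hz.1.1, hz.2.1⟩) (fun x hx t => hs x hx.1 t)
      (by
        obtain ⟨x, hx, hxc, v, hv, hvc, h⟩ := h2
        exact ⟨x, ⟨hx, hxc⟩, v, ⟨hv, hvc⟩, h⟩)
      (J ⊔ Ideal.span {lin c}) h3 h4
    refine ⟨hyp c ⊓ L', ?_, ?_, ?_⟩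
    · have e1 : {x | x ∈ M ∧ x ∈ hyp c ⊓ L'} = {x | x ∈ {x | x ∈ M ∧ x ∈ hyp c} ∧ x ∈ L'} := by
        ext x
        simp only [Set.mem_ofPred_eq, Submodule.mem_inf, and_assoc]
      have e2 : (fun x => T x ⊓ (hyp c ⊓ L')) = fun x => T x ⊓ hyp c ⊓ L' := by
        funext x
        rw [inf_assoc]
      rw [e1, e2]
      exact g1
    · obtain ⟨x, hx, hxL, v, hv, hvL, h⟩ := g2
      exact ⟨x, hx.1, ⟨hx.2, hxL⟩, v, hv.1, ⟨hv.2, hvL⟩, h⟩
    · intro x hx hxL
      refine g3 x ?_ hxL.2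
      intro g hg
      obtain ⟨a, ha, b, hb, rfl⟩ := Submodule.mem_sup.1 hg
      obtain ⟨e, rfl⟩ := Ideal.mem_span_singleton'.1 hb
      have h0 : dot c x = 0 := hxL.1
      rw [map_add, map_mul, hx a ha, ITRM.eval_lin, h0, mul_zero, add_zero]

end Pool.Agent.Lib.MPc9b009.PS
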