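import Pool.Agent.Lib.MP_c9b009_ag.PS.Spec

/-!
# MP_c9b009_ag, row PS, module JRK: the Jacobian criterion at the generic point
-/

set_option autoImplicit false

namespace Pool.Agent.Lib.MPc9b009.PS

open MvPolynomial Pool.Agent.Lib.MPc9b009.B5 Pool.Agent.Lib.MPc9b009.OD

namespace JRKM

/-- Chain rule for polynomials with coefficients in a subalgebra killed by the derivation. -/
theorem der_aeval {A K : Type} [CommRing A] [Algebra ℂ A] [Field K] [Algebra A K]
    [Algebra ℂ K] [IsScalarTower ℂ A K] (R0 : Subalgebra ℂ A) (D : Derivation ℂ A K)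
    (h0 : ∀ c ∈ R0, D c = 0) (x : A) (P : Polynomial R0) :
    D (Polynomial.aeval x P) =
      algebraMap A K (Polynomial.aeval x (Polynomial.derivative P)) * D x := by
  induction P using Polynomial.induction_on' with
  | add P Q hP hQ =>
    rw [map_add, map_add, hP, hQ, Polynomial.derivative_add, map_add, map_add, add_mul]
  | monomial n c =>
    have h1 : D (algebraMap R0 A c) = 0 := h0 _ c.2
    rw [Polynomial.aeval_monomial, Derivation.leibniz, h1, smul_zero, add_zero,
      Derivation.leibniz_pow, Polynomial.derivative_monomial, Polynomial.aeval_monomial]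
    simp only [Algebra.smul_def, map_mul, map_pow, map_natCast, eq_natCast]
    ring

/-- A derivation which vanishes on a transcendence basis is zero. -/
theorem der_zero {A K ι : Type} [CommRing A] [IsDomain A] [Algebra ℂ A] [Field K] [Algebra A K]
    [Algebra ℂ K] [IsScalarTower ℂ A K] (hinj : Function.Injective (algebraMap A K))
    (z : ι → A) (hz : IsTranscendenceBasis ℂ z) (D : Derivation ℂ A K)
    (h0 : ∀ b, D (z b) = 0) (x : A) : D x = 0 := by
  set R0 : Subalgebra ℂ A := Algebra.adjoin ℂ (Set.range z) with hR0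
  have hD : ∀ c ∈ R0, D c = 0 := by
    intro c hc
    have h1 : Set.EqOn D (0 : Derivation ℂ A K) (Set.range z) := by
      rintro y ⟨b, rfl⟩
      exact h0 b
    exact Derivation.eqOn_adjoin h1 hc
  have halg : Algebra.IsAlgebraic R0 A := hz.isAlgebraic
  obtain ⟨P0, hP0, hP0x⟩ := halg.isAlgebraic x
  -- a polynomial of minimal degree
  have hex : ∃ n, ∃ P : Polynomial R0, P ≠ 0 ∧ Polynomial.aeval x P = 0 ∧ P.natDegree = n :=
    ⟨_, P0, hP0, hP0x, rfl⟩
  classical
  obtain ⟨P, hP, hPx, hPn⟩ := Nat.find_spec hex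
  have hmin := fun m (hm : m < Nat.find hex) => Nat.find_min hex hm
  rw [← hPn] at hmin
  have hchar : CharZero A := charZero_of_injective_algebraMap (FaithfulSMul.algebraMap_injective ℂ A)
  have hchar0 : CharZero R0 := (algebraMap R0 A).charZero
  have hdeg : P.natDegree ≠ 0 := by
    intro hd
    rw [Polynomial.eq_C_of_natDegree_eq_zero hd, Polynomial.aeval_C] at hPx
    have h2 : P.coeff 0 = 0 := Subtype.ext hPx
    apply hP
    rw [Polynomial.eq_C_of_natDegree_eq_zero hd, h2, Polynomial.C_0]
  have hP' : Polynomial.derivative P ≠ 0 := by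
    intro h
    exact hdeg (Polynomial.derivative_eq_zero.1 h)
  have hlt : (Polynomial.derivative P).natDegree < P.natDegree :=
    Polynomial.natDegree_derivative_lt hdeg
  have hne : Polynomial.aeval x (Polynomial.derivative P) ≠ 0 := by
    intro h
    exact hmin _ hlt ⟨_, hP', h, rfl⟩
  have h3 := der_aeval R0 D hD x P
  rw [hPx, map_zero] at h3
  rcases mul_eq_zero.1 h3.symm with h4 | h4
  · exact absurd (hinj (by rw [h4, map_zero])) hne
  · exact h4

end JRKM

theorem specJRK : SpecJRK := by
  intro N d p hp _ htr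
  have := hp
  obtain ⟨ι, z, hz⟩ := exists_isTranscendenceBasis' ℂ (MvPolynomial (Fin N) ℂ ⧸ p)
  have hι : Cardinal.mk ι = ((d : ℕ) : Cardinal) := by rw [hz.cardinalMk_eq_trdeg, htr]
  obtain ⟨hfin, hcard⟩ := Cardinal.mk_eq_nat_iff_fintype.1 hι
  choose Z hZ using fun b => Ideal.Quotient.mk_surjective (z b)
  set K := FractionRing (MvPolynomial (Fin N) ℂ ⧸ p) with hK
  have hinj : Function.Injective (algebraMap (MvPolynomial (Fin N) ℂ ⧸ p) K) :=
    IsFractionRing.injective _ _
  let φ : MvPolynomial (Fin N) ℂ →ₐ[ℂ] K :=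
    (IsScalarTower.toAlgHom ℂ (MvPolynomial (Fin N) ℂ ⧸ p) K).comp (Ideal.Quotient.mkₐ ℂ p)
  have hφ : ∀ F, φ F = algebraMap (MvPolynomial (Fin N) ℂ ⧸ p) K (Ideal.Quotient.mk p F) :=
    fun F => rfl
  have hφ0 : ∀ F, φ F = 0 ↔ F ∈ p := by
    intro F
    rw [hφ, map_eq_zero_iff _ hinj, Ideal.Quotient.eq_zero_iff_mem]
  set s : Set (Fin N → K) := {u | ∃ F ∈ p, u = fun j => φ (pderiv j F)} with hs
  obtain ⟨r, f, hfs, hfspan, hfli⟩ : ∃ (r : ℕ) (f : Fin r → (Fin N → K)), (∀ i, f i ∈ s) ∧
      Submodule.span K (Set.range f) = Submodule.span K s ∧ LinearIndependent K f :=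
    ⟨_, Submodule.exists_fun_fin_finrank_span_eq K s⟩
  have hrd : N ≤ r + d := by
    by_contra hcon
    push Not at hcon
    let T : (Fin N → K) →ₗ[K] ((Fin r → K) × (ι → K)) :=
      (Matrix.of f).mulVecLin.prod (Matrix.of fun b j => φ (pderiv j (Z b))).mulVecLin
    have hker : LinearMap.ker T ≠ ⊥ := by
      apply LinearMap.ker_ne_bot_of_finrank_lt
      rw [Module.finrank_prod, Module.finrank_fin_fun, Module.finrank_fintype_fun_eq_card,
        Module.finrank_fin_fun, hcard]
      exact hcon
    obtain ⟨v, hv, hv0⟩ := Submodule.exists_mem_ne_zero_of_ne_bot hker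
    rw [LinearMap.mem_ker] at hv
    have hv1 : ∀ i, ∑ j, f i j * v j = 0 := fun i => congrFun (congrArg Prod.fst hv) i
    have hv2 : ∀ b, ∑ j, φ (pderiv j (Z b)) * v j = 0 := fun b => congrFun (congrArg Prod.snd hv) b
    have hv3 : ∀ F ∈ p, ∑ j, φ (pderiv j F) * v j = 0 := by
      intro F hF
      have h1 : (fun j => φ (pderiv j F)) ∈ Submodule.span K (Set.range f) := by
        rw [hfspan]
        exact Submodule.subset_span ⟨F, hF, rfl⟩
      let L : (Fin N → K) →ₗ[K] K := ∑ j, (LinearMap.proj j).smulRight (v j)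
      have hL : ∀ u, L u = ∑ j, u j * v j := by
        intro u
        simp [L]
      have h2 : Submodule.span K (Set.range f) ≤ LinearMap.ker L := by
        rw [Submodule.span_le]
        rintro _ ⟨i, rfl⟩
        rw [SetLike.mem_coe, LinearMap.mem_ker, hL]
        exact hv1 i
      have h3 := h2 h1
      rw [LinearMap.mem_ker, hL] at h3
      exact h3
    -- clear denominators
    obtain ⟨b, hb⟩ := IsLocalization.exist_integer_multiples
      (nonZeroDivisors (MvPolynomial (Fin N) ℂ ⧸ p)) Finset.univ v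
    have hb' : ∀ j, ∃ w : MvPolynomial (Fin N) ℂ, φ w = algebraMap _ K (b : _ ⧸ p) * v j := by
      intro j
      obtain ⟨a, ha⟩ := hb j (Finset.mem_univ j)
      obtain ⟨w, rfl⟩ := Ideal.Quotient.mk_surjective a
      exact ⟨w, by rw [hφ, ha, Algebra.smul_def]⟩
    choose w hw using hb'
    have hbne : algebraMap (MvPolynomial (Fin N) ℂ ⧸ p) K (b : _ ⧸ p) ≠ 0 := by
      intro h
      exact nonZeroDivisors.ne_zero b.2 (hinj (by rw [h, map_zero]))
    have hwp : ∀ g ∈ p, ∑ i, w i * pderiv i g ∈ p := by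
      intro g hg
      rw [← hφ0, map_sum]
      have h1 := hv3 g hg
      calc ∑ i, φ (w i * pderiv i g)
          = algebraMap _ K (b : _ ⧸ p) * ∑ j, φ (pderiv j g) * v j := by
            rw [Finset.mul_sum]
            refine Finset.sum_congr rfl fun j _ => ?_
            rw [map_mul, hw]
            ring
        _ = 0 := by rw [h1, mul_zero]
    obtain ⟨D, hD⟩ := BSTM.ext_vf p w hwp
    have hDφ : ∀ g, D (φ g) = ∑ k, φ (pderiv k g) * φ (w k) := by
      intro g
      rw [BSTM.der_poly φ D g]
      refine Finset.sum_congr rfl fun k _ => ?_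
      congr 1
      exact hD k
    have hDz : ∀ c, (D.compAlgebraMap (MvPolynomial (Fin N) ℂ ⧸ p)) (z c) = 0 := by
      intro c
      change D (algebraMap _ K (z c)) = 0
      rw [← hZ c, ← hφ, hDφ]
      calc ∑ k, φ (pderiv k (Z c)) * φ (w k)
          = algebraMap _ K (b : _ ⧸ p) * ∑ j, φ (pderiv j (Z c)) * v j := by
            rw [Finset.mul_sum]
            refine Finset.sum_congr rfl fun j _ => ?_
            rw [hw]
            ring
        _ = 0 := by rw [hv2, mul_zero]
    have hD0 := JRKM.der_zero hinj z hz (D.compAlgebraMap (MvPolynomial (Fin N) ℂ ⧸ p)) hDz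
    apply hv0
    funext k
    have h1 : D (algebraMap _ K (Ideal.Quotient.mk p (X k))) = 0 := hD0 (Ideal.Quotient.mk p (X k))
    rw [hD k, ← hφ, hw k] at h1
    rcases mul_eq_zero.1 h1 with h2 | h2
    · exact absurd h2 hbne
    · exact h2
  -- a nonzero minor
  have hmr : N - d ≤ r := by omega
  generalize N - d = m at hmr
  choose F hF hfF using hfs
  let g : Fin m → (Fin N → K) := fun a => f (Fin.castLE hmr a)
  have hgli : LinearIndependent K g := hfli.comp _ (Fin.castLE_injective hmr)
  have hrank : (Matrix.of g).rank = m := by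
    have h1 : LinearIndependent K (Matrix.of g).row := hgli
    rw [h1.rank_matrix, Fintype.card_fin]
  rcases m with _ | k
  · refine ⟨Fin.elim0, Fin.elim0, fun a => Fin.elim0 a, ?_⟩
    rw [Matrix.det_isEmpty]
    exact fun h => hp.ne_top ((Ideal.eq_top_iff_one p).2 h)
  · have h1 : ¬ (Matrix.of g).rank ≤ k := by omega
    rw [← specRKM K _ (k + 1) N k (Matrix.of g)] at h1
    push Not at h1
    obtain ⟨I, J, hIJ⟩ := h1
    refine ⟨fun a => F (Fin.castLE hmr (I a)), J, fun a => hF _, ?_⟩
    rw [← hφ0, AlgHom.map_det]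
    intro h2
    apply hIJ
    rw [← h2]
    congr 1
    ext a c
    exact congrFun (hfF (Fin.castLE hmr (I a))) (J c)

end Pool.Agent.Lib.MPc9b009.PS
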