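import Pool.Agent.Lib.MP_c9b009_ag.PS.Spec

/-!
# MP_c9b009_ag, row PS, module LGR: the points of maximal rank form a smooth cone
-/

set_option autoImplicit false

namespace Pool.Agent.Lib.MPc9b009.PS

open MvPolynomial Pool.Agent.Lib.MPc9b009.B5 Pool.Agent.Lib.MPc9b009.OD

namespace LGRM

/-! ## polynomial functions -/

/-- the differential of a polynomial -/
noncomputable def grad {N : ℕ} (h : MvPolynomial (Fin N) ℂ) (x : Cn N) : Cn N →L[ℂ] ℂ :=
  ∑ j, eval x (pderiv j h) • (ContinuousLinearMap.proj j : Cn N →L[ℂ] ℂ)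

theorem grad_apply {N : ℕ} (h : MvPolynomial (Fin N) ℂ) (x v : Cn N) :
    grad h x v = ∑ j, eval x (pderiv j h) * v j := by
  simp only [grad, sum_apply, smul_apply, ContinuousLinearMap.proj_apply, smul_eq_mul]

/-- derivative of a polynomial function -/
theorem hasFDerivAt_eval {N : ℕ} (h : MvPolynomial (Fin N) ℂ) (x : Cn N) :
    HasFDerivAt (fun z : Cn N => eval z h) (grad h x) x := by
  induction h using MvPolynomial.induction_on with
  | C a =>
    have h0 : grad (C a) x = 0 := by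
      ext v
      rw [grad_apply]
      simp
    rw [h0]
    simp only [eval_C]
    exact hasFDerivAt_const a x
  | add p q hp hq =>
    have h0 : grad (p + q) x = grad p x + grad q x := by
      ext v
      rw [_root_.add_apply, grad_apply, grad_apply, grad_apply, ← Finset.sum_add_distrib]
      refine Finset.sum_congr rfl fun j _ => ?_
      rw [map_add, map_add, add_mul]
    have he : (fun z : Cn N => eval z (p + q)) =
        (fun z : Cn N => eval z p) + fun z : Cn N => eval z q := by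
      funext z
      exact map_add _ _ _
    rw [h0, he]
    exact hp.add hq
  | mul_X p i hp =>
    have hi : HasFDerivAt (fun z : Cn N => z i) (ContinuousLinearMap.proj i : Cn N →L[ℂ] ℂ) x :=
      (ContinuousLinearMap.proj i : Cn N →L[ℂ] ℂ).hasFDerivAt
    have hm := hp.mul hi
    have he : (fun z : Cn N => eval z (p * X i)) = (fun z : Cn N => eval z p) * fun z => z i := by
      funext z
      simp
    rw [he]
    refine hm.congr_fderiv ?_
    ext v
    rw [grad_apply, _root_.add_apply, smul_apply, smul_apply, grad_apply,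
      ContinuousLinearMap.proj_apply, smul_eq_mul, smul_eq_mul]
    have h1 : ∀ j : Fin N, eval x (pderiv j (p * X i)) * v j =
        x i * (eval x (pderiv j p) * v j) + if i = j then eval x p * v j else 0 := by
      intro j
      rw [pderiv_mul, pderiv_X, map_add, map_mul, map_mul, eval_X]
      by_cases hij : i = j
      · subst hij
        simp only [Pi.single_eq_same, map_one, if_pos]
        ring
      · rw [if_neg hij, Pi.single_eq_of_ne hij]
        simp only [map_zero]
        ring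
    rw [Finset.sum_congr rfl fun j _ => h1 j, Finset.sum_add_distrib, ← Finset.mul_sum,
      Finset.sum_ite_eq, if_pos (Finset.mem_univ i)]
    ring

theorem eval_smul_hom {N n : ℕ} {f : MvPolynomial (Fin N) ℂ} (hf : f.IsHomogeneous n) (t : ℂ)
    (x : Cn N) : eval (t • x) f = t ^ n * eval x f := by
  have h := CUTM.psi_hom x hf
  have h2 := congrArg (Polynomial.eval t) h
  rw [Polynomial.eval_mul, Polynomial.eval_C, Polynomial.eval_pow, Polynomial.eval_X] at h2
  rw [mul_comm, ← h2, CUTM.psi]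
  have h3 : ∀ q : MvPolynomial (Fin N) ℂ, Polynomial.eval t
      (aeval (fun k => Polynomial.C (x k) * Polynomial.X) q) = eval (t • x) q := by
    intro q
    induction q using MvPolynomial.induction_on with
    | C a => simp
    | add p q hp hq => rw [map_add, Polynomial.eval_add, hp, hq, map_add]
    | mul_X p i hp =>
      rw [map_mul, Polynomial.eval_mul, hp, map_mul, aeval_X, eval_X, Polynomial.eval_mul,
        Polynomial.eval_C, Polynomial.eval_X, Pi.smul_apply, smul_eq_mul, mul_comm t]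
  rw [h3]

theorem mat_smul {N : ℕ} (g : Biv N) (t : ℂ) (x : Cn N) :
    mat g.f (t • x) = t ^ 2 • mat g.f x := by
  ext i j
  simp only [mat, Matrix.of_apply, Matrix.smul_apply, smul_eq_mul]
  exact eval_smul_hom (g.quad i j) t x

theorem zer_smul {N : ℕ} {p : Ideal (MvPolynomial (Fin N) ℂ)} (hp : Hom p) (t : ℂ) {x : Cn N}
    (hx : x ∈ Zer p) : t • x ∈ Zer p := by
  intro h hh
  rw [← sum_homogeneousComponent h, map_sum]
  refine Finset.sum_eq_zero fun i _ => ?_
  rw [eval_smul_hom (homogeneousComponent_isHomogeneous i h), hx _ (hp h hh i), mul_zero]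

theorem mat_skew {N : ℕ} (g : Biv N) (x : Cn N) (i j : Fin N) :
    mat g.f x j i = - mat g.f x i j := by
  simp only [mat, Matrix.of_apply]
  rw [g.skew i j, map_neg]

theorem euler {N : ℕ} {p : Ideal (MvPolynomial (Fin N) ℂ)} (hp : Hom p) {x : Cn N}
    (hx : x ∈ Zer p) {h : MvPolynomial (Fin N) ℂ} (hh : h ∈ p) :
    ∑ j, eval x (pderiv j h) * x j = 0 := by
  have h1 : ∑ j, eval x (pderiv j h) * x j = eval x (∑ j, X j * pderiv j h) := by
    rw [map_sum]
    refine Finset.sum_congr rfl fun j _ => ?_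
    rw [map_mul, eval_X, mul_comm]
  have h2 : ∑ j, X j * pderiv j h =
      ∑ i ∈ Finset.range (h.totalDegree + 1), i • homogeneousComponent i h := by
    conv_lhs => rw [← sum_homogeneousComponent h]
    simp only [map_sum, Finset.mul_sum]
    rw [Finset.sum_comm]
    exact Finset.sum_congr rfl fun i _ => (homogeneousComponent_isHomogeneous i h).sum_X_mul_pderiv
  rw [h1, h2, map_sum]
  refine Finset.sum_eq_zero fun i _ => ?_
  rw [map_nsmul, hx _ (hp h hh i), smul_zero]

/-! ## ranks -/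

theorem rank_ge {N d : ℕ} (A : Matrix (Fin N) (Fin N) ℂ) (I : Fin d → Fin N)
    (h : (Matrix.of fun a b => A (I a) (I b)).det ≠ 0) : d ≤ A.rank := by
  by_contra hlt
  push Not at hlt
  obtain ⟨k, rfl⟩ : ∃ k, d = k + 1 := ⟨d - 1, by omega⟩
  exact h ((specRKM ℂ inferInstance N N k A).2 (by omega) I I)

theorem rank_le {N d : ℕ} {g : Biv N} {p : Ideal (MvPolynomial (Fin N) ℂ)} (hp : p.IsPrime)
    (hst : Stab g.f p)
    (htr : Algebra.trdeg ℂ (MvPolynomial (Fin N) ℂ ⧸ p) = ((d : ℕ) : Cardinal))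
    {x : Cn N} (hx : x ∈ Zer p) : (mat g.f x).rank ≤ d := by
  refine (specRKM ℂ inferInstance N N d (mat g.f x)).1 fun I J => ?_
  have hm : mnr g.f I J ∈ p := by
    by_contra hn
    have h1 := specDIM N N (d + 1) g.f p hp hst ⟨I, J, hn⟩
    rw [htr] at h1
    have h2 : d + 1 ≤ d := by exact_mod_cast h1
    omega
  have h3 := hx _ hm
  rw [mnr, RingHom.map_det] at h3
  rw [← h3]
  congr 1

/-- a vector of the column space without `I`-coordinates is zero -/
theorem col_zero {N d : ℕ} (A : Matrix (Fin N) (Fin N) ℂ) (I : Fin d → Fin N)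
    (h : (Matrix.of fun a b => A (I a) (I b)).det ≠ 0) (hr : A.rank = d) {v : Cn N}
    (hv : v ∈ LinearMap.range A.mulVecLin) (h0 : ∀ m, v (I m) = 0) : v = 0 := by
  set f : LinearMap.range A.mulVecLin →ₗ[ℂ] Cn d :=
    (LinearMap.funLeft ℂ ℂ I).comp (LinearMap.range A.mulVecLin).subtype with hf
  have hs : Function.Surjective f := by
    intro w
    have hu : IsUnit (Matrix.of fun a b => A (I a) (I b)).det := isUnit_iff_ne_zero.2 h
    set B : Matrix (Fin d) (Fin d) ℂ := Matrix.of fun a b => A (I a) (I b) with hB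
    set c : Cn d := B⁻¹.mulVec w with hc
    have hBc : B.mulVec c = w := by
      rw [hc, Matrix.mulVec_mulVec, Matrix.mul_nonsing_inv B hu, Matrix.one_mulVec]
    refine ⟨⟨A.mulVecLin (∑ b, c b • Pi.single (I b) (1 : ℂ)), LinearMap.mem_range_self _ _⟩, ?_⟩
    funext a
    rw [← hBc]
    simp only [hf, LinearMap.comp_apply, Submodule.subtype_apply, LinearMap.funLeft_apply, map_sum,
      map_smul, Finset.sum_apply, Pi.smul_apply, smul_eq_mul, Matrix.mulVecLin_apply,
      Matrix.mulVec_single_one]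
    simp only [hB, Matrix.mulVec, dotProduct, Matrix.of_apply, Matrix.col_apply]
    exact Finset.sum_congr rfl fun b _ => mul_comm _ _
  have hfr : Module.finrank ℂ (LinearMap.range A.mulVecLin) = Module.finrank ℂ (Cn d) := by
    rw [Module.finrank_fin_fun]
    exact hr
  have hi := (LinearMap.injective_iff_surjective_of_finrank_eq_finrank hfr).2 hs
  have h1 : f ⟨v, hv⟩ = 0 := by
    funext m
    exact h0 m
  have h2 : (⟨v, hv⟩ : LinearMap.range A.mulVecLin) = 0 := hi (by rw [h1, map_zero])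
  exact congrArg Subtype.val h2

/-! ## graphs -/

theorem fderiv_coord {N d : ℕ} {B : Set (Cn d)} {G : Cn d → Cn N} {I : Fin d → Fin N}
    (hB : IsOpen B) (hG : ContDiffOn ℂ 3 G B) (hco : ∀ y ∈ B, ∀ m, G y (I m) = y m) {y : Cn d}
    (hy : y ∈ B) (v : Cn d) (m : Fin d) : fderiv ℂ G y v (I m) = v m := by
  have hd : DifferentiableAt ℂ G y :=
    (hG.differentiableOn (by norm_num)).differentiableAt (hB.mem_nhds hy)
  have h1 : HasFDerivAt (fun z => G z (I m))
      ((ContinuousLinearMap.proj (I m) : Cn N →L[ℂ] ℂ).comp (fderiv ℂ G y)) y :=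
    (ContinuousLinearMap.proj (I m) : Cn N →L[ℂ] ℂ).hasFDerivAt.comp y hd.hasFDerivAt
  have h2 : HasFDerivAt (fun z : Cn d => z m) (ContinuousLinearMap.proj m : Cn d →L[ℂ] ℂ) y :=
    (ContinuousLinearMap.proj m : Cn d →L[ℂ] ℂ).hasFDerivAt
  have h3 : (fun z => G z (I m)) =ᶠ[nhds y] fun z : Cn d => z m :=
    Filter.eventually_of_mem (hB.mem_nhds hy) fun z hz => hco z hz m
  have h4 := (h2.congr_of_eventuallyEq h3).unique h1
  have h5 := congrArg (fun L : Cn d →L[ℂ] ℂ => L v) h4
  exact h5.symm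

theorem fderiv_tan {N d : ℕ} {B : Set (Cn d)} {G : Cn d → Cn N} {h : MvPolynomial (Fin N) ℂ}
    (hB : IsOpen B) (hG : ContDiffOn ℂ 3 G B) (h0 : ∀ y ∈ B, eval (G y) h = 0) {y : Cn d}
    (hy : y ∈ B) (v : Cn d) : ∑ j, eval (G y) (pderiv j h) * fderiv ℂ G y v j = 0 := by
  have hd : DifferentiableAt ℂ G y :=
    (hG.differentiableOn (by norm_num)).differentiableAt (hB.mem_nhds hy)
  have h1 := (hasFDerivAt_eval h (G y)).comp y hd.hasFDerivAt
  have h2 : HasFDerivAt (fun _ : Cn d => (0 : ℂ)) (0 : Cn d →L[ℂ] ℂ) y := hasFDerivAt_const _ _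
  have h3 : ((fun z : Cn N => eval z h) ∘ G) =ᶠ[nhds y] fun _ : Cn d => (0 : ℂ) :=
    Filter.eventually_of_mem (hB.mem_nhds hy) fun z hz => h0 z hz
  have h4 := (h2.congr_of_eventuallyEq h3).unique h1
  have h5 := congrArg (fun L : Cn d →L[ℂ] ℂ => L v) h4
  simp only [_root_.zero_apply, ContinuousLinearMap.comp_apply] at h5
  rw [grad_apply] at h5
  exact h5.symm

theorem range_finrank {N d : ℕ} {B : Set (Cn d)} {G : Cn d → Cn N} {I : Fin d → Fin N}
    (hB : IsOpen B) (hG : ContDiffOn ℂ 3 G B) (hco : ∀ y ∈ B, ∀ m, G y (I m) = y m) {y : Cn d}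
    (hy : y ∈ B) : Module.finrank ℂ (LinearMap.range (fderiv ℂ G y).toLinearMap) = d := by
  rw [LinearMap.finrank_range_of_inj, Module.finrank_fin_fun]
  intro u v huv
  funext m
  rw [← fderiv_coord hB hG hco hy u m, ← fderiv_coord hB hG hco hy v m]
  exact congrFun huv (I m)

/-- the open set of a nonzero minor -/
theorem isOpen_minor {N d : ℕ} (g : Biv N) (I : Fin d → Fin N) :
    IsOpen {z : Cn N | (Matrix.of fun a b => mat g.f z (I a) (I b)).det ≠ 0} := by
  have hc : Continuous fun z : Cn N => (Matrix.of fun a b => mat g.f z (I a) (I b)).det := by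
    refine Continuous.matrix_det ?_
    refine continuous_matrix fun a b => ?_
    simp only [Matrix.of_apply, mat]
    exact MvPolynomial.continuous_eval _
  exact isOpen_ne_fun hc continuous_const

end LGRM

open LGRM

theorem specLGR (h1 : SpecTAN) (h2 : SpecPMN) (h3 : SpecINV) (h4 : SpecPVA) : SpecLGR := by
  intro N d g p hp hhom hst hd htr
  refine ⟨?_, ?_, ?_, ?_⟩
  · intro x₀ hx₀
    obtain ⟨⟨F, hF, hFT⟩, -⟩ := h1 N d g p hp hhom hst htr x₀ hx₀
    obtain ⟨I, hI, hdet⟩ := h2 N d (mat g.f x₀) (mat_skew g x₀) hx₀.2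
    have hinj : ∀ v : Cn N, (∀ m, v (I m) = 0) →
        (∀ a, ∑ j, eval x₀ (pderiv j (F a)) * v j = 0) → v = 0 := fun v hv0 hv =>
      col_zero (mat g.f x₀) I hdet hx₀.2 (hFT v hv) hv0
    obtain ⟨W, B, G, oW, oB, hxW, sG, hB, hW⟩ :=
      h3 N d F I x₀ hI (fun a => hx₀.1 _ (hF a)) hinj
    have hy₀ := hW x₀ hxW fun a => hx₀.1 _ (hF a)
    obtain ⟨ε, hε, hbB, hbZ⟩ := h4 N d g p hst F I x₀ hx₀.1 hF hdet hinj B G oB sG hy₀.1 hy₀.2
      fun y hy => (hB y hy).2
    set O : Set (Cn N) := {z | (Matrix.of fun a b => mat g.f z (I a) (I b)).det ≠ 0} with hO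
    have oO : IsOpen O := isOpen_minor g I
    set y₀ : Cn d := fun m => x₀ (I m) with hy
    have oB' : IsOpen (Metric.ball y₀ ε ∩ G ⁻¹' O) :=
      (sG.continuousOn.mono hbB).isOpen_inter_preimage Metric.isOpen_ball oO
    have sG' : ContDiffOn ℂ 3 G (Metric.ball y₀ ε ∩ G ⁻¹' O) :=
      sG.mono (Set.inter_subset_left.trans hbB)
    have hco : ∀ y ∈ Metric.ball y₀ ε ∩ G ⁻¹' O, ∀ m, G y (I m) = y m :=
      fun y hy => (hB y (hbB hy.1)).2.2
    have hmem : ∀ y ∈ Metric.ball y₀ ε ∩ G ⁻¹' O, G y ∈ Mp p g d := fun y hy =>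
      ⟨hbZ y hy.1, le_antisymm (rank_le hp hst htr (hbZ y hy.1)) (rank_ge _ I hy.2)⟩
    refine ⟨⟨I, W ∩ ((fun z : Cn N => fun m => z (I m)) ⁻¹' Metric.ball y₀ ε ∩ O),
      Metric.ball y₀ ε ∩ G ⁻¹' O, G, ?_, oB', sG', ?_, hco, ?_, ?_⟩, ?_⟩
    · refine oW.inter (IsOpen.inter ?_ oO)
      exact Metric.isOpen_ball.preimage (continuous_pi fun m => continuous_apply (I m))
    · intro y hy
      refine ⟨hmem y hy, (hB y (hbB hy.1)).1, ?_, hy.2⟩
      have : (fun m => G y (I m)) = y := funext (hco y hy)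
      show (fun m => G y (I m)) ∈ Metric.ball y₀ ε
      rw [this]
      exact hy.1
    · intro z hz hzW
      obtain ⟨hb, hg⟩ := hW z hzW.1 fun a => hz.1 _ (hF a)
      refine ⟨⟨hzW.2.1, ?_⟩, hg⟩
      show G (fun m => z (I m)) ∈ O
      rw [hg]
      exact hzW.2.2
    · intro y hy
      obtain ⟨⟨F', hF', hFT'⟩, -⟩ := h1 N d g p hp hhom hst htr (G y) (hmem y hy)
      refine Submodule.eq_of_le_of_finrank_eq ?_ ?_
      · rintro _ ⟨v, rfl⟩
        refine hFT' _ fun a => ?_
        exact fderiv_tan oB' sG' (fun z hz => hbZ z hz.1 _ (hF' a)) hy v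
      · rw [range_finrank oB' sG' hco hy]
        exact (hmem y hy).2.symm
    · refine ⟨hxW, ?_, hdet⟩
      exact Metric.mem_ball_self hε
  · intro h0
    have h5 : mat g.f (0 : Cn N) = 0 := by
      have := mat_smul g 0 0
      rwa [zero_smul, zero_pow (by norm_num), zero_smul] at this
    have h6 := h0.2
    rw [h5, Matrix.rank_zero] at h6
    omega
  · intro x hx t ht
    have ht2 : t ^ 2 ≠ 0 := pow_ne_zero 2 ht
    have hT : Tg g (t • x) = Tg g x := by
      rw [Tg, Tg, mat_smul]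
      have : (t ^ 2 • mat g.f x).mulVecLin = t ^ 2 • (mat g.f x).mulVecLin := by
        ext v
        simp
      rw [this, LinearMap.range_smul _ _ ht2]
    refine ⟨⟨zer_smul hhom t hx.1, ?_⟩, hT⟩
    have h5 : (mat g.f (t • x)).rank = Module.finrank ℂ (Tg g (t • x)) := rfl
    rw [h5, hT]
    exact hx.2
  · intro x hx
    obtain ⟨⟨F, hF, hFT⟩, -⟩ := h1 N d g p hp hhom hst htr x hx
    exact hFT x fun a => euler hhom hx.1 (hF a)

end Pool.Agent.Lib.MPc9b009.PS
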