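import Pool.Agent.Lib.MP_c9b009_ag.PS.Spec

/-!
# MP_c9b009_ag, row PS, module NZP: a 1-form stays nonzero on suitable hyperplane sections
-/

set_option autoImplicit false

namespace Pool.Agent.Lib.MPc9b009.PS

open Pool.Agent.Lib.MPc9b009.B5 Filter Topology

namespace NZPM

theorem dot_apply {N : ℕ} (c x : Cn N) : dot c x = ∑ i, c i * x i := by
  simp [dot, LinearMap.sum_apply]

theorem dot_comm {N : ℕ} (c x : Cn N) : dot c x = dot x c := by
  rw [dot_apply, dot_apply]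
  exact Finset.sum_congr rfl fun i _ => mul_comm _ _

theorem mem_hyp {N : ℕ} (c x : Cn N) : x ∈ hyp c ↔ dot c x = 0 := LinearMap.mem_ker

/-- every linear form is a `dot` -/
theorem exists_dot {N : ℕ} (f : Cn N →ₗ[ℂ] ℂ) : ∃ c : Cn N, ∀ x, dot c x = f x := by
  classical
  refine ⟨fun j => f (Pi.single j 1), fun x => ?_⟩
  rw [dot_apply]
  conv_rhs => rw [LinearMap.pi_apply_eq_sum_univ f x]
  refine Finset.sum_congr rfl fun i _ => ?_
  rw [smul_eq_mul, mul_comm]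
  congr 2
  funext j
  simp [Pi.single_apply, eq_comm]

/-- a hyperplane through `x`, `v` which does not contain the space `V` of dimension at least three -/
theorem exists_hyp {N : ℕ} (V : Submodule ℂ (Cn N)) (hV : 3 ≤ Module.finrank ℂ V) (x v : Cn N) :
    ∃ c : Cn N, dot c x = 0 ∧ dot c v = 0 ∧ ∃ w ∈ V, dot c w ≠ 0 := by
  classical
  set P : Submodule ℂ (Cn N) := Submodule.span ℂ (({x, v} : Finset (Cn N)) : Set (Cn N)) with hP
  have h1 : Module.finrank ℂ P ≤ 2 :=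
    (finrank_span_finset_le_card (R := ℂ) ({x, v} : Finset (Cn N))).trans Finset.card_le_two
  have h2 : ¬ V ≤ P := fun h => by
    have := Submodule.finrank_mono h
    omega
  obtain ⟨w, hw, hwP⟩ := Set.not_subset.1 h2
  obtain ⟨f, hf, hPf⟩ := Submodule.exists_le_ker_of_notMem (p := P) (v := w) hwP
  obtain ⟨c, hc⟩ := exists_dot f
  refine ⟨c, ?_, ?_, w, hw, by rwa [hc]⟩
  · rw [hc]
    exact LinearMap.mem_ker.1 (hPf (Submodule.subset_span (by simp)))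
  · rw [hc]
    exact LinearMap.mem_ker.1 (hPf (Submodule.subset_span (by simp)))

theorem contDiffAt {N k : ℕ} {M : Set (Cn N)} {T : Cn N → Submodule ℂ (Cn N)} (c : Cht N k M T)
    {y : Cn k} (hy : y ∈ c.B) : ContDiffAt ℂ 3 c.G y :=
  c.sm.contDiffAt (c.oB.mem_nhds hy)

/-- the map `(y, c) ↦ (c · G y, c)` is open at a point where `y ↦ c · G y` is a submersion -/
theorem map_nhds {N k : ℕ} (G : Cn k → Cn N) (y : Cn k) (c : Cn N) (hG : ContDiffAt ℂ 3 G y)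
    (w : Cn k) (hw : dot c (fderiv ℂ G y w) ≠ 0) :
    Filter.map (fun z : Cn k × Cn N => (∑ j, z.2 j * G z.1 j, z.2)) (𝓝 (y, c)) =
      𝓝 (∑ j, c j * G y j, c) := by
  have hG1 : HasStrictFDerivAt G (fderiv ℂ G y) y := hG.hasStrictFDerivAt (by norm_num)
  have hG2 : HasStrictFDerivAt (fun z : Cn k × Cn N => G z.1)
      ((fderiv ℂ G y).comp (ContinuousLinearMap.fst ℂ (Cn k) (Cn N))) (y, c) :=
    HasStrictFDerivAt.comp (y, c) hG1 hasStrictFDerivAt_fst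
  have hG3 : ∀ j : Fin N, HasStrictFDerivAt (fun z : Cn k × Cn N => G z.1 j)
      ((ContinuousLinearMap.proj (R := ℂ) (φ := fun _ : Fin N => ℂ) j).comp
        ((fderiv ℂ G y).comp (ContinuousLinearMap.fst ℂ (Cn k) (Cn N)))) (y, c) := fun j =>
    HasStrictFDerivAt.comp (y, c)
      (ContinuousLinearMap.proj (R := ℂ) (φ := fun _ : Fin N => ℂ) j).hasStrictFDerivAt hG2
  have hc3 : ∀ j : Fin N, HasStrictFDerivAt (fun z : Cn k × Cn N => z.2 j)
      ((ContinuousLinearMap.proj (R := ℂ) (φ := fun _ : Fin N => ℂ) j).comp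
        (ContinuousLinearMap.snd ℂ (Cn k) (Cn N))) (y, c) := fun j =>
    HasStrictFDerivAt.comp (y, c)
      (ContinuousLinearMap.proj (R := ℂ) (φ := fun _ : Fin N => ℂ) j).hasStrictFDerivAt
      hasStrictFDerivAt_snd
  have hS := HasStrictFDerivAt.fun_sum (u := (Finset.univ : Finset (Fin N)))
    fun j _ => (hc3 j).mul (hG3 j)
  have hF := hS.prodMk (hasStrictFDerivAt_snd (𝕜 := ℂ) (E := Cn k) (F := Cn N) (p := (y, c)))
  refine hF.map_nhds_eq_of_surj ?_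
  rw [LinearMap.range_eq_top]
  rintro ⟨a, d⟩
  refine ⟨(((a - ∑ j, G y j * d j) / dot c (fderiv ℂ G y w)) • w, d), ?_⟩
  refine Prod.ext ?_ rfl
  change (∑ j, (c j • (ContinuousLinearMap.proj (R := ℂ) (φ := fun _ : Fin N => ℂ) j).comp
      ((fderiv ℂ G y).comp (ContinuousLinearMap.fst ℂ (Cn k) (Cn N))) +
      G y j • (ContinuousLinearMap.proj (R := ℂ) (φ := fun _ : Fin N => ℂ) j).comp
        (ContinuousLinearMap.snd ℂ (Cn k) (Cn N))))
    (((a - ∑ j, G y j * d j) / dot c (fderiv ℂ G y w)) • w, d) = a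
  rw [ContinuousLinearMap.sum_apply]
  have h1 : ∀ j : Fin N, (c j • (ContinuousLinearMap.proj (R := ℂ) (φ := fun _ : Fin N => ℂ) j).comp
      ((fderiv ℂ G y).comp (ContinuousLinearMap.fst ℂ (Cn k) (Cn N))) +
      G y j • (ContinuousLinearMap.proj (R := ℂ) (φ := fun _ : Fin N => ℂ) j).comp
        (ContinuousLinearMap.snd ℂ (Cn k) (Cn N)))
      (((a - ∑ j, G y j * d j) / dot c (fderiv ℂ G y w)) • w, d) =
      (a - ∑ j, G y j * d j) / dot c (fderiv ℂ G y w) * (c j * fderiv ℂ G y w j) +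
        G y j * d j := by
    intro j
    change c j * (fderiv ℂ G y (((a - ∑ j, G y j * d j) / dot c (fderiv ℂ G y w)) • w)) j +
      G y j * d j = _
    rw [map_smul, Pi.smul_apply, smul_eq_mul]
    ring
  rw [Finset.sum_congr rfl fun j _ => h1 j, Finset.sum_add_distrib, ← Finset.mul_sum,
    ← dot_apply c (fderiv ℂ G y w), div_mul_cancel₀ _ hw]
  ring

end NZPM

open NZPM in
theorem specNZP (hBAS : SpecBAS) : SpecNZP := by
  intro N k M T hM hk al hal hal0 hex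
  obtain ⟨x, hx, v, hv, hxv⟩ := hex
  obtain ⟨Q, hQ⟩ := hM.cov x hx
  -- the point of the chart
  obtain ⟨hy₀, hG₀⟩ := Q.inv x hx hQ
  set y₀ : Cn k := fun m => x (Q.I m) with hy₀def
  have hT : T x = LinearMap.range (fderiv ℂ Q.G y₀).toLinearMap := by
    rw [Q.tan y₀ hy₀, hG₀]
  have hrank : Module.finrank ℂ (T x) = k := by
    have := (hBAS N k M T hM Q y₀ hy₀).2.2.2
    rwa [hG₀] at this
  obtain ⟨c₀, hcx, hcv, w, hw, hcw⟩ := exists_hyp (T x) (by omega) x v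
  rw [hT] at hv hw
  obtain ⟨η₀, hη₀⟩ := hv
  obtain ⟨ω, hω⟩ := hw
  have hη₀' : fderiv ℂ Q.G y₀ η₀ = v := hη₀
  have hω' : fderiv ℂ Q.G y₀ ω = w := hω
  -- the functions
  have hC := contDiffAt Q hy₀
  have hDcont : ContinuousAt (fderiv ℂ Q.G) y₀ :=
    (hC.fderiv_right (m := 1) (by norm_num)).continuousAt
  have hD1 : ∀ u : Cn k, ContinuousAt (fun z : Cn k × Cn N => fderiv ℂ Q.G z.1 u) (y₀, c₀) := by
    intro u
    have h1 : ContinuousAt (fun z : Cn k × Cn N => fderiv ℂ Q.G z.1) (y₀, c₀) :=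
      ContinuousAt.comp (f := Prod.fst) (g := fderiv ℂ Q.G) hDcont continuousAt_fst
    exact h1.clm_apply continuousAt_const
  have hD2 : ∀ u : Cn k, ContinuousAt
      (fun z : Cn k × Cn N => dot z.2 (fderiv ℂ Q.G z.1 u)) (y₀, c₀) := by
    intro u
    simp only [dot_apply]
    refine tendsto_finsetSum _ fun j _ => ?_
    refine Filter.Tendsto.mul ?_ ?_
    · exact ((continuous_apply j).comp continuous_snd).continuousAt
    · exact (continuous_apply j).continuousAt.comp (hD1 u)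
  set k1 : Cn k × Cn N → ℂ := fun z => dot z.2 (fderiv ℂ Q.G z.1 η₀) with hk1
  set k2 : Cn k × Cn N → ℂ := fun z => dot z.2 (fderiv ℂ Q.G z.1 ω) with hk2
  have e1 : k1 (y₀, c₀) = 0 := by
    change dot c₀ (fderiv ℂ Q.G y₀ η₀) = 0
    rw [hη₀', hcv]
  have e2 : k2 (y₀, c₀) ≠ 0 := by
    change dot c₀ (fderiv ℂ Q.G y₀ ω) ≠ 0
    rwa [hω']
  set v' : Cn k × Cn N → Cn N := fun z =>
    fderiv ℂ Q.G z.1 η₀ - (k1 z / k2 z) • fderiv ℂ Q.G z.1 ω with hv'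
  have hv'0 : v' (y₀, c₀) = v := by
    change fderiv ℂ Q.G y₀ η₀ - (k1 (y₀, c₀) / k2 (y₀, c₀)) • fderiv ℂ Q.G y₀ ω = v
    rw [e1, zero_div, zero_smul, sub_zero, hη₀']
  have hv'c : ContinuousAt v' (y₀, c₀) :=
    (hD1 η₀).sub (((hD2 η₀).div (hD2 ω) e2).smul (hD1 ω))
  have hGc : ContinuousAt (fun z : Cn k × Cn N => Q.G z.1) (y₀, c₀) :=
    ContinuousAt.comp (f := Prod.fst) (g := Q.G) hC.continuousAt continuousAt_fst
  have hBn : ∀ᶠ z : Cn k × Cn N in 𝓝 (y₀, c₀), z.1 ∈ Q.B :=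
    continuousAt_fst (Q.oB.mem_nhds hy₀)
  have hmem : ∀ z : Cn k × Cn N, z.1 ∈ Q.B → Q.G z.1 ∈ M ∧ v' z ∈ T (Q.G z.1) := by
    intro z hz
    refine ⟨(Q.mem z.1 hz).1, ?_⟩
    rw [← Q.tan z.1 hz]
    refine ⟨η₀ - (k1 z / k2 z) • ω, ?_⟩
    change fderiv ℂ Q.G z.1 (η₀ - (k1 z / k2 z) • ω) = v' z
    rw [map_sub, map_smul]
  have hvT : v ∈ T x := by
    have := (hmem (y₀, c₀) hy₀).2
    rw [hv'0] at this
    have e3 : Q.G (y₀, c₀).1 = x := hG₀
    rwa [e3] at this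
  have htend : Filter.Tendsto (fun z : Cn k × Cn N => al (Q.G z.1) (v' z)) (𝓝 (y₀, c₀))
      (𝓝 (al x v)) := by
    have h1 : ContinuousWithinAt (fun z : Cn N × Cn N => al z.1 z.2)
        {z | z.1 ∈ M ∧ z.2 ∈ T z.1} (x, v) := hal (x, v) ⟨hx, hvT⟩
    have h2 : Filter.Tendsto (fun z : Cn k × Cn N => (Q.G z.1, v' z)) (𝓝 (y₀, c₀))
        (𝓝[{z | z.1 ∈ M ∧ z.2 ∈ T z.1}] (x, v)) := by
      refine tendsto_nhdsWithin_iff.2 ⟨?_, ?_⟩
      · have h3 := (hGc.prodMk hv'c).tendsto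
        have e4 : (Q.G (y₀, c₀).1, v' (y₀, c₀)) = (x, v) := by
          rw [hv'0]
          exact Prod.ext hG₀ rfl
        rw [e4] at h3
        exact h3
      · filter_upwards [hBn] with z hz
        exact hmem z hz
    exact h1.tendsto.comp h2
  have hev : ∀ᶠ z : Cn k × Cn N in 𝓝 (y₀, c₀),
      z.1 ∈ Q.B ∧ k2 z ≠ 0 ∧ al (Q.G z.1) (v' z) ≠ 0 := by
    filter_upwards [hBn, (hD2 ω).eventually_ne e2, htend.eventually_ne hxv] with z h1 h2 h3
    exact ⟨h1, h2, h3⟩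
  -- the open mapping
  have hmap := map_nhds Q.G y₀ c₀ hC ω e2
  have hzero : ∑ j, c₀ j * Q.G y₀ j = 0 := by
    rw [← dot_apply, hG₀, hcx]
  rw [hzero] at hmap
  have himg : (fun z : Cn k × Cn N => (∑ j, z.2 j * Q.G z.1 j, z.2)) ''
      {z | z.1 ∈ Q.B ∧ k2 z ≠ 0 ∧ al (Q.G z.1) (v' z) ≠ 0} ∈ 𝓝 ((0 : ℂ), c₀) := by
    rw [← hmap]
    exact Filter.image_mem_map hev
  have hO : {c : Cn N | ((0 : ℂ), c) ∈ (fun z : Cn k × Cn N => (∑ j, z.2 j * Q.G z.1 j, z.2)) ''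
      {z | z.1 ∈ Q.B ∧ k2 z ≠ 0 ∧ al (Q.G z.1) (v' z) ≠ 0}} ∈ 𝓝 c₀ :=
    (Continuous.prodMk_right (0 : ℂ)).continuousAt himg
  obtain ⟨O, hOsub, hOo, hcO⟩ := mem_nhds_iff.1 hO
  refine ⟨O, hOo, ⟨c₀, hcO⟩, fun c hc => ?_⟩
  obtain ⟨⟨y, c'⟩, ⟨hyB, hk2ne, hne⟩, heq⟩ := hOsub hc
  have hc' : c' = c := congrArg Prod.snd heq
  subst hc'
  have hdot : dot c' (Q.G y) = 0 := by
    rw [dot_apply]
    exact congrArg Prod.fst heq
  refine ⟨Q.G y, (Q.mem y hyB).1, (mem_hyp _ _).2 hdot, v' (y, c'), (hmem (y, c') hyB).2, ?_, hne⟩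
  rw [mem_hyp]
  change dot c' (fderiv ℂ Q.G y η₀ - (k1 (y, c') / k2 (y, c')) • fderiv ℂ Q.G y ω) = 0
  rw [map_sub, map_smul, smul_eq_mul]
  change k1 (y, c') - k1 (y, c') / k2 (y, c') * k2 (y, c') = 0
  rw [div_mul_cancel₀ _ hk2ne, sub_self]

end Pool.Agent.Lib.MPc9b009.PS
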