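import Pool.Agent.Lib.MP_c9b009_ag.PS.Spec

/-!
# MP_c9b009_ag, row PS, module OMA (helper10): smoothness and continuity of the form `om`
-/

set_option autoImplicit false

namespace Pool.Agent.Lib.MPc9b009.PS

open MvPolynomial Pool.Agent.Lib.MPc9b009.B5 Pool.Agent.Lib.MPc9b009.OD

theorem specOMA (hOML : SpecOML) : SpecOMA := by
  intro N d g
  refine ⟨?_, ?_⟩
  · intro m B γ u v hB hγ hu hv hr hTu hTv y hy
    obtain ⟨O, R, hO, hx0, hR, hom⟩ := hOML N d g (γ y) (hr y hy)
    have hγy : ContDiffAt ℂ 2 γ y := hγ.contDiffAt (hB.mem_nhds hy)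
    have huy : ContDiffAt ℂ 2 u y := hu.contDiffAt (hB.mem_nhds hy)
    have hvy : ContDiffAt ℂ 2 v y := hv.contDiffAt (hB.mem_nhds hy)
    have hU : B ∩ γ ⁻¹' O ∈ nhds y := Filter.inter_mem (hB.mem_nhds hy)
      (hγy.continuousAt.preimage_mem_nhds (hO.mem_nhds hx0))
    have key : ContDiffAt ℂ 2 (fun z => ∑ i, (R (γ z)).mulVec (u z) i * v z i) y := by
      refine ContDiffAt.sum fun i _ => ContDiffAt.mul ?_ (contDiffAt_pi.1 hvy i)
      simp only [Matrix.mulVec, dotProduct]
      refine ContDiffAt.sum fun j _ => ContDiffAt.mul ?_ (contDiffAt_pi.1 huy j)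
      have h1 : ContDiffAt ℂ 2 (fun x => R x i j) (γ y) :=
        ((hR i j).contDiffAt (hO.mem_nhds hx0)).of_le (by norm_num)
      exact h1.comp y hγy
    refine (key.congr_of_eventuallyEq ?_).contDiffWithinAt
    filter_upwards [hU] with z hz
    exact (hom (γ z) hz.2 (hr z hz.1) (u z) (hTu z hz.1)).2 (v z) (hTv z hz.1)
  · intro z0 hz0
    obtain ⟨O, R, hO, hx0, hR, hom⟩ := hOML N d g z0.1 hz0.1
    have key : ContinuousAt (fun z : Cn N × Cn N => ∑ i, (R z.1).mulVec z.1 i * z.2 i) z0 := by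
      refine tendsto_finsetSum _ fun i _ => ?_
      refine Filter.Tendsto.mul ?_ ((continuous_apply i).comp continuous_snd).continuousAt
      simp only [Matrix.mulVec, dotProduct]
      refine tendsto_finsetSum _ fun j _ => ?_
      refine Filter.Tendsto.mul ?_ ((continuous_apply j).comp continuous_fst).continuousAt
      have h1 : ContinuousAt (fun x => R x i j) z0.1 :=
        ((hR i j).contDiffAt (hO.mem_nhds hx0)).continuousAt
      exact ContinuousAt.comp (f := fun z : Cn N × Cn N => z.1) h1 continuous_fst.continuousAt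
    have hval : ∀ z : Cn N × Cn N, z ∈ {z : Cn N × Cn N | (mat g.f z.1).rank = d ∧
        z.1 ∈ Tg g z.1 ∧ z.2 ∈ Tg g z.1} → z.1 ∈ O →
        om g z.1 z.1 z.2 = ∑ i, (R z.1).mulVec z.1 i * z.2 i := by
      intro z hz hzO
      exact (hom z.1 hzO hz.1 z.1 hz.2.1).2 z.2 hz.2.2
    refine key.continuousWithinAt.congr_of_eventuallyEq ?_ (hval z0 hz0 hx0)
    have hn : (fun z : Cn N × Cn N => z.1) ⁻¹' O ∈ nhdsWithin z0 {z : Cn N × Cn N |
        (mat g.f z.1).rank = d ∧ z.1 ∈ Tg g z.1 ∧ z.2 ∈ Tg g z.1} :=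
      mem_nhdsWithin_of_mem_nhds
        (continuous_fst.continuousAt.preimage_mem_nhds (hO.mem_nhds hx0))
    filter_upwards [hn, self_mem_nhdsWithin] with z h1 h2
    exact hval z h2 h1

end Pool.Agent.Lib.MPc9b009.PS
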