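import Pool.Agent.Lib.MP_c9b009_ag.PS.Spec

/-!
# MP_c9b009_ag, row PS, module OMD: algebra of the symplectic form
-/

set_option autoImplicit false

namespace Pool.Agent.Lib.MPc9b009.PS

open MvPolynomial Pool.Agent.Lib.MPc9b009.B5 Pool.Agent.Lib.MPc9b009.OD

namespace OMDM

theorem mat_skew {N : ℕ} (g : Biv N) (x : Cn N) : (mat g.f x).transpose = - mat g.f x := by
  ext i j
  simp only [Matrix.transpose_apply, Matrix.neg_apply, mat, Matrix.of_apply]
  rw [g.skew i j, map_neg]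

theorem sk {N : ℕ} (g : Biv N) (x ξ η : Cn N) :
    ∑ i, ξ i * (mat g.f x).mulVec η i = - ∑ i, (mat g.f x).mulVec ξ i * η i := by
  have h1 : ∑ i, ξ i * (mat g.f x).mulVec η i = ξ ⬝ᵥ (mat g.f x).mulVec η := rfl
  have h2 : ∑ i, (mat g.f x).mulVec ξ i * η i = (mat g.f x).mulVec ξ ⬝ᵥ η := rfl
  rw [h1, h2, Matrix.dotProduct_mulVec, ← Matrix.mulVec_transpose, mat_skew, Matrix.neg_mulVec,
    neg_dotProduct]

theorem om_eq {N : ℕ} (g : Biv N) (x ξ v : Cn N) (hv : v ∈ Tg g x) :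
    om g x ((mat g.f x).mulVec ξ) v = ∑ i, ξ i * v i := by
  have h : ∃ ξ' : Cn N, (mat g.f x).mulVec ξ' = (mat g.f x).mulVec ξ := ⟨ξ, rfl⟩
  have h1 : om g x ((mat g.f x).mulVec ξ) v = ∑ i, h.choose i * v i := by
    unfold om
    rw [dif_pos h]
  rw [h1]
  obtain ⟨η, rfl⟩ := hv
  change ∑ i, h.choose i * (mat g.f x).mulVec η i = ∑ i, ξ i * (mat g.f x).mulVec η i
  rw [sk, sk, h.choose_spec]

theorem eval_smul {N : ℕ} (p : MvPolynomial (Fin N) ℂ) (hp : p.IsHomogeneous 2) (t : ℂ)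
    (x : Cn N) : eval (t • x) p = t ^ 2 * eval x p := by
  rw [MvPolynomial.eval_eq', MvPolynomial.eval_eq', Finset.mul_sum]
  refine Finset.sum_congr rfl fun d hd => ?_
  have h1 : ∑ i, d i = 2 := by
    have h2 := hp (mem_support_iff.1 hd)
    rw [← h2, Finsupp.weight_apply, Finsupp.sum_fintype]
    · exact Finset.sum_congr rfl fun i _ => by simp
    · intro i
      simp
  have h3 : ∏ i, (t • x) i ^ d i = t ^ 2 * ∏ i, x i ^ d i := by
    rw [← h1, ← Finset.prod_pow_eq_pow_sum, ← Finset.prod_mul_distrib]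
    refine Finset.prod_congr rfl fun i _ => ?_
    rw [Pi.smul_apply, smul_eq_mul, mul_pow]
  rw [h3]
  ring

theorem mat_smul {N : ℕ} (g : Biv N) (t : ℂ) (x : Cn N) :
    mat g.f (t • x) = t ^ 2 • mat g.f x := by
  ext i j
  simp only [mat, Matrix.of_apply, Matrix.smul_apply, smul_eq_mul]
  exact eval_smul _ (g.quad i j) t x

end OMDM

open OMDM in
theorem specOMD : SpecOMD := by
  intro N g x
  refine ⟨fun ξ v hv => om_eq g x ξ v hv, ?_, ?_, ?_, ?_⟩
  · rintro _ ⟨ξ, rfl⟩ _ ⟨ξ', rfl⟩ v hv t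
    change om g x ((mat g.f x).mulVec ξ + t • (mat g.f x).mulVec ξ') v =
      om g x ((mat g.f x).mulVec ξ) v + t * om g x ((mat g.f x).mulVec ξ') v
    rw [← Matrix.mulVec_smul, ← Matrix.mulVec_add, om_eq g x _ v hv, om_eq g x _ v hv,
      om_eq g x _ v hv, Finset.mul_sum, ← Finset.sum_add_distrib]
    refine Finset.sum_congr rfl fun i _ => ?_
    rw [Pi.add_apply, Pi.smul_apply, smul_eq_mul]
    ring
  · rintro _ ⟨ξ, rfl⟩ _ ⟨η, rfl⟩
    change om g x ((mat g.f x).mulVec ξ) ((mat g.f x).mulVec η) =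
      - om g x ((mat g.f x).mulVec η) ((mat g.f x).mulVec ξ)
    have e1 : (mat g.f x).mulVec η ∈ Tg g x := ⟨η, rfl⟩
    have e2 : (mat g.f x).mulVec ξ ∈ Tg g x := ⟨ξ, rfl⟩
    rw [om_eq g x ξ _ e1, om_eq g x η _ e2, sk]
    refine congrArg Neg.neg (Finset.sum_congr rfl fun i _ => mul_comm _ _)
  · rintro _ ⟨ξ, rfl⟩ v hv t ht
    change om g (t • x) ((mat g.f x).mulVec ξ) v = (t ^ 2)⁻¹ * om g x ((mat g.f x).mulVec ξ) v
    have ht2 : t ^ 2 ≠ 0 := pow_ne_zero 2 ht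
    have h1 : ∀ η : Cn N, (mat g.f x).mulVec η = (mat g.f (t • x)).mulVec ((t ^ 2)⁻¹ • η) := by
      intro η
      rw [mat_smul, Matrix.mulVec_smul, Matrix.smul_mulVec, smul_smul, inv_mul_cancel₀ ht2,
        one_smul]
    have hv' : v ∈ Tg g (t • x) := by
      obtain ⟨η, rfl⟩ := hv
      exact ⟨(t ^ 2)⁻¹ • η, (h1 η).symm⟩
    rw [om_eq g x ξ v hv, h1 ξ, om_eq g (t • x) _ v hv', Finset.mul_sum]
    refine Finset.sum_congr rfl fun i _ => ?_
    rw [Pi.smul_apply, smul_eq_mul, mul_assoc]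
  · rintro hx ⟨ξ, hξ⟩
    have hξ' : (mat g.f x).mulVec ξ = x := hξ
    refine ⟨(mat g.f x).mulVec (star x), ⟨star x, rfl⟩, ?_⟩
    have e1 : (mat g.f x).mulVec (star x) ∈ Tg g x := ⟨star x, rfl⟩
    have h0 := om_eq g x ξ _ e1
    rw [sk, hξ'] at h0
    rw [h0]
    intro h2
    have h3 : ∑ i, x i * star x i = 0 := neg_eq_zero.1 h2
    have h4 : ∑ i, ‖x i‖ ^ 2 = 0 := by
      have h5 : ((∑ i, ‖x i‖ ^ 2 : ℝ) : ℂ) = 0 := by
        rw [← h3]
        push_cast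
        refine Finset.sum_congr rfl fun i _ => ?_
        rw [Pi.star_apply]
        exact (Complex.mul_conj' (x i)).symm
      exact_mod_cast h5
    have h6 := (Finset.sum_eq_zero_iff_of_nonneg fun i _ => sq_nonneg ‖x i‖).1 h4
    apply hx
    funext i
    exact norm_eq_zero.1 (pow_eq_zero_iff two_ne_zero |>.1 (h6 i (Finset.mem_univ i)))

end Pool.Agent.Lib.MPc9b009.PS
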