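import Pool.Agent.Lib.MP_c9b009_ag.PS.Spec

/-!
# MP_c9b009_ag, row PS, module OMK (helper10): the form `om` is closed
-/

set_option autoImplicit false

namespace Pool.Agent.Lib.MPc9b009.PS

open MvPolynomial Pool.Agent.Lib.MPc9b009.B5 Pool.Agent.Lib.MPc9b009.OD

namespace OMKM

theorem hasDerivAt_eval {N : ℕ} (F : ℂ → Cn N) (F' : Cn N) (t : ℂ) (hF : HasDerivAt F F' t)
    (p : MvPolynomial (Fin N) ℂ) :
    HasDerivAt (fun s => eval (F s) p) (∑ c, eval (F t) (pderiv c p) * F' c) t := by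
  induction p using MvPolynomial.induction_on with
  | C a => simpa using hasDerivAt_const t a
  | add p q hp hq =>
    have h := hp.add hq
    have e1 : (fun s => eval (F s) (p + q)) =
        (fun s => eval (F s) p) + (fun s => eval (F s) q) := by
      funext s
      simp
    rw [e1]
    refine h.congr_deriv ?_
    rw [← Finset.sum_add_distrib]
    refine Finset.sum_congr rfl fun c _ => ?_
    rw [map_add, map_add]
    ring
  | mul_X p i hp =>
    have h := hp.mul ((hasDerivAt_pi.1 hF) i)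
    have e1 : (fun s => eval (F s) (p * X i)) =
        (fun s => eval (F s) p) * (fun s => F s i) := by
      funext s
      simp
    rw [e1]
    refine h.congr_deriv ?_
    have e2 : ∀ c, eval (F t) (pderiv c (p * X i)) * F' c =
        eval (F t) (pderiv c p) * F' c * F t i + (if c = i then eval (F t) p * F' c else 0) := by
      intro c
      rw [pderiv_mul, map_add, map_mul, map_mul, eval_X, pderiv_X]
      by_cases hc : c = i
      · subst hc
        simp
        ring
      · rw [if_neg hc, Pi.single_eq_of_ne (Ne.symm hc)]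
        simp
        ring
    rw [Finset.sum_congr rfl fun c _ => e2 c, Finset.sum_add_distrib, ← Finset.sum_mul]
    simp

theorem rot {N : ℕ} (F : Fin N → Fin N → Fin N → ℂ) :
    ∑ b, ∑ b', ∑ e, F b b' e = ∑ b, ∑ b', ∑ e, F e b b' := by
  have h1 : ∀ b : Fin N, ∑ b', ∑ e, F e b b' = ∑ e, ∑ b', F e b b' := fun b => Finset.sum_comm
  rw [Finset.sum_congr rfl fun b _ => h1 b, Finset.sum_comm]

/-- the cubic term -/
noncomputable def S3 {N : ℕ} (dG : Fin N → Fin N → Fin N → ℂ) (am el ek : Fin N → ℂ) : ℂ :=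
  ∑ b, ∑ b', el b * (∑ c, dG c b b' * am c) * ek b'

theorem S3_eq {N : ℕ} (G : Fin N → Fin N → ℂ) (dG : Fin N → Fin N → Fin N → ℂ)
    (hskew : ∀ a b, G b a = - G a b) (am em el ek : Fin N → ℂ)
    (ham : ∀ c, am c = ∑ e, G c e * em e) :
    S3 dG am el ek = - ∑ b, ∑ b', ∑ e, el b * ek b' * em e * ∑ c, G e c * dG c b b' := by
  unfold S3
  rw [← Finset.sum_neg_distrib]
  refine Finset.sum_congr rfl fun b _ => ?_
  rw [← Finset.sum_neg_distrib]
  refine Finset.sum_congr rfl fun b' _ => ?_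
  have h1 : ∑ c, dG c b b' * am c = - ∑ e, em e * ∑ c, G e c * dG c b b' := by
    simp only [ham, Finset.mul_sum]
    rw [Finset.sum_comm, ← Finset.sum_neg_distrib]
    refine Finset.sum_congr rfl fun e _ => ?_
    rw [← Finset.sum_neg_distrib]
    refine Finset.sum_congr rfl fun c _ => ?_
    rw [hskew c e]
    ring
  rw [h1]
  rw [mul_neg, neg_mul, Finset.mul_sum, Finset.sum_mul]
  congr 1
  refine Finset.sum_congr rfl fun e _ => ?_
  ring

theorem cyc {N : ℕ} (G : Fin N → Fin N → ℂ) (dG : Fin N → Fin N → Fin N → ℂ)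
    (hskew : ∀ a b, G b a = - G a b)
    (hjac : ∀ i j k, ∑ l, (G i l * dG l j k + G j l * dG l k i + G k l * dG l i j) = 0)
    (ak al am ek el em : Fin N → ℂ)
    (hak : ∀ c, ak c = ∑ e, G c e * ek e) (hal : ∀ c, al c = ∑ e, G c e * el e)
    (ham : ∀ c, am c = ∑ e, G c e * em e) :
    S3 dG am el ek + S3 dG ak em el + S3 dG al ek em = 0 := by
  rw [S3_eq G dG hskew am em el ek ham, S3_eq G dG hskew ak ek em el hak,
    S3_eq G dG hskew al el ek em hal]
  have r2 : ∑ b, ∑ b', ∑ e, em b * el b' * ek e * ∑ c, G e c * dG c b b' =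
      ∑ b, ∑ b', ∑ e, el b * ek b' * em e * ∑ c, G b' c * dG c e b := by
    rw [rot]
    refine Finset.sum_congr rfl fun b _ => Finset.sum_congr rfl fun b' _ =>
      Finset.sum_congr rfl fun e _ => ?_
    ring
  have r3 : ∑ b, ∑ b', ∑ e, ek b * em b' * el e * ∑ c, G e c * dG c b b' =
      ∑ b, ∑ b', ∑ e, el b * ek b' * em e * ∑ c, G b c * dG c b' e := by
    rw [rot, rot]
    refine Finset.sum_congr rfl fun b _ => Finset.sum_congr rfl fun b' _ =>
      Finset.sum_congr rfl fun e _ => ?_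
    ring
  rw [r2, r3, ← neg_add, ← neg_add, neg_eq_zero]
  simp only [← Finset.sum_add_distrib]
  refine Finset.sum_eq_zero fun b _ => Finset.sum_eq_zero fun b' _ =>
    Finset.sum_eq_zero fun e _ => ?_
  have := hjac e b b'
  rw [Finset.sum_add_distrib, Finset.sum_add_distrib] at this
  rw [← mul_add, ← mul_add]
  have h2 : ∑ c, G e c * dG c b b' + ∑ c, G b' c * dG c e b + ∑ c, G b c * dG c b' e = 0 := by
    rw [← this]
    ring
  rw [h2, mul_zero]

/-- one term -/
theorem term {N : ℕ} (G : Fin N → Fin N → ℂ) (dG : Fin N → Fin N → Fin N → ℂ)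
    (hskew : ∀ a b, G b a = - G a b) (al am ek el Hmk Amk Aml : Fin N → ℂ)
    (hal : ∀ c, al c = ∑ e, G c e * el e)
    (hH : ∀ a, ∑ b, ((∑ c, dG c a b * am c) * ek b + G a b * Hmk b) = Amk a) :
    ∑ a, (Hmk a * al a + ek a * Aml a) =
      - ∑ b, el b * Amk b + ∑ a, ek a * Aml a + S3 dG am el ek := by
  have h1 : ∑ a, Hmk a * al a = - ∑ b, el b * ∑ a, G b a * Hmk a := by
    simp only [hal, Finset.mul_sum]
    rw [Finset.sum_comm, ← Finset.sum_neg_distrib]
    refine Finset.sum_congr rfl fun b _ => ?_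
    rw [← Finset.sum_neg_distrib]
    refine Finset.sum_congr rfl fun a _ => ?_
    rw [hskew b a]
    ring
  have h2 : ∀ b, ∑ a, G b a * Hmk a = Amk b - ∑ b', (∑ c, dG c b b' * am c) * ek b' := by
    intro b
    rw [← hH b, Finset.sum_add_distrib]
    ring
  rw [Finset.sum_add_distrib, h1]
  simp only [h2, mul_sub, Finset.sum_sub_distrib]
  unfold S3
  have h3 : ∑ b, el b * ∑ b', (∑ c, dG c b b' * am c) * ek b' =
      ∑ b, ∑ b', el b * (∑ c, dG c b b' * am c) * ek b' := by
    refine Finset.sum_congr rfl fun b _ => ?_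
    rw [Finset.mul_sum]
    refine Finset.sum_congr rfl fun b' _ => ?_
    ring
  rw [h3]
  ring

end OMKM

open OMKM in
theorem specOMK (hOMD : SpecOMD) (hOML : SpecOML) (hOMA : SpecOMA) : SpecOMK := by
  intro N d n g B γ hB hγ hr hJ hT y hy k l m
  obtain ⟨O, R, hO, hx0, hR, hom⟩ := hOML N d g (γ y) (hr y hy)
  have hγy : ContDiffAt ℂ 3 γ y := hγ.contDiffAt (hB.mem_nhds hy)
  have hU : B ∩ γ ⁻¹' O ∈ nhds y := Filter.inter_mem (hB.mem_nhds hy)
    (hγy.continuousAt.preimage_mem_nhds (hO.mem_nhds hx0))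
  have hfd : ContDiffAt ℂ 2 (fderiv ℂ γ) y := hγy.fderiv_right (by norm_num)
  set D : Fin n → Cn n → Cn N := fun k z => fderiv ℂ γ z (Pi.single k 1) with hD
  set η : Fin n → Cn n → Cn N := fun k z => (R (γ z)).mulVec (D k z) with hη
  have hDc : ∀ k, ContDiffAt ℂ 2 (D k) y := fun k => hfd.clm_apply contDiffAt_const
  have hDd : ∀ k, DifferentiableAt ℂ (D k) y := fun k =>
    (hDc k).differentiableAt (by norm_num)
  have hηd : ∀ k, DifferentiableAt ℂ (η k) y := by
    intro k
    rw [differentiableAt_pi]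
    intro i
    simp only [hη, Matrix.mulVec, dotProduct]
    refine DifferentiableAt.fun_sum fun j _ => DifferentiableAt.fun_mul ?_ ?_
    · have h1 : DifferentiableAt ℂ (fun x => R x i j) (γ y) :=
        ((hR i j).contDiffAt (hO.mem_nhds hx0)).differentiableAt (by norm_num)
      exact h1.comp y (hγy.differentiableAt (by norm_num))
    · exact differentiableAt_pi.1 (hDd k) j
  have hgη : ∀ k, ∀ z ∈ B ∩ γ ⁻¹' O, (mat g.f (γ z)).mulVec (η k z) = D k z := fun k z hz =>
    (hom (γ z) hz.2 (hr z hz.1) _ (hT z hz.1 _)).1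
  have hommul : ∀ k l, ∀ z ∈ B ∩ γ ⁻¹' O, om g (γ z) (D k z) (D l z) = ∑ i, η k z i * D l z i :=
    fun k l z hz => (hom (γ z) hz.2 (hr z hz.1) _ (hT z hz.1 _)).2 _ (hT z hz.1 _)
  -- symmetry
  have hsym : ∀ m k, fderiv ℂ (D k) y (Pi.single m 1) = fderiv ℂ (D m) y (Pi.single k 1) := by
    have hs : IsSymmSndFDerivAt ℂ γ y := by
      refine hγy.isSymmSndFDerivAt ?_
      rw [minSmoothness_of_isRCLikeNormedField]
      norm_num
    have hval : ∀ m k, fderiv ℂ (D k) y (Pi.single m 1) =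
        (fderiv ℂ (fderiv ℂ γ) y (Pi.single m 1)) (Pi.single k 1) := by
      intro m k
      have h1 := (hfd.differentiableAt (by norm_num)).hasFDerivAt.clm_apply
        (hasFDerivAt_const (Pi.single k 1 : Cn n) y)
      have h2 : fderiv ℂ (D k) y = _ := h1.fderiv
      rw [h2]
      simp
    intro m k
    rw [hval m k, hval k m]
    exact hs.eq _ _
  -- line through `y`
  have hline : ∀ m : Fin n, HasDerivAt (fun t : ℂ => y + t • (Pi.single m 1 : Cn n))
      (Pi.single m 1 : Cn n) 0 := by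
    intro m
    simpa using (((hasDerivAt_id (0 : ℂ)).smul_const (Pi.single m 1 : Cn n)).const_add y)
  have hy0 : y + (0 : ℂ) • (Pi.single m 1 : Cn n) = y := by simp
  have hlc : ∀ m : Fin n, Filter.Tendsto (fun t : ℂ => y + t • (Pi.single m 1 : Cn n)) (nhds 0)
      (nhds y) := by
    intro m
    have := (hline m).continuousAt
    simpa [ContinuousAt] using this
  have hDl : ∀ m k, HasDerivAt (fun t : ℂ => D k (y + t • (Pi.single m 1 : Cn n)))
      (fderiv ℂ (D k) y (Pi.single m 1)) 0 := by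
    intro m k
    have h1 : HasFDerivAt (D k) (fderiv ℂ (D k) y) (y + (0 : ℂ) • (Pi.single m 1 : Cn n)) := by
      simpa using (hDd k).hasFDerivAt
    exact h1.comp_hasDerivAt 0 (hline m)
  have hηl : ∀ m k, HasDerivAt (fun t : ℂ => η k (y + t • (Pi.single m 1 : Cn n)))
      (fderiv ℂ (η k) y (Pi.single m 1)) 0 := by
    intro m k
    have h1 : HasFDerivAt (η k) (fderiv ℂ (η k) y) (y + (0 : ℂ) • (Pi.single m 1 : Cn n)) := by
      simpa using (hηd k).hasFDerivAt
    exact h1.comp_hasDerivAt 0 (hline m)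
  have hγl : ∀ m, HasDerivAt (fun t : ℂ => γ (y + t • (Pi.single m 1 : Cn n))) (D m y) 0 := by
    intro m
    have h1 : HasFDerivAt γ (fderiv ℂ γ y) (y + (0 : ℂ) • (Pi.single m 1 : Cn n)) := by
      simpa using (hγy.differentiableAt (by norm_num)).hasFDerivAt
    exact h1.comp_hasDerivAt 0 (hline m)
  set G : Fin N → Fin N → ℂ := fun a b => eval (γ y) (g.f a b) with hG
  set dG : Fin N → Fin N → Fin N → ℂ := fun c a b => eval (γ y) (pderiv c (g.f a b)) with hdG
  have hskew : ∀ a b, G b a = - G a b := by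
    intro a b
    simp only [hG]
    rw [g.skew a b, map_neg]
  have hjac : ∀ i j k, ∑ l, (G i l * dG l j k + G j l * dG l k i + G k l * dG l i j) = 0 := by
    intro i j k
    have := hJ y hy i j k
    simp only [jac, map_sum, map_add, map_mul] at this
    exact this
  have hyU : y ∈ B ∩ γ ⁻¹' O := ⟨hy, hx0⟩
  have hDη : ∀ k c, D k y c = ∑ e, G c e * η k y e := by
    intro k c
    have := congrFun (hgη k y hyU) c
    rw [← this]
    simp [Matrix.mulVec, dotProduct, mat, hG]
  -- differentiated constraint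
  have hH : ∀ m k a, ∑ b, ((∑ c, dG c a b * D m y c) * η k y b +
      G a b * fderiv ℂ (η k) y (Pi.single m 1) b) = fderiv ℂ (D k) y (Pi.single m 1) a := by
    intro m k a
    have h1 : HasDerivAt (fun t : ℂ => ∑ b, eval (γ (y + t • (Pi.single m 1 : Cn n))) (g.f a b) *
        η k (y + t • (Pi.single m 1 : Cn n)) b)
        (∑ b, ((∑ c, dG c a b * D m y c) * η k y b +
          G a b * fderiv ℂ (η k) y (Pi.single m 1) b)) 0 := by
      refine HasDerivAt.fun_sum fun b _ => ?_
      have h2 := (hasDerivAt_eval _ _ _ (hγl m) (g.f a b)).fun_mul (hasDerivAt_pi.1 (hηl m k) b)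
      simpa [hG, hdG] using h2
    have h3 : HasDerivAt (fun t : ℂ => D k (y + t • (Pi.single m 1 : Cn n)) a)
        (fderiv ℂ (D k) y (Pi.single m 1) a) 0 := hasDerivAt_pi.1 (hDl m k) a
    have h4 : (fun t : ℂ => D k (y + t • (Pi.single m 1 : Cn n)) a) =ᶠ[nhds 0]
        (fun t : ℂ => ∑ b, eval (γ (y + t • (Pi.single m 1 : Cn n))) (g.f a b) *
        η k (y + t • (Pi.single m 1 : Cn n)) b) := by
      filter_upwards [(hlc m) hU] with t ht
      have := congrFun (hgη k _ ht) a
      rw [← this]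
      simp [Matrix.mulVec, dotProduct, mat]
    exact (h1.congr_of_eventuallyEq h4).unique h3
  -- derivative of om
  have hQ : ∀ m k l, fderiv ℂ (fun z => om g (γ z) (D k z) (D l z)) y (Pi.single m 1) =
      ∑ a, (fderiv ℂ (η k) y (Pi.single m 1) a * D l y a +
        η k y a * fderiv ℂ (D l) y (Pi.single m 1) a) := by
    intro m k l
    have h0 : (fun z => om g (γ z) (D k z) (D l z)) =ᶠ[nhds y]
        fun z => ∑ i, η k z i * D l z i := by
      filter_upwards [hU] with z hz
      exact hommul k l z hz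
    rw [h0.fderiv_eq]
    have hd : DifferentiableAt ℂ (fun z => ∑ i, η k z i * D l z i) y :=
      DifferentiableAt.fun_sum fun i _ => DifferentiableAt.fun_mul
        (differentiableAt_pi.1 (hηd k) i) (differentiableAt_pi.1 (hDd l) i)
    have h1 : HasFDerivAt (fun z => ∑ i, η k z i * D l z i)
        (fderiv ℂ (fun z => ∑ i, η k z i * D l z i) y)
        (y + (0 : ℂ) • (Pi.single m 1 : Cn n)) := by
      have e : y + (0 : ℂ) • (Pi.single m 1 : Cn n) = y := by simp
      rw [e]
      exact hd.hasFDerivAt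
    have h2 := h1.comp_hasDerivAt 0 (hline m)
    have h3 : HasDerivAt (fun t : ℂ => ∑ i, η k (y + t • (Pi.single m 1 : Cn n)) i *
        D l (y + t • (Pi.single m 1 : Cn n)) i)
        (∑ a, (fderiv ℂ (η k) y (Pi.single m 1) a * D l y a +
        η k y a * fderiv ℂ (D l) y (Pi.single m 1) a)) 0 := by
      refine HasDerivAt.fun_sum fun i _ => ?_
      have h4 := (hasDerivAt_pi.1 (hηl m k) i).fun_mul (hasDerivAt_pi.1 (hDl m l) i)
      simpa using h4
    exact h2.unique h3
  have q1 := hQ m k l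
  have q2 := hQ k l m
  have q3 := hQ l m k
  simp only [hD] at q1 q2 q3 ⊢
  rw [q1, q2, q3]
  have t1 := term G dG hskew (D l y) (D m y) (η k y) (η l y)
    (fderiv ℂ (η k) y (Pi.single m 1)) (fderiv ℂ (D k) y (Pi.single m 1))
    (fderiv ℂ (D l) y (Pi.single m 1)) (hDη l) (hH m k)
  have t2 := term G dG hskew (D m y) (D k y) (η l y) (η m y)
    (fderiv ℂ (η l) y (Pi.single k 1)) (fderiv ℂ (D l) y (Pi.single k 1))
    (fderiv ℂ (D m) y (Pi.single k 1)) (hDη m) (hH k l)
  have t3 := term G dG hskew (D k y) (D l y) (η m y) (η k y)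
    (fderiv ℂ (η m) y (Pi.single l 1)) (fderiv ℂ (D m) y (Pi.single l 1))
    (fderiv ℂ (D k) y (Pi.single l 1)) (hDη k) (hH l m)
  have c := cyc G dG hskew hjac (D k y) (D l y) (D m y) (η k y) (η l y) (η m y)
    (hDη k) (hDη l) (hDη m)
  simp only [hD] at t1 t2 t3 c
  rw [t1, t2, t3]
  have s1 := hsym m k
  have s2 := hsym k l
  have s3 := hsym l m
  simp only [hD] at s1 s2 s3
  rw [s1, s2, s3]
  linear_combination c

end Pool.Agent.Lib.MPc9b009.PS
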