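import Pool.Agent.Lib.MP_c9b009_ag.PS.Spec

/-!
# MP_c9b009_ag, row PS: module OML (the local formula for the symplectic form)
-/

set_option autoImplicit false

namespace Pool.Agent.Lib.MPc9b009.PS

open MvPolynomial Pool.Agent.Lib.MPc9b009.B5 Pool.Agent.Lib.MPc9b009.OD

namespace OMLM

theorem contDiff_eval {N : ℕ} (n : ℕ∞) (p : MvPolynomial (Fin N) ℂ) :
    ContDiff ℂ n (fun x : Cn N => eval x p) := by
  induction p using MvPolynomial.induction_on with
  | C a =>
    simp only [eval_C]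
    exact contDiff_const
  | add p q hp hq =>
    simp only [map_add]
    exact hp.add hq
  | mul_X p i hp =>
    simp only [map_mul, eval_X]
    exact hp.mul (contDiff_apply ℂ ℂ i)

theorem contDiff_det {N d : ℕ} (n : ℕ∞) (F : Cn N → Matrix (Fin d) (Fin d) ℂ)
    (hF : ∀ a b, ContDiff ℂ n (fun x => F x a b)) : ContDiff ℂ n (fun x => (F x).det) := by
  simp only [Matrix.det_apply]
  exact ContDiff.sum fun σ _ => ContDiff.const_smul _ (contDiff_prod fun i _ => hF _ _)

theorem contDiff_adj {N d : ℕ} (n : ℕ∞) (F : Cn N → Matrix (Fin d) (Fin d) ℂ)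
    (hF : ∀ a b, ContDiff ℂ n (fun x => F x a b)) (a b : Fin d) :
    ContDiff ℂ n (fun x => (F x).adjugate a b) := by
  simp only [Matrix.adjugate_apply]
  refine contDiff_det n _ fun a' b' => ?_
  by_cases h : a' = b
  · subst h
    simp only [Matrix.updateRow_self]
    exact contDiff_const
  · simp only [Matrix.updateRow_ne h]
    exact hF a' b'

/-- the inclusion matrix of the coordinates `I` -/
def PP {N d : ℕ} (I : Fin d → Fin N) : Matrix (Fin N) (Fin d) ℂ :=
  Matrix.of fun i a => if I a = i then 1 else 0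

theorem PPt_mulVec {N d : ℕ} (I : Fin d → Fin N) (u : Cn N) (a : Fin d) :
    ((PP I).transpose.mulVec u) a = u (I a) := by
  simp [PP, Matrix.mulVec, dotProduct]

/-- the principal block -/
def blk {N d : ℕ} (I : Fin d → Fin N) (A : Matrix (Fin N) (Fin N) ℂ) : Matrix (Fin d) (Fin d) ℂ :=
  Matrix.of fun a b => A (I a) (I b)

theorem blk_eq {N d : ℕ} (I : Fin d → Fin N) (A : Matrix (Fin N) (Fin N) ℂ) :
    (PP I).transpose * (A * PP I) = blk I A := by
  ext a b
  simp [PP, blk, Matrix.mul_apply]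

theorem solve {N d : ℕ} (I : Fin d → Fin N) (A : Matrix (Fin N) (Fin N) ℂ) (hr : A.rank = d)
    (hdet : (blk I A).det ≠ 0) (u : Cn N) (hu : u ∈ LinearMap.range A.mulVecLin) :
    A.mulVec ((PP I * (blk I A)⁻¹ * (PP I).transpose).mulVec u) = u := by
  have hunit : IsUnit (blk I A) := (Matrix.isUnit_iff_isUnit_det _).2 (isUnit_iff_ne_zero.2 hdet)
  have h1 : (blk I A).rank = d := by
    rw [Matrix.rank_of_isUnit _ hunit, Fintype.card_fin]
  have h2 : d ≤ (A * PP I).rank := by
    have h5 := Matrix.rank_mul_le_right (PP I).transpose (A * PP I)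
    rw [blk_eq, h1] at h5
    exact h5
  have hle : LinearMap.range (A * PP I).mulVecLin ≤ LinearMap.range A.mulVecLin := by
    rintro _ ⟨c, rfl⟩
    refine ⟨(PP I).mulVec c, ?_⟩
    rw [Matrix.mulVecLin_apply, Matrix.mulVecLin_apply, Matrix.mulVec_mulVec]
  have heq : LinearMap.range (A * PP I).mulVecLin = LinearMap.range A.mulVecLin := by
    apply Submodule.eq_of_le_of_finrank_le hle
    show A.rank ≤ (A * PP I).rank
    rw [hr]
    exact h2
  rw [← heq] at hu
  obtain ⟨c, rfl⟩ := hu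
  rw [Matrix.mulVecLin_apply]
  have h3 : (PP I).transpose.mulVec ((A * PP I).mulVec c) = (blk I A).mulVec c := by
    rw [Matrix.mulVec_mulVec, blk_eq]
  have h4 : (blk I A)⁻¹.mulVec ((blk I A).mulVec c) = c := by
    rw [Matrix.mulVec_mulVec, Matrix.nonsing_inv_mul _ (isUnit_iff_ne_zero.2 hdet),
      Matrix.one_mulVec]
  rw [← Matrix.mulVec_mulVec, ← Matrix.mulVec_mulVec, h3, h4, Matrix.mulVec_mulVec]

end OMLM

open OMLM in
theorem specOML (hOMD : SpecOMD) (hPMN : SpecPMN) : SpecOML := by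
  intro N d g x₀ hr
  obtain ⟨I, -, hI⟩ := hPMN N d (mat g.f x₀) (fun i j => by
    show eval x₀ (g.f j i) = - eval x₀ (g.f i j)
    rw [g.skew i j, map_neg]) hr
  have hent : ∀ a b, ContDiff ℂ (3 : ℕ∞) (fun x : Cn N => blk I (mat g.f x) a b) := fun a b =>
    contDiff_eval 3 (g.f (I a) (I b))
  have hdet : ContDiff ℂ (3 : ℕ∞) (fun x : Cn N => (blk I (mat g.f x)).det) :=
    contDiff_det 3 _ hent
  refine ⟨{x | (blk I (mat g.f x)).det ≠ 0},
    fun x => PP I * (blk I (mat g.f x))⁻¹ * (PP I).transpose, ?_, hI, ?_, ?_⟩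
  · exact isOpen_ne_fun hdet.continuous continuous_const
  · intro i j
    have h1 : ∀ x : Cn N, (PP I * (blk I (mat g.f x))⁻¹ * (PP I).transpose) i j =
        ∑ b, (∑ a, PP I i a * (((blk I (mat g.f x)).det)⁻¹ * (blk I (mat g.f x)).adjugate a b)) *
          PP I j b := by
      intro x
      rw [Matrix.mul_apply]
      refine Finset.sum_congr rfl fun b _ => ?_
      rw [Matrix.mul_apply, Matrix.transpose_apply]
      congr 1
      refine Finset.sum_congr rfl fun a _ => ?_
      rw [Matrix.inv_def, Matrix.smul_apply, smul_eq_mul, Ring.inverse_eq_inv']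
    simp only [h1]
    refine ContDiffOn.sum fun b _ => ContDiffOn.mul (ContDiffOn.sum fun a _ =>
      ContDiffOn.mul contDiffOn_const (ContDiffOn.mul ?_ ?_)) contDiffOn_const
    · exact ContDiffOn.inv hdet.contDiffOn fun x hx => hx
    · exact (contDiff_adj 3 _ hent a b).contDiffOn
  · intro x hx hrx u hu
    have h1 := solve I (mat g.f x) hrx hx u hu
    refine ⟨h1, fun v hv => ?_⟩
    have h2 := (hOMD N g x).1 ((PP I * (blk I (mat g.f x))⁻¹ * (PP I).transpose).mulVec u) v hv
    rw [h1] at h2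
    exact h2

end Pool.Agent.Lib.MPc9b009.PS
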