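import Pool.Agent.Lib.MP_c9b009_ag.PS.Spec

/-!
# MP_c9b009_ag, row PS, module PMN: a skew matrix of rank `d` has an invertible principal block
-/

set_option autoImplicit false

namespace Pool.Agent.Lib.MPc9b009.PS

/-- PMN: a skew matrix of rank `d` has an invertible principal `d × d` block. -/
theorem specPMN : SpecPMN := by
  intro N d A hA hd
  obtain ⟨κ, a, ha, hs, hli⟩ := exists_linearIndependent' ℂ A.row
  have hf : Finite κ := Finite.of_injective a ha
  have : Fintype κ := Fintype.ofFinite κ
  have hc : Fintype.card κ = d := by
    rw [← hd, Matrix.rank_eq_finrank_span_row, ← hs]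
    exact (finrank_span_eq_card hli).symm
  let e : Fin d ≃ κ := (Fintype.equivFinOfCardEq hc).symm
  refine ⟨a ∘ e, ha.comp e.injective, ?_⟩
  intro h0
  obtain ⟨c, hc0, hcz⟩ := Matrix.exists_vecMul_eq_zero_iff.mpr h0
  have hli' : LinearIndependent ℂ (fun i : Fin d => A.row (a (e i))) :=
    (linearIndependent_equiv e).mpr hli
  -- the combination vanishes
  have hw : ∑ i, c i • A.row (a (e i)) = 0 := by
    have hz : ∀ b : Fin d, ∑ i, c i * A (a (e i)) (a (e b)) = 0 := by
      intro b
      have := congrFun hcz b
      simpa [Matrix.vecMul, dotProduct] using this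
    -- the linear form `z ↦ ∑ c_i z (a (e i))` kills all the rows
    have hk : ∀ z ∈ Submodule.span ℂ (Set.range (A.row ∘ a)), ∑ i, c i * z (a (e i)) = 0 := by
      intro z hz'
      induction hz' using Submodule.span_induction with
      | mem x hx =>
        obtain ⟨k, rfl⟩ := hx
        have h1 := hz (e.symm k)
        simp only [Equiv.apply_symm_apply] at h1
        have h2 : ∑ i, c i * A (a k) (a (e i)) = - ∑ i, c i * A (a (e i)) (a k) := by
          rw [← Finset.sum_neg_distrib]
          refine Finset.sum_congr rfl fun i _ => ?_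
          rw [hA (a (e i)) (a k)]
          ring
        simp only [Function.comp, Matrix.row]
        rw [h2, h1, neg_zero]
      | zero => simp
      | add x y _ _ hx hy =>
        simp only [Pi.add_apply, mul_add, Finset.sum_add_distrib, hx, hy, add_zero]
      | smul t x _ hx =>
        simp only [Pi.smul_apply, smul_eq_mul]
        rw [show ∑ i, c i * (t * x (a (e i))) = t * ∑ i, c i * x (a (e i)) by
          rw [Finset.mul_sum]; exact Finset.sum_congr rfl fun i _ => by ring]
        rw [hx, mul_zero]
    funext j
    have h3 := hk (A.row j) (by rw [hs]; exact Submodule.subset_span ⟨j, rfl⟩)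
    rw [Finset.sum_apply]
    simp only [Pi.smul_apply, smul_eq_mul, Matrix.row, Pi.zero_apply] at h3 ⊢
    rw [← neg_eq_zero, ← Finset.sum_neg_distrib, ← h3]
    refine Finset.sum_congr rfl fun i _ => ?_
    rw [hA (a (e i)) j]
    ring
  have := Fintype.linearIndependent_iff.mp hli' c hw
  exact hc0 (funext this)

end Pool.Agent.Lib.MPc9b009.PS
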