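import Pool.Agent.Lib.MP_c9b009_ag.PS.Spec

/-!
# MP_c9b009_ag, row PS, module POU

Finitely many charts and a smooth partition of unity on the shell `s ≤ |x|² ≤ 4 s` of a closed cone.
-/

set_option autoImplicit false

namespace Pool.Agent.Lib.MPc9b009.PS

open MvPolynomial Pool.Agent.Lib.MPc9b009.B5 Pool.Agent.Lib.MPc9b009.OD MeasureTheory
open scoped Manifold ContDiff

namespace POUM

lemma compact_shell {N : ℕ} {M : Set (Cn N)} (hM : IsClosed (insert 0 M)) (s : ℝ) :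
    IsCompact {x : Cn N | x ∈ insert 0 M ∧ s ≤ ∑ j, ‖x j‖ ^ 2 ∧ ∑ j, ‖x j‖ ^ 2 ≤ 4 * s} := by
  have hc : Continuous fun x : Cn N => ∑ j, ‖x j‖ ^ 2 := by
    apply continuous_finsetSum
    intro j _
    exact ((continuous_apply j).norm).pow 2
  apply Metric.isCompact_of_isClosed_isBounded
  · exact hM.inter ((isClosed_le continuous_const hc).inter (isClosed_le hc continuous_const))
  · apply (Metric.isBounded_closedBall (x := (0 : Cn N)) (r := Real.sqrt (4 * s))).subset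
    rintro x ⟨_, _, hx⟩
    rw [mem_closedBall_zero_iff, pi_norm_le_iff_of_nonneg (Real.sqrt_nonneg _)]
    intro j
    apply Real.le_sqrt_of_sq_le
    refine le_trans ?_ hx
    exact Finset.single_le_sum (f := fun j => ‖x j‖ ^ 2) (fun i _ => by positivity)
      (Finset.mem_univ j)

end POUM

open POUM

theorem specPOU : SpecPOU := by
  intro N k M T hC hM s hs
  set K : Set (Cn N) := {x : Cn N | x ∈ insert 0 M ∧ s ≤ ∑ j, ‖x j‖ ^ 2 ∧
    ∑ j, ‖x j‖ ^ 2 ≤ 4 * s} with hK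
  have hKc : IsCompact K := compact_shell hM s
  have hKM : K ⊆ M := by
    rintro x ⟨hx, h1, _⟩
    rcases hx with rfl | hx
    · exfalso
      have h0 : ∑ j, ‖(0 : Cn N) j‖ ^ 2 = 0 := by simp
      rw [h0] at h1
      linarith
    · exact hx
  have hch : ∀ x : M, ∃ c : Cht N k M T, (x : Cn N) ∈ c.W := fun x => hC.cov x x.2
  choose ch hcW using hch
  obtain ⟨t, ht⟩ := hKc.elim_finite_subcover (fun x : M => (ch x).W) (fun x => (ch x).oW)
    (fun x hx => Set.mem_iUnion.2 ⟨⟨x, hKM hx⟩, hcW _⟩)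
  set e := t.equivFin with he
  set c : Fin t.card → Cht N k M T := fun l => ch (e.symm l) with hc
  have hcov : K ⊆ ⋃ l, (c l).W := by
    intro x hx
    obtain ⟨y, hy⟩ := Set.mem_iUnion.1 (ht hx)
    obtain ⟨hyt, hxy⟩ := Set.mem_iUnion.1 hy
    refine Set.mem_iUnion.2 ⟨e ⟨y, hyt⟩, ?_⟩
    rw [hc]
    simp only [Equiv.symm_apply_apply]
    exact hxy
  obtain ⟨f, hf⟩ := SmoothPartitionOfUnity.exists_isSubordinate 𝓘(ℝ, Cn N) hKc.isClosed
    (fun l => (c l).W) (fun l => (c l).oW) hcov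
  refine ⟨t.card, c, fun l x => f l x, ?_, ?_, ?_, ?_⟩
  · intro l
    have h1 : ContMDiff 𝓘(ℝ, Cn N) 𝓘(ℝ, ℝ) ∞ (fun x => f l x) := (f l).contMDiff
    exact (contMDiff_iff_contDiff.1 h1).of_le (by exact_mod_cast le_top)
  · intro l x
    exact f.nonneg l x
  · intro l
    exact hf l
  · intro x hx h1 h2
    have h3 : x ∈ K := ⟨Or.inr hx, h1, h2⟩
    have h4 := f.sum_eq_one h3
    rwa [finsum_eq_sum_of_fintype] at h4

end Pool.Agent.Lib.MPc9b009.PS
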