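import Pool.Agent.Lib.MP_c9b009_ag.PS.Spec

/-!
# MP_c9b009_ag, row PS, module RKC: the minors vanish at the points of small rank
-/

set_option autoImplicit false

namespace Pool.Agent.Lib.MPc9b009.PS

open MvPolynomial Pool.Agent.Lib.MPc9b009.B5 Pool.Agent.Lib.MPc9b009.OD

namespace RKCM

open Module Pool.Agent.Lib.MPc9b009.B5.RKTM

/-- `G ξ · η = - ξ · G η` -/
theorem adj {N : ℕ} (G : Matrix (Fin N) (Fin N) ℂ) (hskew : ∀ i j, G i j = - G j i)
    (ξ η : Fin N → ℂ) : ∑ i, (G.mulVec ξ) i * η i = - ∑ i, ξ i * (G.mulVec η) i := by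
  simp only [Matrix.mulVec, dotProduct, Finset.sum_mul, Finset.mul_sum]
  rw [Finset.sum_comm, ← Finset.sum_neg_distrib]
  refine Finset.sum_congr rfl fun i _ => ?_
  rw [← Finset.sum_neg_distrib]
  refine Finset.sum_congr rfl fun j _ => ?_
  rw [hskew j i]
  ring

/-- the kernel of `dot x` has dimension at least `N - 1` -/
theorem ker_dot {N : ℕ} (x : Fin N → ℂ) : N ≤ finrank ℂ (LinearMap.ker (dot x)) + 1 := by
  have h := LinearMap.finrank_range_add_finrank_ker (dot x)
  rw [finrank_fin_fun] at h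
  have h1 : finrank ℂ (LinearMap.range (dot x)) ≤ 1 := by
    have := Submodule.finrank_le (LinearMap.range (dot x))
    rwa [finrank_self] at this
  omega

/-- if the kernel of the skew matrix `G` is in the kernel of `dot x`, then `x` is in the range -/
theorem mem_range {N : ℕ} (G : Matrix (Fin N) (Fin N) ℂ) (hskew : ∀ i j, G i j = - G j i)
    (x : Fin N → ℂ) (h : LinearMap.ker G.mulVecLin ≤ LinearMap.ker (dot x)) :
    x ∈ LinearMap.range G.mulVecLin := by
  have h1 : dot x ∈ (LinearMap.ker G.mulVecLin).dualAnnihilator := by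
    rw [Submodule.mem_dualAnnihilator]
    intro w hw
    exact LinearMap.mem_ker.1 (h hw)
  rw [← LinearMap.range_dualMap_eq_dualAnnihilator_ker] at h1
  obtain ⟨φ, hφ⟩ := h1
  refine ⟨fun i => - φ (Pi.single i 1), ?_⟩
  funext j
  rw [Matrix.mulVecLin_apply]
  have h2 : dot x (Pi.single j 1) = x j := by
    rw [dot_apply, Finset.sum_eq_single j]
    · rw [Pi.single_eq_same, mul_one]
    · intro i _ hi
      rw [Pi.single_eq_of_ne hi, mul_zero]
    · intro hj
      exact absurd (Finset.mem_univ j) hj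
  rw [← h2, ← hφ, LinearMap.dualMap_apply, Matrix.mulVecLin_apply, Matrix.mulVec_single_one]
  have h3 : G.col j = ∑ i, G i j • (Pi.single i (1 : ℂ) : Fin N → ℂ) := by
    funext k
    rw [Finset.sum_apply, Finset.sum_eq_single k]
    · rw [Pi.smul_apply, Pi.single_eq_same, smul_eq_mul, mul_one]
      rfl
    · intro i _ hi
      rw [Pi.smul_apply, Pi.single_eq_of_ne hi.symm, smul_zero]
    · intro hk
      exact absurd (Finset.mem_univ k) hk
  rw [h3, map_sum]
  simp only [Matrix.mulVec, dotProduct, map_smul, smul_eq_mul]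
  refine Finset.sum_congr rfl fun i _ => ?_
  rw [hskew i j]
  ring

/-- minors of size `> rank` vanish -/
theorem minors {N m r : ℕ} (M : Matrix (Fin N) (Fin m) ℂ) (h : M.rank ≤ r)
    (I : Fin (r + 1) → Fin N) (J : Fin (r + 1) → Fin m) :
    (Matrix.of fun a b => M (I a) (J b)).det = 0 :=
  ((specRKM ℂ _ N m r M).2 h) I J

/-- the rank of `[x | columns]` -/
theorem rank_cons {N m : ℕ} (G : Matrix (Fin N) (Fin N) ℂ) (x : Fin N → ℂ) (J : Fin m → Fin N)
    (W : Submodule ℂ (Fin N → ℂ)) (hx : x ∈ W) (hG : LinearMap.range G.mulVecLin ≤ W) :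
    (Matrix.of fun (i : Fin N) (b : Fin (m + 1)) =>
      (Fin.cons (x i) (fun b' => G i (J b')) : Fin (m + 1) → ℂ) b).rank ≤ finrank ℂ W := by
  rw [Matrix.rank_eq_finrank_span_cols]
  refine Submodule.finrank_mono ?_
  rw [Submodule.span_le]
  rintro _ ⟨b, rfl⟩
  refine Fin.cases ?_ (fun b' => ?_) b
  · exact hx
  · refine hG ⟨Pi.single (J b') 1, ?_⟩
    rw [Matrix.mulVecLin_apply, Matrix.mulVec_single_one]
    rfl

theorem main (N s : ℕ) (g : Biv N) (x : Fin N → ℂ) (hx : x ≠ 0) (hrk : rk g.f x ≤ s) :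
    (∀ I J : Fin (s + 3) → Fin N, eval x (mnr g.f I J) = 0) ∧
    ∀ (I : Fin (s + 3) → Fin N) (J : Fin (s + 2) → Fin N), eval x (xmnr g.f I J) = 0 := by
  set G : Matrix (Fin N) (Fin N) ℂ := mat g.f x with hG
  have hskew : ∀ i j, G i j = - G j i := by
    intro i j
    rw [hG]
    simp only [mat, Matrix.of_apply]
    rw [g.skew j i, map_neg]
  have hGr : finrank ℂ (LinearMap.range G.mulVecLin) = G.rank := rfl
  have hrn := LinearMap.finrank_range_add_finrank_ker G.mulVecLin
  rw [hGr, finrank_fin_fun] at hrn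
  unfold rk at hrk
  rw [Submodule.map_comp, ← hG] at hrk
  set K := LinearMap.ker (dot x) with hK
  have hKd := ker_dot x
  rw [← hK] at hKd
  -- the two facts which are needed
  have key : G.rank ≤ s + 2 ∧ ∃ W : Submodule ℂ (Fin N → ℂ), x ∈ W ∧
      LinearMap.range G.mulVecLin ≤ W ∧ finrank ℂ W ≤ s + 2 := by
    by_cases hxG : x ∈ LinearMap.range G.mulVecLin
    · obtain ⟨η, hη⟩ := hxG
      rw [Matrix.mulVecLin_apply] at hη
      have hker : LinearMap.ker G.mulVecLin ≤ K := by
        intro ζ hζ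
        rw [LinearMap.mem_ker, Matrix.mulVecLin_apply] at hζ
        rw [hK, LinearMap.mem_ker, dot_apply, ← hη, adj G hskew, hζ]
        simp
      have h1 := rn G.mulVecLin K
      rw [inf_eq_left.2 hker] at h1
      have h2 := rn (Submodule.span ℂ {x}).mkQ (Submodule.map G.mulVecLin K)
      have h3 : finrank ℂ (LinearMap.ker (Submodule.span ℂ {x}).mkQ ⊓
          Submodule.map G.mulVecLin K : Submodule ℂ (Fin N → ℂ)) ≤ 1 := by
        rw [Submodule.ker_mkQ]
        refine (Submodule.finrank_mono inf_le_left).trans ?_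
        exact (finrank_span_singleton hx).le
      have h4 : G.rank ≤ s + 2 := by omega
      exact ⟨h4, LinearMap.range G.mulVecLin, ⟨η, hη⟩, le_refl _, h4⟩
    · have hex : ∃ ζ, G.mulVec ζ = 0 ∧ dot x ζ ≠ 0 := by
        by_contra hcon
        push Not at hcon
        refine hxG (mem_range G hskew x ?_)
        intro ζ hζ
        rw [LinearMap.mem_ker, Matrix.mulVecLin_apply] at hζ
        exact LinearMap.mem_ker.2 (hcon ζ hζ)
      obtain ⟨ζ, hζ, hζx⟩ := hex
      have hmap : Submodule.map G.mulVecLin K = LinearMap.range G.mulVecLin := by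
        refine le_antisymm LinearMap.map_le_range ?_
        rintro _ ⟨v, rfl⟩
        refine ⟨v - (dot x v / dot x ζ) • ζ, ?_, ?_⟩
        · rw [hK, SetLike.mem_coe, LinearMap.mem_ker, map_sub, map_smul, smul_eq_mul,
            div_mul_cancel₀ _ hζx, sub_self]
        · rw [map_sub, map_smul, Matrix.mulVecLin_apply, Matrix.mulVecLin_apply, hζ, smul_zero,
            sub_zero]
      rw [hmap] at hrk
      have h2 := rn (Submodule.span ℂ {x}).mkQ (LinearMap.range G.mulVecLin)
      have h3 : (LinearMap.ker (Submodule.span ℂ {x}).mkQ ⊓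
          LinearMap.range G.mulVecLin : Submodule ℂ (Fin N → ℂ)) = ⊥ := by
        rw [Submodule.ker_mkQ, eq_bot_iff]
        rintro w ⟨hw1, hw2⟩
        obtain ⟨c, rfl⟩ := Submodule.mem_span_singleton.1 hw1
        rcases eq_or_ne c 0 with hc | hc
        · rw [hc, zero_smul]
          exact Submodule.zero_mem _
        · exfalso
          refine hxG ?_
          have h := (LinearMap.range G.mulVecLin).smul_mem c⁻¹ hw2
          rwa [smul_smul, inv_mul_cancel₀ hc, one_smul] at h
      rw [h3, finrank_bot] at h2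
      have h4 : G.rank ≤ s := by omega
      refine ⟨by omega, LinearMap.range G.mulVecLin ⊔ Submodule.span ℂ {x},
        Submodule.mem_sup_right (Submodule.mem_span_singleton_self x), le_sup_left, ?_⟩
      have h5 := Submodule.finrank_add_le_finrank_add_finrank (LinearMap.range G.mulVecLin)
        (Submodule.span ℂ {x})
      have h6 : finrank ℂ (Submodule.span ℂ {x}) ≤ 1 := (finrank_span_singleton hx).le
      omega
  obtain ⟨hr, W, hxW, hGW, hW⟩ := key
  refine ⟨fun I J => ?_, fun I J => ?_⟩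
  · unfold mnr
    rw [RingHom.map_det]
    exact minors (r := s + 2) G hr I J
  · unfold xmnr
    rw [RingHom.map_det]
    have h1 := minors (r := s + 2) _ ((rank_cons G x J W hxW hGW).trans hW) I id
    rw [← h1]
    congr 1
    ext a b
    rw [RingHom.mapMatrix_apply, Matrix.map_apply]
    simp only [Matrix.of_apply, id_eq]
    refine Fin.cases ?_ (fun b' => ?_) b
    · simp only [Fin.cons_zero, eval_X]
    · simp only [Fin.cons_succ]
      rfl

end RKCM

/-- RKC: at a point of rank `≤ s` the `(s+3)`-minors of `g` and of `[x | g]` vanish. -/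
theorem specRKC : SpecRKC := fun N s g x _ hx hrk => RKCM.main N s g x hx hrk

end Pool.Agent.Lib.MPc9b009.PS
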