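import Pool.Agent.Lib.MP_c9b009_ag.PS.Spec
import Pool.Agent.Lib.MP_c9b009_ag.B5.All

/-!
# MP_c9b009_ag, row PS, module RKU: the rank of a bivector field at a zero of the minors
-/

set_option autoImplicit false

namespace Pool.Agent.Lib.MPc9b009.PS

open MvPolynomial Pool.Agent.Lib.MPc9b009.B5 Pool.Agent.Lib.MPc9b009.OD

open Module Pool.Agent.Lib.MPc9b009.B5.RKTM in
theorem RKUM.main (N s : ℕ) (g : Biv N) (x : Fin N → ℂ) (hs : Even s) (hx : x ≠ 0)
    (hm : ∀ I J : Fin (s + 3) → Fin N, eval x (mnr g.f I J) = 0)
    (hxm : ∀ (I : Fin (s + 3) → Fin N) (J : Fin (s + 2) → Fin N), eval x (xmnr g.f I J) = 0) :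
    rk g.f x ≤ s := by
  have hSKE : SpecSKE := specSKE
  have hRKM : SpecRKM := specRKM
  set G : Matrix (Fin N) (Fin N) ℂ := mat g.f x with hG
  have hskew : G.transpose = - G := by
    ext i j
    rw [Matrix.transpose_apply, Matrix.neg_apply, hG]
    simp only [mat, Matrix.of_apply]
    rw [g.skew i j, map_neg]
  have hskew' : ∀ i j, G i j = - G j i := by
    intro i j
    have := congrFun (congrFun hskew j) i
    simpa using this
  -- `G ξ · η = - ξ · G η`
  have hadj : ∀ ξ η : Fin N → ℂ, ∑ i, (G.mulVec ξ) i * η i = - ∑ i, ξ i * (G.mulVec η) i := by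
    intro ξ η
    simp only [Matrix.mulVec, dotProduct, Finset.sum_mul, Finset.mul_sum]
    rw [Finset.sum_comm, ← Finset.sum_neg_distrib]
    refine Finset.sum_congr rfl fun i _ => ?_
    rw [← Finset.sum_neg_distrib]
    refine Finset.sum_congr rfl fun j _ => ?_
    rw [hskew' j i]
    ring
  have hrank : G.rank ≤ s + 2 := by
    rw [← hRKM ℂ _ N N (s + 2) G]
    intro I J
    have h := hm I J
    unfold mnr at h
    rw [RingHom.map_det] at h
    exact h
  have hGr : finrank ℂ (LinearMap.range G.mulVecLin) = G.rank := rfl
  have hrn := LinearMap.finrank_range_add_finrank_ker G.mulVecLin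
  rw [hGr, finrank_fin_fun] at hrn
  unfold rk
  rw [Submodule.map_comp, ← hG]
  set K := LinearMap.ker (dot x) with hK
  by_cases hxG : x ∈ LinearMap.range G.mulVecLin
  · obtain ⟨η, hη⟩ := hxG
    rw [Matrix.mulVecLin_apply] at hη
    have hηK : η ∈ K := by
      rw [hK, LinearMap.mem_ker, dot_apply, ← hη]
      have h := hadj η η
      have h2 : ∑ i, η i * (G.mulVec η) i = ∑ i, (G.mulVec η) i * η i :=
        Finset.sum_congr rfl fun i _ => mul_comm _ _
      rw [h2] at h
      have h3 : (2 : ℂ) * ∑ i, (G.mulVec η) i * η i = 0 := by linear_combination h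
      simpa using h3
    have hker : LinearMap.ker G.mulVecLin ≤ K := by
      intro ζ hζ
      rw [LinearMap.mem_ker, Matrix.mulVecLin_apply] at hζ
      rw [hK, LinearMap.mem_ker, dot_apply, ← hη, hadj, hζ]
      simp
    have hKlt : finrank ℂ K < N := by
      have h1 : K ≠ ⊤ := by
        intro htop
        obtain ⟨i, hi⟩ : ∃ i, x i ≠ 0 := by
          by_contra hcon
          push Not at hcon
          exact hx (funext hcon)
        have h2 : Pi.single i (1 : ℂ) ∈ K := by rw [htop]; exact Submodule.mem_top
        rw [hK, LinearMap.mem_ker, dot_apply, Finset.sum_eq_single i] at h2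
        · simp at h2
          exact hi h2
        · intro j _ hj
          rw [Pi.single_eq_of_ne hj, mul_zero]
        · intro h
          exact absurd (Finset.mem_univ i) h
      have h2 := Submodule.finrank_lt h1
      rwa [finrank_fin_fun] at h2
    have h1 := rn G.mulVecLin K
    rw [inf_eq_left.2 hker] at h1
    have h2 := rn (Submodule.span ℂ {x}).mkQ (Submodule.map G.mulVecLin K)
    have h3 : 1 ≤ finrank ℂ (LinearMap.ker (Submodule.span ℂ {x}).mkQ ⊓
        Submodule.map G.mulVecLin K : Submodule ℂ (Fin N → ℂ)) := by
      rw [Nat.one_le_iff_ne_zero]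
      intro h0
      rw [Submodule.finrank_eq_zero] at h0
      have hmem : x ∈ (LinearMap.ker (Submodule.span ℂ {x}).mkQ ⊓
          Submodule.map G.mulVecLin K : Submodule ℂ (Fin N → ℂ)) := by
        refine ⟨?_, η, hηK, hη⟩
        rw [Submodule.ker_mkQ]
        exact Submodule.mem_span_singleton_self x
      rw [h0, Submodule.mem_bot] at hmem
      exact hx hmem
    omega
  · have hle : finrank ℂ (Submodule.map (Submodule.span ℂ {x}).mkQ
        (Submodule.map G.mulVecLin K)) ≤ G.rank := by
      refine (Submodule.finrank_map_le _ _).trans ?_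
      exact Submodule.finrank_mono LinearMap.map_le_range
    refine hle.trans ?_
    obtain ⟨k, hk⟩ := hs
    have hk2 : s = 2 * k := by omega
    by_contra hcon
    push Not at hcon
    -- the rank is `s + 2`
    have h1 : ¬ G.rank ≤ s + 1 := by
      intro h
      have := hSKE ℂ _ inferInstance N k G hskew (by omega)
      omega
    rw [← hRKM ℂ _ N N (s + 1) G] at h1
    push Not at h1
    obtain ⟨I, J, hIJ⟩ := h1
    -- the columns `J`
    have hcol : LinearIndependent ℂ (fun t : Fin (s + 2) => (fun i => G i (J t))) := by
      have hrow : LinearIndependent ℂ (Matrix.of fun a b => G (I a) (J b)).transpose := by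
        refine Matrix.linearIndependent_rows_of_det_ne_zero ?_
        rw [Matrix.det_transpose]
        exact hIJ
      rw [Fintype.linearIndependent_iff] at hrow ⊢
      intro c hc
      refine hrow c ?_
      funext a
      have h := congrFun hc (I a)
      simp only [Finset.sum_apply, Pi.smul_apply, Pi.zero_apply] at h ⊢
      exact h
    have hspan : Submodule.span ℂ (Set.range fun t : Fin (s + 2) => (fun i => G i (J t))) =
        LinearMap.range G.mulVecLin := by
      refine Submodule.eq_of_le_of_finrank_le ?_ ?_
      · rw [Submodule.span_le]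
        rintro _ ⟨t, rfl⟩
        refine ⟨Pi.single (J t) 1, ?_⟩
        rw [Matrix.mulVecLin_apply, Matrix.mulVec_single_one]
        rfl
      · rw [finrank_span_eq_card hcol, Fintype.card_fin]
        exact hrank
    have hcons : LinearIndependent ℂ (Fin.cons x (fun t : Fin (s + 2) => (fun i => G i (J t))) :
        Fin (s + 3) → (Fin N → ℂ)) := by
      rw [linearIndependent_finCons]
      refine ⟨hcol, ?_⟩
      rw [hspan]
      exact hxG
    set M : Matrix (Fin N) (Fin (s + 3)) ℂ := Matrix.of fun i b =>
      (Fin.cons x (fun t : Fin (s + 2) => (fun i => G i (J t))) : Fin (s + 3) → (Fin N → ℂ)) b i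
      with hM
    have hMr : M.rank = s + 3 := by
      have h2 : M.rank = M.transpose.rank := (Matrix.rank_transpose M).symm
      rw [h2]
      have h3 : LinearIndependent ℂ M.transpose := hcons
      exact h3.rank_matrix.trans (Fintype.card_fin _)
    have h4 : M.rank ≤ s + 2 := by
      rw [← hRKM ℂ _ N (s + 3) (s + 2) M]
      intro I' J'
      by_cases hJ : Function.Injective J'
      · have hb : Function.Bijective J' := Finite.injective_iff_bijective.1 hJ
        set σ : Equiv.Perm (Fin (s + 3)) := Equiv.ofBijective J' hb with hσ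
        have h5 : (Matrix.of fun a b => M (I' a) (J' b)) =
            (Matrix.of fun a b => M (I' a) b).submatrix id σ := by
          ext a b
          rfl
        have h6 : (Matrix.of fun a b => M (I' a) b).det = 0 := by
          have h := hxm I' J
          unfold xmnr at h
          rw [RingHom.map_det] at h
          rw [← h]
          congr 1
          ext a b
          rw [RingHom.mapMatrix_apply, Matrix.map_apply]
          simp only [hM, Matrix.of_apply]
          refine Fin.cases ?_ (fun b' => ?_) b
          · simp only [Fin.cons_zero, eval_X]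
          · simp only [Fin.cons_succ]
            rfl
        rw [h5, Matrix.det_permute', h6, mul_zero]
      · unfold Function.Injective at hJ
        push Not at hJ
        obtain ⟨b, b', hbb, hne⟩ := hJ
        refine Matrix.det_zero_of_column_eq hne ?_
        intro a
        rw [Matrix.of_apply, Matrix.of_apply, hbb]
    omega

/-- RKU: at a point `x ≠ 0` where all `(s+3)`-minors of `g` and of `[x | g]` vanish, `s` even, the rank
of the bivector is `≤ s`. -/
theorem specRKU : SpecRKU := fun N s g x hs hx hm hxm => RKUM.main N s g x hs hx hm hxm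

end Pool.Agent.Lib.MPc9b009.PS
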