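import Pool.Agent.Lib.MP_c9b009_ag.PS.Defs

/-!
# MP_c9b009_ag, row PS: statements of the modules, with proofs

One file `PS/<NAME>.lean` per module, namespace `Pool.Agent.Lib.MPc9b009.PS`, auxiliary lemmas in the
sub-namespace `<NAME>M`, theorem `spec<NAME> (h : SpecYYY) .. : Spec<NAME>` (arguments: the modules named
in the docstring after USES). Everything of row B5 is available (`B5/All.lean`; the hypotheses
`SpecSEL`, `SpecTRA` .. of B5 are THEOREMS there, use them directly: `specSEL specMONO specHMIN`,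
`specSOP (specSEL specMONO specHMIN) specFINI`, `specDEX`, `specDIM`, `specDMIN`, `specMST`, `specSKE`,
`specRKM`, `specFINI`, `specMONO`, `specHMIN`; `CUTM.trdeg_line`, `CUTM.psi`, `CUTM.hom_span`,
`DET0M.der_det`, `BSTM.mono`).
-/

set_option autoImplicit false

namespace Pool.Agent.Lib.MPc9b009.PS

open MvPolynomial Pool.Agent.Lib.MPc9b009.B5 Pool.Agent.Lib.MPc9b009.OD MeasureTheory

/-! ## Group A: the symplectic cone is smooth -/

/-- JRK (~200 lines). The Jacobian criterion at the generic point. PROOF. `K = Frac (S / p)`,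
`φ : S → K`. Let `E` be the `K`-span in `K^N` of the vectors `(φ (∂_j F))_j`, `F ∈ p`. If `dim E ≥ N - d`
choose `N - d` independent ones of these vectors and a nonzero minor (`specRKM`, or row rank = column
rank). Suppose `dim E < N - d`. Then `A = {v ∈ K^N | ∑ v_j φ(∂_j F) = 0 for all F ∈ p}` has dimension
`> d`. Every `v ∈ A` defines the derivation `D_v : K → K` over `ℂ` with `D_v (φ F) = ∑ v_j φ (∂_j F)`
(well defined on `S / p`, extends to the fraction field; see `BSTM.der_poly`, `BSTM.ext_vf`), `v ↦ D_v`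
is `K`-linear and injective (`v_j = D_v (φ x_j)`). By `specSOP` (`M = d` or `m = d`, the other one `0`,
`g` = the variables) `S / p` is integral over the polynomial ring in `d` algebraically independent
elements `z_b`, so `K` is a finite extension of `ℂ(z)` (the instances as in `B5/Bst.lean`, proof of
`specBST`), and `specDEX`: `D_v = ∑_b D_v(z_b) dd_b`. So `v ↦ (D_v (z_b))_b ∈ K^d` is injective and linear,
a contradiction. (Any other proof is welcome, e.g. with the Kähler differentials of Mathlib.) -/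
def SpecJRK : Prop := ∀ (N d : ℕ) (p : Ideal (MvPolynomial (Fin N) ℂ)), p.IsPrime → Hom p →
  Algebra.trdeg ℂ (MvPolynomial (Fin N) ℂ ⧸ p) = ((d : ℕ) : Cardinal) →
  ∃ (F : Fin (N - d) → MvPolynomial (Fin N) ℂ) (J : Fin (N - d) → Fin N), (∀ a, F a ∈ p) ∧
    (Matrix.of fun a b => pderiv (J b) (F a)).det ∉ p

/-- JST (~120 lines). The Jacobian ideal is stable. PROOF. Let `D z = ∑_i g_ij ∂_i z` (`j` fixed), a
derivation with `D p ⊆ p`. `D (∂_l F) = ∂_l (D F) - ∑_i (∂_l g_ij) ∂_i F`. `D (det B)` for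
`B_ab = ∂_(J b) F_a` is the sum over the rows `a` of the determinants with row `a` replaced by `D` of it
(`DET0M.der_det` or `Derivation` and `Matrix.det_apply`). The part `∂_(J b) (D F_a)` gives the generator
with `F_a` replaced by `D F_a ∈ p`. The other part: `∑_a det (row a replaced by (∑_i c_bi ∂_i F_a)_b)`,
`c_bi = ∂_(J b) g_ij`, is equal to `∑_b det (column b replaced by (∑_i c_bi ∂_i F_a)_a)` (both are the sum
over `a, b` of the entry `∑_i c_bi ∂_i F_a` times the `(a, b)`-cofactor; Laplace expansion of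
`Matrix.det_updateRow` / `updateCol` with `adjugate`) `= ∑_b ∑_i c_bi det (J b replaced by i)`, a
combination of generators. A general element of the ideal: `D` of a product of a generator with a
polynomial. -/
def SpecJST : Prop := ∀ (N m : ℕ) (g : Biv N) (p : Ideal (MvPolynomial (Fin N) ℂ)), Stab g.f p →
  Stab g.f (p ⊔ Ideal.span {z | ∃ (F : Fin m → MvPolynomial (Fin N) ℂ) (J : Fin m → Fin N),
    (∀ a, F a ∈ p) ∧ z = (Matrix.of fun a b => pderiv (J b) (F a)).det})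

/-- TAN (~150 lines), USES JRK, JST. At every point `x` of rank `d = D(p)` of `V(p)` the gradients of
`N - d` elements of `p` are independent and cut out the tangent space `Tg g x`. PROOF. Let `𝒥` be the
ideal of JST with `m = N - d`. Suppose all the minors of the elements of `p` vanish at `x`; then
`𝒥 ≤ ker (eval x)`, let `q` be a minimal prime of `𝒥` with `q ≤ ker (eval x)`
(`Ideal.exists_minimalPrimes_le`). `q` is stable (JST, `specDMIN`), `p < q` by JRK, so `D(q) + 1 ≤ d`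
(`specMONO`) and by `specDIM` all `d`-minors of `g` are in `q`, so they vanish at `x` and the rank of
`g(x)` is `< d` (`specRKM`), a contradiction (`d = 0` : then `D(q) + 1 ≤ 0` is absurd). So there are `F`, `J`
with `det (∂_(J b) F_a (x)) ≠ 0`. The kernel of `v ↦ (∑_j ∂_j F_a (x) v_j)_a` has dimension
`N - (N - d) ≤ d` (surjective onto `ℂ^(N-d)`; note `d ≤ N`: rank of a `N × N` matrix) and contains
`Tg g x` (second statement: for `F ∈ p`, `∑_i g_ij ∂_i F ∈ p` vanishes at `x`, and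
`(g(x) ξ)_i = ∑_j g_ij(x) ξ_j`), which has dimension `d`, so they are equal. -/
def SpecTAN : Prop := ∀ (N d : ℕ) (g : Biv N) (p : Ideal (MvPolynomial (Fin N) ℂ)), p.IsPrime →
  Hom p → Stab g.f p → Algebra.trdeg ℂ (MvPolynomial (Fin N) ℂ ⧸ p) = ((d : ℕ) : Cardinal) →
  ∀ x ∈ Mp p g d,
    (∃ F : Fin (N - d) → MvPolynomial (Fin N) ℂ, (∀ a, F a ∈ p) ∧
      ∀ v : Cn N, (∀ a, ∑ j, eval x (pderiv j (F a)) * v j = 0) → v ∈ Tg g x) ∧
    ∀ v ∈ Tg g x, ∀ F ∈ p, ∑ j, eval x (pderiv j F) * v j = 0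

/-- PMN (~60 lines). A skew matrix of rank `d` has an invertible principal `d × d` block. PROOF. Choose
`d` independent rows `I` which span the row space. As `A` is skew the columns `I` span the column space:
`A_(a j) = ∑_m A_(a, I m) C_(m j)`. So `A_(I ·) = A_II C` has rank `d`, hence `A_II` has rank `d`. SECOND
STATEMENT: `v` in the column space, `v_I = 0` gives `v = ∑_m c_m A_(·, I m)`, `A_II c = 0`, `c = 0`. -/
def SpecPMN : Prop := ∀ (N d : ℕ) (A : Matrix (Fin N) (Fin N) ℂ), (∀ i j, A j i = - A i j) →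
  A.rank = d → ∃ I : Fin d → Fin N, Function.Injective I ∧
    (Matrix.of fun a b => A (I a) (I b)).det ≠ 0

/-- INV (~120 lines). Graphs from the inverse function theorem. PROOF. `Θ x = (x ∘ I, (F_a (x))_a)` is a
`C^∞` (analytic) map `ℂ^N → ℂ^k × ℂ^(N-k)`, its derivative at `x₀` is injective by hypothesis, hence
bijective (`k ≤ N` as `I` is injective, equal dimensions). `e` = the local inverse
(`ContDiffAt.toOpenPartialHomeomorph`, `contDiffAt_toOpenPartialHomeomorph` .. over `𝕜 = ℂ`); shrink the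
source to an open set where the derivative is invertible so that `e.symm` is `C³` on the whole target
(`OpenPartialHomeomorph.contDiffAt_symm`). `W = e.source`, `B = {y | (y, 0) ∈ e.target}`,
`G y = e.symm (y, 0)`. -/
def SpecINV : Prop := ∀ (N k : ℕ) (F : Fin (N - k) → MvPolynomial (Fin N) ℂ) (I : Fin k → Fin N)
  (x₀ : Cn N), Function.Injective I → (∀ a, eval x₀ (F a) = 0) →
  (∀ v : Cn N, (∀ m, v (I m) = 0) → (∀ a, ∑ j, eval x₀ (pderiv j (F a)) * v j = 0) → v = 0) →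
  ∃ (W : Set (Cn N)) (B : Set (Cn k)) (G : Cn k → Cn N), IsOpen W ∧ IsOpen B ∧ x₀ ∈ W ∧
    ContDiffOn ℂ 3 G B ∧
    (∀ y ∈ B, G y ∈ W ∧ (∀ a, eval (G y) (F a) = 0) ∧ ∀ m, G y (I m) = y m) ∧
    (∀ z ∈ W, (∀ a, eval z (F a) = 0) → (fun m => z (I m)) ∈ B ∧ G (fun m => z (I m)) = z)

/-- PVA (~250 lines). All elements of the stable ideal `p` vanish on the graph. PROOF. Let `y₀ = x₀ ∘ I`
(so `y₀ ∈ B`, `G y₀ = x₀`), `h_1, .., h_q` generators of `p` (noetherian), `u_i (y) = h_i (G y)`,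
`X_a = ∑_l g_al ∂_l`; `X_a p ⊆ p` (skewness and `Stab`), `X_a h_i = ∑_j c_aij h_j`,
`X_a F_b = ∑_j c'_abj h_j`. For `y` near `y₀`: `H(y) = (g_(I m, I n)(G y))` is invertible. Put
`v_k (y) = ∑_b (H⁻¹)_kb (g_(I b, l)(G y))_l`; then `(v_k)_(I m) = δ_km`, and `(∂_k G)_(I m) = δ_km`. So
`δ_k = v_k - ∂_k G(y)` has zero `I`-coordinates and, as `F_a ∘ G = 0`, `dF_a (δ_k) = dF_a(v_k) =
∑_b (H⁻¹)_kb (X_(I b) F_a)(G y) = ∑_j (continuous) u_j (y)`. The linear map `L_y : v ↦ (v ∘ I, dF(G y) v)`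
is injective at `y₀`, so near `y₀` it is a continuous family of isomorphisms, and
`δ_k = ∑_j m_kj (y) u_j (y)` with continuous vectors `m_kj`. Now `∂_k u_i = dh_i(∂_k G) =
∑_b (H⁻¹)_kb (X_(I b) h_i)(G y) - dh_i (δ_k) = ∑_j Ω_kij (y) u_j (y)`, `Ω` continuous near `y₀`, bounded by
`C` on a closed ball `B̄(y₀, ε) ⊆ B`. On the segment `t ↦ y₀ + t (y - y₀)` the function `U(t) = u(..)`
satisfies `‖U'‖ ≤ C' ‖U‖`, `U(0) = 0`, so `U = 0` (Gronwall: `norm_le_gronwallBound_of_norm_deriv_right_le`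
with `δ = 0`, `ε = 0`). -/
def SpecPVA : Prop := ∀ (N d : ℕ) (g : Biv N) (p : Ideal (MvPolynomial (Fin N) ℂ)), Stab g.f p →
  ∀ (F : Fin (N - d) → MvPolynomial (Fin N) ℂ) (I : Fin d → Fin N) (x₀ : Cn N), x₀ ∈ Zer p →
  (∀ a, F a ∈ p) → (Matrix.of fun a b => mat g.f x₀ (I a) (I b)).det ≠ 0 →
  (∀ v : Cn N, (∀ m, v (I m) = 0) → (∀ a, ∑ j, eval x₀ (pderiv j (F a)) * v j = 0) → v = 0) →
  ∀ (B : Set (Cn d)) (G : Cn d → Cn N), IsOpen B → ContDiffOn ℂ 3 G B →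
  (fun m => x₀ (I m)) ∈ B → G (fun m => x₀ (I m)) = x₀ →
  (∀ y ∈ B, (∀ a, eval (G y) (F a) = 0) ∧ ∀ m, G y (I m) = y m) →
  ∃ ε > 0, Metric.ball (fun m => x₀ (I m)) ε ⊆ B ∧
    ∀ y ∈ Metric.ball (fun m => x₀ (I m)) ε, G y ∈ Zer p

/-- LGR (~200 lines), USES TAN, PMN, INV, PVA. The points of rank `d = D(p)` form a smooth cone with the
tangent spaces `Tg g x`. PROOF. `x₀ ∈ M`: `F` of TAN, `I` of PMN for `g(x₀)`. If `v_I = 0` and `dF(x₀) v = 0`
then `v ∈ Tg g x₀` (TAN), `v = g(x₀) ξ`; as the columns `I` span the column space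
(`A_II` invertible of size = rank) `v = ∑ c_m A_(·, I m)`, `A_II c = 0`, `v = 0`. INV and PVA give `W, B, G, ε`.
Let `O` be the open set of the `z` with `det (g_(I a, I b)(z)) ≠ 0`. The chart: `I`, `G`,
`B' = ball(y₀, ε) ∩ G⁻¹(O)` (open: `G` is continuous on the ball), `W' = {z ∈ W | z ∘ I ∈ ball, z ∈ O}`.
`mem`: `G y ∈ V(p)` by PVA, the rank of `g(G y)` is `≥ d` (block) and `≤ d` (a `(d+1)`-minor not in `p` would give
`d + 1 ≤ D(p)` by `specDIM`; so all `(d+1)`-minors are in `p` and vanish on `V(p)`, `specRKM`). `inv`: INV,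
`F_a ∈ p`. `tan`: the range of `fderiv G y` has dimension `d` (its `I`-coordinates are the identity)
and is contained in `{v | dh(G y) v = 0, h ∈ p}` (differentiate `h ∘ G = 0`), which is `Tg g (G y)` by TAN
(at the point `G y ∈ M`), of dimension `d`. CONE: `0 ∉ M` because `g(0) = 0` and `d > 0`. For `t ≠ 0`:
`h (t x) = ∑_j t^j h_j (x)`, `h_j ∈ p` (`Hom p`), so `t x ∈ V(p)`; `g(t x) = t² g(x)` (quadratic), same rank
and range. EULER: `x ∈ Tg g x` by TAN: `∑_j x_j ∂_j F (x) = ∑_e e F_e (x) = 0` for `F ∈ p` (Euler's formula for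
the homogeneous components `F_e ∈ p`). -/
def SpecLGR : Prop := ∀ (N d : ℕ) (g : Biv N) (p : Ideal (MvPolynomial (Fin N) ℂ)), p.IsPrime →
  Hom p → Stab g.f p → 0 < d →
  Algebra.trdeg ℂ (MvPolynomial (Fin N) ℂ ⧸ p) = ((d : ℕ) : Cardinal) →
  Cone N d (Mp p g d) (Tg g)

/-! ## Group B: linear sections -/

/-- BAS (~100 lines). Facts on charts of cones. PROOF. (1) the derivative of `y ↦ G y (I m) = y m`.
(2) `G y ∈ T (G y) = range`, `G y = fderiv G y η`; take the coordinates `I m`: `η = y`. (3) differentiate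
(2) in the direction `v` (`G` is `C³`, the second derivative is symmetric): the derivative of
`y ↦ fderiv G y y - G y` is `v ↦ D²G(y)(v, y) + fderiv G y v - fderiv G y v`. (4) the range of the injective
map `fderiv G y`. (5) `G y = G y'`: coordinates `I`. -/
def SpecBAS : Prop := ∀ (N k : ℕ) (M : Set (Cn N)) (T : Cn N → Submodule ℂ (Cn N)),
  Cone N k M T → ∀ (c : Cht N k M T), ∀ y ∈ c.B,
    (∀ (v : Cn k) (m : Fin k), fderiv ℂ c.G y v (c.I m) = v m) ∧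
    fderiv ℂ c.G y y = c.G y ∧
    (∀ v : Cn k, fderiv ℂ (fun z => fderiv ℂ c.G z v) y y = 0) ∧
    Module.finrank ℂ (T (c.G y)) = k

/-- BER (~200 lines), USES BAS. Sard for hyperplane sections: the hyperplanes which contain a tangent
space form a null set. PROOF. `M` is covered by countably many `c.W` (`TopologicalSpace` second countable:
`isOpen_iUnion_countable` / `TopologicalSpace.countable_cover_nhds` type lemma for the open cover of `M`), so
it suffices (`measure_iUnion_null`) to treat the `c₀ ∈ ℂ^N` with `T (G y) ≤ hyp c₀` for some `y ∈ c.B`, one chart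
`c`. These `c₀` satisfy `∑_j (c₀)_j ∂_m G_j (y) = 0` for all `m`, i.e.
`(c₀)_(I m) = - ∑_(j ∉ range I) (c₀)_j ∂_m G_j (y)`. Let `U = {u ∈ ℂ^N | u ∘ I ∈ B}` (open) and
`Θ : U → ℂ^N`, `Θ(u)_j = u_j` for `j ∉ range I`, `Θ(u)_(I m) = - ∑_(j ∉ range I) u_j ∂_m G_j (u ∘ I)`
(`I` is injective because of (1) of BAS if `B` is not empty). Then `c₀ = Θ(u)` with `u_j = (c₀)_j` off `I`,
`u ∘ I = y`. `Θ` is differentiable on `U`, and its derivative at `u` kills the vector `e`, `e ∘ I = y`,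
`e_j = 0` off `I` ((3) of BAS with `v = e_m`); `e ≠ 0` because `y = 0` would give `G y = fderiv G y y = 0 ∈ M`.
So the determinant of the derivative, also as a real linear map, is `0`:
`MeasureTheory.addHaar_image_eq_zero_of_det_fderiv_eq_zero` (with `HasFDerivWithinAt .. ℝ`,
`restrictScalars`; `LinearMap.det_eq_zero` from a nonzero kernel vector,
`LinearMap.bot_lt_ker_iff_det_eq_zero` or similar). -/
def SpecBER : Prop := ∀ (N k : ℕ) (M : Set (Cn N)) (T : Cn N → Submodule ℂ (Cn N)),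
  Cone N k M T → volume {c : Cn N | ∃ x ∈ M, T x ≤ hyp c} = 0

/-- CUT (~250 lines), USES BAS. Transversal hyperplane sections are smooth cones. PROOF. Let `x₀ ∈ M`,
`c · x₀ = 0`, `Q` a chart of `M` at `x₀`, `y₀ = x₀ ∘ I`, `ψ(y) = ∑ c_j G_j (y)` on `B`. `Dψ(y₀) ≠ 0` since the
range `T x₀` of `fderiv G y₀` is not in `hyp c`; let `∂_m ψ (y₀) ≠ 0` (`m : Fin (k+1)`). The map
`Θ(y) = Function.update y m (ψ y)` has an invertible derivative at `y₀`; `e` = local inverse, `e.source ⊆ B`,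
shrunk so that `e.symm` is `C³` on the target. New chart: `I' = I ∘ m.succAbove`,
`B' = {y' : Fin k → ℂ | m.insertNth 0 y' ∈ e.target}`, `G' y' = G (e.symm (m.insertNth 0 y'))`,
`W' = {z ∈ W | z ∘ I ∈ e.source}`. `mem`, `inv`: `Θ(z ∘ I) = m.insertNth (c · z) (z ∘ I')` for
`z ∈ M ∩ W` (`G (z ∘ I) = z`). `tan`: the range of `fderiv G' y'` is contained in `T (G' y')` (chain rule)
and in `hyp c` (`c · G' = 0`), it has dimension `k` (coordinates `I'`), and `T x ⊓ hyp c` has dimension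
`k` for `x ∈ M`, `c · x = 0`, since `T x` has dimension `k + 1` (BAS) and is not contained in `hyp c`
(hypothesis). The other clauses of `Cone` are immediate (`c · (t x) = t (c · x)`). -/
def SpecCUT : Prop := ∀ (N k : ℕ) (M : Set (Cn N)) (T : Cn N → Submodule ℂ (Cn N)),
  Cone N (k + 1) M T → ∀ c : Cn N, (∀ x ∈ M, x ∈ hyp c → ¬ T x ≤ hyp c) →
  Cone N k {x | x ∈ M ∧ x ∈ hyp c} (fun x => T x ⊓ hyp c)

/-- NZP (~200 lines), USES BAS. A nonvanishing 1-form stays nonvanishing on the hyperplane sections near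
a suitable one. PROOF. Chart `Q` at `x`, `y₀ = x ∘ I`, `v = fderiv G y₀ η₀`. `x, v` are independent or `v` is a
multiple of `x` (or `x` of `v`, same as `x ≠ 0`); the latter is excluded by `al x (t • x) = 0`. `T x` has
dimension `k ≥ 3`, so there is `c₀` with `c₀ · x = 0`, `c₀ · v = 0` and `c₀ ≠ 0` on `T x` (a linear form on `ℂ^N`
which vanishes on `span {x, v}` and not on `T x ∌ ..`: `Submodule.exists_dual_map_eq_bot` /
`exists_le_ker_of_notMem` for a vector `w ∈ T x` outside `span {x, v}`; a linear form is `dot c₀`). Let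
`K(y, c)_m = ∑_j c_j ∂_m G_j (y)`, continuous, `K(y₀, c₀)_(k₀) ≠ 0` for some `k₀ : Fin k`. The map
`(y, c) ↦ (∑ c_j G_j (y), c)` is strictly differentiable at `(y₀, c₀)` with surjective derivative, so
(`HasStrictFDerivAt.map_nhds_eq_of_surj`) for every neighbourhood `P` of `y₀` all `c` near `c₀` have a
`y ∈ P` with `c · G(y) = 0`. Put `η = η₀ - (∑_m K(y,c)_m η₀_m / K(y,c)_(k₀)) e_(k₀)` (near `η₀` because
`∑ K(y₀,c₀)_m η₀_m = c₀ · v = 0`), `v' = fderiv G y η ∈ T (G y)`, `c · v' = ∑ K_m η_m = 0`. By continuity of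
`al` on `{(x, v) | x ∈ M, v ∈ T x}` we have `al (G y) v' ≠ 0` for `(y, c)` near `(y₀, c₀)`. -/
def SpecNZP : Prop := ∀ (N k : ℕ) (M : Set (Cn N)) (T : Cn N → Submodule ℂ (Cn N)),
  Cone N k M T → 3 ≤ k → ∀ al : Cn N → Cn N → ℂ,
  ContinuousOn (fun z : Cn N × Cn N => al z.1 z.2) {z | z.1 ∈ M ∧ z.2 ∈ T z.1} →
  (∀ x ∈ M, ∀ t : ℂ, al x (t • x) = 0) → (∃ x ∈ M, ∃ v ∈ T x, al x v ≠ 0) →
  ∃ O : Set (Cn N), IsOpen O ∧ O.Nonempty ∧
    ∀ c ∈ O, ∃ x ∈ M, x ∈ hyp c ∧ ∃ v ∈ T x, v ∈ hyp c ∧ al x v ≠ 0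

/-- DRP (~150 lines). Generic hyperplanes lower the dimension. PROOF. `J` has finitely many minimal primes
`q_1, .., q_r`, homogeneous by `specHMIN`. For those with `D(q_i) = t + 1` some variable is not in `q_i`
(otherwise `S / q_i = ℂ`, `D = 0`: `CUTM.trdeg_top`), so `U_i = {c | lin c ∈ q_i}` is a proper submodule;
for the others take `U_i = ⊥` if `N > 0` .. (or omit them: the index type is the finite set of those `q_i`).
If `c ∉ U_i` for all `i` and `q` is a prime over `J + (lin c)`, then `q_i ≤ q` for some `i`. If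
`D(q_i) ≤ t` then `D(q) ≤ t` (`BSTM.mono` or `trdeg_le_of_surjective`). Otherwise `D(q_i) = t + 1` (a natural
number by the bound), `lin c ∈ q`, `lin c ∉ q_i`, so `q_i < q` and `D(q) + 1 ≤ t + 1` by `specMONO`. -/
def SpecDRP : Prop := ∀ (N t : ℕ) (J : Ideal (MvPolynomial (Fin N) ℂ)), Hom J → Dle J (t + 1) →
  ∃ (ι : Type) (_ : Finite ι) (U : ι → Submodule ℂ (Cn N)), (∀ i, U i ≠ ⊤) ∧
    ∀ c : Cn N, (∀ i, c ∉ U i) → Hom (J ⊔ Ideal.span {lin c}) ∧ Dle (J ⊔ Ideal.span {lin c}) t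

/-- STP (~100 lines), USES BER, CUT, NZP, DRP. One step. PROOF. The set `O` of NZP (for `k + 1`) has positive
measure (`IsOpen.measure_pos`); the set of BER is null; the proper submodules `U_i` of DRP are null
(`Measure.addHaar_submodule` for the real submodules `restrictScalars`). So there is `c ∈ O` outside all of
them. CUT applies (`¬ T x ≤ hyp c` for all `x ∈ M`). -/
def SpecSTP : Prop := ∀ (N k t : ℕ) (M : Set (Cn N)) (T : Cn N → Submodule ℂ (Cn N)),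
  Cone N (k + 1) M T → 3 ≤ k → ∀ al : Cn N → Cn N → ℂ,
  ContinuousOn (fun z : Cn N × Cn N => al z.1 z.2) {z | z.1 ∈ M ∧ z.2 ∈ T z.1} →
  (∀ x ∈ M, ∀ t : ℂ, al x (t • x) = 0) → (∃ x ∈ M, ∃ v ∈ T x, al x v ≠ 0) →
  ∀ J : Ideal (MvPolynomial (Fin N) ℂ), Hom J → Dle J (t + 1) →
  ∃ c : Cn N, Cone N k {x | x ∈ M ∧ x ∈ hyp c} (fun x => T x ⊓ hyp c) ∧
    (∃ x ∈ M, x ∈ hyp c ∧ ∃ v ∈ T x, v ∈ hyp c ∧ al x v ≠ 0) ∧
    Hom (J ⊔ Ideal.span {lin c}) ∧ Dle (J ⊔ Ideal.span {lin c}) t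

/-- ITR (~120 lines), USES STP. PROOF. Induction on `j`, for all `M, T, J`. `j = 0`: `L = ⊤`
(`Cone N 3 {x | x ∈ M ∧ x ∈ ⊤} ..` by `simp`/`funext`); if `x ∈ V(J)`, `x ≠ 0`, the ideal of the line `ℂ x`
(`CUTM.psi`, `RingHom.ker (CUTM.psi x)`, or all polynomials vanishing on `ℂ x`) is a prime with `D = 1`
(`CUTM.trdeg_line`) and contains `J` (homogeneous), against `Dle J 0`. Step: STP gives `c`; the
hypotheses hold for the section `M_c`, `T_c`, `J + (lin c)` (continuity on a smaller set); the induction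
hypothesis gives `L'`; `L = L' ⊓ hyp c`; for `x ∈ V(J) ∩ L`: `lin c` vanishes at `x`, so
`x ∈ V(J + (lin c)) ∩ L'`. Sets are rewritten with `Set.ext`, `T` with `inf_assoc`. -/
def SpecITR : Prop := ∀ (j N : ℕ) (M : Set (Cn N)) (T : Cn N → Submodule ℂ (Cn N)),
  Cone N (3 + j) M T → ∀ al : Cn N → Cn N → ℂ,
  ContinuousOn (fun z : Cn N × Cn N => al z.1 z.2) {z | z.1 ∈ M ∧ z.2 ∈ T z.1} →
  (∀ x ∈ M, ∀ t : ℂ, al x (t • x) = 0) → (∃ x ∈ M, ∃ v ∈ T x, al x v ≠ 0) →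
  ∀ J : Ideal (MvPolynomial (Fin N) ℂ), Hom J → Dle J j →
  ∃ L : Submodule ℂ (Cn N), Cone N 3 {x | x ∈ M ∧ x ∈ L} (fun x => T x ⊓ L) ∧
    (∃ x ∈ M, x ∈ L ∧ ∃ v ∈ T x, v ∈ L ∧ al x v ≠ 0) ∧ ∀ x ∈ Zer J, x ∈ L → x = 0

/-! ## Group C: the symplectic form -/

/-- OMD (~120 lines). Algebra of `om`. PROOF. `g(x)` is skew: `ξ · g η = - (g ξ) · η`. If `g ξ = g ξ'` and
`v = g η` then `ξ · v - ξ' · v = - (g (ξ - ξ')) · η = 0`: (1). (2)-(4) follow by choosing `ξ`. (5):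
`g(t x) = t² g(x)` (`mat`, quadratic), so `g(t x) (t⁻² ξ) = g(x) ξ`. (6): `x = g ξ ≠ 0`, `v = g (conj x)`:
`ξ · g (conj x) = - x · conj x ≠ 0`. -/
def SpecOMD : Prop := ∀ (N : ℕ) (g : Biv N) (x : Cn N),
  (∀ ξ : Cn N, ∀ v ∈ Tg g x, om g x ((mat g.f x).mulVec ξ) v = ∑ i, ξ i * v i) ∧
  (∀ u ∈ Tg g x, ∀ u' ∈ Tg g x, ∀ v ∈ Tg g x, ∀ t : ℂ,
    om g x (u + t • u') v = om g x u v + t * om g x u' v) ∧
  (∀ u ∈ Tg g x, ∀ v ∈ Tg g x, om g x u v = - om g x v u) ∧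
  (∀ u ∈ Tg g x, ∀ v ∈ Tg g x, ∀ t : ℂ, t ≠ 0 →
    om g (t • x) u v = (t ^ 2)⁻¹ * om g x u v) ∧
  (x ≠ 0 → x ∈ Tg g x → ∃ v ∈ Tg g x, om g x x v ≠ 0)

/-- OML (~120 lines), USES OMD, PMN. The local formula: near a point of rank `d` the form is given by a
smooth matrix. PROOF. `I` of PMN for `g(x₀)`; `O = {x | det g_II(x) ≠ 0}`; `R(x)` = the `N × N` matrix with
`R_(I a, I b) = (g_II(x)⁻¹)_ab` and zero elsewhere (`inv = det⁻¹ • adjugate`, entries rational functions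
with nonvanishing denominator: `ContDiffOn`). If the rank of `g(x)` is `d` and `u ∈ Tg g x`, the columns `I`
span the column space, `u = g(x) ξ` with `ξ` supported on `I`, `u_I = g_II ξ_I`, `ξ = R(x) u`. So
`g(x) (R(x) u) = u` and (1) of OMD. -/
def SpecOML : Prop := ∀ (N d : ℕ) (g : Biv N) (x₀ : Cn N), (mat g.f x₀).rank = d →
  ∃ (O : Set (Cn N)) (R : Cn N → Matrix (Fin N) (Fin N) ℂ), IsOpen O ∧ x₀ ∈ O ∧
    (∀ i j, ContDiffOn ℂ 3 (fun x => R x i j) O) ∧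
    ∀ x ∈ O, (mat g.f x).rank = d → ∀ u ∈ Tg g x, (mat g.f x).mulVec ((R x).mulVec u) = u ∧
      ∀ v ∈ Tg g x, om g x u v = ∑ i, (R x).mulVec u i * v i

/-- OMA (~100 lines), USES OML. Smoothness of `om` along maps and continuity on the tangent bundle. PROOF.
Locally `om g (γ y) (u y) (v y) = ∑_i (R(γ y) u(y))_i v(y)_i`. -/
def SpecOMA : Prop := ∀ (N d : ℕ) (g : Biv N),
  (∀ (m : ℕ) (B : Set (Cn m)) (γ u v : Cn m → Cn N), IsOpen B → ContDiffOn ℂ 2 γ B →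
    ContDiffOn ℂ 2 u B → ContDiffOn ℂ 2 v B → (∀ y ∈ B, (mat g.f (γ y)).rank = d) →
    (∀ y ∈ B, u y ∈ Tg g (γ y)) → (∀ y ∈ B, v y ∈ Tg g (γ y)) →
    ContDiffOn ℂ 2 (fun y => om g (γ y) (u y) (v y)) B) ∧
  ContinuousOn (fun z : Cn N × Cn N => om g z.1 z.1 z.2)
    {z | (mat g.f z.1).rank = d ∧ z.1 ∈ Tg g z.1 ∧ z.2 ∈ Tg g z.1}

/-- OMK (~200 lines), USES OMD, OML, OMA. `ω` is closed. PROOF. Put `γ_k = ∂_k γ` (`C²`), `η_k = R(γ) γ_k`
(`C²` near `y`, `g(γ) η_k = γ_k`), `om(γ_k, γ_l) = η_k · γ_l`. `∂_m (η_k · γ_l) = ∂_m η_k · γ_l + η_k · ∂_m γ_l`,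
`∂_m η_k · γ_l = ∂_m η_k · g η_l = - (g ∂_m η_k) · η_l`, and from `g η_k = γ_k`:
`g ∂_m η_k = ∂_m γ_k - (∂_m g) η_k`, `(∂_m g)_ab = ∑_c (∂_c g_ab)(γ) (γ_m)_c`. So
`∂_m om(γ_k, γ_l) = - ∂_m γ_k · η_l + η_k · ∂_m γ_l + ((∂_m g) η_k) · η_l`. In the cyclic sum over `(k, l, m)` the
first two terms cancel (`∂_m γ_l = ∂_l γ_m`). `γ_m = g η_m` gives
`(∂_m g)_ab = ∑_(c,e) g_ce (∂_c g_ab) (η_m)_e = - ∑_e (η_m)_e (X_e g_ab)(γ)`, `X_e = ∑_c g_ec ∂_c`. So the sum is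
`- ∑ (η_m)_e (η_k)_b (η_l)_a` times `X_e g_ab + X_b g_ea + X_a g_be` (rename the indices in the other two
terms: `(k,l,m) → (l,m,k)` gives `(η_k)_b (η_l)_a (η_m)_e` times `X_b g_ea`, the third `X_a g_be`), and this is
`jac g.f e a b` at `γ(y)`, which is `0`. -/
def SpecOMK : Prop := ∀ (N d n : ℕ) (g : Biv N) (B : Set (Cn n)) (γ : Cn n → Cn N), IsOpen B →
  ContDiffOn ℂ 3 γ B → (∀ y ∈ B, (mat g.f (γ y)).rank = d) →
  (∀ y ∈ B, ∀ i j k, eval (γ y) (jac g.f i j k) = 0) →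
  (∀ y ∈ B, ∀ v, fderiv ℂ γ y v ∈ Tg g (γ y)) →
  ∀ y ∈ B, ∀ k l m : Fin n,
    fderiv ℂ (fun z => om g (γ z) (fderiv ℂ γ z (Pi.single k 1)) (fderiv ℂ γ z (Pi.single l 1))) y
      (Pi.single m 1) +
    fderiv ℂ (fun z => om g (γ z) (fderiv ℂ γ z (Pi.single l 1)) (fderiv ℂ γ z (Pi.single m 1))) y
      (Pi.single k 1) +
    fderiv ℂ (fun z => om g (γ z) (fderiv ℂ γ z (Pi.single m 1)) (fderiv ℂ γ z (Pi.single k 1))) y
      (Pi.single l 1) = 0

/-- DEN (~250 lines), USES BAS, OMD, OMA, OMK. The vector density of `ω` on a 3-dimensional cone. PROOF.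
`w_m = om(∂_(m+1) G, ∂_(m+2) G)` (indices mod 3, `ω = ∑ w_m dy_(m+1) ∧ dy_(m+2)`). `sm`: OMA. `div`: OMK with
`(k, l, m) = (0, 1, 2)`. `hom`: for `λ` near `1`, `λ G(y) ∈ M ∩ W`, so `G(λ y) = λ G(y)` (`inv`),
`∂_m G (λ y) = ∂_m G(y)` (differentiate), and `om (λ x) u v = λ⁻² om x u v` (OMD), so
`w(λ y) = λ⁻² w(y)`; differentiate at `λ = 1`. (Or use (3) of BAS.) `tr`: with
`P_ab = (∂_b G (y))_(I' a)` we have `∂_b G(y) = ∑_a P_ab ∂_a G'(y')` (both sides are in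
`T x = range (fderiv G' y')`, compare the coordinates `I'`), and for vectors `u_b = ∑_a P_ab u'_a` (`b < 3`)
and an alternating bilinear form `ω` the identity `ω(u_0,u_1) u_2 + ω(u_1,u_2) u_0 + ω(u_2,u_0) u_1 =
det P (ω(u'_0,u'_1) u'_2 + ..)` (`Fin.sum_univ_three`, `Matrix.det_fin_three`, `ring` on the
coefficients). THE LAST STATEMENT: `G y = ∑ y_m ∂_m G` and `A = ∑ w_m ∂_m G`; if `A = t G y` then `w = t y`
(coordinates `I`), so `om x x (∂_m G) = ∑_l y_l om(∂_l G, ∂_m G) = ± (w × y)_m = 0` for all `m`, hence on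
`T x`. -/
def SpecDEN : Prop := ∀ (N d : ℕ) (g : Biv N) (M : Set (Cn N)) (T : Cn N → Submodule ℂ (Cn N)),
  Cone N 3 M T → (∀ x ∈ M, (mat g.f x).rank = d ∧ (∀ i j k, eval x (jac g.f i j k) = 0) ∧
    T x ≤ Tg g x) →
  ∃ D : Dens N 3 M T, ∀ (c : Cht N 3 M T), ∀ y ∈ c.B, (∃ t : ℂ, D.A c y = t • c.G y) →
    ∀ v ∈ T (c.G y), om g (c.G y) (c.G y) v = 0

/-! ## Group D: Stokes -/

/-- DBR (~150 lines). Integration by parts. PROOF. `ψ_m = a \bar b_m φ`, extended by zero outside of `B`, is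
`C¹` (real) with compact support (on `B` it is a product of `C¹` functions, outside of `tsupport φ` it is
zero; the two open sets cover). `∫ fderiv ℝ ψ y v = 0` for `C¹` functions with compact support
(`integral_fderiv_eq_zero`-type lemma: e.g. `integral_mul_fderiv_eq_neg_fderiv_mul_of_integrable` with the
constant `1` on the support, or a `HasLineDerivAt` version in `Mathlib.Analysis.Calculus.LineDeriv.
IntegrationByParts`). So `∫ Dbar ψ_m y e_m = 0`; sum over `m`. On `B`: `Dbar` is a derivation in the function,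
`Dbar a = 0` (`a` holomorphic: `fderiv ℝ a (i v) = i fderiv ℝ a v`), `Dbar \bar b_m y e_m = conj (∂_m b_m)`,
so `∑_m Dbar ψ_m y e_m = a ∑_m \bar b_m Dbar φ y e_m + a φ conj (div b) = a Dbar φ y (b y)` (`Dbar` is
conjugate linear in the vector). -/
def SpecDBR : Prop := ∀ (k : ℕ) (B : Set (Cn k)) (a : Cn k → ℂ) (b : Cn k → Cn k) (φ : Cn k → ℂ),
  IsOpen B → ContDiffOn ℂ 1 a B → ContDiffOn ℂ 1 b B →
  (∀ y ∈ B, ∑ m, fderiv ℂ b y (Pi.single m 1) m = 0) →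
  ContDiff ℝ 1 φ → HasCompactSupport φ → tsupport φ ⊆ B →
  ∫ y, a y * Dbar φ y (b y) = 0

/-- CHS (~250 lines), USES BAS, DBR. Stokes in a chart. PROOF. Write `x = G y`, `A = D.A c y`. Put
`b^(j)_m (y) = A_j y_m - G_j w_m` (`w = D.w c`), `a = A_i G_j`. `b^(j)` has no divergence: by BAS
`∑ y_m ∂_m G_j = G_j`, `∑_m ∂_m w_m = 0`, `∑_m y_m ∂_m A_j = - (k-1) A_j` (`A_j = ∑ w_m ∂_m G_j`; `hom` and (3)
of BAS), so `div b^(j) = -(k-1) A_j + k A_j - A_j - 0 = 0`; `A`, `b^(j)` are `C¹` on `B`. `φ` = `Φ ∘ G` on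
`B`, `0` outside: `C¹` with compact support in `B` (`{y ∈ B | G y ∈ K}` is the image of `K` under
`z ↦ z ∘ I`, compact, closed). DBR: `∫ A_i G_j Dbar φ y (b^(j) y) = 0`. Chain rule:
`Dbar φ y v = Dbar Φ (G y) (fderiv ℂ G y v)`. `fderiv G y (b^(j)) = A_j x - x_j A`, and
`∑_j x_j Dbar Φ x (A_j x - x_j A) = Dbar Φ x (∑_j \bar x_j (A_j x - x_j A)) = Dbar Φ x (bet x A)`. Sum the
integrals over `j` (each integrand is continuous with compact support, hence integrable) and restrict the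
integral to `B` (`setIntegral_eq_integral_of_forall_compl_eq_zero`: outside of `B` the integrand is `0`). -/
def SpecCHS : Prop := ∀ (N k : ℕ) (M : Set (Cn N)) (T : Cn N → Submodule ℂ (Cn N)),
  Cone N k M T → ∀ (D : Dens N k M T) (c : Cht N k M T) (Φ : Cn N → ℂ) (K : Set (Cn N))
  (i : Fin N), ContDiff ℝ 1 Φ → IsCompact K → K ⊆ M → K ⊆ c.W → (∀ x ∈ M, x ∈ c.W → x ∈ tsupport Φ → x ∈ K) →
  IntegrableOn (fun y => D.A c y i * Dbar Φ (c.G y) (bet (c.G y) (D.A c y))) c.B ∧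
  ∫ y in c.B, D.A c y i * Dbar Φ (c.G y) (bet (c.G y) (D.A c y)) = 0

/-- CHV (~250 lines), USES BAS. Change of charts. PROOF. `B₀ = {y ∈ B | G y ∈ W'}`,
`B₀' = {y' ∈ B' | G' y' ∈ W}` are open, `τ(y) = G(y) ∘ I'` maps `B₀` bijectively onto `B₀'` (inverse
`G'(y') ∘ I`; `G' (τ y) = G y` by `inv`), with complex derivative `P(y)`, the matrix of `tr`. Both integrands
vanish outside of `B₀`, `B₀'` (hypothesis on `ρ`). `integral_image_eq_integral_abs_det_fderiv_smul` for `τ` on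
`B₀` (real derivative = restriction of scalars; the real determinant is `|det P|²`:
`LinearMap.det_restrictScalars`, `Algebra.norm_complex_eq`): `∫_(B₀') F' = ∫_(B₀) |det P|² F'(τ y)`, and
`ρ H (x, A^c) = ρ H(x, det P · A^c') = |det P|² ρ H(x, A^c')` by `tr` and the hypothesis on `H`. -/
def SpecCHV : Prop := ∀ (N k : ℕ) (M : Set (Cn N)) (T : Cn N → Submodule ℂ (Cn N)),
  Cone N k M T → ∀ (D : Dens N k M T) (c c' : Cht N k M T) (ρ : Cn N → ℂ) (H : Cn N → Cn N → ℂ),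
  (∀ x ∈ M, ρ x ≠ 0 → x ∈ c.W ∧ x ∈ c'.W) →
  (∀ (x A : Cn N) (t : ℂ), H x (t • A) = ((‖t‖ ^ 2 : ℝ) : ℂ) * H x A) →
  ∫ y in c.B, ρ (c.G y) * H (c.G y) (D.A c y) =
    ∫ y in c'.B, ρ (c'.G y) * H (c'.G y) (D.A c' y)

/-- ALG (~120 lines). The pointwise formula. PROOF. `Φ_i (x) = χ(x) f(|x|²) \bar x_i`. `Dbar` is a derivation;
`Dbar (|x|²) (β) = ∑ x_i \bar β_i = conj (her β x)`, and `her (bet x A) x = <A,x><x,x> - |x|² <A,x> = 0`;
`Dbar (\bar x_i) (β) = \bar β_i`. So `∑_i A_i Dbar Φ_i (β) = f <A,x> Dbar χ (β) + χ f ∑ A_i \bar β_i`, and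
`∑ A_i \bar β_i = |<A,x>|² - |x|² |A|²` (`her x x`, `her A A` are real). (2) Cauchy-Schwarz with the case of
equality; e.g. `|x|² (|x|² |A|² - |<A,x>|²) = |bet x A|²` and `bet x A = 0` gives `A = (<A,x>/|x|²) x`. -/
def SpecALG : Prop :=
  (∀ (N : ℕ) (χ : Cn N → ℂ) (f : ℝ → ℝ) (x A : Cn N), ContDiff ℝ 1 χ → ContDiff ℝ 1 f →
    ∑ i, A i * Dbar (fun z => χ z * ((f (∑ j, ‖z j‖ ^ 2) : ℝ) : ℂ) * (starRingEnd ℂ) (z i)) x
        (bet x A) =
      ((f (∑ j, ‖x j‖ ^ 2) : ℝ) : ℂ) * (her A x * Dbar χ x (bet x A)) +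
      χ x * ((f (∑ j, ‖x j‖ ^ 2) : ℝ) : ℂ) *
        ((‖her A x‖ ^ 2 - (∑ j, ‖x j‖ ^ 2) * ∑ j, ‖A j‖ ^ 2 : ℝ) : ℂ)) ∧
  (∀ (N : ℕ) (x A : Cn N), ‖her A x‖ ^ 2 ≤ (∑ j, ‖x j‖ ^ 2) * ∑ j, ‖A j‖ ^ 2 ∧
    (x ≠ 0 → ‖her A x‖ ^ 2 = (∑ j, ‖x j‖ ^ 2) * ∑ j, ‖A j‖ ^ 2 → ∃ t : ℂ, A = t • x))

/-- POU (~120 lines). Finitely many charts and a smooth partition of unity. PROOF.
`K = {x ∈ M | s ≤ |x|² ≤ 4 s} = (M ∪ {0}) ∩ {..}` is closed and bounded, compact; finitely many `c.W` cover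
it (if `K` is empty and there is no chart, take `n = 0`); `SmoothPartitionOfUnity.exists_isSubordinate`
(on the real vector space `ℂ^N` as a manifold, for the closed set `K` and the open sets `c_l.W`), or smooth
bump functions by hand. -/
def SpecPOU : Prop := ∀ (N k : ℕ) (M : Set (Cn N)) (T : Cn N → Submodule ℂ (Cn N)),
  Cone N k M T → IsClosed (insert 0 M) → ∀ s : ℝ, 0 < s →
  ∃ (n : ℕ) (c : Fin n → Cht N k M T) (χ : Fin n → Cn N → ℝ),
    (∀ l, ContDiff ℝ 1 (χ l)) ∧ (∀ l x, 0 ≤ χ l x) ∧ (∀ l, tsupport (χ l) ⊆ (c l).W) ∧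
    ∀ x ∈ M, s ≤ ∑ j, ‖x j‖ ^ 2 → ∑ j, ‖x j‖ ^ 2 ≤ 4 * s → ∑ l, χ l x = 1

/-- UCL (~150 lines), USES BAS, CHV. The error terms of the partition of unity cancel. PROOF. Write
`x = (c l).G y`, `A = D.A (c l) y`, `U_l = <A,x> Dbar χ_l x (bet x A)` with `<A,x> = her A x`. If `f(|x|²) ≠ 0`
then `∑_m χ_m(x) = 1`, so the sum is `∑_(l,m) ∫_(B_l) χ_m f U_l` (the integrands are continuous with compact
support in `B_l`: `{y ∈ B_l | G y ∈ tsupport χ_l, s ≤ |G y|² ≤ 4 s}` is the image of a compact set under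
`z ↦ z ∘ I`, as `insert 0 M` is closed). CHV with `ρ(x) = χ_m(x) f(|x|²)` times the indicator function of
`tsupport χ_l`, `H x A = her A x * Dbar χ_l x (bet x A)` (`H x (t A) = |t|² H x A`: `her` is linear, `bet x` linear in
`A`, `Dbar` conjugate linear) moves the term to the chart `m`: `∫_(B_m) χ_m f her A x Dbar χ_l x (bet x A)`
(`Dbar χ_l x = 0` outside of `tsupport χ_l`). The sum over `l` is `∫_(B_m) χ_m f her A x Dbar (∑_l χ_l) x (bet x A)`,
and this integrand is `0`: if `f(|x|²) ≠ 0` then `|x|²` is in the open interval `(s, 4 s)`, `∑_l χ_l = 1` on `M` near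
`x`, so `Dbar (∑ χ_l) x v = 0` for `v = dG η ∈ T x` (chain rule `Dbar (χ ∘ G) y η = Dbar χ (G y) (dG η)`), and
`bet x A ∈ T x` because `x, A ∈ T x`. -/
def SpecUCL : Prop := ∀ (N k : ℕ) (M : Set (Cn N)) (T : Cn N → Submodule ℂ (Cn N)),
  Cone N k M T → IsClosed (insert 0 M) → ∀ (D : Dens N k M T) (s : ℝ) (f : ℝ → ℝ) (n : ℕ)
  (c : Fin n → Cht N k M T) (χ : Fin n → Cn N → ℝ), 0 < s → ContDiff ℝ 1 f →
  (∀ t, f t ≠ 0 → s < t ∧ t < 4 * s) →
  (∀ l, ContDiff ℝ 1 (χ l)) → (∀ l, tsupport (χ l) ⊆ (c l).W) →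
  (∀ x ∈ M, s ≤ ∑ j, ‖x j‖ ^ 2 → ∑ j, ‖x j‖ ^ 2 ≤ 4 * s → ∑ l, χ l x = 1) →
  ∑ l, ∫ y in (c l).B, ((f (∑ j, ‖(c l).G y j‖ ^ 2) : ℝ) : ℂ) *
    (her (D.A (c l) y) ((c l).G y) *
      Dbar (fun x => ((χ l x : ℝ) : ℂ)) ((c l).G y) (bet ((c l).G y) (D.A (c l) y))) = 0

/-- HLM (~250 lines), USES BAS, CHS, ALG, POU, UCL. Hard Lefschetz. PROOF. Let `x₁ = c.G y`, `|x₁|² = 2 s`.
`f : ℝ → ℝ` `C¹` (even `C^∞`), `f ≥ 0`, `f(2 s) > 0`, `f = 0` outside of `[3s/2, 3s]` (e.g. `ContDiffBump`). With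
`c_l, χ_l` of POU, `K_l = tsupport χ_l ∩ M ∩ {s ≤ |x|² ≤ 4 s}` (compact) and `Φ_i = χ_l f(|x|²) \bar x_i` CHS gives
`∫_(B_l) A_i Dbar Φ_i (G y) (bet) = 0`; sum over `i` and ALG: `∫_(B_l) f U_l + ∫_(B_l) χ_l f T⁰ = 0` with
`U_l` as in UCL, `T⁰ = |<A,x>|² - |x|² |A|² ≤ 0` (both integrands are continuous with compact support in
`B_l`). Sum over `l`: UCL gives `∑_l ∫_(B_l) χ_l f T⁰ = 0`, all terms are `≤ 0`, so each of them is `0`, and the
integrand, which is continuous on the open set `B_l` and `≤ 0`, is `0` everywhere. As `∑ χ_l(x₁) = 1` there is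
`l` with `χ_l(x₁) > 0`, so `x₁ ∈ c_l.W`, `x₁ = c_l.G y_l`, `T⁰(x₁, A) = 0`, by ALG `D.A c_l y_l = t x₁`, and
`D.A c y = det P • D.A c_l y_l` by `tr`. -/
def SpecHLM : Prop := ∀ (N k : ℕ) (M : Set (Cn N)) (T : Cn N → Submodule ℂ (Cn N)),
  Cone N k M T → IsClosed (insert 0 M) → ∀ (D : Dens N k M T) (c : Cht N k M T), ∀ y ∈ c.B,
  ∃ t : ℂ, D.A c y = t • c.G y

/-! ## Group E: the theorem -/

/-- HLS (~200 lines), USES LGR, ITR, OMD, OMA, DEN, HLM. PROOF. `M = Mp p g d`, `T = Tg g`, `al x v = om g x x v`.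
`M` is not empty: a `d`-minor `∉ p`, `p` prime, is nonzero at some point of `V(p)` (Nullstellensatz
`MvPolynomial.IsPrime.vanishingIdeal_zeroLocus`), where the rank is `≥ d`, and `≤ d` by `specDIM`, `specRKM`.
LGR: `Cone N d M T`. `al x (t • x) = 0` by skewness (OMD), not identically zero (OMD (5), `x ∈ T x`). ITR with
`j = d - 3`, `J = p ⊔ mI d g` (homogeneous: `specMST`, `CUTM.hom_span`) gives `L`. `M₃ = M ∩ L`: `M₃ ∪ {0} = V(p) ∩ L`
is closed: `x ∈ V(p) ∩ L`, `x ≠ 0` has rank `≤ d`, and if it were `< d` all `d`-minors would vanish at `x`,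
`x ∈ V(J) ∩ L`, `x = 0`. DEN and HLM: `om x x v = 0` for `x ∈ M₃`, `v ∈ T x ⊓ L` (every `x ∈ M₃` is `c.G y` in a
chart), against ITR. -/
def SpecHLS : Prop := ∀ (N d : ℕ) (g : Biv N) (p : Ideal (MvPolynomial (Fin N) ℂ)), p.IsPrime →
  Hom p → Stab g.f p → (∀ i j k, jac g.f i j k ∈ p) → 3 ≤ d →
  Algebra.trdeg ℂ (MvPolynomial (Fin N) ℂ ⧸ p) = ((d : ℕ) : Cardinal) →
  (∃ I J : Fin d → Fin N, mnr g.f I J ∉ p) → Dle (p ⊔ mI d g) (d - 3) → Hom (p ⊔ mI d g) → False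

/-- RKU (~100 lines). COPY of `B5/RKT.lean` (the hypothesis `IsLift` is used there only for `g = f + E ∧ v`,
here `f = g`, `v = 0`). -/
def SpecRKU : Prop := ∀ (N s : ℕ) (g : Biv N) (x : Cn N), Even s → x ≠ 0 →
  (∀ I J : Fin (s + 3) → Fin N, eval x (mnr g.f I J) = 0) →
  (∀ (I : Fin (s + 3) → Fin N) (J : Fin (s + 2) → Fin N), eval x (xmnr g.f I J) = 0) →
  rk g.f x ≤ s

/-- BGI (~60 lines). COPY of `B5/BIG.lean` (points `x ∈ V(q)` are in `V(I)` as `I ≤ q`). -/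
def SpecBGI : Prop := ∀ (N s : ℕ) (f : Fin N → Fin N → MvPolynomial (Fin N) ℂ)
  (I q : Ideal (MvPolynomial (Fin N) ℂ)), q.IsPrime → Hom q → I ≤ q →
  (∀ x : Cn N, x ≠ 0 → x ∈ Zer q → rk f x ≤ s) →
  ((s + 2 : ℕ) : Cardinal) ≤ Algebra.trdeg ℂ (MvPolynomial (Fin N) ℂ ⧸ q) → BigI I f s

/-- MSI (~250 lines). COPY of `B5/MST.lean` modulo `I`: `I` plus the ideal of the `k`-minors is stable and
homogeneous (there `jac = 0` is used to write `X_a (g_ij)`; here this holds modulo `I`; work with the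
images in `S / I` or carry the error terms in `I`). -/
def SpecMSI : Prop := ∀ (N k : ℕ) (g : Biv N) (I : Ideal (MvPolynomial (Fin N) ℂ)), Hom I →
  Stab g.f I → (∀ i j l, jac g.f i j l ∈ I) → Stab g.f (I ⊔ mI k g) ∧ Hom (I ⊔ mI k g)

/-- CRI (~30 lines), USES RKU, BGI. COPY of `B5/CRIT.lean` (`specBST` with `ρ = s + 2`, `e = 2`; take the
theorem BST from `B5/All.lean`). -/
def SpecCRI : Prop := ∀ (N s : ℕ) (g : Biv N) (I p : Ideal (MvPolynomial (Fin N) ℂ)), Even s →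
  I ≤ p → p.IsPrime → Hom p → Stab g.f p →
  (∀ I J : Fin (s + 3) → Fin N, mnr g.f I J ∈ p) →
  ((s + 2 : ℕ) : Cardinal) ≤ Algebra.trdeg ℂ (MvPolynomial (Fin N) ℂ ⧸ p) → BigI I g.f s

/-- THI (~200 lines), USES HLS, MSI, CRI. THEOREM PS. PROOF. As `B5/THB.lean`. (1) Rank `s + 2` at
`x ∈ V(I)`: a minimal prime `p` of `I ⊔ mI (s+3) g` below `ker (eval x)` is stable (MSI, `specDMIN`),
homogeneous (`specHMIN`), has an `(s+2)`-minor outside, so `D(p) ≥ s + 2` (`specDIM`): CRI. (2) `p` as in the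
hypothesis. If all `(s+3)`-minors are in `p`: CRI. Otherwise the rank at the generic point is `≥ s + 3`,
even (`specSKE`), so `≥ s + 4` and some `(s+4)`-minor is not in `p`; by `specDIM` `D(p) = s + 4 =: d`.
`J = p ⊔ mI d g` is homogeneous and stable (MSI for `I := p`). By HLS not `Dle J (s + 1)`: there is a prime over
`J` with `D ≥ s + 2`, so a minimal prime `q` of `J` with `D(q) ≥ s + 2` (`D` is monotone), stable, homogeneous;
all `(s+4)`-minors are in `q`, so the rank at the generic point of `q` is `≤ s + 3`, hence `≤ s + 2`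
(`specSKE`), so all `(s+3)`-minors are in `q`: CRI. -/
def SpecTHI : Prop := ∀ (N s : ℕ) (I : Ideal (MvPolynomial (Fin N) ℂ)) (g : Biv N), Even s →
  Hom I → Stab g.f I → (∀ i j k, jac g.f i j k ∈ I) →
  ((∃ x ∈ Zer I, (mat g.f x).rank = s + 2) ∨
    (∃ p : Ideal (MvPolynomial (Fin N) ℂ), p.IsPrime ∧ Hom p ∧ I ≤ p ∧ Stab g.f p ∧
      ((s + 2 : ℕ) : Cardinal) ≤ Algebra.trdeg ℂ (MvPolynomial (Fin N) ℂ ⧸ p) ∧
      Algebra.trdeg ℂ (MvPolynomial (Fin N) ℂ ⧸ p) ≤ ((s + 4 : ℕ) : Cardinal))) → BigI I g.f s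

/-! ### Components of degeneracy loci are Poisson subvarieties -/

/-- XST (~300 lines). The ideal of `{rank ≤ s}` is stable. PROOF. As MSI / `B5/MST.lean`, with the matrix
`[x | g]`. Fix `j` and let `D z = ∑_i g_ij ∂_i z` (so `D = - X_j`). Put `M_ab = ∂_b g_aj`. Jacobi modulo `I`:
`D g_ab = ∑_l (M_al g_lb + M_bl g_al)` modulo `I` (`jac g.f a b j`). `D x_a = g_aj = (M x)_a - g_aj` as
`∑_b x_b ∂_b g_aj = 2 g_aj` (Euler). So `D [x | g] = M [x | g] + [- g_(·j) | g Mᵀ]` modulo `I`. The derivative of a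
minor of `[x | g]` is therefore: (row operations `M`) a combination of minors of `[x | g]` with the same
columns, (column operations) combinations of minors with one column of `g` replaced by another one, and
the minor with the column `x` replaced by `- g_(·j)`, a `(k+1)`-minor of `g`. Homogeneity: `CUTM.hom_span`,
the minors are homogeneous (`BSTM.xmnr_hom`, `CUTM.det_hom`). -/
def SpecXST : Prop := ∀ (N k : ℕ) (g : Biv N) (I : Ideal (MvPolynomial (Fin N) ℂ)), Hom I →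
  Stab g.f I → (∀ i j l, jac g.f i j l ∈ I) →
  Stab g.f (I ⊔ mI (k + 1) g ⊔ Ideal.span {z | ∃ (A : Fin (k + 1) → Fin N) (J : Fin k → Fin N),
    z = xmnr g.f A J}) ∧
  Hom (I ⊔ mI (k + 1) g ⊔ Ideal.span {z | ∃ (A : Fin (k + 1) → Fin N) (J : Fin k → Fin N),
    z = xmnr g.f A J})

/-- RKC (~150 lines). Converse of RKU. PROOF. `A = g(x)`, `ρ` its rank (even, `specSKE`). If `x = A η`:
`ker A ⊆ {ξ · x = 0}` (`ξ · A η = - (A ξ) · η`), so `A` maps `{ξ · x = 0}` onto a space of dimension `ρ - 1`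
containing `x` (`η · A η = 0`), and `rk = ρ - 2`; so `ρ ≤ s + 2` and `[x | A]` has the same rank `≤ s + 2`. If
`x` is not in the range: `ker A` is not contained in `{ξ · x = 0}` (otherwise `x ∈ (ker A)^⊥ = range A`, by
skewness), so `A` maps `{ξ · x = 0}` onto the range of `A`, which does not contain `x`, and `rk = ρ ≤ s`;
the rank of `[x | A]` is `≤ s + 1`. The minors vanish by `specRKM`. -/
def SpecRKC : Prop := ∀ (N s : ℕ) (g : Biv N) (x : Cn N), Even s → x ≠ 0 → rk g.f x ≤ s →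
  (∀ I J : Fin (s + 3) → Fin N, eval x (mnr g.f I J) = 0) ∧
  ∀ (I : Fin (s + 3) → Fin N) (J : Fin (s + 2) → Fin N), eval x (xmnr g.f I J) = 0

/-- CMP (~150 lines), USES XST, RKU, RKC. The components of `X_{≤ s}` are Poisson subvarieties. PROOF.
`K` = the ideal of XST with `k = s + 2`. By RKU, RKC `{x ∈ V(K), x ≠ 0} = {x ∈ V(I), x ≠ 0, rk ≤ s}`, so
`K ≤ vanI`. Let `P` be a minimal prime of `vanI`, `q ≤ P` a minimal prime of `K`. For `h ∈ vanI` and all `i`,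
`X_i h` vanishes on `V(K)`, so it is in the radical of `K`, in `q`. If some `X_i ∉ q` then `vanI ≤ q`, so `P = q`
by minimality. If all `X_i ∈ q` then `q` is maximal and `P = q`. So `P` is a minimal prime of `K`: `specDMIN`,
`specHMIN`, `I ≤ K ≤ P`. -/
def SpecCMP : Prop := ∀ (N s : ℕ) (g : Biv N) (I : Ideal (MvPolynomial (Fin N) ℂ)), Even s → Hom I →
  Stab g.f I → (∀ i j l, jac g.f i j l ∈ I) → ∀ P ∈ (vanI I g.f s).minimalPrimes,
    P.IsPrime ∧ Hom P ∧ I ≤ P ∧ Stab g.f P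

/-- THJ (~30 lines), USES THI, CMP. If `X_{≤ s+2}` has a component of dimension `s + 1`, `s + 2` or `s + 3`
then `X_{≤ s}` has a component of dimension `≥ s + 1`. -/
def SpecTHJ : Prop := ∀ (N s : ℕ) (I : Ideal (MvPolynomial (Fin N) ℂ)) (g : Biv N), Even s →
  Hom I → Stab g.f I → (∀ i j k, jac g.f i j k ∈ I) →
  (∃ P ∈ (vanI I g.f (s + 2)).minimalPrimes,
      ((s + 2 : ℕ) : Cardinal) ≤ Algebra.trdeg ℂ (MvPolynomial (Fin N) ℂ ⧸ P) ∧
      Algebra.trdeg ℂ (MvPolynomial (Fin N) ℂ ⧸ P) ≤ ((s + 4 : ℕ) : Cardinal)) → BigI I g.f s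

end Pool.Agent.Lib.MPc9b009.PS
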