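import Pool.Agent.Lib.MP_c9b009_ag.PS.Spec

/-!
# MP_c9b009_ag, row PS, module TAN: gradients cut out the tangent space at the points of rank `d`
-/

set_option autoImplicit false

namespace Pool.Agent.Lib.MPc9b009.PS

open MvPolynomial Pool.Agent.Lib.MPc9b009.B5 Pool.Agent.Lib.MPc9b009.OD

namespace TANM

/-- the second statement -/
theorem tan2 {N : ℕ} {g : Biv N} {p : Ideal (MvPolynomial (Fin N) ℂ)} (hs : Stab g.f p)
    {x : Cn N} (hx : x ∈ Zer p) {v : Cn N} (hv : v ∈ Tg g x) {F : MvPolynomial (Fin N) ℂ}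
    (hF : F ∈ p) : ∑ j, eval x (pderiv j F) * v j = 0 := by
  obtain ⟨ξ, rfl⟩ := hv
  have h1 : ∀ j, ∑ i, eval x (pderiv i F) * eval x (g.f i j) = 0 := by
    intro j
    have := hx _ (hs F hF j)
    rw [map_sum] at this
    rw [← this]
    refine Finset.sum_congr rfl fun i _ => ?_
    rw [map_mul, mul_comm]
  have h2 : ∀ i, (mat g.f x).mulVecLin ξ i = ∑ j, eval x (g.f i j) * ξ j := by
    intro i
    rw [Matrix.mulVecLin_apply, Matrix.mulVec, dotProduct]
    rfl
  calc ∑ i, eval x (pderiv i F) * (mat g.f x).mulVecLin ξ i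
      = ∑ i, ∑ j, eval x (pderiv i F) * (eval x (g.f i j) * ξ j) := by
        refine Finset.sum_congr rfl fun i _ => ?_
        rw [h2, Finset.mul_sum]
    _ = ∑ j, ∑ i, eval x (pderiv i F) * (eval x (g.f i j) * ξ j) := Finset.sum_comm
    _ = ∑ j, (∑ i, eval x (pderiv i F) * eval x (g.f i j)) * ξ j := by
        refine Finset.sum_congr rfl fun j _ => ?_
        rw [Finset.sum_mul]
        exact Finset.sum_congr rfl fun i _ => by ring
    _ = 0 := by
        refine Finset.sum_eq_zero fun j _ => ?_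
        rw [h1, zero_mul]

/-- at a point of rank `d` a Jacobian minor is not zero -/
theorem nz (hJ : SpecJRK) (hT : SpecJST) {N d : ℕ} {g : Biv N}
    {p : Ideal (MvPolynomial (Fin N) ℂ)} (hp : p.IsPrime)
    (hh : Hom p) (hs : Stab g.f p)
    (ht : Algebra.trdeg ℂ (MvPolynomial (Fin N) ℂ ⧸ p) = ((d : ℕ) : Cardinal)) {x : Cn N}
    (hx : x ∈ Mp p g d) :
    ∃ (F : Fin (N - d) → MvPolynomial (Fin N) ℂ) (J : Fin (N - d) → Fin N), (∀ a, F a ∈ p) ∧
      (Matrix.of fun a b => eval x (pderiv (J b) (F a))).det ≠ 0 := by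
  by_contra hcon
  push Not at hcon
  set 𝒥 : Ideal (MvPolynomial (Fin N) ℂ) := p ⊔ Ideal.span
    {z | ∃ (F : Fin (N - d) → MvPolynomial (Fin N) ℂ) (J : Fin (N - d) → Fin N),
    (∀ a, F a ∈ p) ∧ z = (Matrix.of fun a b => pderiv (J b) (F a)).det} with h𝒥
  have hle : 𝒥 ≤ RingHom.ker (eval x) := by
    refine sup_le (fun h hh => ?_) (Ideal.span_le.mpr ?_)
    · exact hx.1 h hh
    · rintro z ⟨F, J, hF, rfl⟩
      have h1 := hcon F J hF
      show eval x _ = 0
      rw [RingHom.map_det, ← h1]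
      congr 1
  have hpr : (RingHom.ker (eval x)).IsPrime := RingHom.ker_isPrime _
  obtain ⟨q, hq, hqx⟩ := Ideal.exists_minimalPrimes_le hle
  have hqp : q.IsPrime := hq.1.1
  have hqs : Stab g.f q := specDMIN N N g.f 𝒥 (hT N (N - d) g p hs) q hq
  have hlt : p < q := by
    refine lt_of_le_of_ne (le_sup_left.trans hq.1.2) ?_
    rintro rfl
    obtain ⟨F, J, hF, hD⟩ := hJ N d p hp hh ht
    exact hD (hq.1.2 (Ideal.mem_sup_right (Ideal.subset_span ⟨F, J, hF, rfl⟩)))
  have hm := specMONO N p q hp hqp hlt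
  rw [ht] at hm
  have hall : ∀ (I J : Fin d → Fin N), mnr g.f I J ∈ q := by
    intro I J
    by_contra hn
    have h2 := specDIM N N d g.f q hqp hqs ⟨I, J, hn⟩
    have h3 : ((d : ℕ) : Cardinal) + 1 ≤ ((d : ℕ) : Cardinal) := (add_le_add_left h2 1).trans hm
    have h4 : ((d + 1 : ℕ) : Cardinal) ≤ ((d : ℕ) : Cardinal) := by
      rw [Nat.cast_add, Nat.cast_one]
      exact h3
    have := Nat.cast_le.mp h4
    omega
  rcases d with _ | k
  · have := hall Fin.elim0 Fin.elim0
    have h1 : mnr g.f (Fin.elim0 : Fin 0 → Fin N) (Fin.elim0 : Fin 0 → Fin N) = 1 := by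
      rw [mnr, Matrix.det_isEmpty]
    rw [h1] at this
    exact hqp.ne_top ((Ideal.eq_top_iff_one q).mpr this)
  · have hr : (mat g.f x).rank ≤ k := by
      refine (specRKM ℂ _ N N k (mat g.f x)).mp fun I J => ?_
      have h1 : eval x (mnr g.f I J) = 0 := hqx (hall I J)
      rw [mnr, RingHom.map_det] at h1
      exact h1
    have := hx.2
    omega

/-- surjectivity from a minor and the dimension of the kernel -/
theorem kerd {N m : ℕ} (L : Fin m → Fin N → ℂ) (J : Fin m → Fin N)
    (hd : (Matrix.of fun a b => L a (J b)).det ≠ 0) :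
    Module.finrank ℂ (LinearMap.ker (Matrix.of L).mulVecLin) + m = N := by
  have hr : (Matrix.of L).rank = m := by
    refine le_antisymm ((Matrix.rank_le_height _).trans (by simp)) ?_
    have h1 : (Matrix.of fun a b => L a (J b)).rank = m := by
      rw [Matrix.rank_of_isUnit _ ((Matrix.isUnit_iff_isUnit_det _).mpr (isUnit_iff_ne_zero.mpr hd))]
      simp
    have h2 : (Matrix.of fun a b => L a (J b)) = (Matrix.of L).submatrix (Equiv.refl _) J := rfl
    rw [h2] at h1
    have h3 := Matrix.rank_submatrix_le (Matrix.of L) (Equiv.refl _) J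
    omega
  have := LinearMap.finrank_range_add_finrank_ker (Matrix.of L).mulVecLin
  rw [Matrix.rank] at hr
  rw [hr] at this
  simp at this
  omega

end TANM

/-- TAN: at a point of rank `d = D(p)` of `V(p)` the gradients of `N - d` elements of `p` cut out the
tangent space `Tg g x`. -/
theorem specTAN (hJ : SpecJRK) (hT : SpecJST) : SpecTAN := by
  intro N d g p hp hh hs ht x hx
  refine ⟨?_, fun v hv F hF => TANM.tan2 hs hx.1 hv hF⟩
  obtain ⟨F, J, hF, hD⟩ := TANM.nz hJ hT hp hh hs ht hx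
  refine ⟨F, hF, ?_⟩
  have hk := TANM.kerd (fun a j => eval x (pderiv j (F a))) J hD
  have hdN : d ≤ N := by
    have := hx.2 ▸ Matrix.rank_le_height (mat g.f x)
    simpa using this
  have hkf : Module.finrank ℂ (LinearMap.ker
      (Matrix.of (fun (a : Fin (N - d)) j => eval x (pderiv j (F a)))).mulVecLin) = d := by omega
  have hle : Tg g x ≤ LinearMap.ker
      (Matrix.of (fun (a : Fin (N - d)) j => eval x (pderiv j (F a)))).mulVecLin := by
    intro v hv
    rw [LinearMap.mem_ker]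
    funext a
    have := TANM.tan2 hs hx.1 hv (hF a)
    rw [Matrix.mulVecLin_apply, Matrix.mulVec, dotProduct]
    exact this
  have hTg : Module.finrank ℂ (Tg g x) = d := hx.2
  have heq := Submodule.eq_of_le_of_finrank_eq hle (by rw [hTg, hkf])
  intro v hv
  rw [heq, LinearMap.mem_ker]
  funext a
  rw [Matrix.mulVecLin_apply, Matrix.mulVec, dotProduct]
  exact hv a

end Pool.Agent.Lib.MPc9b009.PS
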