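import Pool.Agent.Lib.MP_c9b009_ag.PS.Spec

/-!
# MP_c9b009_ag, row PS, module THI: Theorem PS from HLS, MSI, CRI
-/

set_option autoImplicit false

namespace Pool.Agent.Lib.MPc9b009.PS

open MvPolynomial Pool.Agent.Lib.MPc9b009.B5 Pool.Agent.Lib.MPc9b009.OD

namespace THIM

/-- the transcendence degree is monotone -/
theorem tr_mono {N : ℕ} {p q : Ideal (MvPolynomial (Fin N) ℂ)} (hp : p.IsPrime) (hq : q.IsPrime)
    (h : p ≤ q) : Algebra.trdeg ℂ (MvPolynomial (Fin N) ℂ ⧸ q) ≤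
      Algebra.trdeg ℂ (MvPolynomial (Fin N) ℂ ⧸ p) := by
  rcases h.lt_or_eq with h | h
  · exact le_trans le_self_add (specMONO N p q hp hq h)
  · subst h
    exact le_rfl

theorem ev_mnr {N k : ℕ} (f : Fin N → Fin N → MvPolynomial (Fin N) ℂ) (x : Fin N → ℂ)
    (I J : Fin k → Fin N) :
    eval x (mnr f I J) = (Matrix.of fun a b => mat f x (I a) (J b)).det := by
  rw [mnr, RingHom.map_det]
  rfl

/-- the rank at the generic point is even -/
theorem even_mnr {N s : ℕ} (hs : Even s) (g : Biv N) (p : Ideal (MvPolynomial (Fin N) ℂ))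
    (hp : p.IsPrime) (h : ∀ I J : Fin (s + 4) → Fin N, mnr g.f I J ∈ p) :
    ∀ I J : Fin (s + 3) → Fin N, mnr g.f I J ∈ p := by
  intro I J
  have := hp
  let K := FractionRing (MvPolynomial (Fin N) ℂ ⧸ p)
  let φ : MvPolynomial (Fin N) ℂ →+* K :=
    (algebraMap (MvPolynomial (Fin N) ℂ ⧸ p) K).comp (Ideal.Quotient.mk p)
  have hφ : ∀ z, φ z = 0 ↔ z ∈ p := by
    intro z
    rw [← Ideal.Quotient.eq_zero_iff_mem]
    exact (IsFractionRing.injective (MvPolynomial (Fin N) ℂ ⧸ p) K).eq_iff' (map_zero _)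
  have hφm : ∀ (k : ℕ) (I J : Fin k → Fin N), φ (mnr g.f I J) =
      (Matrix.of fun a b => (Matrix.of fun i j => φ (g.f i j)) (I a) (J b)).det := by
    intro k I J
    rw [mnr, RingHom.map_det]
    rfl
  have : Algebra ℂ K := inferInstance
  have hchar : CharZero K := charZero_of_injective_algebraMap (algebraMap ℂ K).injective
  have h3 : (Matrix.of fun i j => φ (g.f i j)).rank ≤ s + 3 := by
    refine (specRKM K inferInstance N N (s + 3) _).1 (fun I J => ?_)
    rw [← hφm, hφ]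
    exact h I J
  have h4 : (Matrix.of fun i j => φ (g.f i j)).rank ≤ s + 2 := by
    obtain ⟨m, hm⟩ := hs
    have h5 := specSKE K inferInstance hchar N (m + 1) (Matrix.of fun i j => φ (g.f i j)) (by
      ext i j
      rw [Matrix.transpose_apply, Matrix.of_apply, Matrix.neg_apply, Matrix.of_apply, g.skew,
        map_neg]) (by omega)
    omega
  refine (hφ _).1 ?_
  rw [hφm]
  exact (specRKM K inferInstance N N (s + 2) _).2 h4 I J

theorem nat_le_of_not_le {c : Cardinal} {n : ℕ} (h : ¬ c ≤ ((n : ℕ) : Cardinal)) :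
    ((n + 1 : ℕ) : Cardinal) ≤ c := by
  have h1 : ((n : ℕ) : Cardinal) < c := not_le.1 h
  have h2 := Order.succ_le_of_lt h1
  rwa [← Cardinal.nat_succ] at h2

end THIM

open THIM

theorem specTHI (hHLS : SpecHLS) (hMSI : SpecMSI) (hCRI : SpecCRI) : SpecTHI := by
  intro N s I g hs hI hst hjac h
  rcases h with ⟨x, hxI, hx⟩ | ⟨p, hp, hhom, hIp, hpst, h1, h2⟩
  · obtain ⟨hJst, hJhom⟩ := hMSI N (s + 3) g I hI hst hjac
    have hJ : I ⊔ mI (s + 3) g ≤ RingHom.ker (eval x) := by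
      refine sup_le (fun h hh => ?_) ?_
      · rw [RingHom.mem_ker]
        exact hxI h hh
      · rw [mI, Ideal.span_le]
        rintro _ ⟨A, B, rfl⟩
        rw [SetLike.mem_coe, RingHom.mem_ker, ev_mnr]
        exact (specRKM ℂ inferInstance N N (s + 2) (mat g.f x)).2 hx.le A B
    have hkp : (RingHom.ker (eval x)).IsPrime := RingHom.ker_isPrime _
    obtain ⟨p, hp, hpx⟩ := Ideal.exists_minimalPrimes_le hJ
    have hmem : ∀ A B : Fin (s + 3) → Fin N, mnr g.f A B ∈ p := fun A B =>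
      hp.1.2 (Ideal.mem_sup_right (Ideal.subset_span ⟨A, B, rfl⟩))
    have hpst : Stab g.f p := specDMIN N N g.f _ hJst p hp
    have hex : ∃ A B : Fin (s + 2) → Fin N, mnr g.f A B ∉ p := by
      by_contra hcon
      push Not at hcon
      have h3 : (mat g.f x).rank ≤ s + 1 := by
        refine (specRKM ℂ inferInstance N N (s + 1) (mat g.f x)).1 (fun A B => ?_)
        have h4 := hpx (hcon A B)
        rw [RingHom.mem_ker, ev_mnr] at h4
        exact h4
      omega
    exact hCRI N s g I p hs (le_sup_left.trans hp.1.2) hp.1.1 (specHMIN N _ hJhom p hp) hpst hmem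
      (specDIM N N (s + 2) g.f p hp.1.1 hpst hex)
  · by_cases hall : ∀ A B : Fin (s + 3) → Fin N, mnr g.f A B ∈ p
    · exact hCRI N s g I p hs hIp hp hhom hpst hall h1
    have hex : ∃ A B : Fin (s + 4) → Fin N, mnr g.f A B ∉ p := by
      by_contra hcon
      push Not at hcon
      exact hall (even_mnr hs g p hp hcon)
    have hd : Algebra.trdeg ℂ (MvPolynomial (Fin N) ℂ ⧸ p) = ((s + 4 : ℕ) : Cardinal) :=
      le_antisymm h2 (specDIM N N (s + 4) g.f p hp hpst hex)
    obtain ⟨hJst, hJhom⟩ := hMSI N (s + 4) g p hhom hpst (fun i j l => hIp (hjac i j l))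
    have hnot : ¬ Dle (p ⊔ mI (s + 4) g) (s + 4 - 3) := fun hD =>
      hHLS N (s + 4) g p hp hhom hpst (fun i j k => hIp (hjac i j k)) (by omega) hd hex hD hJhom
    have h43 : s + 4 - 3 = s + 1 := by omega
    rw [h43, Dle] at hnot
    push Not at hnot
    obtain ⟨q, hq, hJq, hqd⟩ := hnot
    obtain ⟨P, hP, hPq⟩ := Ideal.exists_minimalPrimes_le hJq
    have hPd : ((s + 2 : ℕ) : Cardinal) ≤ Algebra.trdeg ℂ (MvPolynomial (Fin N) ℂ ⧸ P) :=
      (nat_le_of_not_le (not_le.2 hqd)).trans (tr_mono hP.1.1 hq hPq)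
    have hIP : I ≤ P := (hIp.trans le_sup_left).trans hP.1.2
    have hmem : ∀ A B : Fin (s + 4) → Fin N, mnr g.f A B ∈ P := fun A B =>
      hP.1.2 (Ideal.mem_sup_right (Ideal.subset_span ⟨A, B, rfl⟩))
    exact hCRI N s g I P hs hIP hP.1.1 (specHMIN N _ hJhom P hP) (specDMIN N N g.f _ hJst P hP)
      (even_mnr hs g P hP.1.1 hmem) hPd

end Pool.Agent.Lib.MPc9b009.PS
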