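import Pool.Agent.Lib.MP_c9b009_ag.PS.Spec

/-!
# MP_c9b009_ag, row PS, module THJ

If `X_{≤ s+2}` has a component of dimension `s + 1`, `s + 2` or `s + 3`, then `X_{≤ s}` has a component of
dimension `≥ s + 1`.
-/

set_option autoImplicit false

namespace Pool.Agent.Lib.MPc9b009.PS

open MvPolynomial Pool.Agent.Lib.MPc9b009.B5 Pool.Agent.Lib.MPc9b009.OD

theorem specTHJ (hTHI : SpecTHI) (hCMP : SpecCMP) : SpecTHJ := by
  intro N s I g hs hI hst hjac hP
  obtain ⟨P, hP, hlo, hhi⟩ := hP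
  obtain ⟨hpr, hhom, hIP, hstP⟩ :=
    hCMP N (s + 2) g I (hs.add even_two) hI hst hjac P hP
  exact hTHI N s I g hs hI hst hjac (Or.inr ⟨P, hpr, hhom, hIP, hstP, hlo, hhi⟩)

end Pool.Agent.Lib.MPc9b009.PS
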