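import Pool.Agent.Lib.MP_c9b009_ag.PS.HLM
import Pool.Agent.Lib.MP_c9b009_ag.PS.CHS
import Pool.Agent.Lib.MP_c9b009_ag.PS.ALG

/-!
# MP_c9b009_ag, row PS, module UCL: the error terms of the partition of unity cancel
-/

set_option autoImplicit false

namespace Pool.Agent.Lib.MPc9b009.PS

open MeasureTheory

namespace UCLM

variable {N k : ℕ} {M : Set (Cn N)} {T : Cn N → Submodule ℂ (Cn N)}

lemma integrableOn_suppC {B K : Set (Cn k)} (hB : IsOpen B) (hK : IsCompact K) (hKB : K ⊆ B)
    (V : Cn k → ℂ) (hV : ContinuousOn V B) (h0 : ∀ y ∈ B, y ∉ K → V y = 0) :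
    IntegrableOn V B := by
  have h1 : IntegrableOn V K := (hV.mono hKB).integrableOn_compact hK
  have h2 : IntegrableOn V (B \ K) := by
    have h3 : IntegrableOn (fun _ : Cn k => (0 : ℂ)) (B \ K) := integrableOn_zero
    exact h3.congr_fun (fun y hy => (h0 y hy.1 hy.2).symm) (hB.measurableSet.diff hK.measurableSet)
  have h4 : B = K ∪ (B \ K) := (Set.union_sdiff_cancel hKB).symm
  rw [h4]
  exact h1.union h2

/-- the function `H_l` -/
noncomputable def HH (χ : Cn N → ℝ) (x A : Cn N) : ℂ :=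
  her A x * Dbar (fun x => ((χ x : ℝ) : ℂ)) x (bet x A)

lemma bet_smul (t : ℂ) (x A : Cn N) : bet x (t • A) = t • bet x A := by
  unfold bet
  have h : her (t • A) x = t * her A x := by
    unfold her
    rw [Finset.mul_sum]
    refine Finset.sum_congr rfl fun i _ => ?_
    simp only [Pi.smul_apply, smul_eq_mul]
    ring
  rw [h, smul_sub, smul_smul, smul_smul, smul_smul, mul_comm (her x x) t]

lemma HH_smul (χ : Cn N → ℝ) (x A : Cn N) (t : ℂ) :
    HH χ x (t • A) = ((‖t‖ ^ 2 : ℝ) : ℂ) * HH χ x A := by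
  unfold HH
  have h : her (t • A) x = t * her A x := by
    unfold her
    rw [Finset.mul_sum]
    refine Finset.sum_congr rfl fun i _ => ?_
    simp only [Pi.smul_apply, smul_eq_mul]
    ring
  have h2 : ((‖t‖ ^ 2 : ℝ) : ℂ) = t * (starRingEnd ℂ) t := by
    rw [Complex.mul_conj, Complex.normSq_eq_norm_sq]
  rw [h, bet_smul, CHSM.dbar_smul, h2]
  ring

lemma Dbar_off (χ : Cn N → ℝ) (x v : Cn N) (hx : x ∉ tsupport χ) :
    Dbar (fun x => ((χ x : ℝ) : ℂ)) x v = 0 := by
  have h1 : fderiv ℝ (fun x => ((χ x : ℝ) : ℂ)) x = 0 := by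
    have h2 : (fun x => ((χ x : ℝ) : ℂ)) =ᶠ[nhds x] fun _ => 0 := by
      have h3 := notMem_tsupport_iff_eventuallyEq.mp hx
      filter_upwards [h3] with z hz
      rw [hz]
      simp
    rw [h2.fderiv_eq]
    simp
  unfold Dbar
  rw [h1]
  simp

lemma cont_Dbar (χ : Cn N → ℝ) (hχ : ContDiff ℝ 1 χ) :
    Continuous fun z : Cn N × Cn N => Dbar (fun x => ((χ x : ℝ) : ℂ)) z.1 z.2 := by
  have h1 : ContDiff ℝ 1 fun x => ((χ x : ℝ) : ℂ) := Complex.ofRealCLM.contDiff.comp hχ
  have h2 : Continuous (fderiv ℝ fun x => ((χ x : ℝ) : ℂ)) := h1.continuous_fderiv one_ne_zero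
  unfold Dbar
  refine Continuous.div_const (Continuous.add ?_ (continuous_const.mul ?_)) _
  · exact (h2.comp continuous_fst).clm_apply continuous_snd
  · exact (h2.comp continuous_fst).clm_apply
      (Continuous.const_smul (g := fun z : Cn N × Cn N => z.2) continuous_snd Complex.I)

lemma cont_bet : Continuous fun z : Cn N × Cn N => bet z.1 z.2 := by
  unfold bet
  refine Continuous.sub ?_ ?_
  · exact (HLMM.cont_her.comp (continuous_snd.prodMk continuous_fst)).smul continuous_fst
  · exact (HLMM.cont_her.comp (continuous_fst.prodMk continuous_fst)).smul continuous_snd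

lemma cont_HH (χ : Cn N → ℝ) (hχ : ContDiff ℝ 1 χ) :
    Continuous fun z : Cn N × Cn N => HH χ z.1 z.2 := by
  unfold HH
  refine (HLMM.cont_her.comp (continuous_snd.prodMk continuous_fst)).mul ?_
  exact (cont_Dbar χ hχ).comp (continuous_fst.prodMk cont_bet)

/-- the integrand `χ_m f H_l` -/
noncomputable def VV (f : ℝ → ℝ) (χm χl : Cn N → ℝ) (x A : Cn N) : ℂ :=
  ((χm x * f (∑ j, ‖x j‖ ^ 2) : ℝ) : ℂ) * HH χl x A

lemma cont_VV (f : ℝ → ℝ) (χm χl : Cn N → ℝ) (hf : Continuous f) (hm : Continuous χm)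
    (hl : ContDiff ℝ 1 χl) (D : Dens N k M T) (c : Cht N k M T) :
    ContinuousOn (fun y => VV f χm χl (c.G y) (D.A c y)) c.B := by
  have h1 : Continuous fun z : Cn N × Cn N => VV f χm χl z.1 z.2 := by
    unfold VV
    refine Continuous.mul ?_ (cont_HH χl hl)
    exact Complex.continuous_ofReal.comp
      ((hm.comp continuous_fst).mul (hf.comp (HLMM.cont_r.comp continuous_fst)))
  exact h1.comp_continuousOn ((HLMM.contG c).prodMk (HLMM.contA D c))

/-- `VV` is integrable in the chart of the support of one of the two functions -/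
lemma int_VV (f : ℝ → ℝ) (χm χl : Cn N → ℝ) (s : ℝ) (hs : 0 < s) (hcl : IsClosed (insert 0 M))
    (hf : Continuous f) (hfs : ∀ t, f t ≠ 0 → s < t ∧ t < 4 * s) (hm : Continuous χm)
    (hl : ContDiff ℝ 1 χl) (D : Dens N k M T) (c : Cht N k M T) (χ : Cn N → ℝ)
    (hχ : χ = χm ∨ χ = χl) (hW : tsupport χ ⊆ c.W) :
    IntegrableOn (fun y => VV f χm χl (c.G y) (D.A c y)) c.B := by
  have hKM : HLMM.KK M χ s ⊆ M := HLMM.KK_sub χ s hs
  have hKW : HLMM.KK M χ s ⊆ c.W := fun z hz => hW hz.1
  refine integrableOn_suppC c.oB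
    (HLMM.compact_pre c _ (HLMM.KK_compact χ s hs hcl) hKM hKW) (fun y hy => hy.1) _
    (cont_VV f χm χl hf hm hl D c) ?_
  intro y hy hny
  by_contra hne
  apply hny
  have h2 : f (∑ j, ‖(c.G y) j‖ ^ 2) ≠ 0 := by
    intro h
    apply hne
    unfold VV
    rw [h, mul_zero, Complex.ofReal_zero, zero_mul]
  have h1 : c.G y ∈ tsupport χ := by
    by_contra h
    apply hne
    rcases hχ with h3 | h3
    · have h4 : χm (c.G y) = 0 := by
        rw [← h3]
        exact image_eq_zero_of_notMem_tsupport h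
      unfold VV
      rw [h4, zero_mul, Complex.ofReal_zero, zero_mul]
    · rw [h3] at h
      unfold VV HH
      rw [Dbar_off χl _ _ h, mul_zero, mul_zero]
  exact ⟨hy, h1, Or.inr (c.mem y hy).1, (hfs _ h2).1.le, (hfs _ h2).2.le⟩

end UCLM

open UCLM in
theorem specUCL (hBAS : SpecBAS) (hCHV : SpecCHV) : SpecUCL := by
  intro N k M T hC hcl D s f n c χ hs hf hfs hχ hχW hχ1
  classical
  -- step 1
  have h1 : ∀ l, ∫ y in (c l).B, ((f (∑ j, ‖(c l).G y j‖ ^ 2) : ℝ) : ℂ) *
      (her (D.A (c l) y) ((c l).G y) *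
        Dbar (fun x => ((χ l x : ℝ) : ℂ)) ((c l).G y) (bet ((c l).G y) (D.A (c l) y))) =
      ∑ m, ∫ y in (c l).B, VV f (χ m) (χ l) ((c l).G y) (D.A (c l) y) := by
    intro l
    rw [← integral_finsetSum _ fun m _ => int_VV f (χ m) (χ l) s hs hcl hf.continuous hfs
      (hχ m).continuous (hχ l) D (c l) (χ l) (Or.inr rfl) (hχW l)]
    refine setIntegral_congr_fun (c l).oB.measurableSet fun y hy => ?_
    have h2 : ∑ m, VV f (χ m) (χ l) ((c l).G y) (D.A (c l) y) =
        (((∑ m, χ m ((c l).G y)) * f (∑ j, ‖(c l).G y j‖ ^ 2) : ℝ) : ℂ) *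
          HH (χ l) ((c l).G y) (D.A (c l) y) := by
      unfold VV
      push_cast
      rw [Finset.sum_mul, Finset.sum_mul]
    show _ = ∑ m, VV f (χ m) (χ l) ((c l).G y) (D.A (c l) y)
    rw [h2]
    by_cases h3 : f (∑ j, ‖(c l).G y j‖ ^ 2) = 0
    · rw [h3]
      simp
    · rw [hχ1 _ ((c l).mem y hy).1 (hfs _ h3).1.le (hfs _ h3).2.le, one_mul]
      rfl
  -- step 2
  have h2 : ∀ l m, ∫ y in (c l).B, VV f (χ m) (χ l) ((c l).G y) (D.A (c l) y) =
      ∫ y in (c m).B, VV f (χ m) (χ l) ((c m).G y) (D.A (c m) y) := by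
    intro l m
    set ρ : Cn N → ℂ := fun x => if x ∈ tsupport (χ l) then
      ((χ m x * f (∑ j, ‖x j‖ ^ 2) : ℝ) : ℂ) else 0 with hρ
    have h3 : ∀ x A, ρ x * HH (χ l) x A = VV f (χ m) (χ l) x A := by
      intro x A
      by_cases hx : x ∈ tsupport (χ l)
      · rw [hρ]
        simp only [if_pos hx]
        rfl
      · rw [hρ]
        simp only [if_neg hx]
        unfold VV HH
        rw [Dbar_off (χ l) _ _ hx, mul_zero, mul_zero, mul_zero]
    have h4 := hCHV N k M T hC D (c l) (c m) ρ (HH (χ l)) ?_ (fun x A t => HH_smul (χ l) x A t)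
    · simp only [h3] at h4
      exact h4
    · intro x _ hx
      have h5 : x ∈ tsupport (χ l) := by
        by_contra h
        apply hx
        rw [hρ]
        simp only [if_neg h]
      have h6 : χ m x ≠ 0 := by
        intro h
        apply hx
        rw [hρ]
        simp only [if_pos h5]
        rw [h, zero_mul, Complex.ofReal_zero]
      exact ⟨hχW l h5, hχW m (subset_tsupport _ h6)⟩
  -- step 3
  have h3 : ∀ m, ∑ l, ∫ y in (c m).B, VV f (χ m) (χ l) ((c m).G y) (D.A (c m) y) = 0 := by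
    intro m
    rw [← integral_finsetSum _ fun l _ => int_VV f (χ m) (χ l) s hs hcl hf.continuous hfs
      (hχ m).continuous (hχ l) D (c m) (χ m) (Or.inl rfl) (hχW m)]
    have h4 : ∫ y in (c m).B, (∑ l, VV f (χ m) (χ l) ((c m).G y) (D.A (c m) y)) =
        ∫ y in (c m).B, (0 : ℂ) := by
      refine setIntegral_congr_fun (c m).oB.measurableSet fun y hy => ?_
      show ∑ l, VV f (χ m) (χ l) ((c m).G y) (D.A (c m) y) = 0
      set x := (c m).G y with hx
      set A := D.A (c m) y with hA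
      have h5 : ∑ l, VV f (χ m) (χ l) x A = ((χ m x * f (∑ j, ‖x j‖ ^ 2) : ℝ) : ℂ) *
          (her A x * ∑ l, Dbar (fun x => ((χ l x : ℝ) : ℂ)) x (bet x A)) := by
        unfold VV HH
        rw [← Finset.mul_sum, ← Finset.mul_sum]
      rw [h5]
      by_cases h6 : f (∑ j, ‖x j‖ ^ 2) = 0
      · rw [h6, mul_zero, Complex.ofReal_zero, zero_mul]
      · have h7 := hfs _ h6
        -- the vector
        obtain ⟨η, hη⟩ : ∃ η, bet x A = fderiv ℂ (c m).G y η := by
          refine ⟨her A x • y - her x x • D.w (c m) y, ?_⟩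
          rw [map_sub, map_smul, map_smul, (hBAS N k M T hC (c m) y hy).2.1]
          rfl
        have hGd : HasFDerivAt (c m).G (fderiv ℂ (c m).G y) y :=
          (((c m).sm.differentiableOn (by norm_num)).differentiableAt
            ((c m).oB.mem_nhds hy)).hasFDerivAt
        have hGr : HasFDerivAt (c m).G ((fderiv ℂ (c m).G y).restrictScalars ℝ) y :=
          hGd.restrictScalars ℝ
        have hχd : ∀ l, DifferentiableAt ℝ (fun x => ((χ l x : ℝ) : ℂ)) x := fun l =>
          ((Complex.ofRealCLM.contDiff.comp (hχ l)).differentiable one_ne_zero) x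
        have h8 : ∀ v : Cn k, ∑ l, fderiv ℝ (fun x => ((χ l x : ℝ) : ℂ)) x
            (fderiv ℂ (c m).G y v) = 0 := by
          have h9 : HasFDerivAt (fun z => ∑ l, ((χ l ((c m).G z) : ℝ) : ℂ))
              (∑ l, (fderiv ℝ (fun x => ((χ l x : ℝ) : ℂ)) x).comp
                ((fderiv ℂ (c m).G y).restrictScalars ℝ)) y := by
            refine HasFDerivAt.fun_sum fun l _ => ?_
            exact (hχd l).hasFDerivAt.comp y hGr
          have h10 : (fun z => ∑ l, ((χ l ((c m).G z) : ℝ) : ℂ)) =ᶠ[nhds y] fun _ => 1 := by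
            have h11 : ContinuousAt (fun z => ∑ j, ‖(c m).G z j‖ ^ 2) y :=
              HLMM.cont_r.continuousAt.comp hGd.continuousAt
            have h12 := h11.eventually (Ioo_mem_nhds h7.1 h7.2)
            filter_upwards [h12, (c m).oB.mem_nhds hy] with z hz hzB
            have h13 := hχ1 _ ((c m).mem z hzB).1 hz.1.le hz.2.le
            rw [← Complex.ofReal_sum, h13, Complex.ofReal_one]
          have h14 : HasFDerivAt (fun z => ∑ l, ((χ l ((c m).G z) : ℝ) : ℂ))
              (0 : Cn k →L[ℝ] ℂ) y := by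
            have h15 : HasFDerivAt (fun _ : Cn k => (1 : ℂ)) (0 : Cn k →L[ℝ] ℂ) y :=
              hasFDerivAt_const 1 y
            exact h15.congr_of_eventuallyEq h10
          have h16 := h9.unique h14
          intro v
          have h17 := congrArg (fun L : Cn k →L[ℝ] ℂ => L v) h16
          simpa using h17
        have h18 : ∑ l, Dbar (fun x => ((χ l x : ℝ) : ℂ)) x (bet x A) = 0 := by
          rw [hη]
          unfold Dbar
          rw [← Finset.sum_div, Finset.sum_add_distrib, ← Finset.mul_sum]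
          have h19 : Complex.I • fderiv ℂ (c m).G y η = fderiv ℂ (c m).G y (Complex.I • η) := by
            rw [map_smul]
          rw [h19, h8, h8]
          simp
        rw [h18, mul_zero, mul_zero]
    rw [h4]
    simp
  calc _ = ∑ l, ∑ m, ∫ y in (c l).B, VV f (χ m) (χ l) ((c l).G y) (D.A (c l) y) :=
        Finset.sum_congr rfl fun l _ => h1 l
    _ = ∑ l, ∑ m, ∫ y in (c m).B, VV f (χ m) (χ l) ((c m).G y) (D.A (c m) y) :=
        Finset.sum_congr rfl fun l _ => Finset.sum_congr rfl fun m _ => h2 l m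
    _ = ∑ m, ∑ l, ∫ y in (c m).B, VV f (χ m) (χ l) ((c m).G y) (D.A (c m) y) :=
        Finset.sum_comm
    _ = 0 := Finset.sum_eq_zero fun m _ => h3 m

end Pool.Agent.Lib.MPc9b009.PS
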