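import Pool.Agent.Lib.MP_c9b009_ag.PS.Spec

/-!
# MP_c9b009_ag, row PS, module XST

The ideal of `{rank ≤ s}` (modulo `I`), generated by the minors of `g` and of `[x | g]`, is stable and
homogeneous. A derivation `D` which acts on a rectangular matrix `M` as `H M + M G` modulo an ideal `Q`
which contains the minors of `M` maps these minors into `Q` (dual numbers).
-/

set_option autoImplicit false

namespace Pool.Agent.Lib.MPc9b009.PS

open MvPolynomial Pool.Agent.Lib.MPc9b009.B5 Pool.Agent.Lib.MPc9b009.OD MeasureTheory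

namespace XSTM

open MSTM

/-- determinants of congruent matrices are congruent -/
lemma det_congr {k T : Type} [Fintype k] [DecidableEq k] [CommRing T] (J : Ideal T)
    (A B : Matrix k k T) (h : ∀ a b, A a b - B a b ∈ J) : A.det - B.det ∈ J := by
  rw [← Ideal.Quotient.eq, RingHom.map_det, RingHom.map_det]
  congr 1
  ext a b
  exact Ideal.Quotient.eq.2 (h a b)

/-- minors of a product of three rectangular matrices -/
lemma det_mul3 {k n m S : Type} [Fintype k] [DecidableEq k] [Fintype n] [DecidableEq n]
    [Fintype m] [DecidableEq m] [CommRing S]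
    (I : Ideal S) (A : Matrix k n S) (B : Matrix n m S) (C : Matrix m k S)
    (h : ∀ (p : k → n) (q : k → m), (B.submatrix p q).det ∈ I) : (A * B * C).det ∈ I := by
  rw [Matrix.mul_assoc]
  apply det_mul_mem
  intro p
  have h1 : (B * C).submatrix p id = B.submatrix p id * C := by
    ext a b
    simp [Matrix.mul_apply]
  rw [h1, ← Matrix.det_transpose, Matrix.transpose_mul]
  apply det_mul_mem
  intro q
  have h2 : ((B.submatrix p id).transpose).submatrix q id = (B.submatrix p q).transpose := by
    ext a b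
    simp
  rw [h2, Matrix.det_transpose]
  exact h p q

/-- A derivation with `D M = H M + M G` modulo `Q` maps the minors of `M` into `Q`. -/
lemma minor_stable' {R S k n m : Type} [CommRing R] [CommRing S] [Algebra R S] [Fintype k]
    [DecidableEq k] [Fintype n] [DecidableEq n] [Fintype m] [DecidableEq m]
    (D : Derivation R S S) (M : Matrix n m S) (H : Matrix n n S) (G : Matrix m m S) (Q : Ideal S)
    (hD : ∀ a b, D (M a b) - (∑ l, H a l * M l b + ∑ l, M a l * G l b) ∈ Q)
    (hQ : ∀ (p : k → n) (q : k → m), (M.submatrix p q).det ∈ Q) (I : k → n) (J : k → m) :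
    D ((M.submatrix I J).det) ∈ Q := by
  set Y : Matrix n m (DualNumber S) := (1 + H.map (TrivSqZeroExt.inr (R := S) (M := S)))
        * (M.map (TrivSqZeroExt.inlHom S S))
        * (1 + G.map (TrivSqZeroExt.inr (R := S) (M := S))) with hY
  have h2 : ∀ a b, dhom D (M a b) - Y a b ∈ dI Q := by
    intro a b
    have e1 : (Y a b).fst = M a b := by
      rw [hY, Matrix.add_mul, Matrix.mul_add, Matrix.one_mul, Matrix.mul_one, Matrix.add_mul]
      simp only [Matrix.map_apply, Matrix.add_apply, Matrix.mul_apply,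
          TrivSqZeroExt.fst_add, TrivSqZeroExt.fst_sum, TrivSqZeroExt.fst_mul,
          TrivSqZeroExt.fst_inr, TrivSqZeroExt.inlHom_apply, TrivSqZeroExt.fst_inl, zero_mul,
          mul_zero, Finset.sum_const_zero, add_zero]
    have e2 : (Y a b).snd = ∑ l, H a l * M l b + ∑ l, M a l * G l b := by
      rw [hY, Matrix.add_mul, Matrix.mul_add, Matrix.one_mul, Matrix.mul_one, Matrix.add_mul]
      simp only [Matrix.map_apply, Matrix.add_apply, Matrix.mul_apply,
          TrivSqZeroExt.snd_add, TrivSqZeroExt.snd_sum, TrivSqZeroExt.snd_mul,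
          TrivSqZeroExt.fst_sum, TrivSqZeroExt.fst_mul,
          TrivSqZeroExt.fst_inr, TrivSqZeroExt.inlHom_apply, TrivSqZeroExt.fst_inl,
          TrivSqZeroExt.snd_inl, TrivSqZeroExt.snd_inr, smul_eq_mul, zero_mul, mul_zero,
          MulOpposite.smul_eq_mul_unop, MulOpposite.unop_op, Finset.sum_const_zero, add_zero,
          zero_add]
    refine ⟨?_, ?_⟩
    · rw [TrivSqZeroExt.fst_sub, dhom_fst, e1, sub_self]
      exact Q.zero_mem
    · rw [TrivSqZeroExt.snd_sub, dhom_snd, e2]
      exact hD a b
  have h3 : dhom D ((M.submatrix I J).det) - (Y.submatrix I J).det ∈ dI Q := by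
    rw [RingHom.map_det]
    apply det_congr
    intro a b
    exact h2 (I a) (J b)
  have h4 : (Y.submatrix I J).det ∈ dI Q := by
    have h5 : Y.submatrix I J
      = ((1 + H.map (TrivSqZeroExt.inr (R := S) (M := S))).submatrix I id)
        * (M.map (TrivSqZeroExt.inlHom S S))
        * ((1 + G.map (TrivSqZeroExt.inr (R := S) (M := S))).submatrix id J) := by
      rw [hY]
      ext a b
      · simp only [Matrix.submatrix_apply, Matrix.mul_apply, id]
      · simp only [Matrix.submatrix_apply, Matrix.mul_apply, id]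
    rw [h5]
    apply det_mul3
    intro p q
    have h5 : ((M.map (TrivSqZeroExt.inlHom S S)).submatrix p q).det
        = TrivSqZeroExt.inlHom S S ((M.submatrix p q).det) := by
      rw [RingHom.map_det]
      rfl
    rw [h5]
    refine ⟨?_, ?_⟩
    · simp only [TrivSqZeroExt.inlHom_apply, TrivSqZeroExt.fst_inl]
      exact hQ p q
    · simp only [TrivSqZeroExt.inlHom_apply, TrivSqZeroExt.snd_inl]
      exact Q.zero_mem
  have h6 : dhom D ((M.submatrix I J).det) ∈ dI Q := by
    have := (dI Q).add_mem h3 h4
    rwa [sub_add_cancel] at this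
  have h7 := (mem_dI.1 h6).2
  rwa [dhom_snd] at h7

/-- the derivation `∑ g_ij ∂_i` -/
noncomputable def der {N : ℕ} (g : Biv N) (j : Fin N) :
    Derivation ℂ (MvPolynomial (Fin N) ℂ) (MvPolynomial (Fin N) ℂ) :=
  ∑ i, g.f i j • pderiv i

lemma der_apply {N : ℕ} (g : Biv N) (j : Fin N) (x : MvPolynomial (Fin N) ℂ) :
    der g j x = ∑ i, g.f i j * pderiv i x := by
  unfold der
  have h0 : ∀ s : Finset (Fin N), (∑ i ∈ s, g.f i j • pderiv i :
      Derivation ℂ (MvPolynomial (Fin N) ℂ) (MvPolynomial (Fin N) ℂ)) x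
      = ∑ i ∈ s, g.f i j * pderiv i x := by
    classical
    intro s
    induction s using Finset.induction_on with
    | empty => simp
    | insert a s ha ih =>
      rw [Finset.sum_insert ha, Finset.sum_insert ha, Derivation.add_apply, ih,
        Derivation.smul_apply, smul_eq_mul]
  exact h0 Finset.univ

/-- `D g_ab` -/
lemma der_g {N : ℕ} (g : Biv N) (j a b : Fin N) :
    der g j (g.f a b) - (∑ l, pderiv l (g.f a j) * g.f l b + ∑ l, g.f a l * pderiv l (g.f b j))
      = - jac g.f j a b := by
  rw [der_apply]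
  unfold jac
  rw [Finset.sum_add_distrib, Finset.sum_add_distrib]
  have h3 : ∑ l, g.f l j * pderiv l (g.f a b) = - ∑ l, g.f j l * pderiv l (g.f a b) := by
    rw [← Finset.sum_neg_distrib]
    apply Finset.sum_congr rfl
    intro l _
    rw [g.skew j l]
    ring
  have h4 : ∑ l, pderiv l (g.f a j) * g.f l b = ∑ l, g.f b l * pderiv l (g.f j a) := by
    apply Finset.sum_congr rfl
    intro l _
    rw [g.skew b l, g.skew j a, map_neg]
    ring
  rw [h3, h4]
  ring

/-- the matrix `[x | g]` -/
noncomputable def Mx {N : ℕ} (g : Biv N) : Matrix (Fin N) (Option (Fin N)) (MvPolynomial (Fin N) ℂ) :=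
  Matrix.of fun a b => b.elim (X a) (fun b' => g.f a b')

/-- the row operations -/
noncomputable def Hx {N : ℕ} (g : Biv N) (j : Fin N) :
    Matrix (Fin N) (Fin N) (MvPolynomial (Fin N) ℂ) :=
  Matrix.of fun a l => pderiv l (g.f a j)

/-- the column operations -/
noncomputable def Gx {N : ℕ} (g : Biv N) (j : Fin N) :
    Matrix (Option (Fin N)) (Option (Fin N)) (MvPolynomial (Fin N) ℂ) :=
  Matrix.of fun l b => l.elim 0 (fun l' => b.elim (if l' = j then -1 else 0)
    (fun b' => pderiv l' (g.f b' j)))

lemma der_Mx {N : ℕ} (g : Biv N) (I : Ideal (MvPolynomial (Fin N) ℂ))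
    (hjac : ∀ i j l, jac g.f i j l ∈ I) (j : Fin N) (a : Fin N) (b : Option (Fin N)) :
    der g j (Mx g a b) - (∑ l, Hx g j a l * Mx g l b + ∑ l, Mx g a l * Gx g j l b) ∈ I := by
  cases b with
  | none =>
    have h1 : der g j (Mx g a none) = g.f a j := by
      show der g j (X a) = g.f a j
      rw [der_apply, Finset.sum_eq_single a]
      · rw [pderiv_X_self, mul_one]
      · intro i _ hi
        rw [pderiv_X_of_ne (fun h => hi h.symm), mul_zero]
      · intro h
        exact absurd (Finset.mem_univ a) h
    have h2 : ∑ l, Hx g j a l * Mx g l none = 2 • g.f a j := by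
      rw [← (g.quad a j).sum_X_mul_pderiv]
      apply Finset.sum_congr rfl
      intro l _
      show pderiv l (g.f a j) * X l = _
      rw [mul_comm]
    have h3 : ∑ l, Mx g a l * Gx g j l none = - g.f a j := by
      rw [Fintype.sum_option]
      have e0 : Mx g a none * Gx g j none none = 0 := by
        show _ * 0 = _
        rw [mul_zero]
      rw [e0, zero_add, Finset.sum_eq_single j]
      · show g.f a j * (if j = j then -1 else 0) = _
        rw [if_pos rfl]
        ring
      · intro l _ hl
        show g.f a l * (if l = j then -1 else 0) = _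
        rw [if_neg hl, mul_zero]
      · intro h
        exact absurd (Finset.mem_univ j) h
    have h4 : der g j (Mx g a none) - (∑ l, Hx g j a l * Mx g l none
        + ∑ l, Mx g a l * Gx g j l none) = 0 := by
      rw [h1, h2, h3]
      simp only [two_smul]
      ring
    rw [h4]
    exact I.zero_mem
  | some b =>
    have h3 : ∑ l, Mx g a l * Gx g j l (some b) = ∑ l, g.f a l * pderiv l (g.f b j) := by
      rw [Fintype.sum_option]
      have e0 : Mx g a none * Gx g j none (some b) = 0 := by
        show _ * 0 = _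
        rw [mul_zero]
      rw [e0, zero_add]
      rfl
    rw [h3]
    have h4 := der_g g j a b
    have h5 : der g j (Mx g a (some b)) - (∑ l, Hx g j a l * Mx g l (some b)
        + ∑ l, g.f a l * pderiv l (g.f b j)) = - jac g.f j a b := h4
    rw [h5]
    exact I.neg_mem (hjac j a b)

lemma hom_sup {N : ℕ} {I J : Ideal (MvPolynomial (Fin N) ℂ)} (hI : Hom I) (hJ : Hom J) :
    Hom (I ⊔ J) := by
  intro z hz d
  obtain ⟨u, hu, v, hv, rfl⟩ := Submodule.mem_sup.1 hz
  rw [map_add]
  exact Submodule.add_mem_sup (hI u hu d) (hJ v hv d)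

/-- the minors of `[x | g]` are in the ideal -/
lemma minor_mem {N k : ℕ} (g : Biv N) (Q : Ideal (MvPolynomial (Fin N) ℂ))
    (h1 : ∀ I J : Fin (k + 1) → Fin N, mnr g.f I J ∈ Q)
    (h2 : ∀ (A : Fin (k + 1) → Fin N) (J : Fin k → Fin N), xmnr g.f A J ∈ Q)
    (p : Fin (k + 1) → Fin N) (q : Fin (k + 1) → Option (Fin N)) :
    ((Mx g).submatrix p q).det ∈ Q := by
  by_cases hq : ∃ i, q i = none
  · obtain ⟨i, hi⟩ := hq
    set σ : Equiv.Perm (Fin (k + 1)) := Equiv.swap 0 i with hσ
    have e1 : ((Mx g).submatrix p (q ∘ σ)).det ∈ Q := by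
      by_cases hs : ∀ b : Fin k, q (σ b.succ) ≠ none
      · have hs' : ∀ b : Fin k, ∃ c, q (σ b.succ) = some c := fun b =>
          Option.ne_none_iff_exists'.1 (hs b)
        choose J hJ using hs'
        have e2 : ((Mx g).submatrix p (q ∘ σ)).det = xmnr g.f p J := by
          unfold xmnr
          congr 1
          refine Matrix.ext fun a b => ?_
          refine Fin.cases ?_ ?_ b
          · show (Mx g) (p a) (q (σ 0)) = _
            have e3 : σ 0 = i := Equiv.swap_apply_left 0 i
            rw [e3, hi]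
            rfl
          · intro b
            show (Mx g) (p a) (q (σ b.succ)) = _
            rw [hJ b]
            rfl
        rw [e2]
        exact h2 p J
      · push Not at hs
        obtain ⟨b, hb⟩ := hs
        have e3 : σ 0 = i := Equiv.swap_apply_left 0 i
        rw [Matrix.det_zero_of_column_eq (i := 0) (j := b.succ) (Fin.succ_ne_zero b).symm]
        · exact Q.zero_mem
        · intro a
          show (Mx g) (p a) (q (σ 0)) = (Mx g) (p a) (q (σ b.succ))
          rw [e3, hi, hb]
    have e4 : ((Mx g).submatrix p (q ∘ σ)) = ((Mx g).submatrix p q).submatrix id σ := rfl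
    rw [e4, Matrix.det_permute'] at e1
    rcases Int.units_eq_one_or (Equiv.Perm.sign σ) with h3 | h3
    · rw [h3] at e1
      simpa using e1
    · rw [h3] at e1
      simpa using e1
  · push Not at hq
    have hs' : ∀ b, ∃ c, q b = some c := fun b => Option.ne_none_iff_exists'.1 (hq b)
    choose J hJ using hs'
    have e2 : ((Mx g).submatrix p q).det = mnr g.f p J := by
      unfold mnr
      congr 1
      refine Matrix.ext fun a b => ?_
      show (Mx g) (p a) (q b) = _
      rw [hJ b]
      rfl
    rw [e2]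
    exact h1 p J

end XSTM

open XSTM

theorem specXST : SpecXST := by
  intro N k g I hI hst hjac
  set Qx : Ideal (MvPolynomial (Fin N) ℂ) := Ideal.span {z | ∃ (A : Fin (k + 1) → Fin N)
    (J : Fin k → Fin N), z = xmnr g.f A J} with hQx
  set Q : Ideal (MvPolynomial (Fin N) ℂ) := I ⊔ mI (k + 1) g ⊔ Qx with hQ
  have hIQ : I ≤ Q := le_sup_of_le_left le_sup_left
  have hm : ∀ A J : Fin (k + 1) → Fin N, mnr g.f A J ∈ Q := fun A J =>
    (le_sup_of_le_left le_sup_right : mI (k + 1) g ≤ Q) (Ideal.subset_span ⟨A, J, rfl⟩)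
  have hx : ∀ (A : Fin (k + 1) → Fin N) (J : Fin k → Fin N), xmnr g.f A J ∈ Q := fun A J =>
    (le_sup_right : Qx ≤ Q) (Ideal.subset_span ⟨A, J, rfl⟩)
  have hall := minor_mem g Q hm hx
  have hkey : ∀ (j : Fin N) (p : Fin (k + 1) → Fin N) (q : Fin (k + 1) → Option (Fin N)),
      der g j (((Mx g).submatrix p q).det) ∈ Q := fun j p q =>
    minor_stable' (der g j) (Mx g) (Hx g j) (Gx g j) Q
      (fun a b => hIQ (der_Mx g I hjac j a b)) hall p q
  refine ⟨?_, ?_⟩
  · intro z hz j
    rw [← der_apply]
    have hadd : ∀ x y, der g j x ∈ Q → der g j y ∈ Q → der g j (x + y) ∈ Q := by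
      intro x y hx hy
      rw [map_add]
      exact Q.add_mem hx hy
    have hspan : ∀ s : Set (MvPolynomial (Fin N) ℂ), Ideal.span s ≤ Q →
        (∀ x ∈ s, der g j x ∈ Q) → ∀ x ∈ Ideal.span s, der g j x ∈ Q := by
      intro s hs h x hx
      refine Submodule.span_induction (p := fun z _ => der g j z ∈ Q) h ?_ ?_ ?_ hx
      · rw [map_zero]
        exact Q.zero_mem
      · intro x y _ _ hx hy
        exact hadd x y hx hy
      · intro a x hx hDx
        rw [smul_eq_mul, Derivation.leibniz, smul_eq_mul, smul_eq_mul]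
        exact Q.add_mem (Q.mul_mem_left _ hDx) (Q.mul_mem_right _ (hs hx))
    obtain ⟨u, hu, v, hv, rfl⟩ := Submodule.mem_sup.1 hz
    obtain ⟨w, hw, t, ht, rfl⟩ := Submodule.mem_sup.1 hu
    refine hadd _ _ (hadd _ _ ?_ ?_) ?_
    · rw [der_apply]
      exact hIQ (hst w hw j)
    · refine hspan {z | ∃ I J : Fin (k + 1) → Fin N, z = mnr g.f I J}
        (le_sup_of_le_left le_sup_right) ?_ t ht
      rintro x ⟨A, J, rfl⟩
      exact hkey j A (fun b => some (J b))
    · refine hspan _ le_sup_right ?_ v hv
      rintro x ⟨A, J, rfl⟩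
      have e : xmnr g.f A J = ((Mx g).submatrix A (Fin.cons none (fun b => some (J b)))).det := by
        unfold xmnr
        congr 1
        refine Matrix.ext fun a b => ?_
        refine Fin.cases ?_ ?_ b
        · rfl
        · intro b
          rfl
      rw [e]
      exact hkey j A _
  · refine hom_sup (hom_sup hI ?_) ?_
    · exact MSTM.hom_span _ (by
        rintro z ⟨A, J, rfl⟩
        exact ⟨_, CUTM.det_hom _ (fun _ _ => g.quad _ _)⟩)
    · exact MSTM.hom_span _ (by
        rintro z ⟨A, J, rfl⟩
        exact ⟨_, BSTM.xmnr_hom (fun i j => g.quad i j) A J⟩)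

end Pool.Agent.Lib.MPc9b009.PS
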