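import Pool.Agent.Lib.MP_c9b009_ag.B5.All
import Pool.Agent.Lib.MP_c9b009_ag.PS.Spec
import Pool.Agent.Lib.MP_c9b009_ag.PS.ALG
import Pool.Agent.Lib.MP_c9b009_ag.PS.BAS
import Pool.Agent.Lib.MP_c9b009_ag.PS.BER
import Pool.Agent.Lib.MP_c9b009_ag.PS.BGI
import Pool.Agent.Lib.MP_c9b009_ag.PS.CHS
import Pool.Agent.Lib.MP_c9b009_ag.PS.CHV
import Pool.Agent.Lib.MP_c9b009_ag.PS.CMP
import Pool.Agent.Lib.MP_c9b009_ag.PS.CRI
import Pool.Agent.Lib.MP_c9b009_ag.PS.CUT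
import Pool.Agent.Lib.MP_c9b009_ag.PS.DBR
import Pool.Agent.Lib.MP_c9b009_ag.PS.DEN
import Pool.Agent.Lib.MP_c9b009_ag.PS.DRP
import Pool.Agent.Lib.MP_c9b009_ag.PS.HLM
import Pool.Agent.Lib.MP_c9b009_ag.PS.HLS
import Pool.Agent.Lib.MP_c9b009_ag.PS.INV
import Pool.Agent.Lib.MP_c9b009_ag.PS.ITR
import Pool.Agent.Lib.MP_c9b009_ag.PS.JRK
import Pool.Agent.Lib.MP_c9b009_ag.PS.JST
import Pool.Agent.Lib.MP_c9b009_ag.PS.LGR
import Pool.Agent.Lib.MP_c9b009_ag.PS.MSI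
import Pool.Agent.Lib.MP_c9b009_ag.PS.NZP
import Pool.Agent.Lib.MP_c9b009_ag.PS.OMA
import Pool.Agent.Lib.MP_c9b009_ag.PS.OMD
import Pool.Agent.Lib.MP_c9b009_ag.PS.OMK
import Pool.Agent.Lib.MP_c9b009_ag.PS.OML
import Pool.Agent.Lib.MP_c9b009_ag.PS.PMN
import Pool.Agent.Lib.MP_c9b009_ag.PS.POU
import Pool.Agent.Lib.MP_c9b009_ag.PS.PVA
import Pool.Agent.Lib.MP_c9b009_ag.PS.RKC
import Pool.Agent.Lib.MP_c9b009_ag.PS.RKU
import Pool.Agent.Lib.MP_c9b009_ag.PS.STP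
import Pool.Agent.Lib.MP_c9b009_ag.PS.TAN
import Pool.Agent.Lib.MP_c9b009_ag.PS.THI
import Pool.Agent.Lib.MP_c9b009_ag.PS.THJ
import Pool.Agent.Lib.MP_c9b009_ag.PS.UCL
import Pool.Agent.Lib.MP_c9b009_ag.PS.XST

/-!
# MP_c9b009_ag, theorem PS: the assembly
-/

set_option autoImplicit false

namespace Pool.Agent.Lib.MPc9b009.PS

open MvPolynomial B5 OD

theorem hTHI : SpecTHI := by
  have hBAS : SpecBAS := specBAS
  have hTAN : SpecTAN := specTAN specJRK specJST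
  have hLGR : SpecLGR := specLGR hTAN specPMN specINV specPVA
  have hBER : SpecBER := specBER hBAS
  have hCUT : SpecCUT := specCUT hBAS
  have hNZP : SpecNZP := specNZP hBAS
  have hSTP : SpecSTP := specSTP hBER hCUT hNZP specDRP
  have hITR : SpecITR := specITR hSTP
  have hOML : SpecOML := specOML specOMD specPMN
  have hOMA : SpecOMA := specOMA hOML
  have hOMK : SpecOMK := specOMK specOMD hOML hOMA
  have hDEN : SpecDEN := specDEN hBAS specOMD hOMA hOMK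
  have hCHS : SpecCHS := specCHS hBAS specDBR
  have hCHV : SpecCHV := specCHV hBAS
  have hUCL : SpecUCL := specUCL hBAS hCHV
  have hHLM : SpecHLM := specHLM hBAS hCHS specALG specPOU hUCL
  have hHLS : SpecHLS := specHLS hLGR hITR specOMD hOMA hDEN hHLM
  exact specTHI hHLS specMSI (specCRI specRKU specBGI)

theorem hTHJ : SpecTHJ := specTHJ hTHI (specCMP specXST specRKU specRKC)

theorem PS_holds (N : ℕ) (I : Ideal (MvPolynomial (Fin N) ℂ)) (g : Biv N) (hI : Hom I)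
    (hst : Stab g.f I) (hj : ∀ i j k, jac g.f i j k ∈ I) (s : ℕ) (hs : Even s)
    (h : (∃ x ∈ Zer I, (mat g.f x).rank = s + 2) ∨
      (∃ p : Ideal (MvPolynomial (Fin N) ℂ), p.IsPrime ∧ Hom p ∧ I ≤ p ∧ Stab g.f p ∧
        ((s + 2 : ℕ) : Cardinal) ≤ Algebra.trdeg ℂ (MvPolynomial (Fin N) ℂ ⧸ p) ∧
        Algebra.trdeg ℂ (MvPolynomial (Fin N) ℂ ⧸ p) ≤ ((s + 4 : ℕ) : Cardinal)) ∨
      (∃ P ∈ (vanI I g.f (s + 2)).minimalPrimes,
        ((s + 2 : ℕ) : Cardinal) ≤ Algebra.trdeg ℂ (MvPolynomial (Fin N) ℂ ⧸ P) ∧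
        Algebra.trdeg ℂ (MvPolynomial (Fin N) ℂ ⧸ P) ≤ ((s + 4 : ℕ) : Cardinal))) :
    BigI I g.f s := by
  rcases h with h | h | h
  · exact hTHI N s I g hs hI hst hj (Or.inl h)
  · exact hTHI N s I g hs hI hst hj (Or.inr h)
  · exact hTHJ N s I g hs hI hst hj h

end Pool.Agent.Lib.MPc9b009.PS
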