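import Pool.Agent.Lib.MP_c9b009_ag.PS.Spec
import Mathlib.Analysis.Calculus.InverseFunctionTheorem.ContDiff

/-!
# MP_c9b009_ag, row PS, module CUT: transversal hyperplane sections are smooth cones
-/

set_option autoImplicit false

namespace Pool.Agent.Lib.MPc9b009.PS

open MvPolynomial Pool.Agent.Lib.MPc9b009.B5 Pool.Agent.Lib.MPc9b009.OD MeasureTheory Filter Topology

namespace CUTM

variable {N k : ℕ}

/-- the linear form as a continuous linear map -/
noncomputable def LL (c : Cn N) : Cn N →L[ℂ] ℂ := LinearMap.toContinuousLinearMap (dot c)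

theorem mem_hyp (c x : Cn N) : x ∈ hyp c ↔ LL c x = 0 := Iff.rfl

/-- insertion of the coordinate zero -/
noncomputable def ins (m : Fin (k + 1)) : Cn k →L[ℂ] Cn (k + 1) :=
  LinearMap.toContinuousLinearMap
    { toFun := fun y => m.insertNth (α := fun _ => ℂ) 0 y
      map_add' := by
        intro y y'
        funext j
        refine m.succAboveCases ?_ (fun a => ?_) j
        · simp
        · simp
      map_smul' := by
        intro t y
        funext j
        refine m.succAboveCases ?_ (fun a => ?_) j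
        · simp
        · simp }

theorem ins_same (m : Fin (k + 1)) (y : Cn k) : ins m y m = 0 := by
  show (m.insertNth (α := fun _ => ℂ) 0 y) m = 0
  simp

theorem ins_succ (m : Fin (k + 1)) (y : Cn k) (a : Fin k) : ins m y (m.succAbove a) = y a := by
  show (m.insertNth (α := fun _ => ℂ) 0 y) (m.succAbove a) = y a
  simp

/-- the derivative of `Θ` -/
noncomputable def TT (m : Fin (k + 1)) (l : Cn (k + 1) →L[ℂ] ℂ) : Cn (k + 1) →L[ℂ] Cn (k + 1) :=
  ContinuousLinearMap.pi fun j => if j = m then l else ContinuousLinearMap.proj j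

theorem TT_inv (m : Fin (k + 1)) (l : Cn (k + 1) →L[ℂ] ℂ) (hl : l (Pi.single m 1) ≠ 0) :
    ∃ E : Cn (k + 1) ≃L[ℂ] Cn (k + 1), (E : Cn (k + 1) →L[ℂ] Cn (k + 1)) = TT m l := by
  have hinj : Function.Injective (TT m l).toLinearMap := by
    rw [← LinearMap.ker_eq_bot, LinearMap.ker_eq_bot']
    intro v hv
    have h1 : ∀ j, (if j = m then l else ContinuousLinearMap.proj j : Cn (k + 1) →L[ℂ] ℂ) v = 0 :=
      fun j => congrFun hv j
    have h2 : ∀ j, j ≠ m → v j = 0 := by
      intro j hj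
      have h3 := h1 j
      rw [if_neg hj] at h3
      exact h3
    have h3 : v = v m • Pi.single m 1 := by
      funext j
      by_cases hj : j = m
      · subst hj
        simp
      · rw [h2 j hj, Pi.smul_apply, Pi.single_eq_of_ne hj, smul_zero]
    have h4 := h1 m
    rw [if_pos rfl, h3, map_smul, smul_eq_mul] at h4
    rcases mul_eq_zero.1 h4 with h5 | h5
    · rw [h3, h5, zero_smul]
    · exact absurd h5 hl
  refine ⟨(LinearEquiv.ofInjectiveEndo (TT m l).toLinearMap hinj).toContinuousLinearEquiv, ?_⟩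
  ext v : 1
  rfl

theorem chart {M : Set (Cn N)} {T : Cn N → Submodule ℂ (Cn N)}
    (c : Cn N) (hc : ∀ x ∈ M, x ∈ hyp c → ¬ T x ≤ hyp c) (Q : Cht N (k + 1) M T)
    (hdim : ∀ y ∈ Q.B, Module.finrank ℂ (T (Q.G y)) = k + 1)
    (x₀ : Cn N) (hx₀ : x₀ ∈ M) (hW : x₀ ∈ Q.W) (h0 : x₀ ∈ hyp c) :
    ∃ c' : Cht N k {x | x ∈ M ∧ x ∈ hyp c} (fun x => T x ⊓ hyp c), x₀ ∈ c'.W := by
  classical
  obtain ⟨hy₀, hGy₀⟩ := Q.inv x₀ hx₀ hW
  obtain ⟨y₀, hy₀e⟩ : ∃ y₀ : Cn (k + 1), y₀ = fun m => x₀ (Q.I m) := ⟨_, rfl⟩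
  rw [← hy₀e] at hy₀ hGy₀
  have hGc : ∀ y ∈ Q.B, ContDiffAt ℂ 3 Q.G y := fun y hy => Q.sm.contDiffAt (Q.oB.mem_nhds hy)
  have hGd : ∀ y ∈ Q.B, HasFDerivAt Q.G (fderiv ℂ Q.G y) y := fun y hy =>
    ((hGc y hy).differentiableAt (by norm_num)).hasFDerivAt
  -- the coordinate
  have hex : ∃ m : Fin (k + 1), LL c (fderiv ℂ Q.G y₀ (Pi.single m 1)) ≠ 0 := by
    by_contra hne
    push Not at hne
    refine hc x₀ hx₀ h0 ?_
    have h1 := Q.tan y₀ hy₀
    rw [hGy₀] at h1
    rw [← h1]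
    rintro _ ⟨v, rfl⟩
    rw [mem_hyp]
    show LL c (fderiv ℂ Q.G y₀ v) = 0
    have h2 : v = ∑ j, v j • (Pi.single j 1 : Cn (k + 1)) := by
      conv_lhs => rw [← Finset.univ_sum_single v]
      refine Finset.sum_congr rfl fun j _ => ?_
      rw [← Pi.single_smul, smul_eq_mul, mul_one]
    rw [h2, map_sum, map_sum]
    refine Finset.sum_eq_zero fun j _ => ?_
    rw [map_smul, map_smul, hne j, smul_zero]
  obtain ⟨m, hm⟩ := hex
  -- the map `Θ`
  obtain ⟨Θ, hΘ⟩ : ∃ Θ : Cn (k + 1) → Cn (k + 1), Θ = fun y j => if j = m then LL c (Q.G y) else y j :=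
    ⟨_, rfl⟩
  have hΘm : ∀ y, Θ y m = LL c (Q.G y) := by
    intro y
    rw [hΘ]
    exact if_pos rfl
  have hΘs : ∀ y a, Θ y (m.succAbove a) = y (m.succAbove a) := by
    intro y a
    rw [hΘ]
    exact if_neg (Fin.succAbove_ne m a)
  have hΘc : ∀ y ∈ Q.B, ContDiffAt ℂ 3 Θ y := by
    intro y hy
    rw [contDiffAt_pi]
    intro j
    rw [hΘ]
    by_cases hj : j = m
    · simp only [if_pos hj]
      exact (LL c).contDiff.contDiffAt.comp y (hGc y hy)
    · simp only [if_neg hj]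
      exact (ContinuousLinearMap.proj j : Cn (k + 1) →L[ℂ] ℂ).contDiff.contDiffAt
  have hΘd : ∀ y ∈ Q.B, HasFDerivAt Θ (TT m ((LL c).comp (fderiv ℂ Q.G y))) y := by
    intro y hy
    rw [hasFDerivAt_pi']
    intro j
    rw [hΘ]
    by_cases hj : j = m
    · simp only [if_pos hj]
      have h1 : HasFDerivAt (fun y => LL c (Q.G y)) ((LL c).comp (fderiv ℂ Q.G y)) y :=
        (LL c).hasFDerivAt.comp y (hGd y hy)
      refine h1.congr_fderiv ?_
      ext v : 1
      show _ = (if j = m then (LL c).comp (fderiv ℂ Q.G y) else ContinuousLinearMap.proj j :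
        Cn (k + 1) →L[ℂ] ℂ) v
      rw [if_pos hj]
    · simp only [if_neg hj]
      have h1 : HasFDerivAt (fun y : Cn (k + 1) => y j)
          (ContinuousLinearMap.proj j : Cn (k + 1) →L[ℂ] ℂ) y :=
        (ContinuousLinearMap.proj j : Cn (k + 1) →L[ℂ] ℂ).hasFDerivAt
      refine h1.congr_fderiv ?_
      ext v : 1
      show _ = (if j = m then (LL c).comp (fderiv ℂ Q.G y) else ContinuousLinearMap.proj j :
        Cn (k + 1) →L[ℂ] ℂ) v
      rw [if_neg hj]
  -- the good set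
  obtain ⟨B₁, hB₁e⟩ : ∃ B₁ : Set (Cn (k + 1)), B₁ = Q.B ∩
    (fun y => LL c (fderiv ℂ Q.G y (Pi.single m 1))) ⁻¹' {0}ᶜ := ⟨_, rfl⟩
  have hB₁ : IsOpen B₁ := by
    rw [hB₁e]
    refine ContinuousOn.isOpen_inter_preimage ?_ Q.oB isOpen_compl_singleton
    have h1 : ContinuousOn (fderiv ℂ Q.G) Q.B :=
      Q.sm.continuousOn_fderiv_of_isOpen Q.oB (by norm_num)
    exact (LL c).continuous.comp_continuousOn (h1.clm_apply continuousOn_const)
  have hB₁B : ∀ y ∈ B₁, y ∈ Q.B := by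
    intro y hy
    rw [hB₁e] at hy
    exact hy.1
  have hy₀B₁ : y₀ ∈ B₁ := by
    rw [hB₁e]
    exact ⟨hy₀, hm⟩
  have hE : ∀ y ∈ B₁, ∃ E : Cn (k + 1) ≃L[ℂ] Cn (k + 1),
      HasFDerivAt Θ (E : Cn (k + 1) →L[ℂ] Cn (k + 1)) y := by
    intro y hy
    rw [hB₁e] at hy
    obtain ⟨E, hE⟩ := TT_inv m ((LL c).comp (fderiv ℂ Q.G y)) hy.2
    refine ⟨E, ?_⟩
    rw [hE]
    exact hΘd y hy.1
  obtain ⟨E₀, hE₀⟩ := hE y₀ hy₀B₁
  -- the local inverse
  obtain ⟨e, heΘ, hes, hesB⟩ : ∃ e : OpenPartialHomeomorph (Cn (k + 1)) (Cn (k + 1)),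
      (∀ y, e y = Θ y) ∧ y₀ ∈ e.source ∧ e.source ⊆ B₁ := by
    refine ⟨((hΘc y₀ hy₀).toOpenPartialHomeomorph Θ hE₀ (by norm_num)).restrOpen B₁ hB₁, ?_, ?_, ?_⟩
    · intro y
      rfl
    · rw [OpenPartialHomeomorph.restrOpen_source]
      exact ⟨(hΘc y₀ hy₀).mem_toOpenPartialHomeomorph_source hE₀ (by norm_num), hy₀B₁⟩
    · rw [OpenPartialHomeomorph.restrOpen_source]
      exact Set.inter_subset_right
  have hsym : ∀ z ∈ e.target, ContDiffAt ℂ 3 e.symm z := by
    intro z hz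
    have h1 := hesB (e.map_target hz)
    obtain ⟨E, hE1⟩ := hE _ h1
    have h2 : (e : Cn (k + 1) → Cn (k + 1)) = Θ := funext heΘ
    refine e.contDiffAt_symm hz (f₀' := E) ?_ ?_
    · rw [h2]
      exact hE1
    · rw [h2]
      exact hΘc _ (hB₁B _ h1)
  have hright : ∀ z ∈ e.target, Θ (e.symm z) = z := by
    intro z hz
    rw [← heΘ]
    exact e.right_inv hz
  have hGm : ∀ y' : Cn k, ins m y' ∈ e.target → LL c (Q.G (e.symm (ins m y'))) = 0 := by
    intro y' hy'
    rw [← hΘm, hright _ hy', ins_same]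
  have hco : ∀ y' : Cn k, ins m y' ∈ e.target → ∀ a,
      Q.G (e.symm (ins m y')) (Q.I (m.succAbove a)) = y' a := by
    intro y' hy' a
    rw [Q.co _ (hB₁B _ (hesB (e.map_target hy'))), ← hΘs (e.symm (ins m y')) a, hright _ hy',
      ins_succ]
  have hB'o : IsOpen {y' : Cn k | ins m y' ∈ e.target} :=
    e.open_target.preimage (ins m).continuous
  have hsm : ∀ y' : Cn k, ins m y' ∈ e.target →
      ContDiffAt ℂ 3 (fun y' : Cn k => Q.G (e.symm (ins m y'))) y' := by
    intro y' hy'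
    have h1 : ContDiffAt ℂ 3 (fun y' : Cn k => e.symm (ins m y')) y' :=
      (hsym _ hy').comp y' (ins m).contDiff.contDiffAt
    exact (hGc _ (hB₁B _ (hesB (e.map_target hy')))).comp y' h1
  refine ⟨{ I := fun a => Q.I (m.succAbove a)
            W := {z | z ∈ Q.W ∧ (fun m => z (Q.I m)) ∈ e.source}
            B := {y' | ins m y' ∈ e.target}
            G := fun y' => Q.G (e.symm (ins m y'))
            oW := ?_
            oB := hB'o
            sm := fun y' hy' => (hsm y' hy').contDiffWithinAt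
            mem := ?_
            co := fun y' hy' a => hco y' hy' a
            inv := ?_
            tan := ?_ }, ?_⟩
  · exact Q.oW.inter (e.open_source.preimage (by fun_prop))
  · intro y' hy'
    have h1 := e.map_target hy'
    have h2 := hB₁B _ (hesB h1)
    obtain ⟨h3, h4⟩ := Q.mem _ h2
    refine ⟨⟨h3, hGm y' hy'⟩, h4, ?_⟩
    have h5 : (fun j => Q.G (e.symm (ins m y')) (Q.I j)) = e.symm (ins m y') := by
      funext j
      exact Q.co _ h2 j
    show (fun j => Q.G (e.symm (ins m y')) (Q.I j)) ∈ e.source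
    rw [h5]
    exact h1
  · rintro z ⟨hzM, hzc⟩ ⟨hzW, hzs⟩
    obtain ⟨h1, h2⟩ := Q.inv z hzM hzW
    have h3 : ins m (fun a => z (Q.I (m.succAbove a))) = Θ (fun m => z (Q.I m)) := by
      funext j
      refine m.succAboveCases ?_ (fun a => ?_) j
      · rw [ins_same, hΘm, h2]
        exact hzc.symm
      · rw [ins_succ, hΘs]
    have h4 : ins m (fun a => z (Q.I (m.succAbove a))) ∈ e.target := by
      rw [h3, ← heΘ]
      exact e.map_source hzs
    refine ⟨h4, ?_⟩
    show Q.G (e.symm (ins m (fun a => z (Q.I (m.succAbove a))))) = z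
    rw [h3, ← heΘ, e.left_inv hzs, h2]
  · intro y' hy'
    have hu := e.map_target hy'
    have huB := hB₁B _ (hesB hu)
    have hd : HasFDerivAt (fun y' : Cn k => Q.G (e.symm (ins m y')))
        (fderiv ℂ (fun y' : Cn k => Q.G (e.symm (ins m y'))) y') y' :=
      ((hsm y' hy').differentiableAt (by norm_num)).hasFDerivAt
    -- the chain rule
    have h1 : HasFDerivAt (fun y' : Cn k => e.symm (ins m y'))
        ((fderiv ℂ e.symm (ins m y')).comp (ins m)) y' :=
      (((hsym _ hy').differentiableAt (by norm_num)).hasFDerivAt).comp y' (ins m).hasFDerivAt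
    have h2 : HasFDerivAt (fun y' : Cn k => Q.G (e.symm (ins m y')))
        ((fderiv ℂ Q.G (e.symm (ins m y'))).comp ((fderiv ℂ e.symm (ins m y')).comp (ins m))) y' :=
      (hGd _ huB).comp y' h1
    have h3 := hd.unique h2
    -- the range is in `T`
    have hle : LinearMap.range (fderiv ℂ (fun y' : Cn k => Q.G (e.symm (ins m y'))) y').toLinearMap ≤
        T (Q.G (e.symm (ins m y'))) ⊓ hyp c := by
      refine le_inf ?_ ?_
      · rw [← Q.tan _ huB, h3]
        rintro _ ⟨v, rfl⟩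
        exact ⟨fderiv ℂ e.symm (ins m y') (ins m v), rfl⟩
      · rintro _ ⟨v, rfl⟩
        rw [mem_hyp]
        have h4 : HasFDerivAt (fun y' : Cn k => LL c (Q.G (e.symm (ins m y'))))
            ((LL c).comp (fderiv ℂ (fun y' : Cn k => Q.G (e.symm (ins m y'))) y')) y' :=
          (LL c).hasFDerivAt.comp y' hd
        have h5 : HasFDerivAt (fun _ : Cn k => (0 : ℂ)) (0 : Cn k →L[ℂ] ℂ) y' :=
          hasFDerivAt_const _ _
        have h6 : (fun y' : Cn k => LL c (Q.G (e.symm (ins m y')))) =ᶠ[𝓝 y']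
            fun _ : Cn k => (0 : ℂ) := by
          filter_upwards [hB'o.mem_nhds hy'] with z hz
          exact hGm z hz
        have h7 := h4.unique (h5.congr_of_eventuallyEq h6)
        exact congrArg (fun A : Cn k →L[ℂ] ℂ => A v) h7
    -- injectivity
    have hinj : Function.Injective
        (fderiv ℂ (fun y' : Cn k => Q.G (e.symm (ins m y'))) y').toLinearMap := by
      intro v v' hvv
      funext a
      have h4 : HasFDerivAt (fun y' : Cn k => Q.G (e.symm (ins m y')) (Q.I (m.succAbove a)))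
          ((ContinuousLinearMap.proj (Q.I (m.succAbove a)) : Cn N →L[ℂ] ℂ).comp
            (fderiv ℂ (fun y' : Cn k => Q.G (e.symm (ins m y'))) y')) y' :=
        (ContinuousLinearMap.proj (Q.I (m.succAbove a)) : Cn N →L[ℂ] ℂ).hasFDerivAt.comp y' hd
      have h5 : HasFDerivAt (fun z : Cn k => z a) (ContinuousLinearMap.proj a : Cn k →L[ℂ] ℂ) y' :=
        (ContinuousLinearMap.proj a : Cn k →L[ℂ] ℂ).hasFDerivAt
      have h6 : (fun y' : Cn k => Q.G (e.symm (ins m y')) (Q.I (m.succAbove a))) =ᶠ[𝓝 y']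
          fun z : Cn k => z a := by
        filter_upwards [hB'o.mem_nhds hy'] with z hz
        exact hco z hz a
      have h7 := h4.unique (h5.congr_of_eventuallyEq h6)
      have h8 : ∀ w : Cn k, (fderiv ℂ (fun y' : Cn k => Q.G (e.symm (ins m y'))) y') w
          (Q.I (m.succAbove a)) = w a := fun w => congrArg (fun A : Cn k →L[ℂ] ℂ => A w) h7
      rw [← h8 v, ← h8 v']
      exact congrFun hvv _
    refine Submodule.eq_of_le_of_finrank_le hle ?_
    rw [LinearMap.finrank_range_of_inj hinj]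
    have h9 : T (Q.G (e.symm (ins m y'))) ⊓ hyp c < T (Q.G (e.symm (ins m y'))) := by
      refine lt_of_le_of_ne inf_le_left fun h => ?_
      exact hc _ (Q.mem _ huB).1 (hGm y' hy') (inf_eq_left.1 h)
    have h10 := Submodule.finrank_lt_finrank_of_lt h9
    rw [hdim _ huB] at h10
    rw [Module.finrank_fin_fun]
    exact Nat.lt_succ_iff.1 h10
  · refine ⟨hW, ?_⟩
    rw [← hy₀e]
    exact hes

end CUTM

open CUTM in
theorem specCUT (hBAS : SpecBAS) : SpecCUT := by
  intro N k M T hC c hc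
  constructor
  · rintro x ⟨hx, hxc⟩
    obtain ⟨Q, hQ⟩ := hC.cov x hx
    exact chart c hc Q (fun y hy => (hBAS N (k + 1) M T hC Q y hy).2.2.2) x hx hQ hxc
  · exact fun h => hC.ne h.1
  · rintro x ⟨hx, hxc⟩ t ht
    obtain ⟨h1, h2⟩ := hC.smul x hx t ht
    refine ⟨⟨h1, (hyp c).smul_mem t hxc⟩, ?_⟩
    show T (t • x) ⊓ hyp c = T x ⊓ hyp c
    rw [h2]
  · rintro x ⟨hx, hxc⟩
    exact ⟨hC.eul x hx, hxc⟩

end Pool.Agent.Lib.MPc9b009.PS
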