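import Pool.Agent.Lib.MP_c9b009_ag.OD.Defs

/-!
# MP_c9b009_ag, row PS: Poisson subvarieties of small dimension. Definitions

THEOREM PS. `S = ℂ[x_1, .., x_N]`, `I` a homogeneous ideal, `g` a skew matrix of quadratic forms which
makes `S / I` a graded Poisson algebra (`Stab g.f I`, `jac g.f i j k ∈ I`), `X = Proj (S / I)`: any
projective Poisson variety with a very ample Poisson line bundle, for instance every Fano manifold,
embedded by a power of its anticanonical bundle. `s` even. If `g` has rank `s + 2` at some point of the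
cone, or `X` has an irreducible Poisson subvariety of dimension `s + 1`, `s + 2` or `s + 3`
(homogeneous prime `p`, `I ≤ p`, `Stab g.f p`, `s + 2 ≤ D(p) ≤ s + 4`), then `X_{≤ s}` has an
irreducible component of dimension `≥ s + 1`.

Notation of all the docstrings. `D(p)` = transcendence degree of `S / p`. `g(x)` = `mat g.f x`,
`X_a = {x_a, .} = ∑_l g_al ∂_l` (`OD.ham g a`). `e_m = Pi.single m 1`. `a · b = ∑ a_i b_i` (no conjugation).

The new case is `D(p) = s + 4 = d`, rank `d` at the generic point (a symplectic cone). Suppose the locus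
of rank `< d` has `D ≤ d - 3`. Then `M = {x ∈ V(p), rank g(x) = d}` is smooth (group A), a generic linear
section of dimension 3 misses the bad locus and is smooth (group B), it carries the closed holomorphic
2-form `ω = g⁻¹` (group C); Stokes on the compact surface `M_3 / ℂ*` gives `∫ (|<A,x>|² - |x|² |A|²) = 0`,
where `A` is the vector field density of `ω` (group D), so `i_E ω = 0` (Cauchy-Schwarz): hard Lefschetz
for the holomorphic 1-form `i_E ω`. But a generic section keeps `i_E ω ≠ 0`.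
-/

set_option autoImplicit false

namespace Pool.Agent.Lib.MPc9b009.PS

open MvPolynomial Pool.Agent.Lib.MPc9b009.B5 Pool.Agent.Lib.MPc9b009.OD

/-- the space `ℂ^N` -/
abbrev Cn (N : ℕ) : Type := Fin N → ℂ

/-- the zeros of the ideal `I` -/
def Zer {N : ℕ} (I : Ideal (MvPolynomial (Fin N) ℂ)) : Set (Cn N) := {x | ∀ h ∈ I, eval x h = 0}

/-- The vanishing ideal of `X_{≤ s} = {[x] ∈ X : rank ≤ s}`, `X = Proj (S / I)`. -/
def vanI {N : ℕ} (I : Ideal (MvPolynomial (Fin N) ℂ))
    (f : Fin N → Fin N → MvPolynomial (Fin N) ℂ) (s : ℕ) : Ideal (MvPolynomial (Fin N) ℂ) where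
  carrier := {h | ∀ x : Cn N, x ≠ 0 → x ∈ Zer I → rk f x ≤ s → eval x h = 0}
  add_mem' := by
    intro a b ha hb x hx hI hr
    rw [map_add, ha x hx hI hr, hb x hx hI hr, add_zero]
  zero_mem' := by
    intro x _ _ _
    exact map_zero _
  smul_mem' := by
    intro c h hh x hx hI hr
    rw [smul_eq_mul, map_mul, hh x hx hI hr, mul_zero]

/-- `X_{≤ s}` has an irreducible component of dimension `≥ s + 1`. -/
def BigI {N : ℕ} (I : Ideal (MvPolynomial (Fin N) ℂ))
    (f : Fin N → Fin N → MvPolynomial (Fin N) ℂ) (s : ℕ) : Prop :=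
  ∃ P ∈ (vanI I f s).minimalPrimes,
    ((s + 2 : ℕ) : Cardinal) ≤ Algebra.trdeg ℂ (MvPolynomial (Fin N) ℂ ⧸ P)

/-- the linear form with coefficients `c` -/
noncomputable def lin {N : ℕ} (c : Cn N) : MvPolynomial (Fin N) ℂ := ∑ j, C (c j) * X j

/-- the hyperplane `c · x = 0` -/
noncomputable def hyp {N : ℕ} (c : Cn N) : Submodule ℂ (Cn N) := LinearMap.ker (dot c)

/-- the span of the Hamiltonian vectors at `x`: the tangent space of the leaf -/
noncomputable def Tg {N : ℕ} (g : Biv N) (x : Cn N) : Submodule ℂ (Cn N) :=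
  LinearMap.range (mat g.f x).mulVecLin

/-- the points of `V(p)` of rank `d` -/
def Mp {N : ℕ} (p : Ideal (MvPolynomial (Fin N) ℂ)) (g : Biv N) (d : ℕ) : Set (Cn N) :=
  {x | x ∈ Zer p ∧ (mat g.f x).rank = d}

open scoped Classical in
/-- the symplectic form `ω_x(g ξ, v) = ξ · v` -/
noncomputable def om {N : ℕ} (g : Biv N) (x u v : Cn N) : ℂ :=
  if h : ∃ ξ : Cn N, (mat g.f x).mulVec ξ = u then ∑ i, h.choose i * v i else 0

/-- A chart of the `k`-dimensional complex manifold `M ⊆ ℂ^N` with tangent spaces `T x`: a graph over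
the coordinates `I`. -/
structure Cht (N k : ℕ) (M : Set (Cn N)) (T : Cn N → Submodule ℂ (Cn N)) where
  /-- the coordinates -/
  I : Fin k → Fin N
  /-- the open subset of `ℂ^N` -/
  W : Set (Cn N)
  /-- the open subset of `ℂ^k` -/
  B : Set (Cn k)
  /-- the map -/
  G : Cn k → Cn N
  oW : IsOpen W
  oB : IsOpen B
  sm : ContDiffOn ℂ 3 G B
  mem : ∀ y ∈ B, G y ∈ M ∧ G y ∈ W
  co : ∀ y ∈ B, ∀ m, G y (I m) = y m
  inv : ∀ z ∈ M, z ∈ W → (fun m => z (I m)) ∈ B ∧ G (fun m => z (I m)) = z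
  tan : ∀ y ∈ B, LinearMap.range (fderiv ℂ G y).toLinearMap = T (G y)

/-- `M` is a smooth cone of dimension `k` (without the vertex) with tangent spaces `T x`. -/
structure Cone (N k : ℕ) (M : Set (Cn N)) (T : Cn N → Submodule ℂ (Cn N)) : Prop where
  cov : ∀ x ∈ M, ∃ c : Cht N k M T, x ∈ c.W
  ne : (0 : Cn N) ∉ M
  smul : ∀ x ∈ M, ∀ t : ℂ, t ≠ 0 → t • x ∈ M ∧ T (t • x) = T x
  eul : ∀ x ∈ M, x ∈ T x

/-- The (0,1)-derivative `∂̄φ(v) = ∑ \bar v_i ∂φ/∂\bar x_i`, conjugate linear in `v`. -/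
noncomputable def Dbar {k : ℕ} (φ : Cn k → ℂ) (y v : Cn k) : ℂ :=
  (fderiv ℝ φ y v + Complex.I * fderiv ℝ φ y (Complex.I • v)) / 2

/-- A holomorphic vector density of weight zero on the cone `M` of dimension `k` (a `(k-1)`-form `σ`,
`σ ∧ dx_j = A_j dy_1 .. dy_k`): in every chart a vector field `w` without divergence, homogeneous of
degree `-(k-1)`; `A = ∑ w_m ∂_m G = dG(w)` is multiplied by the Jacobian determinant. -/
structure Dens (N k : ℕ) (M : Set (Cn N)) (T : Cn N → Submodule ℂ (Cn N)) where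
  /-- the components in the chart -/
  w : Cht N k M T → Cn k → Cn k
  sm : ∀ c, ContDiffOn ℂ 1 (w c) c.B
  div : ∀ c, ∀ y ∈ c.B, ∑ m, fderiv ℂ (w c) y (Pi.single m 1) m = 0
  hom : ∀ c, ∀ y ∈ c.B, fderiv ℂ (w c) y y = -((k : ℂ) - 1) • w c y
  tr : ∀ (c c' : Cht N k M T), ∀ y ∈ c.B, ∀ y' ∈ c'.B, c.G y = c'.G y' →
    fderiv ℂ c.G y (w c y) =
      (Matrix.of fun a b => fderiv ℂ c.G y (Pi.single b 1) (c'.I a)).det •
        fderiv ℂ c'.G y' (w c' y')

/-- the vector `A` at the point `c.G y` -/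
noncomputable def Dens.A {N k : ℕ} {M : Set (Cn N)} {T : Cn N → Submodule ℂ (Cn N)}
    (D : Dens N k M T) (c : Cht N k M T) (y : Cn k) : Cn N := fderiv ℂ c.G y (D.w c y)

/-- the hermitian product `∑ a_i \bar b_i` -/
noncomputable def her {N : ℕ} (a b : Cn N) : ℂ := ∑ i, a i * (starRingEnd ℂ) (b i)

/-- `β = <A, x> x - |x|² A` -/
noncomputable def bet {N : ℕ} (x A : Cn N) : Cn N := her A x • x - her x x • A

end Pool.Agent.Lib.MPc9b009.PS
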