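import Pool.Agent.Lib.MP_c9b009_ag.PS.XST

/-!
# MP_c9b009_ag, row PS, module MSI: the ideal of the minors is stable modulo `I`
-/

set_option autoImplicit false

namespace Pool.Agent.Lib.MPc9b009.PS

open MvPolynomial Pool.Agent.Lib.MPc9b009.B5 Pool.Agent.Lib.MPc9b009.OD XSTM

theorem specMSI : SpecMSI := by
  intro N k g I hI hst hjac
  set Q : Ideal (MvPolynomial (Fin N) ℂ) := I ⊔ mI k g with hQ
  have hIQ : I ≤ Q := le_sup_left
  set M : Matrix (Fin N) (Fin N) (MvPolynomial (Fin N) ℂ) := Matrix.of fun a b => g.f a b with hM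
  have hall : ∀ p q : Fin k → Fin N, (M.submatrix p q).det ∈ Q := by
    intro p q
    have h1 : (M.submatrix p q).det = mnr g.f p q := rfl
    rw [h1]
    exact (le_sup_right : mI k g ≤ Q) (Ideal.subset_span ⟨p, q, rfl⟩)
  have hkey : ∀ (j : Fin N) (p q : Fin k → Fin N),
      der g j ((M.submatrix p q).det) ∈ Q := by
    intro j p q
    refine minor_stable' (der g j) M (Hx g j)
      (Matrix.of fun l b => pderiv l (g.f b j)) Q ?_ hall p q
    intro a b
    have h4 := der_g g j a b
    have h5 : der g j (M a b) - (∑ l, Hx g j a l * M l b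
        + ∑ l, M a l * (Matrix.of fun l b => pderiv l (g.f b j)) l b) = - jac g.f j a b := h4
    rw [h5]
    exact hIQ (I.neg_mem (hjac j a b))
  refine ⟨?_, ?_⟩
  · intro z hz j
    rw [← der_apply]
    obtain ⟨u, hu, v, hv, rfl⟩ := Submodule.mem_sup.1 hz
    rw [map_add]
    refine Q.add_mem ?_ ?_
    · rw [der_apply]
      exact hIQ (hst u hu j)
    · refine Submodule.span_induction (p := fun z _ => der g j z ∈ Q) ?_ ?_ ?_ ?_ hv
      · rintro x ⟨A, J, rfl⟩
        exact hkey j A J
      · rw [map_zero]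
        exact Q.zero_mem
      · intro x y _ _ hx hy
        rw [map_add]
        exact Q.add_mem hx hy
      · intro a x hx hDx
        have hx' : x ∈ Q := (le_sup_right : mI k g ≤ Q) hx
        rw [smul_eq_mul, Derivation.leibniz, smul_eq_mul, smul_eq_mul]
        exact Q.add_mem (Q.mul_mem_left _ hDx) (Q.mul_mem_right _ hx')
  · refine hom_sup hI ?_
    exact MSTM.hom_span _ (by
      rintro z ⟨A, J, rfl⟩
      exact ⟨_, CUTM.det_hom _ (fun _ _ => g.quad _ _)⟩)

end Pool.Agent.Lib.MPc9b009.PS
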