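import Pool.Agent.Lib.MP_c9b009_ag.PS.Spec
import Mathlib.MeasureTheory.Measure.Lebesgue.EqHaar

/-!
# MP_c9b009_ag, PS: module STP (one generic hyperplane section)
-/

set_option autoImplicit false

namespace Pool.Agent.Lib.MPc9b009.PS

open MvPolynomial Pool.Agent.Lib.MPc9b009.B5 Pool.Agent.Lib.MPc9b009.OD MeasureTheory

namespace STPM

/-- A proper complex subspace is a null set. -/
lemma submodule_null {N : ℕ} (U : Submodule ℂ (Cn N)) (h : U ≠ ⊤) :
    volume (U : Set (Cn N)) = 0 := by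
  have h1 : U.restrictScalars ℝ ≠ ⊤ := fun h' => h ((Submodule.restrictScalars_eq_top_iff ℝ ℂ _).mp h')
  exact Measure.addHaar_submodule volume (U.restrictScalars ℝ) h1

end STPM

open STPM in
theorem specSTP (hBER : SpecBER) (hCUT : SpecCUT) (hNZP : SpecNZP) (hDRP : SpecDRP) : SpecSTP := by
  intro N k t M T hM hk al hc hal hex J hJ hD
  obtain ⟨O, hO, hne, hOc⟩ := hNZP N (k + 1) M T hM (by omega) al hc hal hex
  obtain ⟨ι, hι, U, hU, hUc⟩ := hDRP N t J hJ hD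
  have h1 : volume ({c : Cn N | ∃ x ∈ M, T x ≤ hyp c} ∪ ⋃ i, (U i : Set (Cn N))) = 0 := by
    rw [measure_union_null_iff]
    haveI := Finite.to_countable (α := ι)
    exact ⟨hBER N (k + 1) M T hM, measure_iUnion_null fun i => submodule_null (U i) (hU i)⟩
  obtain ⟨c, hcO, hcn⟩ : ∃ c ∈ O, c ∉ ({c : Cn N | ∃ x ∈ M, T x ≤ hyp c} ∪
      ⋃ i, (U i : Set (Cn N))) := by
    by_contra hcon
    push Not at hcon
    have h2 : 0 < volume O := hO.measure_pos volume hne
    exact absurd (measure_mono_null hcon h1) h2.ne'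
  have h3 : ∀ x ∈ M, ¬ T x ≤ hyp c := fun x hx h => hcn (Or.inl ⟨x, hx, h⟩)
  have h4 : ∀ i, c ∉ U i := fun i h => hcn (Or.inr (Set.mem_iUnion.mpr ⟨i, h⟩))
  exact ⟨c, hCUT N k M T hM c fun x hx _ => h3 x hx, hOc c hcO, (hUc c h4).1, (hUc c h4).2⟩

end Pool.Agent.Lib.MPc9b009.PS
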